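import Pool.Agent.Work.MP_157c12_gt.Basic
import Pool.Agent.Work.MP_157c12_gt.Rot.GStmts

/-!
# Algebraic hypersurfaces of finite type in all dimensions: definitions

`KK m` is the field of Hahn series with exponents in `ℚ ×ₗ (Fin m → ℚ)` and complex coefficients;
the first component of the exponent is the coarse valuation `ww`; `rp m t` is the `t`-th power of
the large element `ρ`, `ths m i` are the (small or large) parameters `θ_i`; `dd m 0` is `ρ ∂/∂ρ`,
`dd m (i + 1)` is `θ_i ∂/∂θ_i` (`dC` the same over the complex numbers).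
-/

set_option autoImplicit false

open MvPolynomial
open scoped Manifold ContDiff

namespace Pool.Agent.Work.MP_157c12_gt.AN

open Pool.Agent.Work.MP_157c12_gt
open Pool.Agent.Work.MP_157c12_gt.Rot (nb lapC lapD Hyp PatchN FTn)

/-! ### polynomials -/

section pol

variable {k : Type} [Field k] {n : ℕ}

/-- the sum of the squares of the variables -/
noncomputable def sq (k : Type) [Field k] (n : ℕ) : MvPolynomial (Fin n) k := ∑ a, X a ^ 2

/-- square of the gradient -/
noncomputable def gq (P : MvPolynomial (Fin n) k) : MvPolynomial (Fin n) k := ∑ a, pderiv a P ^ 2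

/-- leading form -/
noncomputable def tp (P : MvPolynomial (Fin n) k) : MvPolynomial (Fin n) k :=
  homogeneousComponent P.totalDegree P

/-- Euclidean Laplace operator -/
noncomputable def lp (W : MvPolynomial (Fin n) k) : MvPolynomial (Fin n) k :=
  ∑ a, pderiv a (pderiv a W)

/-- inner product of the gradients -/
noncomputable def gi (P W : MvPolynomial (Fin n) k) : MvPolynomial (Fin n) k :=
  ∑ a, pderiv a P * pderiv a W

/-- Hessian of `W` on the gradient of `P` -/
noncomputable def hs (P W : MvPolynomial (Fin n) k) : MvPolynomial (Fin n) k :=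
  ∑ a, ∑ b, pderiv a P * pderiv b P * pderiv a (pderiv b W)

/-- `|grad P| ^ 4` times the Laplace operator of `P = 0` on the restriction of `W` -/
noncomputable def LW (P W : MvPolynomial (Fin n) k) : MvPolynomial (Fin n) k :=
  gq P * (gq P * lp W - hs P W) - gi P W * (gq P * lp P - hs P P)

end pol

/-- `∑ al_l L ^ (k - l) f` -/
noncomputable def pL {R : Type} [CommRing R] [Algebra ℝ R] (k : ℕ) (al : ℕ → ℝ) (L : R → R)
    (f : R) : R :=
  ∑ l ∈ Finset.range (k + 1), algebraMap ℝ R (al l) * L^[k - l] f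

/-- `P` is irreducible, `P = 0` has a nondegenerate metric, and `∑ al_l Δ ^ (k - l) x = 0` holds on
`P = 0`, that is, at every point of `P = 0` with values in a field with the structure of a
hypersurface. -/
structure Good {n : ℕ} (k : ℕ) (al : ℕ → ℝ) (P : MvPolynomial (Fin (n + 1)) ℝ) : Prop where
  irr : Irreducible P
  nd : ¬ P ∣ gq P
  k1 : 1 ≤ k
  a0 : al 0 = 1
  ak : al k ≠ 0
  ft : ∀ (K : Type) [Field K] [Algebra ℝ K] (D : Fin (n + 1) → Derivation ℝ K K)
    (x N : Fin (n + 1) → K), Hyp D x N → aeval x P = 0 → aeval x (gq P) ≠ 0 →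
    ∀ a, pL k al (lapD D) (x a) = 0

/-! ### the field -/

section field

variable (m : ℕ)

/-- exponents of the coefficients -/
abbrev G0 : Type := Lex (Fin m → ℚ)

/-- exponents; the first component is the coarse one -/
abbrev G1 : Type := ℚ ×ₗ G0 m

/-- the field of the coefficients -/
abbrev K0 : Type := Hn (G0 m)

/-- the field -/
abbrev KK : Type := Hn (G1 m)

/-- first component of the exponent -/
def gf : G1 m →+ ℚ where
  toFun := fun g => (ofLex g).1
  map_zero' := rfl
  map_add' := fun _ _ => rfl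

/-- the other components of the exponent -/
def gs (i : Fin m) : G1 m →+ ℚ where
  toFun := fun g => ofLex (ofLex g).2 i
  map_zero' := rfl
  map_add' := fun _ _ => rfl

/-- the components of the exponent of a coefficient -/
def g0 (i : Fin m) : G0 m →+ ℚ where
  toFun := fun g => ofLex g i
  map_zero' := rfl
  map_add' := fun _ _ => rfl

/-- inclusion -/
def inr0 : G0 m →+ G1 m where
  toFun := fun g => toLex (0, g)
  map_zero' := rfl
  map_add' := fun _ _ => by
    apply ofLex.injective
    exact Prod.ext (by simp) rfl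

lemma inr0_inj : Function.Injective (inr0 m) := by
  intro g h hgh
  exact congrArg (fun q : G1 m => (ofLex q).2) hgh

lemma inr0_le (g h : G0 m) : inr0 m g ≤ inr0 m h ↔ g ≤ h := by
  rw [Prod.Lex.le_iff]
  constructor
  · rintro (h1 | h1)
    · exact absurd h1 (lt_irrefl _)
    · exact h1.2
  · intro h1
    exact Or.inr ⟨rfl, h1⟩

/-- the derivations `ρ ∂/∂ρ`, `θ_i ∂/∂θ_i` -/
noncomputable def dC : Fin (m + 1) → Derivation ℂ (KK m) (KK m) :=
  Fin.cons (hd (-((Rat.castHom ℂ).toAddMonoidHom.comp (gf m))))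
    fun i => hd ((Rat.castHom ℂ).toAddMonoidHom.comp (gs m i))

/-- the same over the real numbers -/
noncomputable def dd (i : Fin (m + 1)) : Derivation ℝ (KK m) (KK m) := (dC m i).restrictScalars ℝ

/-- the derivations `θ_i ∂/∂θ_i` of the field of the coefficients -/
noncomputable def d0 (i : Fin m) : Derivation ℂ (K0 m) (K0 m) :=
  hd ((Rat.castHom ℂ).toAddMonoidHom.comp (g0 m i))

/-- inclusion of the field of the coefficients -/
noncomputable def jj : K0 m →ₐ[ℂ] KK m :=
  HahnSeries.embDomainAlgHom (inr0 m) (inr0_inj m) (inr0_le m)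

/-- `ρ ^ t` -/
noncomputable def rp (t : ℚ) : KK m := HahnSeries.single (toLex (-t, 0) : G1 m) 1

/-- the parameters -/
noncomputable def ths (i : Fin m) : K0 m := HahnSeries.single (toLex (Pi.single i 1) : G0 m) 1

lemma gf_mono : Monotone (gf m) := by
  intro g h hgh
  rcases (Prod.Lex.le_iff).mp hgh with h1 | h1
  · exact h1.le
  · exact h1.1.le

/-- the coarse valuation -/
noncomputable def ww : AddValuation (KK m) (WithTop ℚ) :=
  (vv (G1 m)).map (gf m).withTopMap (by simp) (WithTop.monotone_map_iff.mpr (gf_mono m))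

end field

/-! ### points over the cone of a factor of the leading form -/

/-- `(1, θ)` -/
noncomputable def ct (m : ℕ) : Fin (m + 1) → K0 m := Fin.cons 1 (ths m)

/-- the point `(1, θ)` with the coordinate `φ` inserted at `c` -/
noncomputable def cp {m : ℕ} (c : Fin (m + 2)) (φ : K0 m) : Fin (m + 2) → K0 m :=
  Fin.insertNth (α := fun _ => K0 m) c φ (ct m)

/-- the point `ρ (1, θ)` with the coordinate `ρ ψ` inserted at `c` -/
noncomputable def cP {m : ℕ} (c : Fin (m + 2)) (ψ : KK m) : Fin (m + 2) → KK m :=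
  Fin.insertNth (α := fun _ => KK m) c (rp m 1 * ψ) fun i => rp m 1 * jj m (ct m i)

/-! ### points over the absolute quadric -/

/-- the point with the null coordinates `(ξ, η)` and the coordinates `y` -/
noncomputable def nu {R : Type} [CommRing R] [Algebra ℂ R] {m : ℕ} (ξ η : R) (y : Fin m → R) :
    Fin (m + 2) → R :=
  Fin.cons (algebraMap ℂ R (1 / 2) * (ξ + η))
    (Fin.cons (algebraMap ℂ R (1 / (2 * Complex.I)) * (ξ - η)) y)

/-- `∑ θ_i ^ 2` -/
noncomputable def th2 (m : ℕ) : K0 m := ∑ i, ths m i ^ 2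

/-- the point with the sum of squares `f` -/
noncomputable def pt {m : ℕ} (f : KK m) : Fin (m + 2) → KK m :=
  nu (f * rp m (-1) - rp m 1 * jj m (th2 m)) (rp m 1) fun i => rp m 1 * jj m (ths m i)

/-- `ρ θ_i` -/
noncomputable def rt (m : ℕ) (i : Fin m) : KK m := rp m 1 * jj m (ths m i)

/-- the determinant of the metric at `pt f`, up to the factor `∏ (ρ θ_i) ^ 2` -/
noncomputable def EE {m : ℕ} (f : KK m) : KK m :=
  dd m 0 f - f - ∑ i : Fin m, dd m i.succ f ^ 2 / (4 * rt m i ^ 2)

/-- the metric at `pt f` -/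
noncomputable def GM {m : ℕ} (f : KK m) : Matrix (Fin (m + 1)) (Fin (m + 1)) (KK m) :=
  Matrix.of (Fin.cons (Fin.cons (dd m 0 f - f) fun j : Fin m => dd m j.succ f / 2)
    fun i : Fin m => Fin.cons (dd m i.succ f / 2) fun j : Fin m =>
      if i = j then rt m i ^ 2 else 0)

/-- the inverse of the metric at `pt f` -/
noncomputable def GI {m : ℕ} (f : KK m) : Matrix (Fin (m + 1)) (Fin (m + 1)) (KK m) :=
  Matrix.of (Fin.cons (Fin.cons (EE f)⁻¹ fun j : Fin m => -(dd m j.succ f) / (2 * rt m j ^ 2 * EE f))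
    fun i : Fin m => Fin.cons (-(dd m i.succ f) / (2 * rt m i ^ 2 * EE f)) fun j : Fin m =>
      (if i = j then (rt m i ^ 2)⁻¹ else 0) +
        dd m i.succ f * dd m j.succ f / (4 * rt m i ^ 2 * rt m j ^ 2 * EE f))

/-- the Laplace operator at `pt f` -/
noncomputable def Lf {m : ℕ} (f W : KK m) : KK m → KK m := lapC (dd m) (GI f) W W⁻¹

/-- `pt f` is a point of a hypersurface of finite type -/
structure NData {m : ℕ} (k : ℕ) (al : ℕ → ℝ) (f W : KK m) : Prop where
  k1 : 1 ≤ k
  a0 : al 0 = 1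
  ak : al k ≠ 0
  e : EE f ≠ 0
  w : W ^ 2 = (∏ i, rt m i ^ 2) * EE f
  fx : pL k al (Lf f W) (f * rp m (-1) - rp m 1 * jj m (th2 m)) = 0
  fe : pL k al (Lf f W) (rp m 1) = 0
  fy : ∀ i, pL k al (Lf f W) (rt m i) = 0

/-- the polynomial `W(nu (s - |θ| ^ 2, 1, θ))` in `s` -/
noncomputable def bb {m : ℕ} (W : MvPolynomial (Fin (m + 2)) ℂ) : Polynomial (K0 m) :=
  aeval (nu (Polynomial.X - Polynomial.C (th2 m)) 1 fun i => Polynomial.C (ths m i)) W

/-- the operator `W⁻¹ ρ∂_ρ (W E⁻¹ ρ∂_ρ)` -/
noncomputable def Tf {m : ℕ} (f W g : KK m) : KK m := W⁻¹ * dd m 0 (W * ((EE f)⁻¹ * dd m 0 g))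

/-- the operator `σ` of the neutral case: `-(1 / (2 ε)) ((m + 1) ∂κ · ∂φ + (∑ ∂_i ^ 2 κ) φ)` -/
noncomputable def sg {m : ℕ} (ε : ℂ) (κ φ : K0 m) : K0 m :=
  algebraMap ℂ (K0 m) (-1 / (2 * ε)) * ∑ i : Fin m, (ths m i ^ 2)⁻¹ *
    ((m + 1) * (d0 m i κ * d0 m i φ) + (d0 m i (d0 m i κ) - d0 m i κ) * φ)

/-- a real polynomial as a complex polynomial -/
noncomputable def cx {n : ℕ} (P : MvPolynomial (Fin n) ℝ) : MvPolynomial (Fin n) ℂ :=
  MvPolynomial.map (algebraMap ℝ ℂ) P

end Pool.Agent.Work.MP_157c12_gt.AN
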