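import Pool.Agent.Work.MP_157c12_gt.AN.Stmts

/-!
# Item ALG: the algebraic main theorem
-/

set_option autoImplicit false

open MvPolynomial
open scoped Manifold ContDiff

namespace Pool.Agent.Work.MP_157c12_gt.AN

open Pool.Agent.Work.MP_157c12_gt

namespace I_ALG

/-- an irreducible polynomial has positive degree -/
lemma deg_pos {k : Type} [Field k] {n : ℕ} {P : MvPolynomial (Fin n) k} (hP : Irreducible P) :
    1 ≤ P.totalDegree := by
  by_contra h
  have h0 : P.totalDegree = 0 := by omega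
  rw [totalDegree_eq_zero_iff_eq_C] at h0
  have hc : coeff 0 P ≠ 0 := by
    intro h1
    rw [h1, C_0] at h0
    exact hP.ne_zero h0
  apply hP.not_isUnit
  rw [h0]
  exact (IsUnit.mk0 _ hc).map C

end I_ALG

theorem ALG_pf (hCON : S_CON) (hTOP : S_TOP) (hNEW : S_NEW) (hNDA : S_NDA) (hNUL : S_NUL)
    (hPOL : S_POL) : S_ALG := by
  intro m k al P hm hG hR
  obtain ⟨c, μ, hc, hμ, hT⟩ := hTOP m P (I_ALG.deg_pos hG.irr)
    (fun R hRi hRd => hR R hRi hRd (hCON m k al P hG R hRi hRd))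
  apply hPOL m P hm
  intro e j hj
  by_contra hne
  obtain ⟨f, hf, h1, h2⟩ := hNEW m μ c P hc hμ hT e j hj hne
  obtain ⟨W, hW⟩ := hNDA m k al P f hG hf
  exact hNUL m k al f W hW h1 h2

end Pool.Agent.Work.MP_157c12_gt.AN
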