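import Pool.Agent.Work.MP_157c12_gt.AN.Stmts

/-!
# Item BBE

Values of forms at the points over the absolute quadric.
-/

set_option autoImplicit false

open MvPolynomial

namespace Pool.Agent.Work.MP_157c12_gt.AN

open Pool.Agent.Work.MP_157c12_gt

namespace I_BBE

lemma scale {R : Type} [CommRing R] [Algebra ℂ R] {n e : ℕ} (W : MvPolynomial (Fin n) ℂ)
    (hW : W.IsHomogeneous e) (c : R) (q : Fin n → R) :
    aeval (fun a => c * q a) W = c ^ e * aeval q W := by
  rw [W.as_sum, map_sum, map_sum, Finset.mul_sum]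
  refine Finset.sum_congr rfl fun s hs => ?_
  rw [aeval_monomial, aeval_monomial]
  have hd : s.degree = e := by
    have h1 := hW (mem_support_iff.mp hs)
    rw [Finsupp.weight_apply] at h1
    simpa [Finsupp.degree, Finsupp.sum] using h1
  have h2 : (s.prod fun i j => (c * q i) ^ j) = c ^ e * s.prod fun i j => q i ^ j := by
    simp only [Finsupp.prod, mul_pow, Finset.prod_mul_distrib, Finset.prod_pow_eq_pow_sum]
    rw [← hd]
    rfl
  rw [h2]
  ring

lemma rp_pow {m : ℕ} (e : ℕ) : rp m 1 ^ e = rp m e := by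
  induction e with
  | zero => rw [pow_zero, Nat.cast_zero, rp_zero]
  | succ e ih =>
    rw [pow_succ, ih, rp_mul]
    push_cast
    rfl

lemma pt_eq {m : ℕ} (f : KK m) : pt f = fun a => rp m 1 *
    nu (f * rp m (-2) - jj m (th2 m)) 1 (fun i => jj m (ths m i)) a := by
  have h1 : f * rp m (-1) = rp m 1 * (f * rp m (-2)) := by
    have h2 : rp m 1 * rp m (-2) = rp m (-1) := by
      rw [rp_mul]
      norm_num
    rw [← h2]
    ring
  funext a
  unfold pt nu
  rw [h1]
  refine Fin.cases ?_ (fun a => ?_) a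
  · rw [Fin.cons_zero, Fin.cons_zero]
    ring
  · rw [Fin.cons_succ, Fin.cons_succ]
    refine Fin.cases ?_ (fun a => ?_) a
    · rw [Fin.cons_zero, Fin.cons_zero]
      ring
    · rw [Fin.cons_succ, Fin.cons_succ]

/-- the evaluation -/
noncomputable def ev {m : ℕ} (s : KK m) : Polynomial (K0 m) →ₐ[ℂ] KK m :=
  { Polynomial.eval₂RingHom (jj m).toRingHom s with
    commutes' := fun c => by
      have h1 : algebraMap ℂ (Polynomial (K0 m)) c = Polynomial.C (algebraMap ℂ (K0 m) c) := rfl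
      change Polynomial.eval₂ (jj m).toRingHom s (algebraMap ℂ (Polynomial (K0 m)) c) = _
      rw [h1, Polynomial.eval₂_C]
      exact jj_algebraMap c }

lemma ev_apply {m : ℕ} (s : KK m) (F : Polynomial (K0 m)) :
    ev s F = (F.map (jj m).toRingHom).eval s := by
  rw [Polynomial.eval_map]
  rfl

lemma ev_X {m : ℕ} (s : KK m) : ev s Polynomial.X = s := by
  rw [ev_apply, Polynomial.map_X, Polynomial.eval_X]

lemma ev_C {m : ℕ} (s : KK m) (a : K0 m) : ev s (Polynomial.C a) = jj m a := by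
  rw [ev_apply, Polynomial.map_C, Polynomial.eval_C]
  rfl

lemma ev_sub {m : ℕ} (s : KK m) :
    ev s (Polynomial.X - Polynomial.C (th2 m)) = s - jj m (th2 m) := by
  have h1 := map_sub (ev s) Polynomial.X (Polynomial.C (th2 m))
  rw [ev_X, ev_C] at h1
  exact h1

lemma ev_nu {m : ℕ} (s : KK m) (a : Fin (m + 2)) :
    ev s (nu (Polynomial.X - Polynomial.C (th2 m)) 1 (fun i => Polynomial.C (ths m i)) a) =
    nu (s - jj m (th2 m)) 1 (fun i => jj m (ths m i)) a := by
  unfold nu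
  refine Fin.cases ?_ (fun a => ?_) a
  · rw [Fin.cons_zero, Fin.cons_zero, map_mul, AlgHom.commutes, map_add, ev_sub, map_one]
  · rw [Fin.cons_succ, Fin.cons_succ]
    refine Fin.cases ?_ (fun a => ?_) a
    · rw [Fin.cons_zero, Fin.cons_zero, map_mul, AlgHom.commutes, map_sub, ev_sub, map_one]
    · rw [Fin.cons_succ, Fin.cons_succ, ev_C]

lemma bb_ev {m : ℕ} (s : KK m) (W : MvPolynomial (Fin (m + 2)) ℂ) :
    ev s (bb W) = aeval (nu (s - jj m (th2 m)) 1 (fun i => jj m (ths m i))) W := by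
  have h1 : (ev s).comp (aeval (nu (Polynomial.X - Polynomial.C (th2 m)) 1
      fun i => Polynomial.C (ths m i))) =
      aeval (nu (s - jj m (th2 m)) 1 (fun i => jj m (ths m i))) := by
    refine MvPolynomial.algHom_ext fun a => ?_
    rw [AlgHom.comp_apply, aeval_X, aeval_X, ev_nu]
  exact congrArg (fun F : MvPolynomial (Fin (m + 2)) ℂ →ₐ[ℂ] KK m => F W) h1

lemma sum_sq {R : Type} [CommRing R] [Algebra ℂ R] {m : ℕ} (ξ η : R) (y : Fin m → R) :
    ∑ a, nu ξ η y a ^ 2 = ξ * η + ∑ i, y i ^ 2 := by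
  rw [Fin.sum_univ_succ, Fin.sum_univ_succ]
  unfold nu
  simp only [Fin.cons_zero, Fin.cons_succ]
  have h1 : algebraMap ℂ R (1 / (2 * Complex.I)) ^ 2 = -algebraMap ℂ R (1 / 4) := by
    rw [← map_pow, ← map_neg]
    congr 1
    rw [div_pow, mul_pow, Complex.I_sq]
    norm_num
  have h2 : algebraMap ℂ R (1 / 2) ^ 2 = algebraMap ℂ R (1 / 4) := by
    rw [← map_pow]
    congr 1
    norm_num
  have h3 : 4 * algebraMap ℂ R (1 / 4) = 1 := by
    have h4 : (4 : R) = algebraMap ℂ R 4 := (map_ofNat (algebraMap ℂ R) 4).symm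
    rw [h4, ← map_mul]
    norm_num
  rw [← add_assoc]
  congr 1
  linear_combination (ξ + η) ^ 2 * h2 + (ξ - η) ^ 2 * h1 + ξ * η * h3

lemma bb_sq (m : ℕ) : bb (sq ℂ (m + 2)) = (Polynomial.X : Polynomial (K0 m)) := by
  unfold bb sq
  rw [map_sum]
  simp only [map_pow, aeval_X]
  rw [sum_sq, mul_one]
  have h1 : (∑ i : Fin m, Polynomial.C (ths m i) ^ 2) = Polynomial.C (th2 m) := by
    unfold th2
    rw [map_sum]
    refine Finset.sum_congr rfl fun i _ => ?_
    rw [map_pow]
  rw [h1]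
  exact sub_add_cancel (Polynomial.X : Polynomial (K0 m)) (Polynomial.C (th2 m))

end I_BBE

theorem BBE_pf : S_BBE := by
  intro m e f W hW
  refine ⟨?_, I_BBE.bb_sq m⟩
  rw [I_BBE.pt_eq, I_BBE.scale W hW, I_BBE.rp_pow, ← I_BBE.bb_ev, I_BBE.ev_apply]

end Pool.Agent.Work.MP_157c12_gt.AN
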