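import Pool.Agent.Work.MP_157c12_gt.AN.I_BBE

/-!
# Item CGE
-/

set_option autoImplicit false

open MvPolynomial

namespace Pool.Agent.Work.MP_157c12_gt.AN

open Pool.Agent.Work.MP_157c12_gt

namespace I_CGE

lemma cP_jj {m : ℕ} (c : Fin (m + 2)) (φ : K0 m) :
    cP c (jj m φ) = fun a => rp m 1 * jj m (cp c φ a) := by
  funext a
  refine Fin.succAboveCases c ?_ (fun i => ?_) a
  · simp [cP, cp]
  · simp [cP, cp]

end I_CGE

open I_CGE in
theorem CGE_pf (hGEN : S_GEN) (hCLI : S_CLI) : S_CGE := by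
  intro m e d c φ R W hR hRe hR0 hW hW0
  have key : ∀ (V : MvPolynomial (Fin (m + 2)) ℂ) (j : ℕ), V.IsHomogeneous j →
      aeval (cp c φ) V = 0 → aeval (cP c (jj m φ)) V = 0 := by
    intro V j hV h0
    rw [cP_jj, I_BBE.scale V hV]
    have : aeval (fun a => jj m (cp c φ a)) V = jj m (aeval (cp c φ) V) := by
      rw [MvPolynomial.comp_aeval_apply]
    rw [this, h0, map_zero, mul_zero]
  exact hGEN ℂ (KK m) (m + 1) (dC m) (cP c (jj m φ)) R W ((hCLI m c).1 (jj m φ)) hR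
    (key R e hRe hR0) (key W d hW hW0)

end Pool.Agent.Work.MP_157c12_gt.AN
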