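import Pool.Agent.Work.MP_157c12_gt.AN.Stmts

set_option autoImplicit false

open MvPolynomial

namespace Pool.Agent.Work.MP_157c12_gt.AN

namespace I_CHO

/-- an irreducible polynomial has a non-zero partial derivative -/
theorem exists_pderiv_ne {n : ℕ} (R : MvPolynomial (Fin n) ℂ) (hR : Irreducible R) :
    ∃ c, pderiv c R ≠ 0 := by
  classical
  by_contra hcon
  push Not at hcon
  have hC : R = C (coeff 0 R) := by
    ext s
    rw [coeff_C]
    by_cases hs : s = 0
    · subst hs
      simp
    · rw [if_neg (Ne.symm hs)]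
      obtain ⟨i, hi⟩ : ∃ i, s i ≠ 0 := by
        by_contra h
        push Not at h
        exact hs (Finsupp.ext h)
      have h1 := congrArg (coeff (s - Finsupp.single i 1)) (hcon i)
      rw [MvPolynomial.coeff_pderiv] at h1
      have h2 : s - Finsupp.single i 1 + Finsupp.single i 1 = s := by
        apply tsub_add_cancel_of_le
        rw [Finsupp.single_le_iff]
        omega
      rw [h2, coeff_zero] at h1
      rcases mul_eq_zero.1 h1 with h3 | h3
      · exact h3
      · exfalso
        exact absurd h3 (Nat.cast_add_one_ne_zero _)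
  by_cases h0 : coeff 0 R = 0
  · rw [h0, C_0] at hC
    exact hR.ne_zero hC
  · apply hR.not_isUnit
    rw [hC]
    exact (Ne.isUnit h0).map C

end I_CHO

open I_CHO in
theorem CHO_pf (h1 : S_TAU) (h2 : S_NZT) : S_CHO := by
  intro m e R hR hh
  obtain ⟨c, hc⟩ := exists_pderiv_ne R hR
  have hd : 1 ≤ (tau c R).natDegree := (h1 ℂ (m + 1) c).2.2 R hc
  have hne : (tau c R).coeff (tau c R).natDegree ≠ 0 := by
    intro h
    have h3 : tau c R = 0 := Polynomial.leadingCoeff_eq_zero.1 h
    rw [h3, Polynomial.natDegree_zero] at hd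
    exact absurd hd (by norm_num)
  have h4 := h2 m e c R hh _ hne
  set Q : Polynomial (K0 m) := aeval (Fin.insertNth (α := fun _ => Polynomial (K0 m)) c
    Polynomial.X fun i => Polynomial.C (ct m i)) R with hQ
  have hdeg : Q.degree ≠ 0 := by
    intro h
    have h5 : Q.natDegree = 0 := Polynomial.natDegree_eq_of_degree_eq_some h
    apply h4
    apply Polynomial.coeff_eq_zero_of_natDegree_lt
    rw [h5]
    exact hd
  obtain ⟨φ, hφ⟩ := IsAlgClosed.exists_root Q hdeg
  refine ⟨c, φ, ?_⟩
  have h6 : (Polynomial.aeval φ).restrictScalars ℂ Q = 0 := hφ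
  rw [← h6, hQ]
  have h7 : ((Polynomial.aeval φ).restrictScalars ℂ : Polynomial (K0 m) →ₐ[ℂ] K0 m)
      (aeval (Fin.insertNth (α := fun _ => Polynomial (K0 m)) c
        Polynomial.X fun i => Polynomial.C (ct m i)) R) =
      aeval (fun a => ((Polynomial.aeval φ).restrictScalars ℂ : Polynomial (K0 m) →ₐ[ℂ] K0 m)
        (Fin.insertNth (α := fun _ => Polynomial (K0 m)) c
        Polynomial.X (fun i => Polynomial.C (ct m i)) a)) R := by
    rw [← AlgHom.comp_apply, MvPolynomial.comp_aeval]
  rw [h7]
  congr 2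
  funext a
  refine Fin.succAboveCases c ?_ ?_ a
  · simp [cp]
  · intro i
    simp [cp]

end Pool.Agent.Work.MP_157c12_gt.AN
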