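import Pool.Agent.Work.MP_157c12_gt.AN.Stmts

/-!
# Independence of the tangent vectors over the cone
-/

set_option autoImplicit false

open MvPolynomial

namespace Pool.Agent.Work.MP_157c12_gt.AN

open Pool.Agent.Work.MP_157c12_gt

namespace I_CLI

/-- triangular systems -/
lemma tri {K : Type} [Field K] {m : ℕ} (c : Fin (m + 2)) (v : Fin (m + 1) → Fin (m + 2) → K)
    (t : Fin m → K) (h0 : v 0 (c.succAbove 0) ≠ 0) (ht : ∀ j, t j ≠ 0)
    (h1 : ∀ i : Fin m, v i.succ (c.succAbove 0) = 0)
    (h2 : ∀ i j : Fin m, v i.succ (c.succAbove j.succ) = if i = j then t j else 0) :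
    LinearIndependent K v := by
  rw [Fintype.linearIndependent_iff]
  intro g hg
  have e0 : g 0 = 0 := by
    have h := congrFun hg (c.succAbove 0)
    rw [Finset.sum_apply, Fin.sum_univ_succ] at h
    simp only [Pi.smul_apply, smul_eq_mul, h1, mul_zero, Finset.sum_const_zero, add_zero,
      Pi.zero_apply] at h
    exact (mul_eq_zero.mp h).resolve_right h0
  intro i
  refine Fin.cases e0 (fun j => ?_) i
  have h := congrFun hg (c.succAbove j.succ)
  rw [Finset.sum_apply, Fin.sum_univ_succ] at h
  simp only [Pi.smul_apply, smul_eq_mul, e0, zero_mul, zero_add, h2, mul_ite, mul_zero,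
    Finset.sum_ite_eq', Finset.mem_univ, if_true, Pi.zero_apply] at h
  exact (mul_eq_zero.mp h).resolve_right (ht j)

lemma dd_zero_mul {m : ℕ} (a : K0 m) : dd m 0 (rp m 1 * jj m a) = rp m 1 * jj m a := by
  rw [Derivation.leibniz, dd_zero_jj, dd_zero_rp, smul_zero, zero_add]
  simp [mul_comm]

lemma dd_succ_mul {m : ℕ} (i : Fin m) (a : K0 m) :
    dd m i.succ (rp m 1 * jj m a) = rp m 1 * jj m (d0 m i a) := by
  rw [Derivation.leibniz, dd_succ_jj, dd_succ_rp, smul_zero, add_zero, smul_eq_mul]

end I_CLI

theorem CLI_pf : S_CLI := by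
  intro m c
  constructor
  · intro ψ
    have key : ∀ j : Fin (m + 1), cP c ψ (c.succAbove j) = rp m 1 * jj m (ct m j) := by
      intro j
      rw [cP, Fin.insertNth_apply_succAbove]
    refine I_CLI.tri c _ (fun j => rp m 1 * jj m (ths m j)) ?_ ?_ ?_ ?_
    · show dd m 0 (cP c ψ (c.succAbove 0)) ≠ 0
      rw [key, I_CLI.dd_zero_mul]
      have : ct m 0 = 1 := rfl
      rw [this, map_one, mul_one]
      exact rp_ne 1
    · intro j
      exact rt_ne j
    · intro i
      show dd m i.succ (cP c ψ (c.succAbove 0)) = 0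
      rw [key, I_CLI.dd_succ_mul]
      have : ct m 0 = 1 := rfl
      rw [this, Derivation.map_one_eq_zero, map_zero, mul_zero]
    · intro i j
      show dd m i.succ (cP c ψ (c.succAbove j.succ)) = _
      rw [key, I_CLI.dd_succ_mul]
      have : ct m j.succ = ths m j := rfl
      rw [this, d0_ths]
      split_ifs
      · rfl
      · rw [map_zero, mul_zero]
  · intro φ
    have key : ∀ j : Fin (m + 1), cp c φ (c.succAbove j) = ct m j := by
      intro j
      rw [cp, Fin.insertNth_apply_succAbove]
    refine I_CLI.tri c _ (ths m) ?_ ths_ne ?_ ?_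
    · show cp c φ (c.succAbove 0) ≠ 0
      rw [key]
      exact one_ne_zero
    · intro i
      show d0 m i (cp c φ (c.succAbove 0)) = 0
      rw [key]
      have : ct m 0 = 1 := rfl
      rw [this, Derivation.map_one_eq_zero]
    · intro i j
      show d0 m i (cp c φ (c.succAbove j.succ)) = _
      rw [key]
      have : ct m j.succ = ths m j := rfl
      rw [this, d0_ths]

end Pool.Agent.Work.MP_157c12_gt.AN
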