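import Pool.Agent.Work.MP_157c12_gt.AN.Stmts

set_option autoImplicit false

open MvPolynomial
open scoped Manifold ContDiff

namespace Pool.Agent.Work.MP_157c12_gt.AN

open Pool.Agent.Work.MP_157c12_gt
open Pool.Agent.Work.MP_157c12_gt.Rot (nb lapC lapD Hyp PatchN FTn)

namespace I_CON

/-- chain rule -/
lemma d_aeval {k A : Type} [Field k] [CommRing A] [Algebra k A] {n : ℕ} (D : Derivation k A A)
    (x : Fin n → A) (W : MvPolynomial (Fin n) k) :
    D (aeval x W) = ∑ a, aeval x (pderiv a W) * D (x a) := by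
  induction W using MvPolynomial.induction_on with
  | C c =>
    rw [aeval_C, Derivation.map_algebraMap]
    refine (Finset.sum_eq_zero fun a _ => ?_).symm
    rw [pderiv_C, map_zero, zero_mul]
  | add p q hp hq =>
    rw [map_add, map_add, hp, hq, ← Finset.sum_add_distrib]
    refine Finset.sum_congr rfl fun a _ => ?_
    rw [map_add, map_add, add_mul]
  | mul_X p i hp =>
    rw [map_mul, aeval_X, Derivation.leibniz, hp]
    have h1 : ∀ a, aeval x (pderiv a (p * X i)) * D (x a) =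
        aeval x (pderiv a p) * D (x a) * x i + (if a = i then aeval x p * D (x a) else 0) := by
      intro a
      rw [Derivation.leibniz, pderiv_X, smul_eq_mul, smul_eq_mul, map_add, map_mul, map_mul,
        aeval_X]
      by_cases h : a = i
      · subst h
        rw [Pi.single_eq_same, map_one, if_pos rfl]
        ring
      · rw [Pi.single_eq_of_ne' h, map_zero, if_neg h]
        ring
    rw [Finset.sum_congr rfl fun a _ => h1 a, Finset.sum_add_distrib, Finset.sum_ite_eq']
    simp only [Finset.mem_univ, if_true, smul_eq_mul]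
    rw [← Finset.sum_mul]
    ring

/-- the leading form is not zero -/
lemma tp_ne {n : ℕ} {P : MvPolynomial (Fin n) ℝ} (h : P ≠ 0) : tp P ≠ 0 := by
  obtain ⟨d, hd, hd2⟩ := Finset.exists_mem_eq_sup P.support
    (MvPolynomial.support_nonempty.mpr h) (fun s => s.sum fun _ e => e)
  intro h0
  have h1 : coeff d (tp P) = 0 := by rw [h0, coeff_zero]
  have h2 : d.degree = P.totalDegree := by
    rw [MvPolynomial.totalDegree, hd2]
    rfl
  rw [tp, coeff_homogeneousComponent, if_pos h2] at h1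
  exact (mem_support_iff.mp hd) h1

lemma cx_hom {n d : ℕ} {P : MvPolynomial (Fin n) ℝ} (h : P.IsHomogeneous d) :
    (cx P).IsHomogeneous d := by
  rw [cx]
  exact h.map _

lemma cx_ne {n : ℕ} {P : MvPolynomial (Fin n) ℝ} (h : P ≠ 0) : cx P ≠ 0 := by
  intro h0
  apply h
  rw [cx] at h0
  exact (MvPolynomial.map_injective _ (algebraMap ℝ ℂ).injective) (by rw [h0, map_zero])

lemma cx_aeval {n m : ℕ} (z : Fin n → K0 m) (P : MvPolynomial (Fin n) ℝ) :
    aeval z (cx P) = aeval z P := by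
  rw [cx]
  exact MvPolynomial.aeval_map_algebraMap ℂ z P

end I_CON

open I_CON in
theorem CON_pf (hHOM : S_HOM) (hCHO : S_CHO) (hCPT : S_CPT) (hCGE : S_CGE) (hCLI : S_CLI)
    (hCME : S_CME) (hFTK : S_FTK) (hDEC : S_DEC) : S_CON := by
  intro m k al P hG R hR hdvd
  by_contra hnd
  have hP0 : P ≠ 0 := hG.irr.ne_zero
  have htp0 : tp P ≠ 0 := tp_ne hP0
  have hth : (tp P).IsHomogeneous P.totalDegree := homogeneousComponent_isHomogeneous _ _
  obtain ⟨e, he⟩ := hHOM ℂ (m + 2) R (cx (tp P)) P.totalDegree (cx_ne htp0) (cx_hom hth) hdvd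
  obtain ⟨c, φ, hφ⟩ := hCHO m e R hR he
  have htz : aeval (cp c φ) (tp P) = 0 := by
    rw [← cx_aeval]
    obtain ⟨Q, hQ⟩ := hdvd
    rw [hQ, map_mul, hφ, zero_mul]
  obtain ⟨ψ, hψ, hPψ⟩ := hCPT m c φ P hP0 htz
  have h1 : ∑ a, aeval (cp c φ) (pderiv a R) * cp c φ a = 0 := by
    have h := congrArg (aeval (cp c φ)) he.sum_X_mul_pderiv
    rw [map_sum, map_nsmul, hφ, smul_zero] at h
    rw [← h]
    refine Finset.sum_congr rfl fun a _ => ?_
    rw [map_mul, aeval_X, mul_comm]
  have h2 : ∀ i, ∑ a, aeval (cp c φ) (pderiv a R) * d0 m i (cp c φ a) = 0 := by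
    intro i
    rw [← d_aeval, hφ, map_zero]
  have h3 : ∑ a, aeval (cp c φ) (pderiv a R) ^ 2 ≠ 0 := by
    intro h
    apply hnd
    have hg : (gq R).IsHomogeneous ((e - 1) * 2) := by
      rw [gq]
      exact IsHomogeneous.sum _ _ _ fun a _ => (he.pderiv (i := a)).pow 2
    refine hCGE m e ((e - 1) * 2) c φ R (gq R) hR he hφ hg ?_
    rw [gq, map_sum, ← h]
    exact Finset.sum_congr rfl fun a _ => by rw [map_pow]
  have h4 := hCME m c φ ψ (fun a => aeval (cp c φ) (pderiv a R)) hψ h1 h2 h3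
  obtain ⟨h5, h6⟩ := hFTK (m + 1) k al P hG (KK m) (dd m) (cP c ψ) dd_comm ((hCLI m c).1 ψ) hPψ
  obtain ⟨W, hW⟩ := IsAlgClosed.exists_pow_nat_eq (Rot.gm (dd m) (cP c ψ)).det (n := 2) two_pos
  have hW0 : W ≠ 0 := by
    intro h0
    apply h5
    rw [← hW, h0]
    ring
  have h7 := h6 W hW (c.succAbove 0)
  refine hDEC m k al _ W _ hW0 h4 hG.ak ?_ h7
  rw [cP, Fin.insertNth_apply_succAbove]
  refine mul_ne_zero (rp_ne 1) (jj_ne ?_)
  rw [ct, Fin.cons_zero]
  exact one_ne_zero

end Pool.Agent.Work.MP_157c12_gt.AN
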