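import Pool.Agent.Work.MP_157c12_gt.AN.Stmts

set_option autoImplicit false

open MvPolynomial

namespace Pool.Agent.Work.MP_157c12_gt.AN

open Pool.Agent.Work.MP_157c12_gt

namespace I_CPT

variable {m : ℕ}

/-- values of forms at multiples -/
lemma form_smul {k R : Type} [Field k] [CommRing R] [Algebra k R] {n e : ℕ}
    {W : MvPolynomial (Fin n) k} (hW : W.IsHomogeneous e) (s : R) (x : Fin n → R) :
    aeval (fun a => s * x a) W = s ^ e * aeval x W := by
  rw [aeval_def, aeval_def, eval₂_eq', eval₂_eq', Finset.mul_sum]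
  refine Finset.sum_congr rfl fun d hd => ?_
  have h1 : ∏ i, (s * x i) ^ d i = s ^ e * ∏ i, x i ^ d i := by
    simp_rw [mul_pow]
    rw [Finset.prod_mul_distrib, Finset.prod_pow_eq_pow_sum]
    congr 2
    have h2 := hW.degree_eq_sum_deg_support hd
    rw [h2]
    exact (Finset.sum_subset (Finset.subset_univ _) fun i _ hi =>
      Finsupp.notMem_support_iff.mp hi).symm
  rw [h1]
  ring

lemma tp_ne {n : ℕ} {P : MvPolynomial (Fin n) ℝ} (hP : P ≠ 0) : tp P ≠ 0 := by
  intro h
  have hs : P.support.Nonempty := by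
    rwa [Finset.nonempty_iff_ne_empty, Ne, support_eq_empty]
  obtain ⟨d, hd, h1⟩ := Finset.exists_mem_eq_sup P.support hs (fun s => s.sum fun _ e => e)
  have h2 : coeff d (tp P) = coeff d P := by
    rw [tp, coeff_homogeneousComponent, if_pos]
    rw [totalDegree, h1]
    rfl
  rw [h, coeff_zero] at h2
  exact (mem_support_iff.mp hd) h2.symm

lemma rp_pow (t : ℚ) (n : ℕ) : rp m t ^ n = rp m (n * t) := by
  induction n with
  | zero => simp [rp_zero]
  | succ n ih =>
    rw [pow_succ, ih, rp_mul]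
    congr 1
    push_cast
    ring

/-- the polynomial `W(cp c T)` -/
noncomputable def qq (m : ℕ) (c : Fin (m + 2)) (W : MvPolynomial (Fin (m + 2)) ℝ) :
    Polynomial (K0 m) :=
  aeval (Fin.insertNth (α := fun _ => Polynomial (K0 m)) c Polynomial.X
    fun i => Polynomial.C (ct m i)) W

lemma qq_cx (c : Fin (m + 2)) (W : MvPolynomial (Fin (m + 2)) ℝ) :
    qq m c W = aeval (Fin.insertNth (α := fun _ => Polynomial (K0 m)) c Polynomial.X
      fun i => Polynomial.C (ct m i)) (cx W) := by
  rw [qq, cx, aeval_map_algebraMap]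

/-- value of `W(cp c T)` -/
lemma qq_map_eval (c : Fin (m + 2)) (W : MvPolynomial (Fin (m + 2)) ℝ) (ψ : KK m) :
    ((qq m c W).map (jj m).toRingHom).eval ψ =
      aeval (Fin.insertNth (α := fun _ => KK m) c ψ fun i => jj m (ct m i)) W := by
  rw [qq]
  have h : ∀ W : MvPolynomial (Fin (m + 2)) ℝ,
      (Polynomial.eval₂RingHom (jj m).toRingHom ψ)
        (aeval (Fin.insertNth (α := fun _ => Polynomial (K0 m)) c Polynomial.X
          fun i => Polynomial.C (ct m i)) W) =
      aeval (Fin.insertNth (α := fun _ => KK m) c ψ fun i => jj m (ct m i)) W := by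
    intro W
    induction W using MvPolynomial.induction_on with
    | C r =>
      rw [← algebraMap_eq, AlgHom.commutes, AlgHom.commutes]
      have : (algebraMap ℝ (Polynomial (K0 m))) r = Polynomial.C (algebraMap ℝ (K0 m) r) := rfl
      rw [this]
      show Polynomial.eval₂ _ _ (Polynomial.C _) = _
      rw [Polynomial.eval₂_C]
      show jj m (algebraMap ℂ (K0 m) (r : ℂ)) = _
      rw [jj_algebraMap]
      rfl
    | add p q hp hq => rw [map_add, map_add, map_add, hp, hq]
    | mul_X p i hp =>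
      rw [map_mul, map_mul, map_mul, hp, aeval_X, aeval_X]
      congr 1
      show Polynomial.eval₂ _ _ _ = _
      refine Fin.succAboveCases c ?_ (fun j => ?_) i
      · rw [Fin.insertNth_apply_same, Fin.insertNth_apply_same, Polynomial.eval₂_X]
      · rw [Fin.insertNth_apply_succAbove, Fin.insertNth_apply_succAbove, Polynomial.eval₂_C]
        rfl
  have h2 := h W
  rw [Polynomial.eval_map]
  exact h2

lemma qq_eval (c : Fin (m + 2)) (W : MvPolynomial (Fin (m + 2)) ℝ) (φ : K0 m) :
    (qq m c W).eval φ = aeval (cp c φ) W := by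
  apply jj_inj
  have h1 := qq_map_eval c W (jj m φ)
  rw [Polynomial.eval_map] at h1
  have h2 : (jj m) ((qq m c W).eval φ) =
      Polynomial.eval₂ (jj m).toRingHom (jj m φ) (qq m c W) := by
    have := Polynomial.hom_eval₂ (qq m c W) (RingHom.id _) (jj m).toRingHom φ
    rw [Polynomial.eval₂_id] at this
    rw [RingHom.comp_id] at this
    exact this
  rw [h2, h1]
  have h3 : (jj m) (aeval (cp c φ) W) = aeval (fun a => jj m (cp c φ a)) W := by
    have h4 : ((jj m).toRingHom.comp (algebraMap ℝ (K0 m))) = algebraMap ℝ (KK m) := by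
      refine RingHom.ext fun r => ?_
      show jj m (algebraMap ℂ (K0 m) (r : ℂ)) = _
      rw [jj_algebraMap]
      rfl
    have := MvPolynomial.map_aeval (cp c φ) (jj m).toRingHom W
    rw [h4] at this
    rw [aeval_def (fun a => jj m (cp c φ a))]
    exact this
  rw [h3]
  congr 1
  congr 1
  funext a
  rw [cp]
  refine Fin.succAboveCases c ?_ (fun j => ?_) a
  · rw [Fin.insertNth_apply_same, Fin.insertNth_apply_same]
  · rw [Fin.insertNth_apply_succAbove, Fin.insertNth_apply_succAbove]

lemma cP_eq (c : Fin (m + 2)) (ψ : KK m) : cP c ψ = fun a =>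
    rp m 1 * Fin.insertNth (α := fun _ => KK m) c ψ (fun i => jj m (ct m i)) a := by
  funext a
  rw [cP]
  refine Fin.succAboveCases c ?_ (fun j => ?_) a
  · rw [Fin.insertNth_apply_same, Fin.insertNth_apply_same]
  · rw [Fin.insertNth_apply_succAbove, Fin.insertNth_apply_succAbove]

/-- `ρ ^ (-d) P(cP c T)` -/
noncomputable def ff (m : ℕ) (c : Fin (m + 2)) (P : MvPolynomial (Fin (m + 2)) ℝ) :
    Polynomial (KK m) :=
  ∑ e ∈ Finset.range (P.totalDegree + 1), Polynomial.C (rp m ((e : ℚ) - P.totalDegree)) *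
    (qq m c (homogeneousComponent e P)).map (jj m).toRingHom

lemma ff_eval (c : Fin (m + 2)) (P : MvPolynomial (Fin (m + 2)) ℝ) (ψ : KK m) :
    rp m P.totalDegree * (ff m c P).eval ψ = aeval (cP c ψ) P := by
  rw [ff, Polynomial.eval_finsetSum, Finset.mul_sum]
  conv_rhs => rw [← sum_homogeneousComponent P, map_sum]
  refine Finset.sum_congr rfl fun e _ => ?_
  rw [Polynomial.eval_mul, Polynomial.eval_C, qq_map_eval, ← mul_assoc, rp_mul, cP_eq,
    form_smul (homogeneousComponent_isHomogeneous e P), rp_pow]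
  congr 2
  ring

lemma ff_coeff (c : Fin (m + 2)) (P : MvPolynomial (Fin (m + 2)) ℝ) (i : ℕ) :
    (ff m c P).coeff i = ∑ e ∈ Finset.range (P.totalDegree + 1),
      rp m ((e : ℚ) - P.totalDegree) * jj m ((qq m c (homogeneousComponent e P)).coeff i) := by
  rw [ff, Polynomial.finsetSum_coeff]
  refine Finset.sum_congr rfl fun e _ => ?_
  rw [Polynomial.coeff_C_mul, Polynomial.coeff_map]
  rfl

lemma low_pos {d e : ℕ} (h : e < d) (a : K0 m) :
    (0 : WithTop ℚ) < ww m (rp m ((e : ℚ) - d) * jj m a) := by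
  rw [ww_mul, ww_rp]
  have h1 : ((0 : ℚ) : WithTop ℚ) < ((-((e : ℚ) - d) : ℚ) : WithTop ℚ) := by
    rw [WithTop.coe_lt_coe]
    have : (e : ℚ) < d := by exact_mod_cast h
    linarith
  calc (0 : WithTop ℚ) < ((-((e : ℚ) - d) : ℚ) : WithTop ℚ) := h1
    _ = ((-((e : ℚ) - d) : ℚ) : WithTop ℚ) + 0 := (add_zero _).symm
    _ ≤ _ := by gcongr; exact le_ww_jj a

end I_CPT

open I_CPT in
theorem CPT_pf (hT : S_TAU) (hN : S_NZT) (hL : S_LIF) : S_CPT := by
  intro m c φ P hP h0
  have hsum : ∀ F : ℕ → KK m, ∑ e ∈ Finset.range (P.totalDegree + 1), F e =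
      (∑ e ∈ Finset.range P.totalDegree, F e) + F P.totalDegree := fun F =>
    Finset.sum_range_succ F _
  have hlast : rp m ((P.totalDegree : ℚ) - P.totalDegree) = 1 := by rw [sub_self, rp_zero]
  -- coefficients
  have hc0 : ∀ i, (0 : WithTop ℚ) ≤ ww m ((ff m c P).coeff i) := by
    intro i
    rw [ff_coeff, hsum, hlast, one_mul]
    refine ww_add (ww_sum fun e he => (low_pos (Finset.mem_range.mp he) _).le) (le_ww_jj _)
  have hc1 : ∃ i, ww m ((ff m c P).coeff i) = 0 := by
    have h1 : cx (tp P) ≠ 0 := by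
      intro h
      apply tp_ne hP
      apply MvPolynomial.map_injective (algebraMap ℝ ℂ) (algebraMap ℝ ℂ).injective
      rw [map_zero]
      exact h
    have h2 : (cx (tp P)).IsHomogeneous P.totalDegree :=
      (homogeneousComponent_isHomogeneous _ _).map _
    have h3 : tau c (cx (tp P)) ≠ 0 := by
      intro h
      exact h1 ((hT ℂ (m + 1) c).1.1 (by rw [h, map_zero]))
    obtain ⟨j, hj⟩ : ∃ j, (tau c (cx (tp P))).coeff j ≠ 0 := by
      by_contra hne
      push Not at hne
      exact h3 (Polynomial.ext fun j => by rw [hne j, Polynomial.coeff_zero])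
    have h4 := hN m P.totalDegree c (cx (tp P)) h2 j hj
    rw [← qq_cx] at h4
    refine ⟨j, ?_⟩
    rw [ff_coeff, hsum, hlast, one_mul, add_comm]
    have h5 : ww m (jj m ((qq m c (homogeneousComponent P.totalDegree P)).coeff j)) = 0 := ww_jj h4
    rw [ww_add_eq, h5]
    rw [h5]
    exact ww_sum_lt (by simp) fun e he => low_pos (Finset.mem_range.mp he) _
  have hz : (0 : WithTop ℚ) < ww m ((ff m c P).eval (jj m φ)) := by
    have h1 : (ff m c P).eval (jj m φ) = ∑ e ∈ Finset.range (P.totalDegree + 1),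
        rp m ((e : ℚ) - P.totalDegree) * jj m ((qq m c (homogeneousComponent e P)).eval φ) := by
      rw [ff, Polynomial.eval_finsetSum]
      refine Finset.sum_congr rfl fun e _ => ?_
      rw [Polynomial.eval_mul, Polynomial.eval_C]
      congr 1
      have := Polynomial.hom_eval₂ (qq m c (homogeneousComponent e P)) (RingHom.id _)
        (jj m).toRingHom φ
      rw [Polynomial.eval₂_id, RingHom.comp_id] at this
      rw [Polynomial.eval_map]
      exact this.symm
    rw [h1, hsum, qq_eval]
    have h2 : aeval (cp c φ) (homogeneousComponent P.totalDegree P) = 0 := h0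
    rw [h2, map_zero, mul_zero, add_zero]
    exact ww_sum_lt (by simp) fun e he => low_pos (Finset.mem_range.mp he) _
  obtain ⟨r, hr, hr2⟩ := hL m (ff m c P) (jj m φ) hc0 hc1 (le_ww_jj φ) hz
  refine ⟨r, hr2, ?_⟩
  rw [← ff_eval, hr, mul_zero]

end Pool.Agent.Work.MP_157c12_gt.AN
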