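import Pool.Agent.Work.MP_157c12_gt.AN.Stmts

/-!
# Block [157c12 AN], item DEC: decay
-/

set_option autoImplicit false

namespace Pool.Agent.Work.MP_157c12_gt.AN

open Pool.Agent.Work.MP_157c12_gt
open Pool.Agent.Work.MP_157c12_gt.Rot (nb lapC lapD Hyp PatchN FTn)

namespace I_DEC

theorem lt_add {a b : WithTop ℚ} {s t : ℚ} (ha : (s : WithTop ℚ) < a) (hb : (t : WithTop ℚ) ≤ b) :
    ((s + t : ℚ) : WithTop ℚ) < a + b := by
  induction a using WithTop.recTopCoe with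
  | top => simp
  | coe a =>
    induction b using WithTop.recTopCoe with
    | top => simp
    | coe b =>
      rw [← WithTop.coe_add, WithTop.coe_lt_coe]
      exact add_lt_add_of_lt_of_le (WithTop.coe_lt_coe.mp ha) (WithTop.coe_le_coe.mp hb)

theorem le_lt_add {a b : WithTop ℚ} {s t : ℚ} (ha : (s : WithTop ℚ) ≤ a)
    (hb : (t : WithTop ℚ) < b) : ((s + t : ℚ) : WithTop ℚ) < a + b := by
  rw [add_comm s t, add_comm a b]
  exact lt_add hb ha

variable {m : ℕ}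

theorem lap_lt {Gi : Matrix (Fin (m + 1)) (Fin (m + 1)) (KK m)} {W : KK m} (hW : W ≠ 0)
    (hGi : ∀ i j, 0 < ww m (Gi i j)) {g : KK m} {t : ℚ} (hg : (t : WithTop ℚ) ≤ ww m g) :
    (t : WithTop ℚ) < ww m (lapC (dd m) Gi W W⁻¹ g) := by
  obtain ⟨w, hw⟩ : ∃ w : ℚ, ww m W = w := (ww_cases W).resolve_left hW
  have hwi : ((-w : ℚ) : WithTop ℚ) ≤ ww m W⁻¹ := by
    have h1 : ww m W + ww m W⁻¹ = 0 := by
      rw [← ww_mul, mul_inv_cancel₀ hW, ww_one]
    have hne : W⁻¹ ≠ 0 := inv_ne_zero hW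
    obtain ⟨v, hv⟩ : ∃ v : ℚ, ww m W⁻¹ = v := (ww_cases W⁻¹).resolve_left hne
    rw [hw, hv] at h1
    have h2 : w + v = 0 := by exact_mod_cast h1
    rw [hv, WithTop.coe_le_coe]
    linarith
  have h1 : ∀ i, (t : WithTop ℚ) < ww m (∑ j, Gi i j * dd m j g) := by
    intro i
    refine ww_sum_lt (WithTop.coe_ne_top) fun j _ => ?_
    rw [ww_mul]
    have h2 := lt_add (s := 0) (hGi i j) (le_ww_dd hg j)
    rwa [zero_add] at h2
  have h2 : ∀ i, ((w + t : ℚ) : WithTop ℚ) < ww m (dd m i (W * ∑ j, Gi i j * dd m j g)) := by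
    intro i
    refine lt_ww_dd ?_ i
    rw [ww_mul]
    exact le_lt_add hw.ge (h1 i)
  have h3 : ((w + t : ℚ) : WithTop ℚ) < ww m (∑ i, dd m i (W * ∑ j, Gi i j * dd m j g)) :=
    ww_sum_lt (WithTop.coe_ne_top) fun i _ => h2 i
  have h4 := le_lt_add hwi h3
  rw [← ww_mul] at h4
  have h5 : -w + (w + t) = t := by ring
  rw [h5] at h4
  exact h4

theorem iter_le {Gi : Matrix (Fin (m + 1)) (Fin (m + 1)) (KK m)} {W : KK m} (hW : W ≠ 0)
    (hGi : ∀ i j, 0 < ww m (Gi i j)) {g : KK m} {t : ℚ} (hg : (t : WithTop ℚ) ≤ ww m g) (j : ℕ) :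
    (t : WithTop ℚ) ≤ ww m ((lapC (dd m) Gi W W⁻¹)^[j] g) := by
  induction j with
  | zero => exact hg
  | succ j ih =>
    rw [Function.iterate_succ_apply']
    exact (lap_lt hW hGi ih).le

theorem iter_lt {Gi : Matrix (Fin (m + 1)) (Fin (m + 1)) (KK m)} {W : KK m} (hW : W ≠ 0)
    (hGi : ∀ i j, 0 < ww m (Gi i j)) {g : KK m} {t : ℚ} (hg : (t : WithTop ℚ) ≤ ww m g) {j : ℕ}
    (hj : 1 ≤ j) : (t : WithTop ℚ) < ww m ((lapC (dd m) Gi W W⁻¹)^[j] g) := by
  obtain ⟨i, rfl⟩ : ∃ i, j = i + 1 := ⟨j - 1, by omega⟩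
  rw [Function.iterate_succ_apply']
  exact lap_lt hW hGi (iter_le hW hGi hg i)

theorem real_mul_lt {r : ℝ} {g : KK m} {t : ℚ} (hg : (t : WithTop ℚ) < ww m g) :
    (t : WithTop ℚ) < ww m (algebraMap ℝ (KK m) r * g) := by
  by_cases hr : r = 0
  · rw [hr, map_zero, zero_mul, ww_zero]
    exact WithTop.coe_lt_top t
  · rw [ww_mul, ww_real hr, zero_add]
    exact hg

end I_DEC

open I_DEC

theorem DEC_pf : S_DEC := by
  intro m k al Gi W f hW hGi hak hf h0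
  obtain ⟨t, ht⟩ : ∃ t : ℚ, ww m f = t := (ww_cases f).resolve_left hf
  unfold pL at h0
  rw [Finset.sum_range_succ, Nat.sub_self, Function.iterate_zero, id] at h0
  have h1 : (t : WithTop ℚ) < ww m (∑ l ∈ Finset.range k,
      algebraMap ℝ (KK m) (al l) * (lapC (dd m) Gi W W⁻¹)^[k - l] f) := by
    refine ww_sum_lt (WithTop.coe_ne_top) fun l hl => ?_
    rw [Finset.mem_range] at hl
    exact real_mul_lt (iter_lt hW hGi ht.ge (by omega))
  have h2 : ww m (algebraMap ℝ (KK m) (al k) * f) = t := by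
    rw [ww_mul, ww_real hak, zero_add, ht]
  have h3 : ww m (algebraMap ℝ (KK m) (al k) * f + ∑ l ∈ Finset.range k,
      algebraMap ℝ (KK m) (al l) * (lapC (dd m) Gi W W⁻¹)^[k - l] f) =
      ww m (algebraMap ℝ (KK m) (al k) * f) := ww_add_eq (by rw [h2]; exact h1)
  rw [add_comm, h0, ww_zero, h2] at h3
  exact WithTop.top_ne_coe h3

end Pool.Agent.Work.MP_157c12_gt.AN
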