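import Pool.Agent.Work.MP_157c12_gt.AN.Stmts

/-!
# Item DNS: an irreducible polynomial vanishing on a patch divides every polynomial vanishing on it
-/

set_option autoImplicit false

open MvPolynomial TopologicalSpace
open scoped Manifold ContDiff

namespace Pool.Agent.Work.MP_157c12_gt.AN

open Pool.Agent.Work.MP_157c12_gt
open Pool.Agent.Work.MP_157c12_gt.Rot (PatchN)

namespace I_DNS

lemma li {n : ℕ} (X : E n → E (n + 1)) (p : E n) (h : 0 < (gram X p).det) :
    LinearIndependent ℝ (fun (i : Fin n) (a : Fin (n + 1)) => pd i (fun q => X q a) p) := by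
  rw [Fintype.linearIndependent_iff]
  intro g hg
  by_contra hne
  push Not at hne
  obtain ⟨i0, hi0⟩ := hne
  apply h.ne'
  rw [← Matrix.exists_vecMul_eq_zero_iff]
  refine ⟨g, fun h0 => hi0 (by rw [h0]; rfl), ?_⟩
  funext j
  simp only [Matrix.vecMul, dotProduct, gram, Matrix.of_apply, Pi.zero_apply]
  have h1 : ∀ a, ∑ i, g i * pd i (fun q => X q a) p = 0 := by
    intro a
    have := congrFun hg a
    simpa [Finset.sum_apply, Pi.smul_apply, smul_eq_mul] using this
  calc ∑ i, g i * ∑ a, pd i (fun q => X q a) p * pd j (fun q => X q a) p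
      = ∑ a, (∑ i, g i * pd i (fun q => X q a) p) * pd j (fun q => X q a) p := by
        simp only [Finset.mul_sum, Finset.sum_mul]
        rw [Finset.sum_comm]
        refine Finset.sum_congr rfl fun a _ => Finset.sum_congr rfl fun i _ => by ring
    _ = 0 := by simp [h1]

lemma box_in_image {n : ℕ} (O : Opens (E n)) (X : E n → E (n + 1)) (hX : PatchN O X) (p : E n)
    (hp : p ∈ O) (c : Fin (n + 1))
    (hc : (Matrix.of fun i j => pd i (fun q => X q (c.succAbove j)) p).det ≠ 0) :
    (fun q => (fun a => X q (c.succAbove a) : Fin n → ℝ)) '' (O : Set (E n)) ∈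
      nhds (fun a => X p (c.succAbove a) : Fin n → ℝ) := by
  set f : E n → (Fin n → ℝ) := fun q => (fun a => X q (c.succAbove a) : Fin n → ℝ) with hf
  set f' : E n →L[ℝ] (Fin n → ℝ) :=
    ContinuousLinearMap.pi fun a => fderiv ℝ (fun q => X q (c.succAbove a)) p with hf'
  have hO : (O : Set (E n)) ∈ nhds p := O.isOpen.mem_nhds hp
  have h1 : HasStrictFDerivAt f f' p := by
    rw [hf, hf', hasStrictFDerivAt_pi]
    intro a
    exact ((hX.smooth _).contDiffAt hO).hasStrictFDerivAt (by simp)
  have h2 : f'.range = ⊤ := by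
    rw [eq_top_iff]
    intro y _
    set N : Matrix (Fin n) (Fin n) ℝ :=
      Matrix.of fun i j => pd i (fun q => X q (c.succAbove j)) p with hN
    set w : Fin n → ℝ := Matrix.vecMul y N⁻¹ with hw
    have hwN : Matrix.vecMul w N = y := by
      rw [hw, Matrix.vecMul_vecMul, Matrix.nonsing_inv_mul _ (isUnit_iff_ne_zero.mpr hc),
        Matrix.vecMul_one]
    refine ⟨∑ i, w i • EuclideanSpace.single i 1, ?_⟩
    funext a
    show (fderiv ℝ (fun q => X q (c.succAbove a)) p) _ = y a
    rw [map_sum]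
    have h3 := congrFun hwN a
    simp only [Matrix.vecMul, dotProduct, hN, Matrix.of_apply] at h3
    rw [← h3]
    refine Finset.sum_congr rfl fun i _ => ?_
    rw [map_smul, smul_eq_mul]
    rfl
  have h3 := h1.map_nhds_eq_of_surj h2
  have h4 := Filter.image_mem_map (m := f) hO
  rw [h3] at h4
  exact h4

lemma box_zero {n : ℕ} {f : Fin n → ℝ} {S : Set (Fin n → ℝ)} (hS : S ∈ nhds f)
    (r : MvPolynomial (Fin n) ℝ) (hr : ∀ t ∈ S, eval t r = 0) : r = 0 := by
  obtain ⟨ε, hε, hb⟩ := Metric.mem_nhds_iff.1 hS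
  apply MvPolynomial.funext_set (fun a => Set.Ioo (f a - ε) (f a + ε))
  · intro a
    exact Set.Ioo_infinite (by linarith)
  · intro x hx
    rw [map_zero]
    apply hr
    apply hb
    rw [Metric.mem_ball, dist_pi_lt_iff hε]
    intro a
    rw [Real.dist_eq, abs_sub_lt_iff]
    have := hx a (Set.mem_univ a)
    constructor
    · linarith [this.2]
    · linarith [this.1]

end I_DNS

open I_DNS in
theorem DNS_pf (h1 : S_ELI) (h2 : S_MIN) : S_DNS := by
  intro n O X P W hne hX hP hP0 hW0
  by_contra hdvd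
  obtain ⟨p, hp⟩ := hne
  obtain ⟨c, hc⟩ := h2 ℝ n _ (li X p (hX.imm p hp))
  obtain ⟨A, B, r, hr, hAB⟩ := h1 ℝ n P W c hP hdvd
  apply hr
  refine box_zero (box_in_image O X hX p hp c hc) r ?_
  rintro _ ⟨q, hq, rfl⟩
  have h3 : eval (fun a => X q a) (rename c.succAbove r) = 0 := by
    rw [← hAB, map_add, map_mul, map_mul, hP0 q hq, hW0 q hq]
    ring
  rw [eval_rename] at h3
  exact h3

end Pool.Agent.Work.MP_157c12_gt.AN
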