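import Pool.Agent.Work.MP_157c12_gt.AN.Stmts

/-!
# Elimination of a variable
-/

set_option autoImplicit false

open MvPolynomial

namespace Pool.Agent.Work.MP_157c12_gt.AN

namespace I_ELI

/-- Bezout with cleared denominators over a UFD. -/
theorem bezout {R : Type} [CommRing R] [IsDomain R] [UniqueFactorizationMonoid R]
    (f w : Polynomial R) (hf : Irreducible f) (hd : f.natDegree ≠ 0) (hw : ¬ f ∣ w) :
    ∃ (a b : Polynomial R) (r : R), r ≠ 0 ∧ a * f + b * w = Polynomial.C r := by
  have hG : IsGCDMonoid R := ⟨UniqueFactorizationMonoid.toGCDMonoid R⟩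
  have hprim : f.IsPrimitive := hf.isPrimitive hd
  let K := FractionRing R
  have hinj : Function.Injective (algebraMap R K) := IsFractionRing.injective R K
  have hirr : Irreducible (f.map (algebraMap R K)) :=
    (hprim.irreducible_iff_irreducible_map_fraction_map).mp hf
  have hnd : ¬ f.map (algebraMap R K) ∣ w.map (algebraMap R K) := fun h =>
    hw (hprim.dvd_of_fraction_map_dvd_fraction_map h)
  have hcop : IsCoprime (f.map (algebraMap R K)) (w.map (algebraMap R K)) :=
    (hirr.coprime_iff_not_dvd).mpr hnd
  obtain ⟨a, b, hab⟩ := hcop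
  obtain ⟨c, c0, hc⟩ := IsLocalization.integerNormalization_spec (nonZeroDivisors R) a
  obtain ⟨d, d0, hdd⟩ := IsLocalization.integerNormalization_spec (nonZeroDivisors R) b
  set a' := IsLocalization.integerNormalization (nonZeroDivisors R) a
  set b' := IsLocalization.integerNormalization (nonZeroDivisors R) b
  refine ⟨Polynomial.C d * a', Polynomial.C c * b', c * d,
    mul_ne_zero (nonZeroDivisors.ne_zero c0) (nonZeroDivisors.ne_zero d0), ?_⟩
  apply Polynomial.map_injective (algebraMap R K) hinj
  rw [Algebra.smul_def, Polynomial.algebraMap_apply] at hc hdd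
  simp only [Polynomial.map_add, Polynomial.map_mul, Polynomial.map_C, hc, hdd, map_mul]
  linear_combination (Polynomial.C (algebraMap R K c) * Polynomial.C (algebraMap R K d)) * hab

end I_ELI

theorem ELI_pf (hT : S_TAU) : S_ELI := by
  intro k _ n P W c hP hW
  obtain ⟨hbij, hren, -⟩ := hT k n c
  let e : MvPolynomial (Fin (n + 1)) k ≃ₐ[k] Polynomial (MvPolynomial (Fin n) k) :=
    AlgEquiv.ofBijective (tau c) hbij
  have he : ∀ r : MvPolynomial (Fin n) k, e (rename c.succAbove r) = Polynomial.C r :=
    fun r => hren r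
  have hf : Irreducible (e P) := (MulEquiv.irreducible_iff e.toMulEquiv).mpr hP
  by_cases hd : (e P).natDegree = 0
  · have h1 := Polynomial.eq_C_of_natDegree_eq_zero hd
    refine ⟨1, 0, (e P).coeff 0, ?_, ?_⟩
    · intro h0
      rw [h0, map_zero] at h1
      exact hf.ne_zero h1
    · apply e.injective
      rw [he, ← h1]
      simp
  · have hw : ¬ e P ∣ e W := by
      intro h
      apply hW
      have := map_dvd e.symm h
      simpa using this
    obtain ⟨a, b, r, hr, hab⟩ := I_ELI.bezout (e P) (e W) hf hd hw
    refine ⟨e.symm a, e.symm b, r, hr, ?_⟩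
    apply e.injective
    rw [he, ← hab]
    simp

end Pool.Agent.Work.MP_157c12_gt.AN
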