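import Pool.Agent.Work.MP_157c12_gt.AN.Stmts

/-!
# Item FAC: an irreducible factor vanishes on a smaller open set
-/

set_option autoImplicit false

open MvPolynomial

namespace Pool.Agent.Work.MP_157c12_gt.AN

open Pool.Agent.Work.MP_157c12_gt

namespace I_FAC

/-- the induction -/
lemma main (n : ℕ) (O : TopologicalSpace.Opens (E n)) (X : E n → E (n + 1))
    (hc : ∀ a, ContinuousOn (fun q => X q a) O) (F : MvPolynomial (Fin (n + 1)) ℝ) :
    F ≠ 0 → ∀ O₁ : TopologicalSpace.Opens (E n), O₁ ≤ O → (O₁ : Set (E n)).Nonempty →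
    (∀ p ∈ O₁, eval (fun a => X p a) F = 0) →
    ∃ (O' : TopologicalSpace.Opens (E n)) (P : MvPolynomial (Fin (n + 1)) ℝ), O' ≤ O₁ ∧
      (O' : Set (E n)).Nonempty ∧ Irreducible P ∧ P ∣ F ∧
      ∀ p ∈ O', eval (fun a => X p a) P = 0 := by
  refine WfDvdMonoid.induction_on_irreducible (motive := fun F => F ≠ 0 →
    ∀ O₁ : TopologicalSpace.Opens (E n), O₁ ≤ O → (O₁ : Set (E n)).Nonempty →
    (∀ p ∈ O₁, eval (fun a => X p a) F = 0) →
    ∃ (O' : TopologicalSpace.Opens (E n)) (P : MvPolynomial (Fin (n + 1)) ℝ), O' ≤ O₁ ∧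
      (O' : Set (E n)).Nonempty ∧ Irreducible P ∧ P ∣ F ∧
      ∀ p ∈ O', eval (fun a => X p a) P = 0) F ?_ ?_ ?_
  · intro h
    exact absurd rfl h
  · intro u hu _ O₁ _ hne hv
    obtain ⟨p, hp⟩ := hne
    have h1 := hu.map (eval (fun a => X p a))
    rw [hv p hp] at h1
    exact absurd h1 not_isUnit_zero
  · intro a i ha hi ih _ O₁ hO hne hv
    by_cases hz : ∀ p ∈ O₁, eval (fun a => X p a) i = 0
    · exact ⟨O₁, i, le_rfl, hne, hi, Dvd.intro _ rfl, hz⟩
    · push Not at hz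
      obtain ⟨p, hp, hpi⟩ := hz
      have hcont : ContinuousOn (fun q => eval (fun b => X q b) i) (O₁ : Set (E n)) := by
        have h1 : ContinuousOn (fun q => fun b => X q b) (O₁ : Set (E n)) :=
          continuousOn_pi.mpr fun b => (hc b).mono hO
        exact (MvPolynomial.continuous_eval i).comp_continuousOn h1
      have hopen : IsOpen ((O₁ : Set (E n)) ∩ (fun q => eval (fun b => X q b) i) ⁻¹' {0}ᶜ) :=
        hcont.isOpen_inter_preimage O₁.isOpen isOpen_compl_singleton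
      obtain ⟨O', P, h1, h2, h3, h4, h5⟩ := ih ha ⟨_, hopen⟩ (fun q hq => hO hq.1)
        ⟨p, hp, hpi⟩ (fun q hq => by
          have h6 := hv q hq.1
          rw [map_mul] at h6
          exact (mul_eq_zero.mp h6).resolve_left hq.2)
      exact ⟨O', P, fun q hq => (h1 hq).1, h2, h3, h4.mul_left i, h5⟩

end I_FAC

/-- [FAC] -/
theorem FAC_pf : S_FAC := fun n O X F hF hne hc hv => I_FAC.main n O X hc F hF O le_rfl hne hv

end Pool.Agent.Work.MP_157c12_gt.AN
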