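import Pool.Agent.Work.MP_157c12_gt.AN.Stmts
import Pool.Agent.Work.MP_157c12_gt.Rot.Final

/-!
# Item FIN: the theorem
-/

set_option autoImplicit false

open MvPolynomial
open scoped Manifold ContDiff

namespace Pool.Agent.Work.MP_157c12_gt.AN

open Pool.Agent.Work.MP_157c12_gt
open Pool.Agent.Work.MP_157c12_gt.Rot (nb lapC lapD Hyp PatchN FTn)

namespace I_FIN

/-- a continuous function on a connected space with values in the zeros of a non-zero polynomial is
constant -/
theorem const_of_roots {M : Type} [TopologicalSpace M] [PreconnectedSpace M] (f : M → ℝ)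
    (hf : Continuous f) (G : Polynomial ℝ) (hG : G ≠ 0) (h : ∀ p, G.eval (f p) = 0) (p q : M) :
    f p = f q := by
  have hsub : Set.range f ⊆ (G.rootSet ℝ) := by
    rintro _ ⟨y, rfl⟩
    rw [Polynomial.mem_rootSet]
    refine ⟨hG, ?_⟩
    rw [Polynomial.aeval_def, Algebra.algebraMap_self, Polynomial.eval₂_id]
    exact h y
  have hfin : (Set.range f).Finite := (Polynomial.rootSet_finite G ℝ).subset hsub
  have htd : IsTotallyDisconnected (Set.range f) := hfin.countable.isTotallyDisconnected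
  have hpre : IsPreconnected (Set.range f) := isPreconnected_range hf
  exact htd _ subset_rfl hpre ⟨p, rfl⟩ ⟨q, rfl⟩

end I_FIN

theorem FIN_pf (hLOC : S_LOC) : S_FIN := by
  intro n M _ _ _ _ _ x F hn hx hft hF hFx hR
  obtain ⟨c, k, al, hk, ha0, hak, hpatch⟩ := Rot.pMF n M x (by omega) hx hft
  obtain ⟨G, hG, hGx⟩ := hLOC n k al M x c F hn hx hk ha0 hak hpatch hF hFx hR
  have hcont : Continuous fun p => ‖x p - c‖ ^ 2 :=
    ((hx.1.continuous.sub continuous_const).norm).pow 2
  obtain ⟨p₀⟩ : Nonempty M := inferInstance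
  have hconst : ∀ p, ‖x p - c‖ ^ 2 = ‖x p₀ - c‖ ^ 2 := fun p =>
    I_FIN.const_of_roots _ hcont G hG hGx p p₀
  obtain ⟨r, hr, hrange⟩ := Rot.pr_MS n M (fun p => x p - c) (by omega)
    (Rot.XMM.imm_sub x c hx) _ hconst
  refine ⟨c, r, hr, ?_⟩
  ext y
  rw [mem_sphere_iff_norm]
  have h1 : y ∈ Set.range x ↔ y - c ∈ Set.range (fun p => x p - c) := by
    constructor
    · rintro ⟨p, rfl⟩
      exact ⟨p, rfl⟩
    · rintro ⟨p, hp⟩
      exact ⟨p, sub_left_injective hp⟩
  rw [h1, hrange, mem_sphere_iff_norm, sub_zero]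

end Pool.Agent.Work.MP_157c12_gt.AN
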