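import Pool.Agent.Work.MP_157c12_gt.AN.Stmts

/-!
Item GEN of the block AN of MP_157c12_gt: generic points of a hypersurface.
-/

set_option autoImplicit false

open MvPolynomial

namespace Pool.Agent.Work.MP_157c12_gt.AN

theorem GEN_pf (hELI : S_ELI) (hJAC : S_JAC) (hMIN : S_MIN) : S_GEN := by
  intro k _ _ K _ _ n d x P W hli hP hxP hxW
  by_contra hdvd
  obtain ⟨c, hc⟩ := hMIN K n (fun i a => d i (x a)) hli
  obtain ⟨A, B, r, hr, h⟩ := hELI k n P W c hP hdvd
  apply hr
  apply hJAC k K n d (fun j => x (c.succAbove j)) hc r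
  have h1 := congrArg (aeval x) h
  rw [map_add, map_mul, map_mul, hxP, hxW, mul_zero, mul_zero, add_zero, aeval_rename] at h1
  exact h1.symm

end Pool.Agent.Work.MP_157c12_gt.AN
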