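import Pool.Agent.Work.MP_157c12_gt.AN.Stmts

/-!
# Item GOO
-/

set_option autoImplicit false

open MvPolynomial

namespace Pool.Agent.Work.MP_157c12_gt.AN

open Pool.Agent.Work.MP_157c12_gt
open Pool.Agent.Work.MP_157c12_gt.Rot (nb lapC lapD Hyp PatchN FTn)

namespace I_GOO

lemma ev_aeval {n m : ℕ} {V : TopologicalSpace.Opens (E n)} (x : Fin m → Rot.Sm V)
    (W : MvPolynomial (Fin m) ℝ) {q : E n} (hq : q ∈ V) :
    Rot.ev (aeval x W) q = eval (fun a => Rot.ev (x a) q) W := by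
  rw [← Rot.evH_apply hq]
  rw [MvPolynomial.comp_aeval_apply]
  have : (fun a => (Rot.evH hq) (x a)) = fun a => Rot.ev (x a) q := by
    funext a
    exact Rot.evH_apply hq (x a)
  rw [this]
  rw [MvPolynomial.aeval_eq_eval]

end I_GOO

open I_GOO in
theorem GOO_pf (hNDG : S_NDG) (hRNG : S_RNG) (hZPO : S_ZPO) (hDNS : S_DNS) : S_GOO := by
  intro n k al O X P hk h0 hak hne hX hft hP hz
  obtain ⟨hnd, p₀, hp₀, hq₀⟩ := hNDG n O X P hne hX hP hz
  have hcont : ContinuousOn (fun p => eval (fun a => X p a) (gq P)) O := by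
    have h1 : ContinuousOn (fun p => fun a => X p a) (O : Set (E n)) :=
      continuousOn_pi.2 fun a => (hX.smooth a).continuousOn
    have h2 : Continuous fun y : Fin (n + 1) → ℝ => eval y (gq P) :=
      MvPolynomial.continuous_eval _
    exact h2.comp_continuousOn h1
  have hopen : IsOpen ((O : Set (E n)) ∩ (fun p => eval (fun a => X p a) (gq P)) ⁻¹' {0}ᶜ) :=
    hcont.isOpen_inter_preimage O.isOpen isOpen_compl_singleton
  obtain ⟨V, hV, hpV, D, x, N, hH, hx, hpl⟩ := hRNG n k al O X hX hft p₀ hp₀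
    ⟨_, hopen⟩ (fun p hp => hp.1) ⟨hp₀, hq₀⟩
  have hVO : V ≤ O := fun p hp => (hV hp).1
  have hval : ∀ (W : MvPolynomial (Fin (n + 1)) ℝ) {q : E n}, q ∈ V →
      Rot.ev (aeval x W) q = eval (fun a => X q a) W := by
    intro W q hq
    rw [ev_aeval x W hq]
    congr 2
    funext a
    exact hx a q hq
  have hxP : aeval x P = 0 := by
    apply Rot.ext_ev
    intro q hq
    rw [hval P hq, Rot.zero_ev hq]
    exact hz q (hVO hq)
  have hunit : IsUnit (aeval x (gq P)) := by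
    apply Rot.isUnit_of_ne
    intro q hq
    rw [hval _ hq]
    exact (hV hq).2
  obtain ⟨Qi, hQi⟩ := hunit.exists_right_inv
  obtain ⟨Z, hZ⟩ := hZPO (n + 1) k al P
  have hZx : ∀ a, aeval x (Z a) = 0 := (hZ _ D x N Qi hH hxP hQi).1 hpl
  have hVpatch : PatchN V X := ⟨fun a => (hX.smooth a).mono hVO, fun p hp => hX.imm p (hVO hp)⟩
  have hdiv : ∀ a, P ∣ Z a := by
    intro a
    refine hDNS n V X P (Z a) ⟨p₀, hpV⟩ hVpatch hP (fun p hp => hz p (hVO hp)) ?_
    intro p hp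
    rw [← hval _ hp, hZx a, Rot.zero_ev hp]
  refine ⟨hP, hnd, hk, h0, hak, ?_⟩
  intro K _ _ D' x' N' hH' hP' hq'
  refine (hZ K D' x' N' _ hH' hP' (mul_inv_cancel₀ hq')).2 ?_
  intro a
  obtain ⟨B, hB⟩ := hdiv a
  rw [hB, map_mul, hP', zero_mul]

end Pool.Agent.Work.MP_157c12_gt.AN
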