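import Pool.Agent.Work.MP_157c12_gt.AN.Stmts

/-!
# Gram matrices
-/

set_option autoImplicit false

open MvPolynomial
open scoped Manifold ContDiff

namespace Pool.Agent.Work.MP_157c12_gt.AN

namespace I_GRA

variable {K : Type} [Field K] {n : ℕ}

lemma lin (v : Fin n → Fin (n + 1) → K) (ν : Fin (n + 1) → K) (hv : LinearIndependent K v)
    (ho : ∀ i, ∑ a, ν a * v i a = 0) (hs : ∑ a, ν a ^ 2 ≠ 0) :
    LinearIndependent K (Sum.elim v (fun _ : Unit => ν)) := by
  have hν : ν ≠ 0 := by
    rintro rfl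
    exact hs (by simp)
  refine hv.sum_type ?_ ?_
  · rw [linearIndependent_unique_iff]
    exact hν
  · rw [Submodule.disjoint_def]
    intro x hx hx'
    have hr : Set.range (fun _ : Unit => ν) = {ν} := by
      ext y
      simp [eq_comm]
    rw [hr, Submodule.mem_span_singleton] at hx'
    obtain ⟨c, rfl⟩ := hx'
    let φ : (Fin (n + 1) → K) →ₗ[K] K := ∑ a, ν a • LinearMap.proj a
    have hφ : ∀ y, φ y = ∑ a, ν a * y a := by
      intro y
      simp [φ, LinearMap.sum_apply]
    have hle : Submodule.span K (Set.range v) ≤ LinearMap.ker φ := by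
      rw [Submodule.span_le]
      rintro _ ⟨i, rfl⟩
      show φ (v i) = 0
      rw [hφ]
      exact ho i
    have h0 : φ (c • ν) = 0 := hle hx
    rw [hφ] at h0
    have h1 : ∑ a, ν a * (c • ν) a = c * ∑ a, ν a ^ 2 := by
      rw [Finset.mul_sum]
      refine Finset.sum_congr rfl fun a _ => ?_
      simp only [Pi.smul_apply, smul_eq_mul]
      ring
    rw [h1] at h0
    rcases mul_eq_zero.1 h0 with h | h
    · rw [h, zero_smul]
    · exact absurd h hs

end I_GRA

open I_GRA in
theorem GRA_pf : S_GRA := by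
  intro K _ n v ν hv ho hs
  set G : Matrix (Fin n) (Fin n) K := Matrix.of fun i j => ∑ a, v i a * v j a with hG
  set s : K := ∑ c, ν c ^ 2 with hsd
  have hcard : Fintype.card (Fin n ⊕ Unit) = Fintype.card (Fin (n + 1)) := by simp
  let e : Fin n ⊕ Unit ≃ Fin (n + 1) := Fintype.equivOfCardEq hcard
  let B : Matrix (Fin n ⊕ Unit) (Fin n ⊕ Unit) K :=
    Matrix.of fun x y => Sum.elim v (fun _ : Unit => ν) x (e y)
  have hB : IsUnit B := by
    rw [← Matrix.linearIndependent_rows_iff_isUnit]
    have h := (lin v ν hv ho hs).map' (LinearEquiv.funCongrLeft K K e).toLinearMap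
      (LinearEquiv.ker _)
    exact h
  have hdet : B.det ≠ 0 := by
    have := (Matrix.isUnit_iff_isUnit_det B).1 hB
    exact this.ne_zero
  let S : Matrix Unit Unit K := Matrix.of fun _ _ => s
  have hBB : B * B.transpose = Matrix.fromBlocks G 0 0 S := by
    ext x y
    rw [Matrix.mul_apply]
    have h1 : ∀ f : Fin (n + 1) → K, ∑ z, f (e z) = ∑ a, f a := fun f => Equiv.sum_comp e f
    rcases x with i | i <;> rcases y with j | j
    · simp only [B, Matrix.transpose_apply, Matrix.of_apply, Sum.elim_inl,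
        Matrix.fromBlocks_apply₁₁, hG]
      exact h1 fun a => v i a * v j a
    · simp only [B, Matrix.transpose_apply, Matrix.of_apply, Sum.elim_inl, Sum.elim_inr,
        Matrix.fromBlocks_apply₁₂, Matrix.zero_apply]
      rw [h1 fun a => v i a * ν a, ← ho i]
      exact Finset.sum_congr rfl fun a _ => mul_comm _ _
    · simp only [B, Matrix.transpose_apply, Matrix.of_apply, Sum.elim_inl, Sum.elim_inr,
        Matrix.fromBlocks_apply₂₁, Matrix.zero_apply]
      rw [h1 fun a => ν a * v j a, ← ho j]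
    · simp only [B, Matrix.transpose_apply, Matrix.of_apply, Sum.elim_inr,
        Matrix.fromBlocks_apply₂₂, S]
      rw [h1 fun a => ν a * ν a, hsd]
      exact Finset.sum_congr rfl fun a _ => (_root_.sq (ν a)).symm
  have hdG : G.det ≠ 0 := by
    intro h0
    have h1 : (B * B.transpose).det = 0 := by
      rw [hBB, Matrix.det_fromBlocks_zero₂₁, h0, zero_mul]
    rw [Matrix.det_mul, Matrix.det_transpose] at h1
    exact hdet (mul_self_eq_zero.1 h1)
  refine ⟨hdG, ?_⟩
  intro a b
  let C : Matrix (Fin n ⊕ Unit) (Fin n ⊕ Unit) K :=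
    Matrix.fromBlocks G⁻¹ 0 0 (Matrix.of fun _ _ => s⁻¹)
  have hC : (B * B.transpose) * C = 1 := by
    rw [hBB, Matrix.fromBlocks_multiply]
    have hGG : G * G⁻¹ = 1 := Matrix.mul_nonsing_inv G (isUnit_iff_ne_zero.2 hdG)
    have hSS : S * (Matrix.of fun _ _ => s⁻¹) = 1 := by
      ext i j
      rw [Matrix.mul_apply]
      simp [S, mul_inv_cancel₀ hs]
    simp only [Matrix.mul_zero, Matrix.zero_mul, add_zero, zero_add, hGG, hSS]
    exact Matrix.fromBlocks_one
  have hD : B.transpose * C * B = 1 := by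
    rw [Matrix.mul_assoc] at hC
    exact mul_eq_one_comm.1 hC
  have hE := congrFun (congrFun hD (e.symm a)) (e.symm b)
  rw [Matrix.mul_apply, Fintype.sum_sum_type] at hE
  simp only [Matrix.mul_apply, Fintype.sum_sum_type, B, C, Matrix.transpose_apply, Matrix.of_apply,
    Sum.elim_inl, Sum.elim_inr, Equiv.apply_symm_apply, Matrix.fromBlocks_apply₁₁,
    Matrix.fromBlocks_apply₁₂, Matrix.fromBlocks_apply₂₁, Matrix.fromBlocks_apply₂₂,
    Matrix.zero_apply, mul_zero, Finset.sum_const_zero, add_zero, zero_add,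
    Finset.univ_unique, Finset.sum_singleton] at hE
  have h1 : (1 : Matrix (Fin n ⊕ Unit) (Fin n ⊕ Unit) K) (e.symm a) (e.symm b) =
      if a = b then 1 else 0 := by
    rw [Matrix.one_apply]
    simp
  rw [h1] at hE
  rw [← hE]
  have h2 : ∑ i, ∑ j, G⁻¹ i j * v i a * v j b = ∑ x, (∑ y, v y a * G⁻¹ y x) * v x b := by
    rw [Finset.sum_comm]
    refine Finset.sum_congr rfl fun x _ => ?_
    rw [Finset.sum_mul]
    exact Finset.sum_congr rfl fun y _ => by ring
  rw [h2, div_eq_mul_inv]
  ring

end Pool.Agent.Work.MP_157c12_gt.AN
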