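import Pool.Agent.Work.MP_157c12_gt.AN.Stmts

set_option autoImplicit false

open MvPolynomial

namespace Pool.Agent.Work.MP_157c12_gt.AN

open Pool.Agent.Work.MP_157c12_gt

namespace I_HOM

variable {k : Type} [Field k] {n : ℕ}

/-- the substitution `X i ↦ X i T` -/
noncomputable def ph (k : Type) [Field k] (n : ℕ) :
    MvPolynomial (Fin n) k →ₐ[k] Polynomial (MvPolynomial (Fin n) k) :=
  aeval fun i => Polynomial.C (X i) * Polynomial.X

lemma ph_monomial (s : Fin n →₀ ℕ) (a : k) :
    ph k n (monomial s a) = Polynomial.monomial s.degree (monomial s a) := by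
  rw [ph, aeval_monomial]
  have h1 : (s.prod fun i j => (Polynomial.C (X i : MvPolynomial (Fin n) k) * Polynomial.X) ^ j) =
      Polynomial.C (s.prod fun i j => (X i : MvPolynomial (Fin n) k) ^ j) *
        Polynomial.X ^ s.degree := by
    simp only [Finsupp.prod, mul_pow, Finset.prod_mul_distrib, map_prod, map_pow,
      Finset.prod_pow_eq_pow_sum]
    rfl
  rw [h1, ← Polynomial.C_mul_X_pow_eq_monomial, ← mul_assoc]
  congr 1
  rw [monomial_eq, map_mul]
  rfl

lemma ph_coeff (P : MvPolynomial (Fin n) k) (i : ℕ) :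
    (ph k n P).coeff i = homogeneousComponent i P := by
  induction P using MvPolynomial.induction_on' with
  | monomial s a =>
    rw [ph_monomial, Polynomial.coeff_monomial,
      homogeneousComponent_of_mem (isHomogeneous_monomial a (rfl : s.degree = s.degree))]
    simp only [eq_comm]
  | add p q hp hq =>
    rw [map_add, Polynomial.coeff_add, hp, hq, map_add]

lemma ph_ne {P : MvPolynomial (Fin n) k} (h : P ≠ 0) : ph k n P ≠ 0 := by
  intro h0
  apply h
  ext s
  have h1 := ph_coeff P s.degree
  rw [h0, Polynomial.coeff_zero] at h1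
  have h2 := coeff_homogeneousComponent s.degree P s
  rw [← h1, if_pos rfl, coeff_zero] at h2
  rw [← h2, coeff_zero]

end I_HOM

open I_HOM in
theorem HOM_pf : S_HOM := by
  intro k _ n R W d hW hd hRW
  obtain ⟨S, rfl⟩ := hRW
  have hR : R ≠ 0 := left_ne_zero_of_mul hW
  have hS : S ≠ 0 := right_ne_zero_of_mul hW
  have h1 : ph k n (R * S) = Polynomial.monomial d (R * S) := by
    ext1 i
    rw [ph_coeff, Polynomial.coeff_monomial, homogeneousComponent_of_mem hd]
    simp only [eq_comm]
  have h2 : (ph k n R * ph k n S).natDegree = d := by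
    rw [← map_mul, h1, Polynomial.natDegree_monomial_eq d hW]
  have h3 : (ph k n R * ph k n S).natTrailingDegree = d := by
    rw [← map_mul, h1, Polynomial.natTrailingDegree_monomial hW]
  rw [Polynomial.natDegree_mul (ph_ne hR) (ph_ne hS)] at h2
  rw [Polynomial.natTrailingDegree_mul (ph_ne hR) (ph_ne hS)] at h3
  have h4 := Polynomial.natTrailingDegree_le_natDegree (ph k n R)
  have h5 := Polynomial.natTrailingDegree_le_natDegree (ph k n S)
  have h6 : (ph k n R).natTrailingDegree = (ph k n R).natDegree := by omega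
  refine ⟨(ph k n R).natDegree, ?_⟩
  intro s hs
  have hw : Finsupp.weight (1 : Fin n → ℕ) s = s.degree := by
    rw [Finsupp.degree_eq_weight_one]
    rfl
  rw [hw]
  by_contra hne
  apply hs
  have h7 : (ph k n R).coeff s.degree = 0 := by
    rcases lt_or_gt_of_ne hne with h | h
    · exact Polynomial.coeff_eq_zero_of_lt_natTrailingDegree (by rw [h6]; exact h)
    · exact Polynomial.coeff_eq_zero_of_natDegree_lt h
  rw [ph_coeff] at h7
  have h8 := coeff_homogeneousComponent s.degree R s
  rw [h7, if_pos rfl, coeff_zero] at h8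
  exact h8.symm

end Pool.Agent.Work.MP_157c12_gt.AN
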