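import Pool.Agent.Work.MP_157c12_gt.AN.Stmts

/-!
# Item IND

The elements `ρ, ρ θ_1, …, ρ θ_m` are algebraically independent over `ℂ`.
-/

set_option autoImplicit false

open MvPolynomial

namespace Pool.Agent.Work.MP_157c12_gt.AN

open Pool.Agent.Work.MP_157c12_gt

namespace I_IND

variable {m : ℕ}

lemma z_zero : rp m 1 * jj m (ct m 0) = rp m 1 := by
  rw [ct, Fin.cons_zero, map_one, mul_one]

lemma z_succ (i : Fin m) : rp m 1 * jj m (ct m i.succ) = rt m i := by
  rw [ct, Fin.cons_succ, rt]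

lemma tri : (Matrix.of fun i j : Fin (m + 1) =>
    dC m i (rp m 1 * jj m (ct m j))).BlockTriangular id := by
  intro i j hij
  have hij' : j < i := hij
  rw [Matrix.of_apply]
  obtain ⟨i', rfl⟩ : ∃ i', i = Fin.succ i' :=
    ⟨i.pred (Fin.ne_zero_of_lt hij'), (Fin.succ_pred _ _).symm⟩
  rw [← dd_apply]
  refine Fin.cases (fun _ => ?_) (fun j' hij' => ?_) j hij'
  · rw [z_zero, dd_succ_rp]
  · rw [z_succ, dd_succ_rt, if_neg]
    intro h
    rw [h] at hij'
    exact lt_irrefl _ hij'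

lemma diag_ne (i : Fin (m + 1)) : dC m i (rp m 1 * jj m (ct m i)) ≠ 0 := by
  rw [← dd_apply]
  refine Fin.cases ?_ (fun i' => ?_) i
  · rw [z_zero, dd_zero_rp]
    simpa using rp_ne (m := m) 1
  · rw [z_succ, dd_succ_rt, if_pos rfl]
    exact rt_ne i'

lemma det_ne : (Matrix.of fun i j : Fin (m + 1) =>
    dC m i (rp m 1 * jj m (ct m j))).det ≠ 0 := by
  rw [Matrix.det_of_isUpperTriangular tri]
  refine Finset.prod_ne_zero_iff.mpr fun i _ => ?_
  rw [Matrix.of_apply]
  exact diag_ne i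

end I_IND

theorem IND_pf (hJ : S_JAC) : S_IND := by
  intro m r hr
  exact hJ ℂ (KK m) (m + 1) (dC m) (fun i => rp m 1 * jj m (ct m i)) I_IND.det_ne r hr

end Pool.Agent.Work.MP_157c12_gt.AN
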