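import Pool.Agent.Work.MP_157c12_gt.AN.Stmts

/-!
# Item ITE: iterates of the Laplace operator
-/

set_option autoImplicit false

open MvPolynomial

namespace Pool.Agent.Work.MP_157c12_gt.AN

open Pool.Agent.Work.MP_157c12_gt
open Pool.Agent.Work.MP_157c12_gt.Rot (nb lapC lapD Hyp PatchN FTn)

namespace I_ITE

variable {R : Type} [CommRing R] [Algebra ℝ R] {n : ℕ}

lemma lapD_mul (D : Fin n → Derivation ℝ R R) (g f : R) :
    lapD D (g * f) = g * lapD D f + f * lapD D g + 2 * ∑ a, D a g * D a f := by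
  unfold lapD
  rw [Finset.mul_sum, Finset.mul_sum, Finset.mul_sum, ← Finset.sum_add_distrib,
    ← Finset.sum_add_distrib]
  refine Finset.sum_congr rfl fun a _ => ?_
  rw [Derivation.leibniz, map_add, smul_eq_mul, smul_eq_mul, Derivation.leibniz,
    Derivation.leibniz, smul_eq_mul, smul_eq_mul, smul_eq_mul, smul_eq_mul]
  ring

lemma grad_mul (D : Fin n → Derivation ℝ R R) (g f : R) :
    ∑ a, D a g * D a (g * f) = g * ∑ a, D a g * D a f + f * ∑ a, D a g * D a g := by
  rw [Finset.mul_sum, Finset.mul_sum, ← Finset.sum_add_distrib]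
  refine Finset.sum_congr rfl fun a _ => ?_
  rw [Derivation.leibniz, smul_eq_mul, smul_eq_mul]
  ring

end I_ITE

open I_ITE in
theorem ITE_pf (hLPR : S_LPR) : S_ITE := by
  intro n P W j
  induction j with
  | zero =>
    refine ⟨W, 0, ?_⟩
    intro R _ _ D x N Qi _ _ _
    rw [pow_zero, one_mul, Function.iterate_zero, id]
  | succ j ih =>
    obtain ⟨A, s, h⟩ := ih
    refine ⟨(gq P ^ s) ^ 2 * LW P A - gq P ^ s * A * LW P (gq P ^ s)
      - 2 * gq P ^ s * (gq P * (gq P * gi (gq P ^ s) A - gi P (gq P ^ s) * gi P A))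
      + 2 * A * (gq P * (gq P * gi (gq P ^ s) (gq P ^ s) - gi P (gq P ^ s) * gi P (gq P ^ s))),
      3 * s + 2, ?_⟩
    intro R _ _ D x N Qi hH hP hQ
    have h0 := h R D x N Qi hH hP hQ
    obtain ⟨h1, h2⟩ := hLPR R n D x N P hH hP
    rw [Function.iterate_succ_apply']
    generalize (lapD D)^[j] (aeval x W) = f at h0 ⊢
    have h1A := h1 A
    have h1G := h1 (gq P ^ s)
    have h2A := h2 (gq P ^ s) A
    have h2G := h2 (gq P ^ s) (gq P ^ s)
    have e1 := lapD_mul D (aeval x (gq P ^ s)) f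
    have e2 := grad_mul D (aeval x (gq P ^ s)) f
    have h0' : aeval x (gq P ^ s) * f = aeval x A := by
      rw [map_pow]
      exact h0
    rw [h0'] at e1 e2
    have hs : aeval x (gq P) ^ (3 * s + 2) = aeval x (gq P ^ s) ^ 3 * aeval x (gq P) ^ 2 := by
      rw [map_pow]
      ring
    rw [hs]
    rw [map_add, map_sub, map_sub, map_mul, map_mul, map_mul, map_mul, map_mul, map_mul, map_mul,
      map_mul, map_mul, map_pow (aeval x) (gq P ^ s) 2, map_ofNat]
    rw [← h1A, ← h1G, ← h2A, ← h2G]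
    linear_combination (-(aeval x (gq P) ^ 2 * aeval x (gq P ^ s) ^ 2)) * e1
      + (2 * aeval x (gq P) ^ 2 * aeval x (gq P ^ s)) * e2
      + (-(aeval x (gq P) ^ 2 * aeval x (gq P ^ s) * lapD D (aeval x (gq P ^ s)))
        + 2 * aeval x (gq P) ^ 2 *
          ∑ a, D a (aeval x (gq P ^ s)) * D a (aeval x (gq P ^ s))) * h0'

end Pool.Agent.Work.MP_157c12_gt.AN
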