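import Pool.Agent.Work.MP_157c12_gt.AN.Stmts

/-!
# Item JAC: the Jacobian criterion
-/

set_option autoImplicit false

open MvPolynomial

namespace Pool.Agent.Work.MP_157c12_gt.AN

namespace I_JAC

/-- chain rule -/
lemma chain {k : Type} [Field k] {K : Type} [Field K] [Algebra k K] {n : ℕ}
    (D : Derivation k K K) (z : Fin n → K) (r : MvPolynomial (Fin n) k) :
    D (aeval z r) = ∑ a, aeval z (pderiv a r) * D (z a) := by
  induction r using MvPolynomial.induction_on with
  | C c =>
    rw [aeval_C, Derivation.map_algebraMap]
    simp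
  | add p q hp hq =>
    simp only [map_add, hp, hq, add_mul, Finset.sum_add_distrib]
  | mul_X p j hp =>
    rw [map_mul, aeval_X, Derivation.leibniz, hp]
    simp only [pderiv_mul, map_add, map_mul, aeval_X, smul_eq_mul, add_mul, Finset.sum_add_distrib]
    have h1 : ∑ a, aeval z p * aeval z (pderiv a (X j : MvPolynomial (Fin n) k)) * D (z a) =
        aeval z p * D (z j) := by
      rw [Finset.sum_eq_single j]
      · simp
      · intro b _ hb
        rw [pderiv_X_of_ne hb.symm]
        simp
      · intro h
        exact absurd (Finset.mem_univ j) h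
    rw [h1, Finset.mul_sum, add_comm]
    congr 1
    refine Finset.sum_congr rfl fun a _ => ?_
    ring

lemma deg_lt {k : Type} [Field k] {n N : ℕ} (r : MvPolynomial (Fin n) k)
    (h : r.totalDegree ≤ N + 1) (a : Fin n) : (pderiv a r).totalDegree ≤ N := by
  refine Finset.sup_le fun m hm => ?_
  rw [mem_support_iff, coeff_pderiv] at hm
  have h1 : coeff (m + Finsupp.single a 1) r ≠ 0 := left_ne_zero_of_mul hm
  have h2 := le_totalDegree (mem_support_iff.mpr h1)
  rw [Finsupp.sum_add_index' (fun _ => rfl) (fun _ _ _ => rfl)] at h2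
  simp only [Finsupp.sum_single_index] at h2
  omega

lemma const {k : Type} [Field k] [CharZero k] {n : ℕ} (r : MvPolynomial (Fin n) k)
    (h : ∀ a, pderiv a r = 0) : r.totalDegree = 0 := by
  apply Nat.le_zero.mp
  refine Finset.sup_le fun s hs => ?_
  rw [mem_support_iff] at hs
  by_contra hne
  have h0 : s ≠ 0 := by
    rintro rfl
    apply hne
    simp
  obtain ⟨a, ha⟩ := Finsupp.ne_iff.mp h0
  have ha' : s a ≠ 0 := ha
  have h1 : coeff (s - Finsupp.single a 1) (pderiv a r) = 0 := by
    rw [h a, coeff_zero]
  rw [coeff_pderiv] at h1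
  have h2 : s - Finsupp.single a 1 + Finsupp.single a 1 = s := by
    apply tsub_add_cancel_of_le
    rw [Finsupp.single_le_iff]
    omega
  rw [h2] at h1
  rcases mul_eq_zero.mp h1 with h3 | h3
  · exact hs h3
  · have h4 : ((((s - Finsupp.single a 1 : Fin n →₀ ℕ) a) + 1 : ℕ) : k) = 0 := by
      push_cast
      exact h3
    exact Nat.cast_ne_zero.mpr (Nat.succ_ne_zero _) h4

end I_JAC

open I_JAC in
theorem JAC_pf : S_JAC := by
  intro k _ _ K _ _ n d z hdet r
  have key : ∀ (N : ℕ) (r : MvPolynomial (Fin n) k), r.totalDegree ≤ N → aeval z r = 0 →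
      r = 0 := by
    intro N
    have base : ∀ r : MvPolynomial (Fin n) k, r.totalDegree = 0 → aeval z r = 0 → r = 0 := by
      intro r h0 hz
      rw [totalDegree_eq_zero_iff_eq_C] at h0
      rw [h0, aeval_C] at hz
      have h1 : coeff 0 r = 0 := by
        apply (algebraMap k K).injective
        rw [hz, map_zero]
      rw [h0, h1, map_zero]
    induction N with
    | zero =>
      intro r h hz
      exact base r (Nat.le_zero.mp h) hz
    | succ N ih =>
      intro r h hz
      have h1 : ∀ a, aeval z (pderiv a r) = 0 := by
        have hM : (Matrix.of fun i j => d i (z j)).mulVec (fun a => aeval z (pderiv a r)) = 0 := by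
          funext i
          have h2 := chain (d i) z r
          rw [hz, map_zero] at h2
          rw [Pi.zero_apply, h2]
          simp only [Matrix.mulVec, dotProduct, Matrix.of_apply]
          refine Finset.sum_congr rfl fun a _ => ?_
          ring
        have h3 := Matrix.eq_zero_of_mulVec_eq_zero hdet hM
        intro a
        exact congrFun h3 a
      have h2 : ∀ a, pderiv a r = 0 := fun a => ih _ (deg_lt r h a) (h1 a)
      exact base r (const r h2) hz
  exact key r.totalDegree r le_rfl

end Pool.Agent.Work.MP_157c12_gt.AN
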