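import Pool.Agent.Work.MP_157c12_gt.AN.Stmts
import Pool.Agent.Work.MP_157c12_gt.Bd.B02

/-!
# Roots near an approximate root
-/

set_option autoImplicit false

namespace Pool.Agent.Work.MP_157c12_gt.AN

open Pool.Agent.Work.MP_157c12_gt

namespace I_LIF

variable {m : ℕ}

lemma le_natCast (n : ℕ) : (0 : WithTop ℚ) ≤ ww m ((n : ℕ) : KK m) := by
  induction n with
  | zero =>
    rw [Nat.cast_zero, ww_zero]
    exact le_top
  | succ n ih =>
    rw [Nat.cast_succ]
    exact ww_add ih ww_one.ge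

lemma le_pow {a : KK m} (ha : 0 ≤ ww m a) (j : ℕ) : (0 : WithTop ℚ) ≤ ww m (a ^ j) := by
  induction j with
  | zero =>
    rw [pow_zero]
    exact ww_one.ge
  | succ j ih =>
    rw [pow_succ, ww_mul]
    exact add_nonneg ih ha

lemma pos_taylor {p : Polynomial (KK m)} {a : KK m} (ha : 0 ≤ ww m a)
    (hp : ∀ i, 0 < ww m (p.coeff i)) (i : ℕ) : 0 < ww m ((Polynomial.taylor a p).coeff i) := by
  rw [Polynomial.taylor_coeff, Polynomial.eval_eq_sum_range]
  refine ww_sum_lt (by simp) fun k _ => ?_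
  rw [Polynomial.hasseDeriv_coeff, ww_mul, ww_mul]
  exact lt_of_lt_of_le (lt_of_lt_of_le (hp _) (le_add_of_nonneg_left (le_natCast _)))
    (le_add_of_nonneg_right (le_pow ha k))

end I_LIF

open I_LIF in
theorem LIF_pf : S_LIF := by
  intro m f z hf hi hz hfz
  obtain ⟨i0, hi0⟩ := hi
  have hz1 : 0 ≤ ww m (1 - z) := ww_sub ww_one.ge hz
  have hz2 : 0 ≤ ww m (z - 1) := ww_sub hz ww_one.ge
  have hback : Polynomial.taylor (1 - z) (Polynomial.taylor (z - 1) f) = f := by
    rw [Polynomial.taylor_taylor]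
    have : (1 - z) + (z - 1) = 0 := by ring
    rw [this, Polynomial.taylor_zero]
  have hex : ∃ i, ww m ((Polynomial.taylor (z - 1) f).coeff i) ≤ 0 := by
    by_contra hcon
    push Not at hcon
    have h1 := pos_taylor hz1 hcon i0
    rw [hback, hi0] at h1
    exact lt_irrefl _ h1
  obtain ⟨i, hi⟩ := hex
  have hev : (Polynomial.taylor (z - 1) f).eval 1 = f.eval z := by
    rw [Polynomial.taylor_eval]
    congr 1
    ring
  have hlt : ww m ((Polynomial.taylor (z - 1) f).coeff i * 1 ^ i) <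
      ww m ((Polynomial.taylor (z - 1) f).eval 1) := by
    rw [one_pow, mul_one, hev]
    exact lt_of_le_of_lt hi hfz
  have hne : Polynomial.taylor (z - 1) f ≠ 0 := by
    intro h
    rw [h, Polynomial.coeff_zero, ww_zero] at hi
    exact absurd hi (by simp)
  obtain ⟨r, hr1, hr2⟩ := b2 (KK m) ℚ (ww m) (Polynomial.taylor (z - 1) f) 1 i one_ne_zero hlt hne
  refine ⟨r + (z - 1), ?_, ?_⟩
  · rw [← Polynomial.taylor_eval]
    exact hr1
  · rw [ww_one] at hr2
    have h3 : r + (z - 1) - z = -(1 - r) := by ring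
    rw [h3, ww_neg]
    exact hr2

end Pool.Agent.Work.MP_157c12_gt.AN
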