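import Pool.Agent.Work.MP_157c12_gt.AN.Stmts
import Pool.Agent.Work.MP_157c12_gt.Rot.PG

/-!
# Item LOC: locally the distance to the centre is a root of a polynomial from a finite list
-/

set_option autoImplicit false

open MvPolynomial
open scoped Manifold ContDiff

namespace Pool.Agent.Work.MP_157c12_gt.AN

open Pool.Agent.Work.MP_157c12_gt
open Pool.Agent.Work.MP_157c12_gt.Rot (nb lapC lapD Hyp PatchN FTn)

namespace I_LOC

lemma eval_sq_poly {n : ℕ} (x : Fin n → ℝ) (g : Polynomial ℝ) :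
    eval x (Polynomial.aeval (sq ℝ n) g) = g.eval (∑ a, x a ^ 2) := by
  have h := Polynomial.aeval_algHom_apply (MvPolynomial.aeval x : MvPolynomial (Fin n) ℝ →ₐ[ℝ] ℝ)
    (sq ℝ n) g
  have h1 : (MvPolynomial.aeval x : MvPolynomial (Fin n) ℝ →ₐ[ℝ] ℝ) (sq ℝ n) = ∑ a, x a ^ 2 := by
    simp [sq]
  rw [h1] at h
  rw [← MvPolynomial.coe_aeval_eq_eval]
  have h2 : (MvPolynomial.aeval x : MvPolynomial (Fin n) ℝ →ₐ[ℝ] ℝ) (Polynomial.aeval (sq ℝ n) g)
      = g.eval (∑ a, x a ^ 2) := by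
    rw [← h, Polynomial.coe_aeval_eq_eval]
  exact h2

/-- the polynomial in one variable attached to a factor -/
noncomputable def gOf {n : ℕ} (q : MvPolynomial (Fin n) ℝ) : Polynomial ℝ :=
  open Classical in
  if h : ∃ g : Polynomial ℝ, q = Polynomial.aeval (sq ℝ n) g then h.choose else 1

lemma gOf_spec {n : ℕ} (q : MvPolynomial (Fin n) ℝ)
    (h : ∃ g : Polynomial ℝ, q = Polynomial.aeval (sq ℝ n) g) :
    q = Polynomial.aeval (sq ℝ n) (gOf q) := by
  unfold gOf
  rw [dif_pos h]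
  exact h.choose_spec

lemma gOf_ne {n : ℕ} (q : MvPolynomial (Fin n) ℝ) (hq : q ≠ 0) : gOf q ≠ 0 := by
  by_cases h : ∃ g : Polynomial ℝ, q = Polynomial.aeval (sq ℝ n) g
  · intro h0
    have := gOf_spec q h
    rw [h0, map_zero] at this
    exact hq this
  · unfold gOf
    rw [dif_neg h]
    exact one_ne_zero

/-- the product over all the factors -/
noncomputable def GG {n : ℕ} (F : MvPolynomial (Fin n) ℝ) : Polynomial ℝ :=
  ((UniqueFactorizationMonoid.factors F).map gOf).prod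

lemma GG_ne {n : ℕ} (F : MvPolynomial (Fin n) ℝ) : GG F ≠ 0 := by
  unfold GG
  intro h
  rw [Multiset.prod_eq_zero_iff, Multiset.mem_map] at h
  obtain ⟨q, hq, hq0⟩ := h
  exact gOf_ne q (UniqueFactorizationMonoid.irreducible_of_factor q hq).ne_zero hq0

lemma GG_root {n : ℕ} (F P : MvPolynomial (Fin n) ℝ) (hF : F ≠ 0) (hP : Irreducible P)
    (hd : P ∣ F) (g : Polynomial ℝ) (hg : P = Polynomial.aeval (sq ℝ n) g) (x : Fin n → ℝ)
    (hx : eval x P = 0) : (GG F).eval (∑ a, x a ^ 2) = 0 := by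
  obtain ⟨q, hq, hPq⟩ := UniqueFactorizationMonoid.exists_mem_factors_of_dvd hF hP hd
  obtain ⟨u, hu⟩ := hPq
  have hex : ∃ g : Polynomial ℝ, q = Polynomial.aeval (sq ℝ n) g := by
    obtain ⟨c, hc⟩ : ∃ c : ℝ, (u : MvPolynomial (Fin n) ℝ) = C c := by
      obtain ⟨c, -, hc⟩ := MvPolynomial.isUnit_iff_eq_C_of_isReduced.mp u.isUnit
      exact ⟨c, hc⟩
    refine ⟨g * Polynomial.C c, ?_⟩
    rw [map_mul, Polynomial.aeval_C, ← hg, ← hu, hc]
    rfl
  have h1 := gOf_spec q hex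
  have h2 : eval x q = 0 := by
    rw [← hu, map_mul, hx, zero_mul]
  rw [h1, eval_sq_poly] at h2
  unfold GG
  rw [← Polynomial.coe_evalRingHom, map_multiset_prod, Multiset.prod_eq_zero_iff,
    Multiset.mem_map]
  exact ⟨gOf q, Multiset.mem_map_of_mem _ hq, by rw [Polynomial.coe_evalRingHom]; exact h2⟩

end I_LOC

open I_LOC in
theorem LOC_pf (hALG : S_ALG) (hGOO : S_GOO) (hFAC : S_FAC) (hTRA : S_TRA) (hTPD : S_TPD) :
    S_LOC := by
  intro n k al M _ _ _ x c F hn hx hk ha0 hak hFT hF hxF hR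
  obtain ⟨m, rfl⟩ : ∃ m, n = m + 1 := ⟨n - 1, by omega⟩
  have hm : 1 ≤ m := by omega
  obtain ⟨hF', hTP⟩ := hTRA (m + 1 + 1) F (fun a => c a) hF
  set F' : MvPolynomial (Fin (m + 1 + 1)) ℝ := aeval (fun a => X a + C (c a)) F with hF'def
  have hx' := Rot.XMM.imm_sub x c hx
  have hxF' : ∀ p, eval (fun a => (x p - c) a) F' = 0 := by
    intro p
    have h1 : eval (fun a => (x p - c) a) F' = eval (fun a => x p a) F := by
      rw [hF'def, ← MvPolynomial.coe_aeval_eq_eval, ← MvPolynomial.coe_aeval_eq_eval]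
      show (aeval (fun a => (x p - c) a) : MvPolynomial (Fin (m + 1 + 1)) ℝ →ₐ[ℝ] ℝ)
        (aeval (fun a => X a + C (c a)) F) =
        (aeval (fun a => x p a) : MvPolynomial (Fin (m + 1 + 1)) ℝ →ₐ[ℝ] ℝ) F
      rw [← AlgHom.comp_apply, MvPolynomial.comp_aeval]
      congr 1
      apply MvPolynomial.algHom_ext
      intro a
      simp
    rw [h1]
    exact hxF p
  refine ⟨GG F', GG_ne F', ?_⟩
  -- in charts
  have key : ∀ φ ∈ atlas (E (m + 1)) M, ∀ q ∈ φ.target,
      (GG F').eval (∑ a, (x (φ.symm q) - c) a ^ 2) = 0 := by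
    intro φ hφ q hq
    by_contra hne
    have hP := Rot.pr_MP (m + 1) (m + 1 + 1) M (fun p => x p - c) hx' φ hφ
    have hcont : ContinuousOn (fun q => (GG F').eval (∑ a, (x (φ.symm q) - c) a ^ 2))
        φ.target := by
      refine (GG F').continuous.comp_continuousOn ?_
      refine continuousOn_finsetSum _ fun a _ => ?_
      exact ((hP.smooth a).continuousOn).pow 2
    have hO' : IsOpen (φ.target ∩ (fun q => (GG F').eval (∑ a, (x (φ.symm q) - c) a ^ 2)) ⁻¹'
        {0}ᶜ) := hcont.isOpen_inter_preimage φ.open_target isOpen_compl_singleton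
    set O' : TopologicalSpace.Opens (E (m + 1)) := ⟨_, hO'⟩ with hO'def
    have hsub : ∀ p ∈ O', p ∈ φ.target := fun p hp => hp.1
    have hO'ne : (O' : Set (E (m + 1))).Nonempty := ⟨q, hq, hne⟩
    obtain ⟨O'', P, hle, hne'', hirr, hdvd, hPv⟩ := hFAC (m + 1) O' (fun q => x (φ.symm q) - c) F'
      hF' hO'ne (fun a => ((hP.smooth a).continuousOn).mono fun p hp => hsub p hp)
      (fun p _ => hxF' (φ.symm p))
    have hP'' : PatchN O'' (fun q => x (φ.symm q) - c) :=
      ⟨fun a => (hP.smooth a).mono fun p hp => hsub p (hle hp),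
        fun p hp => hP.imm p (hsub p (hle hp))⟩
    have hFT'' : FTn O'' (fun q => x (φ.symm q) - c) k al :=
      fun p hp => hFT φ hφ p (hsub p (hle hp))
    have hgood : Good k al P := hGOO (m + 1) k al O'' (fun q => x (φ.symm q) - c) P hk ha0 hak
      hne'' hP'' hFT'' hirr hPv
    have htpd : cx (tp P) ∣ cx (tp F) := by
      have := hTPD (m + 1 + 1) P F' hF' hdvd
      rwa [hTP] at this
    obtain ⟨g, hg⟩ := hALG m k al P hm hgood fun R hR1 hR2 hR3 =>
      hR R hR1 (hR2.trans htpd) hR3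
    obtain ⟨p, hp⟩ := hne''
    have h1 := GG_root F' P hF' hirr hdvd g hg (fun a => (x (φ.symm p) - c) a) (hPv p hp)
    exact (hle hp).2 h1
  intro p
  have h1 := key (chartAt (E (m + 1)) p) (chart_mem_atlas _ _) (chartAt (E (m + 1)) p p)
    ((chartAt (E (m + 1)) p).map_source (mem_chart_source _ _))
  rw [(chartAt (E (m + 1)) p).left_inv (mem_chart_source _ _)] at h1
  rw [EuclideanSpace.real_norm_sq_eq]
  exact h1

end Pool.Agent.Work.MP_157c12_gt.AN
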