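import Pool.Agent.Work.MP_157c12_gt.AN.Stmts

/-!
# Item MIN: independent vectors have a non-zero minor
-/

set_option autoImplicit false

namespace Pool.Agent.Work.MP_157c12_gt.AN

namespace I_MIN

lemma exists_not_mem {K : Type} [Field K] {n : ℕ} (v : Fin n → Fin (n + 1) → K) :
    ∃ c : Fin (n + 1), (Pi.single c 1 : Fin (n + 1) → K) ∉ Submodule.span K (Set.range v) := by
  by_contra hcon
  push Not at hcon
  have htop : Submodule.span K (Set.range v) = ⊤ := by
    rw [eq_top_iff, ← (Pi.basisFun K (Fin (n + 1))).span_eq]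
    rw [Submodule.span_le]
    rintro _ ⟨c, rfl⟩
    rw [Pi.basisFun_apply]
    exact hcon c
  have h1 : Module.finrank K (Submodule.span K (Set.range v)) ≤ n := by
    have := finrank_range_le_card (R := K) v
    simpa [Set.finrank] using this
  rw [htop, finrank_top, Module.finrank_fintype_fun_eq_card, Fintype.card_fin] at h1
  omega

end I_MIN

theorem MIN_pf : S_MIN := by
  intro K _ n v hv
  obtain ⟨c, hc⟩ := I_MIN.exists_not_mem v
  refine ⟨c, fun h0 => ?_⟩
  have hli : LinearIndependent K
      (Fin.cons (Pi.single c 1 : Fin (n + 1) → K) v : Fin (n + 1) → Fin (n + 1) → K) :=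
    linearIndependent_finCons.mpr ⟨hv, hc⟩
  have hu : IsUnit (Matrix.of
      (Fin.cons (Pi.single c 1 : Fin (n + 1) → K) v : Fin (n + 1) → Fin (n + 1) → K)) :=
    Matrix.linearIndependent_rows_iff_isUnit.mp hli
  have hd : (Matrix.of
      (Fin.cons (Pi.single c 1 : Fin (n + 1) → K) v : Fin (n + 1) → Fin (n + 1) → K)).det ≠ 0 :=
    ((Matrix.isUnit_iff_isUnit_det _).mp hu).ne_zero
  apply hd
  rw [Matrix.det_succ_row_zero]
  refine Finset.sum_eq_zero fun j _ => ?_
  by_cases hj : j = c
  · subst hj
    have hs : (Matrix.of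
        (Fin.cons (Pi.single j 1 : Fin (n + 1) → K) v :
          Fin (n + 1) → Fin (n + 1) → K)).submatrix Fin.succ j.succAbove =
        Matrix.of fun i l => v i (j.succAbove l) := by
      ext i l
      simp
    rw [hs, h0, mul_zero]
  · have : (Matrix.of
        (Fin.cons (Pi.single c 1 : Fin (n + 1) → K) v : Fin (n + 1) → Fin (n + 1) → K)) 0 j = 0 := by
      simp [Pi.single_eq_of_ne hj]
    rw [this, mul_zero, zero_mul]

end Pool.Agent.Work.MP_157c12_gt.AN
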