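import Pool.Agent.Work.MP_157c12_gt.AN.Stmts

/-!
# Item NDA: the data at a point over the absolute quadric
-/

set_option autoImplicit false

open MvPolynomial
open scoped Manifold ContDiff

namespace Pool.Agent.Work.MP_157c12_gt.AN

open Pool.Agent.Work.MP_157c12_gt
open Pool.Agent.Work.MP_157c12_gt.Rot (nb lapC lapD Hyp PatchN FTn)

namespace I_NDA

theorem xi_eq {R : Type} [CommRing R] [Algebra ℂ R] {m : ℕ} (ξ η : R) (y : Fin m → R) :
    ξ = nu ξ η y 0 + Complex.I • nu ξ η y 1 := by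
  have h0 : nu ξ η y 0 = algebraMap ℂ R (1 / 2) * (ξ + η) := rfl
  have h1 : nu ξ η y 1 = algebraMap ℂ R (1 / (2 * Complex.I)) * (ξ - η) := rfl
  rw [h0, h1, Algebra.smul_def, ← mul_assoc, ← map_mul]
  have h2 : Complex.I * (1 / (2 * Complex.I)) = 1 / 2 := by
    field_simp [Complex.I_ne_zero]
  have h3 : algebraMap ℂ R (1 / 2) + algebraMap ℂ R (1 / 2) = 1 := by
    rw [← map_add]
    norm_num
  rw [h2]
  linear_combination (-ξ) * h3

theorem eta_eq {R : Type} [CommRing R] [Algebra ℂ R] {m : ℕ} (ξ η : R) (y : Fin m → R) :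
    η = nu ξ η y 0 + (-Complex.I) • nu ξ η y 1 := by
  have h0 : nu ξ η y 0 = algebraMap ℂ R (1 / 2) * (ξ + η) := rfl
  have h1 : nu ξ η y 1 = algebraMap ℂ R (1 / (2 * Complex.I)) * (ξ - η) := rfl
  rw [h0, h1, Algebra.smul_def, ← mul_assoc, ← map_mul]
  have h2 : -Complex.I * (1 / (2 * Complex.I)) = -(1 / 2) := by
    field_simp [Complex.I_ne_zero]
  have h3 : algebraMap ℂ R (1 / 2) + algebraMap ℂ R (1 / 2) = 1 := by
    rw [← map_add]
    norm_num
  rw [h2, map_neg]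
  linear_combination (-η) * h3

end I_NDA

open I_NDA in
theorem NDA_pf (hF : S_FTK) (hM : S_NME) (hI : S_NIN) (hL : S_NLI) : S_NDA := by
  intro m k al P f hG hP
  obtain ⟨h1, _, h3⟩ := hM m f
  obtain ⟨hd, hi⟩ := hI m f
  obtain ⟨hdet, hW⟩ := hF (m + 1) k al P hG (KK m) (dd m) (pt f) (fun i j g => dd_comm i j g)
    h3 hP
  rw [h1] at hdet hW
  have hE : EE f ≠ 0 := by
    intro h0
    apply hdet
    rw [hd, h0, mul_zero]
  obtain ⟨W, hW2⟩ := IsAlgClosed.exists_pow_nat_eq (GM f).det (n := 2) (by norm_num)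
  have hinv : (GM f)⁻¹ = GI f := Matrix.inv_eq_right_inv (hi hE)
  have hx := hW W hW2
  rw [hinv] at hx
  have hx' : ∀ a, pL k al (Lf f W) (pt f a) = 0 := hx
  obtain ⟨_, _, l3, l4⟩ := hL m k al f W
  refine ⟨W, hG.k1, hG.a0, hG.ak, hE, by rw [hW2, hd], ?_, ?_, ?_⟩
  · have h4 := xi_eq (m := m) (f * rp m (-1) - rp m 1 * jj m (th2 m)) (rp m 1)
      (fun i => rp m 1 * jj m (ths m i))
    have h5 : pL k al (Lf f W) (pt f 0 + Complex.I • pt f 1) = 0 := by
      rw [l3, l4, hx', hx', smul_zero, add_zero]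
    rw [h4]
    exact h5
  · have h4 := eta_eq (m := m) (f * rp m (-1) - rp m 1 * jj m (th2 m)) (rp m 1)
      (fun i => rp m 1 * jj m (ths m i))
    have h5 : pL k al (Lf f W) (pt f 0 + (-Complex.I) • pt f 1) = 0 := by
      rw [l3, l4, hx', hx', smul_zero, add_zero]
    rw [h4]
    exact h5
  · intro i
    exact hx' i.succ.succ

end Pool.Agent.Work.MP_157c12_gt.AN
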