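import Pool.Agent.Work.MP_157c12_gt.AN.Stmts

/-!
# [NDE] decay unless the value of `f` is `-1`
-/

set_option autoImplicit false

open MvPolynomial

namespace Pool.Agent.Work.MP_157c12_gt.AN

open Pool.Agent.Work.MP_157c12_gt
open Pool.Agent.Work.MP_157c12_gt.Rot (nb lapC lapD Hyp PatchN FTn)

namespace I_NDE

variable {m : ℕ}

lemma inv_val {g : KK m} {s : ℚ} (h : ww m g = (s : WithTop ℚ)) :
    ww m g⁻¹ = ((-s : ℚ) : WithTop ℚ) := by
  have hg : g ≠ 0 := by
    rw [← ww_ne_top, h]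
    exact WithTop.coe_ne_top
  have h1 : ww m g + ww m g⁻¹ = 0 := by
    rw [← ww_mul, mul_inv_cancel₀ hg, ww_one]
  rcases ww_cases g⁻¹ with h0 | ⟨r, hr⟩
  · exact absurd h0 (inv_ne_zero hg)
  · rw [h, hr] at h1
    have h2 : s + r = 0 := by exact_mod_cast h1
    rw [hr]
    have h3 : r = -s := by linarith
    rw [h3]

lemma le_mul {f g : KK m} {a b : ℚ} (hf : (a : WithTop ℚ) ≤ ww m f)
    (hg : (b : WithTop ℚ) ≤ ww m g) : ((a + b : ℚ) : WithTop ℚ) ≤ ww m (f * g) := by
  rw [ww_mul, WithTop.coe_add]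
  exact add_le_add hf hg

lemma mul_val {f g : KK m} {a b : ℚ} (hf : ww m f = (a : WithTop ℚ))
    (hg : ww m g = (b : WithTop ℚ)) : ww m (f * g) = ((a + b : ℚ) : WithTop ℚ) := by
  rw [ww_mul, hf, hg, WithTop.coe_add]

lemma val_nat (n : ℕ) (hn : n ≠ 0) : ww m (n : KK m) = ((0 : ℚ) : WithTop ℚ) := by
  have h := ww_real (m := m) (r := (n : ℝ)) (by exact_mod_cast hn)
  rw [map_natCast] at h
  exact h

lemma val_two : ww m (2 : KK m) = ((0 : ℚ) : WithTop ℚ) := by
  exact_mod_cast val_nat (m := m) 2 (by norm_num)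

lemma val_four : ww m (4 : KK m) = ((0 : ℚ) : WithTop ℚ) := by
  exact_mod_cast val_nat (m := m) 4 (by norm_num)

lemma val_rt2 (i : Fin m) : ww m (rt m i ^ 2) = ((-2 : ℚ) : WithTop ℚ) := by
  rw [pow_two, mul_val (ww_rt i) (ww_rt i)]
  norm_num

lemma neg_le {f : KK m} {a : ℚ} (hf : (a : WithTop ℚ) ≤ ww m f) :
    (a : WithTop ℚ) ≤ ww m (-f) := by
  rw [ww_neg]
  exact hf

end I_NDE

open I_NDE in
theorem NDE_pf (hD : S_DEC) : S_NDE := by
  intro m k al f W hN h1 h2
  rcases ww_cases f with h0 | ⟨t, ht⟩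
  · rw [h0, ww_zero] at h2
    exact absurd h2 (not_lt.mpr le_top)
  by_contra hne
  rw [ht] at h1 h2 hne
  have t1 : -2 < t := by exact_mod_cast h1
  have t2 : t < 0 := by exact_mod_cast h2
  have t3 : t ≠ -1 := fun h => hne (by rw [h])
  -- values of the derivatives
  have hd : ∀ i : Fin m, (t : WithTop ℚ) ≤ ww m (dd m i.succ f) := fun i => le_ww_dd ht.ge _
  -- the value of EE f
  have e1 : ww m (dd m 0 f - f) = (t : WithTop ℚ) := by
    have a1 := dd_zero_lead ht.ge
    have a2 : ww m (-(((t : ℂ) + 1) • f)) = (t : WithTop ℚ) := by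
      rw [ww_neg, smul_eq, ww_mul, ww_algebraMap, zero_add, ht]
      intro h3
      apply t3
      have h4 : ((t + 1 : ℚ) : ℂ) = 0 := by
        push_cast
        exact h3
      have h5 : (t + 1 : ℚ) = 0 := by exact_mod_cast h4
      linarith
    have a3 : dd m 0 f - f = -(((t : ℂ) + 1) • f) + (dd m 0 f + (t : ℂ) • f) := by
      rw [smul_eq, smul_eq, map_add, map_one]
      ring
    rw [a3, ww_add_eq, a2]
    rw [a2]
    exact a1
  have e2 : (t : WithTop ℚ) < ww m (-∑ i : Fin m, dd m i.succ f ^ 2 / (4 * rt m i ^ 2)) := by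
    rw [ww_neg]
    refine ww_sum_lt WithTop.coe_ne_top fun i _ => ?_
    have a1 : ((t + t + -(0 + -2) : ℚ) : WithTop ℚ) ≤
        ww m (dd m i.succ f ^ 2 / (4 * rt m i ^ 2)) := by
      rw [div_eq_mul_inv, pow_two]
      exact le_mul (le_mul (hd i) (hd i)) (inv_val (mul_val val_four (val_rt2 i))).ge
    refine lt_of_lt_of_le ?_ a1
    have : t < t + t + -(0 + -2) := by linarith
    exact_mod_cast this
  have e3 : ww m (EE f) = (t : WithTop ℚ) := by
    have : EE f = (dd m 0 f - f) + -∑ i : Fin m, dd m i.succ f ^ 2 / (4 * rt m i ^ 2) := by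
      rw [EE, sub_eq_add_neg _ (∑ i : Fin m, _)]
    rw [this, ww_add_eq, e1]
    rw [e1]
    exact e2
  have ei := inv_val e3
  have hpos : ∀ {g : KK m} {s : ℚ}, (s : WithTop ℚ) ≤ ww m g → 0 < s → 0 < ww m g := by
    intro g s hs h
    refine lt_of_lt_of_le ?_ hs
    exact_mod_cast h
  -- the entries of the inverse metric
  have g00 : 0 < ww m (EE f)⁻¹ := hpos ei.ge (by linarith)
  have g0i : ∀ i : Fin m, 0 < ww m (-(dd m i.succ f) / (2 * rt m i ^ 2 * EE f)) := by
    intro i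
    have a1 : ((t + -(0 + -2 + t) : ℚ) : WithTop ℚ) ≤
        ww m (-(dd m i.succ f) / (2 * rt m i ^ 2 * EE f)) := by
      rw [div_eq_mul_inv]
      exact le_mul (neg_le (hd i)) (inv_val (mul_val (mul_val val_two (val_rt2 i)) e3)).ge
    exact hpos a1 (by linarith)
  have gij : ∀ i j : Fin m, 0 < ww m ((if i = j then (rt m i ^ 2)⁻¹ else 0) +
      dd m i.succ f * dd m j.succ f / (4 * rt m i ^ 2 * rt m j ^ 2 * EE f)) := by
    intro i j
    refine ww_add_lt ?_ ?_
    · split_ifs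
      · exact hpos (inv_val (val_rt2 i)).ge (by norm_num)
      · rw [ww_zero]
        exact WithTop.coe_lt_top (0 : ℚ)
    · have a1 : ((t + t + -(0 + -2 + -2 + t) : ℚ) : WithTop ℚ) ≤
          ww m (dd m i.succ f * dd m j.succ f / (4 * rt m i ^ 2 * rt m j ^ 2 * EE f)) := by
        rw [div_eq_mul_inv]
        exact le_mul (le_mul (hd i) (hd j))
          (inv_val (mul_val (mul_val (mul_val val_four (val_rt2 i)) (val_rt2 j)) e3)).ge
      exact hpos a1 (by linarith)
  have hG : ∀ i j, 0 < ww m (GI f i j) := by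
    intro i j
    refine Fin.cases ?_ (fun i => ?_) i <;> refine Fin.cases ?_ (fun j => ?_) j
    · exact g00
    · exact g0i j
    · exact g0i i
    · exact gij i j
  have hW : W ≠ 0 := by
    intro h
    have h3 := hN.w
    rw [h, pow_two, mul_zero] at h3
    have h4 : (∏ i, rt m i ^ 2) * EE f ≠ 0 :=
      mul_ne_zero (Finset.prod_ne_zero_iff.mpr fun i _ => pow_ne_zero 2 (rt_ne i)) hN.e
    exact h4 h3.symm
  exact hD m k al (GI f) W (rp m 1) hW hG hN.ak (rp_ne 1) hN.fe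

end Pool.Agent.Work.MP_157c12_gt.AN
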