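import Pool.Agent.Work.MP_157c12_gt.AN.Stmts

/-!
# [NDF] the form of `f`
-/

set_option autoImplicit false

namespace Pool.Agent.Work.MP_157c12_gt.AN

open Pool.Agent.Work.MP_157c12_gt
open Pool.Agent.Work.MP_157c12_gt.Rot (nb lapC lapD Hyp PatchN FTn)

namespace I_NDF

variable {m : ℕ}

lemma ww_inv {f : KK m} {t : ℚ} (h : ww m f = t) : ww m f⁻¹ = ((-t : ℚ) : WithTop ℚ) := by
  have hf : f ≠ 0 := by
    rw [← ww_ne_top, h]
    exact WithTop.coe_ne_top
  have h1 : ww m (f * f⁻¹) = 0 := by rw [mul_inv_cancel₀ hf, ww_one]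
  rw [ww_mul, h] at h1
  rcases ww_cases f⁻¹ with h2 | ⟨s, hs⟩
  · exact absurd h2 (inv_ne_zero hf)
  · rw [hs] at h1 ⊢
    have h3 : t + s = 0 := by exact_mod_cast h1
    have h4 : s = -t := by linarith
    rw [h4]

lemma ww_two : ww m (2 : KK m) = ((0 : ℚ) : WithTop ℚ) := by
  have h : (2 : KK m) = algebraMap ℂ (KK m) 2 := (map_ofNat _ _).symm
  rw [h]
  exact ww_algebraMap two_ne_zero

lemma ww_four : ww m (4 : KK m) = ((0 : ℚ) : WithTop ℚ) := by
  have h : (4 : KK m) = algebraMap ℂ (KK m) 4 := (map_ofNat _ _).symm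
  rw [h]
  exact ww_algebraMap (by norm_num)

lemma ww_mul_eq {f g : KK m} {s t : ℚ} (hf : ww m f = s) (hg : ww m g = t) :
    ww m (f * g) = ((s + t : ℚ) : WithTop ℚ) := by
  rw [ww_mul, hf, hg]
  rfl

lemma le_mul {f g : KK m} {s t r : ℚ} (hf : (s : WithTop ℚ) ≤ ww m f)
    (hg : (t : WithTop ℚ) ≤ ww m g) (h : r ≤ s + t) : (r : WithTop ℚ) ≤ ww m (f * g) := by
  rw [ww_mul]
  refine (WithTop.coe_le_coe.mpr h).trans ?_
  rw [WithTop.coe_add]
  exact add_le_add hf hg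

lemma ww_rt2 (i : Fin m) : ww m (rt m i ^ 2) = ((-2 : ℚ) : WithTop ℚ) := by
  rw [pow_two, ww_mul_eq (ww_rt i) (ww_rt i)]
  norm_num

lemma pos_of {f : KK m} {r : ℚ} (hr : 0 < r) (h : (r : WithTop ℚ) ≤ ww m f) : 0 < ww m f := by
  refine lt_of_lt_of_le ?_ h
  exact_mod_cast hr

end I_NDF

open I_NDF in
theorem NDF_pf (h1 : S_DEC) : S_NDF := by
  intro m k al f W hN hf
  obtain ⟨κ, hκ⟩ := exists_lead (f := f) (t := -1) hf.ge
  rw [neg_neg] at hκ
  obtain ⟨f₁, hf₁⟩ : ∃ f₁ : KK m, f₁ = f - rp m 1 * jj m κ := ⟨_, rfl⟩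
  rw [← hf₁] at hκ
  have hff : f = rp m 1 * jj m κ + f₁ := by
    rw [hf₁]
    ring
  have hκ0 : κ ≠ 0 := by
    intro h0
    rw [hf₁, h0, map_zero, mul_zero, sub_zero, hf] at hκ
    exact lt_irrefl _ hκ
  refine ⟨κ, f₁, hκ0, hff, ?_⟩
  by_contra hlt
  rw [not_le] at hlt
  rcases ww_cases f₁ with h0 | ⟨t, ht⟩
  · rw [h0, ww_zero] at hlt
    exact not_top_lt hlt
  have ht0 : t < 0 := by
    rw [ht] at hlt
    exact_mod_cast hlt
  have ht1 : -1 < t := by
    rw [ht] at hκ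
    exact_mod_cast hκ
  have hd : ∀ i : Fin (m + 1), ((-1 : ℚ) : WithTop ℚ) ≤ ww m (dd m i f) :=
    fun i => le_ww_dd hf.ge i
  have hsum : ((0 : ℚ) : WithTop ℚ) ≤
      ww m (∑ i : Fin m, dd m i.succ f ^ 2 / (4 * rt m i ^ 2)) := by
    refine ww_sum fun i _ => ?_
    rw [div_eq_mul_inv, pow_two (dd m i.succ f)]
    exact le_mul (le_mul (hd i.succ) (hd i.succ) le_rfl)
      (ww_inv (ww_mul_eq ww_four (ww_rt2 i))).ge (by norm_num)
  have hdf : dd m 0 f - f = dd m 0 f₁ - f₁ := by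
    have h2 : dd m 0 (rp m 1 * jj m κ) = rp m 1 * jj m κ := by
      rw [Derivation.leibniz, dd_zero_jj, dd_zero_rp, smul_zero, zero_add]
      simp [mul_comm]
    rw [hff, map_add, h2]
    ring
  have hE : ww m (EE f) = t := by
    have e1 : EE f = -((((t + 1 : ℚ) : ℂ)) • f₁) + ((dd m 0 f₁ + (t : ℂ) • f₁) -
        ∑ i : Fin m, dd m i.succ f ^ 2 / (4 * rt m i ^ 2)) := by
      rw [EE, hdf]
      rw [smul_eq, smul_eq]
      push_cast
      ring
    have e2 : ww m (-((((t + 1 : ℚ) : ℂ)) • f₁)) = t := by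
      rw [ww_neg, smul_eq, ww_mul, ww_algebraMap, ht, zero_add]
      have : (t + 1 : ℚ) ≠ 0 := by linarith
      exact_mod_cast this
    rw [e1, ww_add_eq, e2]
    rw [e2]
    refine ww_sub_lt (dd_zero_lead ht.ge) (lt_of_lt_of_le ?_ hsum)
    exact_mod_cast ht0
  have hdn : ∀ i : Fin (m + 1), ((-1 : ℚ) : WithTop ℚ) ≤ ww m (-(dd m i f)) := by
    intro i
    rw [ww_neg]
    exact hd i
  have hGI : ∀ i j, 0 < ww m (GI f i j) := by
    intro i j
    refine Fin.cases ?_ (fun i => ?_) i <;> refine Fin.cases ?_ (fun j => ?_) j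
    · show 0 < ww m ((EE f)⁻¹)
      exact pos_of (r := -t) (by linarith) (ww_inv hE).ge
    · show 0 < ww m (-(dd m j.succ f) / (2 * rt m j ^ 2 * EE f))
      rw [div_eq_mul_inv]
      exact pos_of (r := 1 - t) (by linarith) (le_mul (hdn j.succ)
        (ww_inv (ww_mul_eq (ww_mul_eq ww_two (ww_rt2 j)) hE)).ge (by linarith))
    · show 0 < ww m (-(dd m i.succ f) / (2 * rt m i ^ 2 * EE f))
      rw [div_eq_mul_inv]
      exact pos_of (r := 1 - t) (by linarith) (le_mul (hdn i.succ)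
        (ww_inv (ww_mul_eq (ww_mul_eq ww_two (ww_rt2 i)) hE)).ge (by linarith))
    · show 0 < ww m ((if i = j then (rt m i ^ 2)⁻¹ else 0) +
        dd m i.succ f * dd m j.succ f / (4 * rt m i ^ 2 * rt m j ^ 2 * EE f))
      refine pos_of (r := 2) (by norm_num) (ww_add ?_ ?_)
      · split_ifs
        · rw [ww_inv (ww_rt2 i)]
          norm_num
        · rw [ww_zero]
          exact le_top
      · rw [div_eq_mul_inv]
        exact le_mul (le_mul (hd i.succ) (hd j.succ) le_rfl)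
          (ww_inv (ww_mul_eq (ww_mul_eq (ww_mul_eq ww_four (ww_rt2 i)) (ww_rt2 j)) hE)).ge
          (by linarith)
  have hW : W ≠ 0 := by
    intro h
    have h2 := hN.w
    rw [h, zero_pow two_ne_zero] at h2
    exact mul_ne_zero (Finset.prod_ne_zero_iff.mpr fun i _ => pow_ne_zero 2 (rt_ne i)) hN.e
      h2.symm
  exact h1 m k al (GI f) W (rp m 1) hW hGI hN.ak (rp_ne 1) hN.fe

end Pool.Agent.Work.MP_157c12_gt.AN
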