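import Pool.Agent.Work.MP_157c12_gt.AN.Stmts

/-!
# Item NDG: an irreducible polynomial which vanishes on a patch has a nondegenerate metric
-/

set_option autoImplicit false

open MvPolynomial

namespace Pool.Agent.Work.MP_157c12_gt.AN

open Pool.Agent.Work.MP_157c12_gt
open Pool.Agent.Work.MP_157c12_gt.Rot (nb lapC lapD Hyp PatchN FTn)

namespace I_NDG

lemma sub_add_single {n : ℕ} {s : Fin n →₀ ℕ} {a : Fin n} (ha : s a ≠ 0) :
    s - Finsupp.single a 1 + Finsupp.single a 1 = s := by
  refine tsub_add_cancel_of_le ?_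
  rw [Finsupp.single_le_iff]
  omega

/-- a polynomial whose derivatives are zero is a constant -/
lemma eq_C_of_pderiv {n : ℕ} {P : MvPolynomial (Fin n) ℝ} (h : ∀ a, pderiv a P = 0) :
    P = C (coeff 0 P) := by
  ext s
  rw [coeff_C]
  split_ifs with hs
  · rw [hs]
  · have hex : ∃ a, s a ≠ 0 := by
      by_contra hcon
      apply hs
      ext a
      by_contra hne
      exact hcon ⟨a, fun h0 => hne (by rw [h0]; rfl)⟩
    obtain ⟨a, ha⟩ := hex
    have h1 := congrArg (coeff (s - Finsupp.single a 1)) (h a)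
    rw [coeff_pderiv, coeff_zero, sub_add_single ha] at h1
    rcases mul_eq_zero.mp h1 with h3 | h3
    · exact h3
    · exfalso
      have h4 : (0 : ℝ) ≤ (((s - Finsupp.single a 1 : Fin n →₀ ℕ) a : ℕ) : ℝ) := Nat.cast_nonneg _
      linarith

/-- a non-zero derivative has smaller degree -/
lemma totalDegree_pderiv_lt {n : ℕ} {P : MvPolynomial (Fin n) ℝ} {a : Fin n}
    (h : pderiv a P ≠ 0) : (pderiv a P).totalDegree < P.totalDegree := by
  have key : ∀ s ∈ (pderiv a P).support, (s.sum fun _ e => e) < P.totalDegree := by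
    intro s hs
    have h1 : coeff (s + Finsupp.single a 1) P ≠ 0 := by
      intro h0
      rw [mem_support_iff, coeff_pderiv, h0, zero_mul] at hs
      exact hs rfl
    have h2 := le_totalDegree (mem_support_iff.mpr h1)
    rw [Finsupp.sum_add_index' (fun _ => rfl) (fun _ _ _ => rfl),
      Finsupp.sum_single_index rfl] at h2
    exact h2
  obtain ⟨s, hs⟩ := (support_nonempty.mpr h)
  rw [totalDegree, Finset.sup_lt_iff]
  · exact key
  · exact (Nat.zero_le _).trans_lt (key s hs)

/-- an irreducible polynomial has a derivative which is not a multiple of it -/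
lemma not_all_dvd {n : ℕ} {P : MvPolynomial (Fin n) ℝ} (hP : Irreducible P)
    (h : ∀ a, P ∣ pderiv a P) : False := by
  have h0 : ∀ a, pderiv a P = 0 := by
    intro a
    by_contra hne
    exact absurd (totalDegree_le_of_dvd_of_isDomain (h a) hne)
      (not_le.mpr (totalDegree_pderiv_lt hne))
  have h1 := eq_C_of_pderiv h0
  have h2 : coeff 0 P ≠ 0 := by
    intro h3
    rw [h3, C_0] at h1
    exact hP.ne_zero h1
  apply hP.not_isUnit
  rw [h1]
  exact (isUnit_iff_ne_zero.mpr h2).map C

end I_NDG

open I_NDG in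
theorem NDG_pf (h1 : S_DNS) : S_NDG := by
  intro n O X P hO hX hP h0
  have key : ¬ ∀ p ∈ O, eval (fun a => X p a) (gq P) = 0 := by
    intro hall
    refine not_all_dvd hP fun a => h1 n O X P (pderiv a P) hO hX hP h0 fun p hp => ?_
    have h2 := hall p hp
    rw [gq, map_sum] at h2
    have h3 := (Finset.sum_eq_zero_iff_of_nonneg (fun b _ => by
      rw [map_pow]
      exact sq_nonneg _)).mp h2 a (Finset.mem_univ a)
    rw [map_pow] at h3
    exact pow_eq_zero_iff two_ne_zero |>.mp h3
  constructor
  · rintro ⟨Q, hQ⟩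
    apply key
    intro p hp
    rw [hQ, map_mul, h0 p hp, zero_mul]
  · by_contra hcon
    apply key
    intro p hp
    by_contra hne
    exact hcon ⟨p, hp, hne⟩

end Pool.Agent.Work.MP_157c12_gt.AN
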