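import Pool.Agent.Work.MP_157c12_gt.AN.Stmts
import Pool.Agent.Work.MP_157c12_gt.ItemB4

/-!
# Item NEW

Newton polygon.
-/

set_option autoImplicit false

open MvPolynomial

namespace Pool.Agent.Work.MP_157c12_gt.AN

open Pool.Agent.Work.MP_157c12_gt

namespace I_NEW

lemma coeff_rp_mul {m : ℕ} (t : ℚ) (x : KK m) (γ : G1 m) :
    (rp m t * x).coeff γ = x.coeff (γ + toLex (t, 0)) := by
  have h4 := HahnSeries.coeff_single_mul_add (r := (1 : ℂ))
      (x := x) (a := γ + toLex (t, 0)) (b := (toLex (-t, 0) : G1 m))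
  have h5 : γ + toLex (t, 0) + (toLex (-t, 0) : G1 m) = γ := by
    rw [add_assoc]
    have : (toLex (t, (0 : G0 m)) : G1 m) + toLex (-t, 0) = 0 := by
      apply ofLex.injective
      refine Prod.ext ?_ ?_
      · show t + -t = 0
        ring
      · show (0 : G0 m) + 0 = 0
        rw [add_zero]
    rw [this, add_zero]
  rw [h5, one_mul] at h4
  rw [rp]
  exact h4

lemma coeff_rp_jj {m : ℕ} (t : ℚ) (a : K0 m) (s : ℚ) (γ : G0 m) :
    (rp m t * jj m a).coeff (toLex (s, γ)) = if s + t = 0 then a.coeff γ else 0 := by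
  rw [coeff_rp_mul]
  by_cases h : s + t = 0
  · rw [if_pos h]
    have h1 : (toLex (s, γ) : G1 m) + toLex (t, 0) = toLex (0, γ) := by
      apply ofLex.injective
      refine Prod.ext h ?_
      show γ + 0 = γ
      rw [add_zero]
    rw [h1, jj_coeff]
  · rw [if_neg h]
    exact jj_coeff_ne a h

lemma sq_ne (n : ℕ) : sq ℝ (n + 1) ≠ 0 := by
  intro h
  have h1 := congrArg (eval (fun _ : Fin (n + 1) => (1 : ℝ))) h
  rw [sq, map_sum, map_zero] at h1
  simp only [map_pow, eval_X, one_pow, Finset.sum_const, Finset.card_univ, Fintype.card_fin,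
    nsmul_eq_mul, mul_one] at h1
  have : ((n + 1 : ℕ) : ℝ) ≠ 0 := by exact_mod_cast Nat.succ_ne_zero n
  exact this h1

lemma sq_hom (k : Type) [Field k] (n : ℕ) : (sq k n).IsHomogeneous 2 :=
  IsHomogeneous.sum _ _ _ fun a _ => by
    have := (isHomogeneous_X k a).pow 2
    simpa using this

lemma deg {m μ : ℕ} {c : ℝ} {P : MvPolynomial (Fin (m + 2)) ℝ} (hc : c ≠ 0)
    (hP : tp P = C c * sq ℝ (m + 2) ^ μ) : P.totalDegree = 2 * μ := by
  have h1 : (tp P).IsHomogeneous P.totalDegree := homogeneousComponent_isHomogeneous _ _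
  have h2 : (tp P).IsHomogeneous (2 * μ) := by
    rw [hP]
    have := (isHomogeneous_C (Fin (m + 2)) c).mul ((sq_hom ℝ (m + 2)).pow μ)
    simpa using this
  have h3 : tp P ≠ 0 := by
    rw [hP]
    refine mul_ne_zero ?_ (pow_ne_zero _ (sq_ne _))
    rwa [Ne, C_eq_zero]
  exact h1.inj_right h2 h3

lemma cx_hom {n d : ℕ} {P : MvPolynomial (Fin n) ℝ} (h : P.IsHomogeneous d) :
    (cx P).IsHomogeneous d := by
  rw [cx]
  exact h.map _

lemma cx_sq (n : ℕ) : cx (sq ℝ n) = sq ℂ n := by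
  simp [cx, sq]

lemma cx_aeval {n m : ℕ} (z : Fin n → KK m) (P : MvPolynomial (Fin n) ℝ) :
    aeval z (cx P) = aeval z P := by
  rw [cx]
  exact aeval_map_algebraMap ℂ z P

/-- the coefficients of the forms -/
noncomputable def bc {m : ℕ} (P : MvPolynomial (Fin (m + 2)) ℝ) (e : ℕ) : Polynomial (K0 m) :=
  bb (cx (homogeneousComponent e P))

/-- the polynomial in `s` -/
noncomputable def Ps {m : ℕ} (P : MvPolynomial (Fin (m + 2)) ℝ) (d : ℕ) : Polynomial (KK m) :=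
  ∑ e ∈ Finset.range (d + 1), Polynomial.C (rp m ((e : ℚ) - d)) * (bc P e).map (jj m).toRingHom

lemma Ps_coeff {m : ℕ} (P : MvPolynomial (Fin (m + 2)) ℝ) (d j : ℕ) :
    (Ps P d).coeff j =
      ∑ e ∈ Finset.range (d + 1), rp m ((e : ℚ) - d) * jj m ((bc P e).coeff j) := by
  rw [Ps, Polynomial.finsetSum_coeff]
  refine Finset.sum_congr rfl fun e _ => ?_
  rw [Polynomial.coeff_C_mul, Polynomial.coeff_map]
  rfl

lemma bc_top {m μ : ℕ} {c : ℝ} {P : MvPolynomial (Fin (m + 2)) ℝ} (hB : S_BBE) (hc : c ≠ 0)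
    (hP : tp P = C c * sq ℝ (m + 2) ^ μ) :
    bc P (2 * μ) = Polynomial.C (algebraMap ℂ (K0 m) c) * Polynomial.X ^ μ := by
  have h1 : homogeneousComponent (2 * μ) P = C c * sq ℝ (m + 2) ^ μ := by
    rw [← hP, tp, deg hc hP]
  rw [bc, h1]
  have h2 : cx (C c * sq ℝ (m + 2) ^ μ) = C (c : ℂ) * sq ℂ (m + 2) ^ μ := by
    rw [← cx_sq]
    simp [cx]
  rw [h2]
  have h3 := (hB m 2 0 (sq ℂ (m + 2)) (sq_hom ℂ (m + 2))).2
  have h4 : bb (C (c : ℂ) * sq ℂ (m + 2) ^ μ) =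
      algebraMap ℂ (Polynomial (K0 m)) (c : ℂ) * bb (sq ℂ (m + 2)) ^ μ := by
    unfold bb
    rw [map_mul, map_pow, ← algebraMap_eq, AlgHom.commutes]
  rw [h4, h3]
  rfl

lemma term_val {m : ℕ} (a : K0 m) (e d : ℕ) :
    ((((d : ℚ) - e : ℚ)) : WithTop ℚ) ≤ ww m (rp m ((e : ℚ) - d) * jj m a) := by
  rw [ww_mul, ww_rp]
  have h1 := le_ww_jj a
  calc ((((d : ℚ) - e : ℚ)) : WithTop ℚ) = ((-((e : ℚ) - d) : ℚ) : WithTop ℚ) + 0 := by
        rw [add_zero]
        congr 1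
        ring
    _ ≤ _ := add_le_add le_rfl h1

/-- values of the coefficients without the top term -/
lemma val_low {m μ : ℕ} (P : MvPolynomial (Fin (m + 2)) ℝ) (j : ℕ) :
    ((1 : ℚ) : WithTop ℚ) ≤
      ww m (∑ e ∈ Finset.range (2 * μ), rp m ((e : ℚ) - (2 * μ : ℕ)) * jj m ((bc P e).coeff j)) := by
  refine ww_sum fun e he => ?_
  refine le_trans ?_ (term_val _ _ _)
  have h1 := Finset.mem_range.mp he
  have h2 : (e : ℚ) + 1 ≤ ((2 * μ : ℕ) : ℚ) := by exact_mod_cast h1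
  have h3 : (1 : ℚ) ≤ ((2 * μ : ℕ) : ℚ) - e := by linarith
  exact_mod_cast h3

lemma Ps_split {m μ : ℕ} (P : MvPolynomial (Fin (m + 2)) ℝ) (j : ℕ) :
    (Ps P (2 * μ)).coeff j =
      ∑ e ∈ Finset.range (2 * μ), rp m ((e : ℚ) - (2 * μ : ℕ)) * jj m ((bc P e).coeff j) +
        jj m ((bc P (2 * μ)).coeff j) := by
  rw [Ps_coeff, Finset.sum_range_succ, sub_self, rp_zero, one_mul]

lemma val_ne {m μ : ℕ} {c : ℝ} {P : MvPolynomial (Fin (m + 2)) ℝ} (hB : S_BBE) (hc : c ≠ 0)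
    (hP : tp P = C c * sq ℝ (m + 2) ^ μ) {j : ℕ} (hj : j ≠ μ) :
    ((1 : ℚ) : WithTop ℚ) ≤ ww m ((Ps P (2 * μ)).coeff j) := by
  rw [Ps_split, bc_top hB hc hP, Polynomial.coeff_C_mul, Polynomial.coeff_X_pow, if_neg hj, mul_zero,
    map_zero, add_zero]
  exact val_low P j

lemma val_eq {m μ : ℕ} {c : ℝ} {P : MvPolynomial (Fin (m + 2)) ℝ} (hB : S_BBE) (hc : c ≠ 0)
    (hP : tp P = C c * sq ℝ (m + 2) ^ μ) : ww m ((Ps P (2 * μ)).coeff μ) = 0 := by
  rw [Ps_split, bc_top hB hc hP, Polynomial.coeff_C_mul, Polynomial.coeff_X_pow, if_pos rfl, mul_one,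
    jj_algebraMap, add_comm]
  have h1 : ww m (algebraMap ℂ (KK m) (c : ℂ)) = 0 := ww_algebraMap (by exact_mod_cast hc)
  rw [ww_add_eq, h1]
  rw [h1]
  refine lt_of_lt_of_le ?_ (val_low P μ)
  have : ((0 : ℚ) : WithTop ℚ) < ((1 : ℚ) : WithTop ℚ) := by exact_mod_cast one_pos
  exact this

lemma val_nonneg {m μ : ℕ} {c : ℝ} {P : MvPolynomial (Fin (m + 2)) ℝ} (hB : S_BBE) (hc : c ≠ 0)
    (hP : tp P = C c * sq ℝ (m + 2) ^ μ) (j : ℕ) : 0 ≤ ww m ((Ps P (2 * μ)).coeff j) := by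
  by_cases hj : j = μ
  · rw [hj, val_eq hB hc hP]
  · refine le_trans ?_ (val_ne hB hc hP hj)
    have : ((0 : ℚ) : WithTop ℚ) ≤ ((1 : ℚ) : WithTop ℚ) := by exact_mod_cast zero_le_one
    exact this

/-- upper bound for the value of a coefficient -/
lemma val_up {m : ℕ} (P : MvPolynomial (Fin (m + 2)) ℝ) (d e j : ℕ) (he : e ≤ d)
    (h : (bc P e).coeff j ≠ 0) :
    ww m ((Ps P d).coeff j) ≤ ((((d : ℚ) - e : ℚ)) : WithTop ℚ) := by
  by_contra hlt
  have h1 := lt_ww.mp (not_le.mp hlt)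
  apply h
  ext γ
  have h2 := h1 (toLex ((d : ℚ) - e, γ)) le_rfl
  rw [Ps_coeff, HahnSeries.coeff_sum] at h2
  simp only [coeff_rp_jj] at h2
  rw [Finset.sum_eq_single e] at h2
  · rw [if_pos (by ring)] at h2
    rw [h2]
    rfl
  · intro e' _ hne
    rw [if_neg]
    intro h3
    apply hne
    have h4 : (e' : ℚ) = e := by linarith
    exact_mod_cast h4
  · intro h3
    exact absurd (Finset.mem_range.mpr (Nat.lt_succ_of_le he)) h3

lemma aeval_pt {m : ℕ} (hB : S_BBE) (P : MvPolynomial (Fin (m + 2)) ℝ) (f : KK m) (d : ℕ)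
    (hd : P.totalDegree = d) :
    aeval (pt f) P = rp m d * (Ps P d).eval (f * rp m (-2)) := by
  have h1 : P = ∑ e ∈ Finset.range (d + 1), homogeneousComponent e P := by
    rw [← hd]
    exact (sum_homogeneousComponent P).symm
  conv_lhs => rw [h1]
  rw [map_sum, Ps, Polynomial.eval_finsetSum, Finset.mul_sum]
  refine Finset.sum_congr rfl fun e _ => ?_
  rw [← cx_aeval, (hB m e f _ (cx_hom (homogeneousComponent_isHomogeneous e P))).1,
    Polynomial.eval_mul, Polynomial.eval_C, ← mul_assoc, rp_mul]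
  congr 2
  ring

end I_NEW

open I_NEW in
theorem NEW_pf (hB : S_BBE) : S_NEW := by
  intro m μ c P hc hμ hP e j hje hne
  have hd := deg hc hP
  have he : e ≤ 2 * μ := by
    by_contra hlt
    apply hne
    rw [homogeneousComponent_eq_zero _ _ (by omega)]
    simp [cx, bb]
  have hjμ : j < μ := by omega
  have hμ0 : (0 : ℚ) < (μ : ℚ) + 1 := by positivity
  obtain ⟨r, hr0, hr1, hr2⟩ := b4 (KK m) ℚ (ww m) (Ps P (2 * μ)) μ j (1 / ((μ : ℚ) + 1)) 2
    (by
      rw [div_lt_iff₀ hμ0]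
      have : (0 : ℚ) ≤ μ := Nat.cast_nonneg μ
      linarith)
    (by
      intro h0
      have := val_eq hB hc hP
      rw [h0, ww_zero] at this
      exact absurd this (by simp))
    hjμ
    (by
      intro i hi
      left
      rw [val_eq hB hc hP, zero_add]
      have h1 : ((μ • (1 / ((μ : ℚ) + 1)) : ℚ) : WithTop ℚ) < ((1 : ℚ) : WithTop ℚ) := by
        have : μ • (1 / ((μ : ℚ) + 1)) < (1 : ℚ) := by
          rw [nsmul_eq_mul, mul_one_div, div_lt_one hμ0]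
          linarith
        exact_mod_cast this
      have h2 : (0 : WithTop ℚ) ≤ ((i • (1 / ((μ : ℚ) + 1)) : ℚ) : WithTop ℚ) := by
        have : (0 : ℚ) ≤ i • (1 / ((μ : ℚ) + 1)) := by positivity
        exact_mod_cast this
      calc ((μ • (1 / ((μ : ℚ) + 1)) : ℚ) : WithTop ℚ) < ((1 : ℚ) : WithTop ℚ) := h1
        _ ≤ ww m ((Ps P (2 * μ)).coeff i) := val_ne hB hc hP hi
        _ = ww m ((Ps P (2 * μ)).coeff i) + 0 := (add_zero _).symm
        _ ≤ _ := add_le_add le_rfl h2)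
    (by
      intro i hi
      left
      have h1 := val_up P (2 * μ) e j he hne
      have h2 : (((((2 * μ : ℕ) : ℚ) - e : ℚ)) : WithTop ℚ) + ((j • (2 : ℚ) : ℚ) : WithTop ℚ) <
          ((i • (2 : ℚ) : ℚ) : WithTop ℚ) := by
        have h3 : (2 : ℚ) * j + 1 ≤ e := by exact_mod_cast hje
        have h4 : (μ : ℚ) ≤ i := by exact_mod_cast hi
        have : (((2 * μ : ℕ) : ℚ) - e) + j • (2 : ℚ) < i • (2 : ℚ) := by
          push_cast
          rw [nsmul_eq_mul, nsmul_eq_mul]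
          linarith
        exact_mod_cast this
      calc ww m ((Ps P (2 * μ)).coeff j) + ((j • (2 : ℚ) : ℚ) : WithTop ℚ) ≤
          (((((2 * μ : ℕ) : ℚ) - e : ℚ)) : WithTop ℚ) + ((j • (2 : ℚ) : ℚ) : WithTop ℚ) :=
            add_le_add h1 le_rfl
        _ < ((i • (2 : ℚ) : ℚ) : WithTop ℚ) := h2
        _ = 0 + ((i • (2 : ℚ) : ℚ) : WithTop ℚ) := (zero_add _).symm
        _ ≤ _ := add_le_add (val_nonneg hB hc hP i) le_rfl)
  have hr : ∃ t : ℚ, ww m r = t := by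
    rcases ww_cases r with h | h
    · rw [h, ww_zero] at hr2
      exact absurd hr2 (by simp)
    · exact h
  obtain ⟨t, ht⟩ := hr
  rw [ht] at hr1 hr2
  have ht1 : 1 / ((μ : ℚ) + 1) < t := by exact_mod_cast hr1
  have ht2 : t < 2 := by exact_mod_cast hr2
  have ht0 : (0 : ℚ) < 1 / ((μ : ℚ) + 1) := by positivity
  refine ⟨r * rp m 2, ?_, ?_, ?_⟩
  · rw [aeval_pt hB P _ _ hd, mul_assoc r, rp_mul, add_neg_cancel, rp_zero, mul_one, hr0, mul_zero]
  · rw [ww_mul, ht, ww_rp]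
    have : (-2 : ℚ) < t + -2 := by linarith
    exact_mod_cast this
  · rw [ww_mul, ht, ww_rp]
    have : t + -2 < (0 : ℚ) := by linarith
    exact_mod_cast this

end Pool.Agent.Work.MP_157c12_gt.AN
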