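import Pool.Agent.Work.MP_157c12_gt.AN.I_DEC

/-!
# Block [157c12 AN], item NGR: growth is impossible
-/

set_option autoImplicit false

namespace Pool.Agent.Work.MP_157c12_gt.AN

open Pool.Agent.Work.MP_157c12_gt
open Pool.Agent.Work.MP_157c12_gt.Rot (nb lapC lapD Hyp PatchN FTn)

namespace I_NGR

open I_DEC (lt_add le_lt_add real_mul_lt)

variable {m : ℕ}

theorem le_add' {a b : WithTop ℚ} {s t : ℚ} (ha : (s : WithTop ℚ) ≤ a) (hb : (t : WithTop ℚ) ≤ b) :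
    ((s + t : ℚ) : WithTop ℚ) ≤ a + b := by
  rw [WithTop.coe_add]
  exact add_le_add ha hb

theorem ww_mul_eq {a b : KK m} {s t : ℚ} (ha : ww m a = (s : WithTop ℚ))
    (hb : ww m b = (t : WithTop ℚ)) : ww m (a * b) = ((s + t : ℚ) : WithTop ℚ) := by
  rw [ww_mul, ha, hb, WithTop.coe_add]

theorem ww_inv_eq {a : KK m} {s : ℚ} (ha : ww m a = (s : WithTop ℚ)) :
    ww m a⁻¹ = ((-s : ℚ) : WithTop ℚ) := by
  have hne : a ≠ 0 := by
    rw [← ww_ne_top, ha]
    exact WithTop.coe_ne_top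
  have h1 : ww m a + ww m a⁻¹ = 0 := by
    rw [← ww_mul, mul_inv_cancel₀ hne, ww_one]
  obtain ⟨v, hv⟩ : ∃ v : ℚ, ww m a⁻¹ = v := (ww_cases a⁻¹).resolve_left (inv_ne_zero hne)
  rw [ha, hv] at h1
  have h2 : s + v = 0 := by exact_mod_cast h1
  rw [hv, show v = -s by linarith]

theorem ww_div_le {a b : KK m} {s t : ℚ} (ha : (s : WithTop ℚ) ≤ ww m a)
    (hb : ww m b = (t : WithTop ℚ)) : ((s - t : ℚ) : WithTop ℚ) ≤ ww m (a / b) := by
  rw [div_eq_mul_inv, ww_mul, sub_eq_add_neg]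
  exact le_add' ha (ww_inv_eq hb).ge

theorem ww_two : ww m (2 : KK m) = ((0 : ℚ) : WithTop ℚ) := by
  have h : (2 : KK m) = algebraMap ℂ (KK m) 2 := by rw [map_ofNat]
  rw [h, ww_algebraMap two_ne_zero]
  rfl

theorem ww_four : ww m (4 : KK m) = ((0 : ℚ) : WithTop ℚ) := by
  have h : (4 : KK m) = algebraMap ℂ (KK m) 4 := by rw [map_ofNat]
  rw [h, ww_algebraMap (by norm_num)]
  rfl

theorem ww_rt2 (i : Fin m) : ww m (rt m i ^ 2) = ((-2 : ℚ) : WithTop ℚ) := by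
  rw [pow_two, ww_mul_eq (ww_rt i) (ww_rt i)]
  norm_num

theorem ww_prod (s : Finset (Fin m)) :
    ww m (∏ i ∈ s, rt m i ^ 2) = ((-2 * s.card : ℚ) : WithTop ℚ) := by
  induction s using Finset.induction_on with
  | empty =>
    rw [Finset.prod_empty, ww_one]
    simp
  | insert a s ha ih =>
    rw [Finset.prod_insert ha, ww_mul_eq (ww_rt2 a) ih, Finset.card_insert_of_notMem ha]
    congr 1
    push_cast
    ring

/-- the value of `ρ∂_ρ` of an element of nonzero value -/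
theorem ww_dd0 {g : KK m} {t : ℚ} (hg : ww m g = (t : WithTop ℚ)) (ht : t ≠ 0) :
    ww m (dd m 0 g) = (t : WithTop ℚ) := by
  have h1 := dd_zero_lead hg.ge
  have h2 : ww m (-((t : ℂ) • g)) = (t : WithTop ℚ) := by
    rw [ww_neg, smul_eq, ww_mul, ww_algebraMap (by exact_mod_cast ht), zero_add, hg]
  have h3 : dd m 0 g = -((t : ℂ) • g) + (dd m 0 g + (t : ℂ) • g) := by abel
  rw [h3, ww_add_eq (by rw [h2]; exact h1), h2]

theorem GI_zz (f : KK m) : GI f 0 0 = (EE f)⁻¹ := rfl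

theorem GI_zs (f : KK m) (j : Fin m) :
    GI f 0 j.succ = -(dd m j.succ f) / (2 * rt m j ^ 2 * EE f) := rfl

theorem GI_sz (f : KK m) (i : Fin m) :
    GI f i.succ 0 = -(dd m i.succ f) / (2 * rt m i ^ 2 * EE f) := rfl

theorem GI_ss (f : KK m) (i j : Fin m) :
    GI f i.succ j.succ = (if i = j then (rt m i ^ 2)⁻¹ else 0) +
        dd m i.succ f * dd m j.succ f / (4 * rt m i ^ 2 * rt m j ^ 2 * EE f) := rfl

theorem GI_zs_lt {f : KK m} {s : ℚ} (_hs : 0 < s) (he : ww m (EE f) = (s : WithTop ℚ))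
    (hf : ((-1 : ℚ) : WithTop ℚ) ≤ ww m f) (j : Fin m) :
    ((-s : ℚ) : WithTop ℚ) < ww m (-(dd m j.succ f) / (2 * rt m j ^ 2 * EE f)) := by
  have h1 : ((-1 : ℚ) : WithTop ℚ) ≤ ww m (-(dd m j.succ f)) := by
    rw [ww_neg]
    exact le_ww_dd hf j.succ
  have h2 := ww_div_le h1 (ww_mul_eq (ww_mul_eq ww_two (ww_rt2 j)) he)
  refine lt_of_lt_of_le ?_ h2
  rw [WithTop.coe_lt_coe]
  linarith

theorem GI_ss_lt {f : KK m} {s : ℚ} (hs : 0 < s) (he : ww m (EE f) = (s : WithTop ℚ))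
    (hf : ((-1 : ℚ) : WithTop ℚ) ≤ ww m f) (i j : Fin m) :
    ((-s : ℚ) : WithTop ℚ) < ww m (GI f i.succ j.succ) := by
  rw [GI_ss]
  refine ww_add_lt ?_ ?_
  · by_cases h : i = j
    · rw [if_pos h, ww_inv_eq (ww_rt2 i), WithTop.coe_lt_coe]
      linarith
    · rw [if_neg h, ww_zero]
      exact WithTop.coe_lt_top _
  · have h1 : ((-1 + -1 : ℚ) : WithTop ℚ) ≤ ww m (dd m i.succ f * dd m j.succ f) := by
      rw [ww_mul]
      exact le_add' (le_ww_dd hf _) (le_ww_dd hf _)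
    have h2 := ww_div_le h1 (ww_mul_eq (ww_mul_eq (ww_mul_eq ww_four (ww_rt2 i)) (ww_rt2 j)) he)
    refine lt_of_lt_of_le ?_ h2
    rw [WithTop.coe_lt_coe]
    linarith

/-- one step -/
theorem step {f W : KK m} {s w : ℚ} (hs : 0 < s) (he : ww m (EE f) = (s : WithTop ℚ))
    (hf : ((-1 : ℚ) : WithTop ℚ) ≤ ww m f) (hW : ww m W = (w : WithTop ℚ)) (hw : w ≤ s / 2)
    {g : KK m} {κ : ℚ} (hκ : 0 < κ) (hg : ww m g = ((-κ : ℚ) : WithTop ℚ)) :
    ww m (Lf f W g) = ((-κ - s : ℚ) : WithTop ℚ) := by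
  have hd0 := ww_dd0 hg (by linarith)
  have hdj : ∀ j, ((-κ : ℚ) : WithTop ℚ) ≤ ww m (dd m j g) := fun j => le_ww_dd hg.ge j
  -- the sums
  have hR0 : ((-s + -κ : ℚ) : WithTop ℚ) < ww m (∑ j : Fin m, GI f 0 j.succ * dd m j.succ g) := by
    refine ww_sum_lt WithTop.coe_ne_top fun j _ => ?_
    rw [ww_mul, GI_zs]
    exact lt_add (GI_zs_lt hs he hf j) (hdj _)
  have hRi : ∀ i : Fin m, ((-s + -κ : ℚ) : WithTop ℚ) < ww m (∑ j, GI f i.succ j * dd m j g) := by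
    intro i
    refine ww_sum_lt WithTop.coe_ne_top fun j _ => ?_
    rw [ww_mul]
    refine lt_add ?_ (hdj _)
    refine Fin.cases ?_ (fun j => ?_) j
    · rw [GI_sz]
      exact GI_zs_lt hs he hf i
    · exact GI_ss_lt hs he hf i j
  have hh : ww m (W * ((EE f)⁻¹ * dd m 0 g)) = ((w + (-s + -κ) : ℚ) : WithTop ℚ) :=
    ww_mul_eq hW (ww_mul_eq (ww_inv_eq he) hd0)
  have hh0 : ww m (dd m 0 (W * ((EE f)⁻¹ * dd m 0 g))) = ((w + (-s + -κ) : ℚ) : WithTop ℚ) :=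
    ww_dd0 hh (by linarith)
  have hrest : ((w + (-s + -κ) : ℚ) : WithTop ℚ) <
      ww m (dd m 0 (W * ∑ j : Fin m, GI f 0 j.succ * dd m j.succ g) +
        ∑ i : Fin m, dd m i.succ (W * ∑ j, GI f i.succ j * dd m j g)) := by
    refine ww_add_lt ?_ (ww_sum_lt WithTop.coe_ne_top fun i _ => ?_)
    · refine lt_ww_dd ?_ 0
      rw [ww_mul]
      exact le_lt_add hW.ge hR0
    · refine lt_ww_dd ?_ _
      rw [ww_mul]
      exact le_lt_add hW.ge (hRi i)
  have hsplit : ∑ i, dd m i (W * ∑ j, GI f i j * dd m j g) =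
      dd m 0 (W * ((EE f)⁻¹ * dd m 0 g)) +
        (dd m 0 (W * ∑ j : Fin m, GI f 0 j.succ * dd m j.succ g) +
        ∑ i : Fin m, dd m i.succ (W * ∑ j, GI f i.succ j * dd m j g)) := by
    rw [Fin.sum_univ_succ, ← add_assoc, ← map_add, ← mul_add]
    congr 3
    rw [Fin.sum_univ_succ, GI_zz]
  have htot : ww m (∑ i, dd m i (W * ∑ j, GI f i j * dd m j g)) =
      ((w + (-s + -κ) : ℚ) : WithTop ℚ) := by
    rw [hsplit, ww_add_eq (by rw [hh0]; exact hrest), hh0]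
  unfold Lf lapC
  rw [ww_mul_eq (ww_inv_eq hW) htot]
  congr 1
  ring

end I_NGR

open I_NGR

theorem NGR_pf : S_NGR := by
  intro m k al f W hN hf
  by_contra hlt
  have hlt : 0 < ww m (EE f) := not_le.mp hlt
  obtain ⟨s, hs'⟩ : ∃ s : ℚ, ww m (EE f) = s := (ww_cases (EE f)).resolve_left hN.e
  have hs : 0 < s := by
    rw [hs'] at hlt
    exact_mod_cast hlt
  have hprod : (∏ i, rt m i ^ 2) ≠ (0 : KK m) :=
    Finset.prod_ne_zero_iff.mpr fun i _ => pow_ne_zero 2 (rt_ne i)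
  have hW0 : W ≠ 0 := by
    intro h
    have h1 := hN.w
    rw [h, zero_pow two_ne_zero] at h1
    exact mul_ne_zero hprod hN.e h1.symm
  obtain ⟨w, hw⟩ : ∃ w : ℚ, ww m W = w := (ww_cases W).resolve_left hW0
  have hw2 : w + w = -2 * (Finset.univ : Finset (Fin m)).card + s := by
    have h1 := hN.w
    have h2 : ww m (W ^ 2) = ((w + w : ℚ) : WithTop ℚ) := by
      rw [pow_two, ww_mul_eq hw hw]
    rw [h1, ww_mul_eq (ww_prod Finset.univ) hs'] at h2
    exact (WithTop.coe_injective h2).symm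
  have hwle : w ≤ s / 2 := by
    have : (0 : ℚ) ≤ (Finset.univ : Finset (Fin m)).card := Nat.cast_nonneg _
    linarith
  have hit : ∀ j : ℕ, ww m ((Lf f W)^[j] (rp m 1)) = ((-(1 + j * s) : ℚ) : WithTop ℚ) := by
    intro j
    induction j with
    | zero =>
      rw [Function.iterate_zero, id, ww_rp]
      congr 1
      push_cast
      ring
    | succ j ih =>
      rw [Function.iterate_succ_apply']
      have hκ : (0 : ℚ) < 1 + j * s := by positivity
      rw [step hs hs' hf hw hwle hκ ih]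
      congr 1
      push_cast
      ring
  have hfe := hN.fe
  unfold pL at hfe
  rw [Finset.sum_range_succ', Nat.sub_zero, hN.a0, map_one, one_mul, add_comm] at hfe
  have hrest : ((-(1 + k * s) : ℚ) : WithTop ℚ) < ww m (∑ l ∈ Finset.range k,
      algebraMap ℝ (KK m) (al (l + 1)) * (Lf f W)^[k - (l + 1)] (rp m 1)) := by
    refine ww_sum_lt WithTop.coe_ne_top fun l hl => ?_
    rw [Finset.mem_range] at hl
    refine I_DEC.real_mul_lt ?_
    rw [hit, WithTop.coe_lt_coe]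
    have h1 : ((k - (l + 1) : ℕ) : ℚ) < k := by
      exact_mod_cast (by omega : k - (l + 1) < k)
    nlinarith
  have h3 := ww_add_eq (m := m) (lt_of_eq_of_lt (hit k) hrest)
  rw [hfe, ww_zero, hit] at h3
  exact WithTop.top_ne_coe h3

end Pool.Agent.Work.MP_157c12_gt.AN
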