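import Pool.Agent.Work.MP_157c12_gt.AN.Stmts

/-! Item NIN: determinant and inverse of the metric. -/

set_option autoImplicit false

open MvPolynomial

namespace Pool.Agent.Work.MP_157c12_gt.AN

open Pool.Agent.Work.MP_157c12_gt

namespace I_NIN

/-- zero and the successors -/
def e (m : ℕ) : Unit ⊕ Fin m ≃ Fin (m + 1) where
  toFun := Sum.elim (fun _ => 0) Fin.succ
  invFun := Fin.cases (Sum.inl ()) Sum.inr
  left_inv := by
    rintro (x | i)
    · rfl
    · rfl
  right_inv := by
    intro i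
    refine Fin.cases ?_ (fun i => ?_) i
    · rfl
    · rfl

variable {K : Type} [Field K] {m : ℕ}

/-- the bordered matrix -/
def G (A : K) (b r : Fin m → K) : Matrix (Fin (m + 1)) (Fin (m + 1)) K :=
  Matrix.of (Fin.cons (Fin.cons A fun j : Fin m => b j / 2)
    fun i : Fin m => Fin.cons (b i / 2) fun j : Fin m => if i = j then r i ^ 2 else 0)

/-- the inverse -/
def Gi (b r : Fin m → K) (E : K) : Matrix (Fin (m + 1)) (Fin (m + 1)) K :=
  Matrix.of (Fin.cons (Fin.cons E⁻¹ fun j : Fin m => -(b j) / (2 * r j ^ 2 * E))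
    fun i : Fin m => Fin.cons (-(b i) / (2 * r i ^ 2 * E)) fun j : Fin m =>
      (if i = j then (r i ^ 2)⁻¹ else 0) + b i * b j / (4 * r i ^ 2 * r j ^ 2 * E))

theorem det_G (h2 : (2 : K) ≠ 0) (A : K) (b r : Fin m → K) (hr : ∀ i, r i ≠ 0) :
    (G A b r).det = (∏ i, r i ^ 2) * (A - ∑ i, b i ^ 2 / (4 * r i ^ 2)) := by
  have hD : Matrix.diagonal (fun i => r i ^ 2) * Matrix.diagonal (fun i => (r i ^ 2)⁻¹) = 1 := by
    rw [Matrix.diagonal_mul_diagonal, ← Matrix.diagonal_one]
    congr 1
    funext i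
    exact mul_inv_cancel₀ (pow_ne_zero 2 (hr i))
  have hD' : Matrix.diagonal (fun i => (r i ^ 2)⁻¹) * Matrix.diagonal (fun i => r i ^ 2) = 1 := by
    rw [Matrix.diagonal_mul_diagonal, ← Matrix.diagonal_one]
    congr 1
    funext i
    exact inv_mul_cancel₀ (pow_ne_zero 2 (hr i))
  let _ : Invertible (Matrix.diagonal (fun i => r i ^ 2)) :=
    ⟨Matrix.diagonal (fun i => (r i ^ 2)⁻¹), hD', hD⟩
  have hinv : ⅟(Matrix.diagonal (fun i => r i ^ 2)) = Matrix.diagonal (fun i => (r i ^ 2)⁻¹) :=
    invOf_eq_right_inv hD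
  have hs : (G A b r).submatrix (e m) (e m) =
      Matrix.fromBlocks (Matrix.of fun _ _ : Unit => A) (Matrix.of fun (_ : Unit) j => b j / 2)
        (Matrix.of fun i (_ : Unit) => b i / 2) (Matrix.diagonal fun i => r i ^ 2) := by
    ext (x | i) (y | j)
    · rfl
    · rfl
    · rfl
    · rfl
  rw [← Matrix.det_submatrix_equiv_self (e m) (G A b r), hs, Matrix.det_fromBlocks₂₂,
    Matrix.det_diagonal, hinv, Matrix.det_unique]
  congr 1
  rw [Matrix.sub_apply, Matrix.mul_apply]
  simp only [Matrix.mul_diagonal, Matrix.of_apply]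
  congr 1
  refine Finset.sum_congr rfl fun i _ => ?_
  have h4 : (4 : K) = 2 * 2 := by norm_num
  rw [h4]
  have := hr i
  field_simp

theorem mul_G (h2 : (2 : K) ≠ 0) (A : K) (b r : Fin m → K) (hr : ∀ i, r i ≠ 0) (E : K)
    (hE : E ≠ 0) (hA : E = A - ∑ i, b i ^ 2 / (4 * r i ^ 2)) : G A b r * Gi b r E = 1 := by
  have h4 : (4 : K) = 2 * 2 := by norm_num
  have hA' : ∑ i, b i ^ 2 / (4 * r i ^ 2) = A - E := by
    rw [hA]
    ring
  ext i j
  rw [Matrix.mul_apply, Fin.sum_univ_succ]
  refine Fin.cases ?_ (fun i => ?_) i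
  · refine Fin.cases ?_ (fun j => ?_) j
    · rw [Matrix.one_apply_eq]
      show A * E⁻¹ + ∑ k : Fin m, b k / 2 * (-(b k) / (2 * r k ^ 2 * E)) = 1
      have h : ∀ k, b k / 2 * (-(b k) / (2 * r k ^ 2 * E)) = -(b k ^ 2 / (4 * r k ^ 2)) * E⁻¹ := by
        intro k
        rw [h4]
        have := hr k
        field_simp
      rw [Finset.sum_congr rfl fun k _ => h k, ← Finset.sum_mul, Finset.sum_neg_distrib, hA']
      field_simp
      ring
    · rw [Matrix.one_apply_ne (Fin.succ_ne_zero j).symm]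
      show A * (-(b j) / (2 * r j ^ 2 * E)) + ∑ k : Fin m, b k / 2 *
        ((if k = j then (r k ^ 2)⁻¹ else 0) + b k * b j / (4 * r k ^ 2 * r j ^ 2 * E)) = 0
      have h : ∀ k, b k / 2 *
          ((if k = j then (r k ^ 2)⁻¹ else 0) + b k * b j / (4 * r k ^ 2 * r j ^ 2 * E)) =
          (if k = j then b j / 2 * (r j ^ 2)⁻¹ else 0) +
            (b k ^ 2 / (4 * r k ^ 2)) * (b j / (2 * r j ^ 2 * E)) := by
        intro k
        rw [h4]
        have h1 := hr k
        have h3 := hr j
        by_cases hkj : k = j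
        · subst hkj
          rw [if_pos rfl, if_pos rfl]
          field_simp
        · rw [if_neg hkj, if_neg hkj]
          field_simp
          ring
      rw [Finset.sum_congr rfl fun k _ => h k, Finset.sum_add_distrib, Finset.sum_ite_eq',
        if_pos (Finset.mem_univ j), ← Finset.sum_mul, hA']
      have h1 := hr j
      field_simp
      ring
  · refine Fin.cases ?_ (fun j => ?_) j
    · rw [Matrix.one_apply_ne (Fin.succ_ne_zero i)]
      show b i / 2 * E⁻¹ + ∑ k : Fin m, (if i = k then r i ^ 2 else 0) *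
        (-(b k) / (2 * r k ^ 2 * E)) = 0
      have h1 := hr i
      rw [Finset.sum_eq_single i (fun k _ hk => by rw [if_neg (Ne.symm hk), zero_mul])
        (fun h => absurd (Finset.mem_univ i) h), if_pos rfl]
      field_simp
      ring
    · show b i / 2 * (-(b j) / (2 * r j ^ 2 * E)) + ∑ k : Fin m, (if i = k then r i ^ 2 else 0) *
        ((if k = j then (r k ^ 2)⁻¹ else 0) + b k * b j / (4 * r k ^ 2 * r j ^ 2 * E)) =
        (1 : Matrix (Fin (m + 1)) (Fin (m + 1)) K) i.succ j.succ
      have h1 := hr i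
      have h3 := hr j
      rw [Finset.sum_eq_single i (fun k _ hk => by rw [if_neg (Ne.symm hk), zero_mul])
        (fun h => absurd (Finset.mem_univ i) h), if_pos rfl, h4]
      by_cases hij : i = j
      · subst hij
        rw [if_pos rfl, Matrix.one_apply_eq]
        field_simp
        ring
      · rw [if_neg hij, Matrix.one_apply_ne (fun h => hij (Fin.succ_injective _ h))]
        field_simp
        ring

end I_NIN

theorem NIN_pf : S_NIN := by
  intro m f
  have : CharZero (KK m) := charZero_of_injective_algebraMap (algebraMap ℂ (KK m)).injective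
  have h2 : (2 : KK m) ≠ 0 := two_ne_zero
  refine ⟨I_NIN.det_G h2 (dd m 0 f - f) (fun i => dd m i.succ f) (rt m) (fun i => rt_ne i), ?_⟩
  intro hE
  exact I_NIN.mul_G h2 (dd m 0 f - f) (fun i => dd m i.succ f) (rt m) (fun i => rt_ne i) (EE f) hE
    rfl

end Pool.Agent.Work.MP_157c12_gt.AN
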