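import Pool.Agent.Work.MP_157c12_gt.AN.Stmts

/-!
# Item NIT: the iterates of the Laplace operator in the neutral case
-/

set_option autoImplicit false

open MvPolynomial

namespace Pool.Agent.Work.MP_157c12_gt.AN

open Pool.Agent.Work.MP_157c12_gt
open Pool.Agent.Work.MP_157c12_gt.Rot (nb lapC lapD Hyp PatchN FTn)

namespace I_NIT

variable {m : ℕ}

lemma Lf_add (f W g h : KK m) : Lf f W (g + h) = Lf f W g + Lf f W h := by
  unfold Lf lapC
  rw [← mul_add, ← Finset.sum_add_distrib]
  congr 1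
  refine Finset.sum_congr rfl fun i _ => ?_
  rw [← map_add, ← mul_add, ← Finset.sum_add_distrib]
  congr 3
  funext j
  rw [map_add, mul_add]

lemma Lf_smul (f W : KK m) (c : ℂ) (g : KK m) : Lf f W (c • g) = c • Lf f W g := by
  have h0 : ∀ a b : KK m, a * (algebraMap ℂ (KK m) c * b) = algebraMap ℂ (KK m) c * (a * b) :=
    fun a b => mul_left_comm _ _ _
  rw [smul_eq, smul_eq]
  unfold Lf lapC
  have h1 : ∀ i, dd m i (W * ∑ j, GI f i j * dd m j (algebraMap ℂ (KK m) c * g)) =
      algebraMap ℂ (KK m) c * dd m i (W * ∑ j, GI f i j * dd m j g) := by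
    intro i
    rw [← dd_C_mul, ← h0, Finset.mul_sum (a := algebraMap ℂ (KK m) c)]
    congr 2
    refine Finset.sum_congr rfl fun j _ => ?_
    rw [dd_C_mul, h0]
  rw [Finset.sum_congr rfl fun i _ => h1 i, ← Finset.mul_sum, h0]

end I_NIT

open I_NIT in
theorem NIT_pf (hNVA : S_NVA) (hNT1 : S_NT1) (hNS1 : S_NS1) : S_NIT := by
  intro m k al f W κ ε hN φ j
  obtain ⟨-, -, -, -, hop⟩ := hNVA m k al f W κ hN.nd hN.f1
  obtain ⟨-, hT0, hT3⟩ := hNT1 m k al f W κ ε hN
  -- the operator does not lower values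
  have hL : ∀ g : KK m, 0 < ww m g → 0 < ww m (Lf f W g) := fun g hg =>
    hg.trans_le (hop _ g le_rfl).1
  -- the coefficients are almost killed
  have hJ : ∀ b : K0 m, 0 < ww m (Lf f W (jj m b)) := by
    intro b
    have h1 := (hop 0 (jj m b) (le_ww_jj b)).2.2
    rw [hT0 b, sub_zero, zero_add] at h1
    exact lt_of_lt_of_le (by norm_num) h1
  -- the iterates of `Tf`
  have hτ : ∀ j : ℕ, ((-1 : ℚ) : WithTop ℚ) <
      ww m ((Tf f W)^[j] (rp m 1) - ((((m : ℂ) + 1) / ε) ^ j) • rp m 1) := by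
    intro j
    induction j with
    | zero =>
      rw [Function.iterate_zero, id, pow_zero, one_smul, sub_self, ww_zero]
      exact WithTop.coe_lt_top _
    | succ j ih =>
      rw [Function.iterate_succ_apply', pow_succ]
      exact hT3 _ _ ih
  constructor
  · induction j with
    | zero =>
      have h1 := hNS1 m k al f W κ ε hN φ (rp m 1) 1 (by
        rw [one_smul, sub_self, ww_zero]
        exact WithTop.coe_lt_top _)
      simpa using h1
    | succ j ih =>
      have h1 := hNS1 m k al f W κ ε hN φ _ _ (hτ (j + 1))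
      set E : KK m := (Lf f W)^[j + 1] (jj m φ * rp m 1) - jj m φ * (Tf f W)^[j + 1] (rp m 1)
        - (((m : ℂ) + 1) / ε) ^ j • jj m (sg ε κ φ) with hE
      have h2 : (Lf f W)^[j + 1] (jj m φ * rp m 1) = E + (jj m φ * (Tf f W)^[j + 1] (rp m 1)
        + (((m : ℂ) + 1) / ε) ^ j • jj m (sg ε κ φ)) := by
        rw [hE]
        ring
      have h3 : (Lf f W)^[j + 1 + 1] (jj m φ * rp m 1) -
          jj m φ * (Tf f W)^[j + 1 + 1] (rp m 1)
          - (((m : ℂ) + 1) / ε) ^ (j + 1) • jj m (sg ε κ φ) =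
          Lf f W E + (((m : ℂ) + 1) / ε) ^ j • Lf f W (jj m (sg ε κ φ)) +
          (Lf f W (jj m φ * (Tf f W)^[j + 1] (rp m 1)) -
            jj m φ * Tf f W ((Tf f W)^[j + 1] (rp m 1)) -
            (((m : ℂ) + 1) / ε) ^ (j + 1) • jj m (sg ε κ φ)) := by
        rw [Function.iterate_succ_apply' (Lf f W) (j + 1),
          Function.iterate_succ_apply' (Tf f W) (j + 1), h2, Lf_add, Lf_add, Lf_smul]
        ring
      rw [h3]
      exact ww_add_lt (ww_add_lt (hL _ ih) (lt_ww_smul (hJ _) _)) h1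
  · induction j with
    | zero => simpa using hJ φ
    | succ j ih =>
      rw [Function.iterate_succ_apply' (Lf f W) (j + 1)]
      exact hL _ ih

end Pool.Agent.Work.MP_157c12_gt.AN
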