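import Pool.Agent.Work.MP_157c12_gt.AN.Stmts

/-!
# Item NKA: the neutral case is impossible
-/

set_option autoImplicit false

open MvPolynomial

namespace Pool.Agent.Work.MP_157c12_gt.AN

open Pool.Agent.Work.MP_157c12_gt
open Pool.Agent.Work.MP_157c12_gt.Rot (nb lapC lapD Hyp PatchN FTn)

namespace I_NKA

variable {m : ℕ}

lemma Lf_add (f W g h : KK m) : Lf f W (g + h) = Lf f W g + Lf f W h := by
  unfold Lf lapC
  rw [← mul_add, ← Finset.sum_add_distrib]
  congr 1
  refine Finset.sum_congr rfl fun i _ => ?_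
  rw [← map_add, ← mul_add, ← Finset.sum_add_distrib]
  congr 3
  funext j
  rw [map_add, mul_add]

lemma it_add (f W : KK m) (j : ℕ) (g h : KK m) :
    (Lf f W)^[j] (g + h) = (Lf f W)^[j] g + (Lf f W)^[j] h := by
  induction j with
  | zero => rfl
  | succ j ih =>
    rw [Function.iterate_succ_apply', Function.iterate_succ_apply',
      Function.iterate_succ_apply', ih, Lf_add]

lemma pL_add (k : ℕ) (al : ℕ → ℝ) (f W g h : KK m) :
    pL k al (Lf f W) (g + h) = pL k al (Lf f W) g + pL k al (Lf f W) h := by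
  unfold pL
  rw [← Finset.sum_add_distrib]
  refine Finset.sum_congr rfl fun l _ => ?_
  rw [it_add, mul_add]

end I_NKA

open I_NKA in
theorem NKA_pf (hNPO : S_NPO) : S_NKA := by
  intro m k al f W κ ε hN
  obtain ⟨A, hA1, hA2, hA3⟩ := hNPO m k al f W κ ε hN
  set c : ℂ := (al k : ℂ) * ε / (m + 1) with hc
  have hm1 : ((m : ℂ) + 1) ≠ 0 := by exact_mod_cast Nat.succ_ne_zero m
  have hak : (al k : ℂ) ≠ 0 := by exact_mod_cast hN.nd.ak
  have hc0 : c ≠ 0 := by
    rw [hc]
    exact div_ne_zero (mul_ne_zero hak hN.e0) hm1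
  -- `A ≡ c jj (sg 1)`
  have h1 : 0 < ww m (-A + c • jj m (sg ε κ 1)) := by
    have h := hA1 1
    rw [map_one, one_mul, one_mul, hN.nd.fe, zero_sub] at h
    exact h
  -- `jj θ_i A ≡ c jj (sg θ_i)`
  have h2 : ∀ i : Fin m, 0 < ww m (-(jj m (ths m i) * A) + c • jj m (sg ε κ (ths m i))) := by
    intro i
    have h := hA1 (ths m i)
    have h' : jj m (ths m i) * rp m 1 = rt m i := by
      rw [rt, mul_comm]
    rw [h', hN.nd.fy i, zero_sub] at h
    exact h
  have hmul : ∀ (b : K0 m) (g : KK m), 0 < ww m g → 0 < ww m (jj m b * g) := by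
    intro b g hg
    rw [ww_mul]
    exact lt_of_lt_of_le hg (le_add_of_nonneg_left (le_ww_jj b))
  -- `sg θ_i = θ_i sg 1`
  have h3 : ∀ i : Fin m, sg ε κ (ths m i) = ths m i * sg ε κ 1 := by
    intro i
    have h4 := hmul (ths m i) _ h1
    have h5 := ww_sub_lt (h2 i) h4
    have h6 : -(jj m (ths m i) * A) + c • jj m (sg ε κ (ths m i)) -
        jj m (ths m i) * (-A + c • jj m (sg ε κ 1)) =
        jj m (algebraMap ℂ (K0 m) c * (sg ε κ (ths m i) - ths m i * sg ε κ 1)) := by
      rw [map_mul, map_sub, map_mul, jj_algebraMap, smul_eq, smul_eq]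
      ring
    rw [h6] at h5
    have h7 := jj_eq_zero h5
    rcases mul_eq_zero.mp h7 with h8 | h8
    · exact absurd ((algebraMap ℂ (K0 m)).injective (by rw [h8, map_zero])) hc0
    · exact sub_eq_zero.mp h8
  -- `d0_i κ = 0`
  have hC : algebraMap ℂ (K0 m) (-1 / (2 * ε)) ≠ 0 := by
    intro h
    have h' : (-1 / (2 * ε) : ℂ) = 0 := (algebraMap ℂ (K0 m)).injective (by rw [h, map_zero])
    have h2e : (2 * ε : ℂ) ≠ 0 := mul_ne_zero two_ne_zero hN.e0
    rw [div_eq_zero_iff] at h'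
    rcases h' with h' | h'
    · norm_num at h'
    · exact h2e h'
  have hmK : ((m : K0 m) + 1) ≠ 0 := by
    have h' : ((m : K0 m) + 1) = algebraMap ℂ (K0 m) ((m : ℂ) + 1) := by simp
    rw [h']
    intro h
    exact hm1 ((algebraMap ℂ (K0 m)).injective (by rw [h, map_zero]))
  have h9 : ∀ i : Fin m, d0 m i κ = 0 := by
    intro i
    have h4 := h3 i
    unfold sg at h4
    have h5 : ∑ j : Fin m, (ths m j ^ 2)⁻¹ * ((m + 1) * (d0 m j κ * d0 m j (ths m i)) +
        (d0 m j (d0 m j κ) - d0 m j κ) * ths m i) =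
        ths m i * ∑ j : Fin m, (ths m j ^ 2)⁻¹ * ((m + 1) * (d0 m j κ * d0 m j 1) +
        (d0 m j (d0 m j κ) - d0 m j κ) * 1) := by
      apply mul_left_cancel₀ hC
      rw [h4]
      ring
    rw [Finset.mul_sum, ← sub_eq_zero, ← Finset.sum_sub_distrib] at h5
    have h6 : ∀ j : Fin m, (ths m j ^ 2)⁻¹ * ((m + 1) * (d0 m j κ * d0 m j (ths m i)) +
        (d0 m j (d0 m j κ) - d0 m j κ) * ths m i) -
        ths m i * ((ths m j ^ 2)⁻¹ * ((m + 1) * (d0 m j κ * d0 m j 1) +
        (d0 m j (d0 m j κ) - d0 m j κ) * 1)) =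
        if j = i then (ths m i ^ 2)⁻¹ * ((m + 1) * (d0 m i κ * ths m i)) else 0 := by
      intro j
      rw [d0_ths, Derivation.map_one_eq_zero]
      split_ifs with h7
      · subst h7
        ring
      · ring
    rw [Finset.sum_congr rfl fun j _ => h6 j, Finset.sum_ite_eq' Finset.univ i] at h5
    simp only [Finset.mem_univ, if_true] at h5
    have h7 : (ths m i ^ 2)⁻¹ ≠ 0 := inv_ne_zero (pow_ne_zero 2 (ths_ne i))
    rcases mul_eq_zero.mp h5 with h8 | h8
    · exact absurd h8 h7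
    rcases mul_eq_zero.mp h8 with h8 | h8
    · exact absurd h8 hmK
    rcases mul_eq_zero.mp h8 with h8 | h8
    · exact h8
    · exact absurd h8 (ths_ne i)
  -- the operator `sg` is zero
  have h10 : ∀ φ : K0 m, sg ε κ φ = 0 := by
    intro φ
    unfold sg
    have h11 : ∀ i : Fin m, (ths m i ^ 2)⁻¹ * ((m + 1) * (d0 m i κ * d0 m i φ) +
        (d0 m i (d0 m i κ) - d0 m i κ) * φ) = 0 := by
      intro i
      rw [h9 i, map_zero]
      ring
    rw [Finset.sum_congr rfl fun i _ => h11 i, Finset.sum_const_zero, mul_zero]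
  have h11 : 0 < ww m A := by
    have h := h1
    rw [h10 1, map_zero, smul_zero, add_zero, ww_neg] at h
    exact h
  -- the first coordinate
  have h12 : 0 < ww m (f * rp m (-1) - jj m κ) := by
    have h13 : f * rp m (-1) - jj m κ = (f - rp m 1 * jj m κ) * rp m (-1) := by
      rw [sub_mul]
      congr 1
      rw [mul_comm (rp m 1), mul_assoc, rp_mul, add_neg_cancel, rp_zero, mul_one]
    rw [h13, ww_mul, ww_rp]
    have h14 : (0 : WithTop ℚ) < ((-(-1) : ℚ) : WithTop ℚ) := by norm_num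
    exact lt_of_lt_of_le h14 (le_add_of_nonneg_left hN.f1)
  have h13 : 0 < ww m (pL k al (Lf f W) (rp m 1 * jj m (th2 m))) := by
    have h := hA1 (th2 m)
    rw [h10, map_zero, smul_zero, add_zero] at h
    have h' := ww_add_lt h (hmul (th2 m) A h11)
    rw [sub_add_cancel, mul_comm] at h'
    exact h'
  have h14 := hA3 _ h12
  have h15 := hA2 κ
  have h16 : pL k al (Lf f W) (jj m κ) + pL k al (Lf f W) (f * rp m (-1) - jj m κ) =
      pL k al (Lf f W) (rp m 1 * jj m (th2 m)) := by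
    rw [← pL_add, add_sub_cancel]
    have h17 : f * rp m (-1) = (f * rp m (-1) - rp m 1 * jj m (th2 m)) +
        rp m 1 * jj m (th2 m) := by ring
    rw [h17, pL_add, hN.nd.fx, zero_add]
  have h18 : 0 < ww m (jj m (algebraMap ℂ (K0 m) (al k : ℂ) * κ)) := by
    have h19 : jj m (algebraMap ℂ (K0 m) (al k : ℂ) * κ) =
        pL k al (Lf f W) (rp m 1 * jj m (th2 m)) -
        pL k al (Lf f W) (f * rp m (-1) - jj m κ) -
        (pL k al (Lf f W) (jj m κ) - (al k : ℂ) • jj m κ) := by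
      rw [← h16, map_mul, jj_algebraMap, smul_eq]
      ring
    rw [h19]
    exact ww_sub_lt (ww_sub_lt h13 h14) h15
  rcases mul_eq_zero.mp (jj_eq_zero h18) with h19 | h19
  · exact absurd ((algebraMap ℂ (K0 m)).injective (by rw [h19, map_zero])) hak
  · exact h19

end Pool.Agent.Work.MP_157c12_gt.AN
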