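import Pool.Agent.Work.MP_157c12_gt.AN.Stmts

/-!
# The Laplace operator at a point over the absolute quadric is linear over the complex numbers
-/

set_option autoImplicit false

open MvPolynomial

namespace Pool.Agent.Work.MP_157c12_gt.AN

open Pool.Agent.Work.MP_157c12_gt
open Pool.Agent.Work.MP_157c12_gt.Rot (nb lapC lapD Hyp PatchN FTn)

namespace I_NLI

variable {m : ℕ}

theorem Lf_add (f W g h : KK m) : Lf f W (g + h) = Lf f W g + Lf f W h := by
  unfold Lf lapC
  simp only [map_add, mul_add, Finset.sum_add_distrib]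

theorem Lf_smul (f W : KK m) (c : ℂ) (g : KK m) : Lf f W (c • g) = c • Lf f W g := by
  rw [smul_eq, smul_eq]
  unfold Lf lapC
  have h1 : ∀ i, W * ∑ j, GI f i j * dd m j (algebraMap ℂ (KK m) c * g) =
      algebraMap ℂ (KK m) c * (W * ∑ j, GI f i j * dd m j g) := by
    intro i
    rw [Finset.mul_sum, Finset.mul_sum, Finset.mul_sum]
    refine Finset.sum_congr rfl fun j _ => ?_
    rw [dd_C_mul]
    ring
  rw [Finset.mul_sum, Finset.mul_sum, Finset.mul_sum]
  refine Finset.sum_congr rfl fun i _ => ?_
  rw [h1, dd_C_mul]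
  ring

theorem it_add (f W : KK m) (j : ℕ) : ∀ g h : KK m,
    (Lf f W)^[j] (g + h) = (Lf f W)^[j] g + (Lf f W)^[j] h := by
  induction j with
  | zero => intro g h; rfl
  | succ j ih =>
    intro g h
    rw [Function.iterate_succ_apply, Function.iterate_succ_apply, Function.iterate_succ_apply,
      Lf_add, ih]

theorem it_smul (f W : KK m) (c : ℂ) (j : ℕ) : ∀ g : KK m,
    (Lf f W)^[j] (c • g) = c • (Lf f W)^[j] g := by
  induction j with
  | zero => intro g; rfl
  | succ j ih =>
    intro g
    rw [Function.iterate_succ_apply, Function.iterate_succ_apply, Lf_smul, ih]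

end I_NLI

theorem NLI_pf : S_NLI := by
  intro m k al f W
  refine ⟨I_NLI.Lf_add f W, I_NLI.Lf_smul f W, ?_, ?_⟩
  · intro g h
    unfold pL
    simp only [I_NLI.it_add, mul_add, Finset.sum_add_distrib]
  · intro c g
    unfold pL
    rw [Finset.smul_sum]
    refine Finset.sum_congr rfl fun x _ => ?_
    rw [I_NLI.it_smul, smul_eq, smul_eq]
    ring

end Pool.Agent.Work.MP_157c12_gt.AN
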