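import Pool.Agent.Work.MP_157c12_gt.AN.Tool

/-!
# Algebraic hypersurfaces of finite type in all dimensions: statements

THEOREM. Let `M` be a compact connected hypersurface of finite type of `E (n + 1)`, `n ≥ 2`, whose
image lies in `F = 0`, `F` a non-zero real polynomial. If every complex irreducible factor `R` of
the leading form of `F` with `R ∣ ⟨grad R, grad R⟩` is proportional to the sum of squares, then
`x(M)` is a round sphere.

The docstring of a statement is its proof. `n = m + 1`; the ambient dimension is `m + 2`.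
-/

set_option autoImplicit false

open MvPolynomial
open scoped Manifold ContDiff

namespace Pool.Agent.Work.MP_157c12_gt.AN

open Pool.Agent.Work.MP_157c12_gt
open Pool.Agent.Work.MP_157c12_gt.Rot (nb lapC lapD Hyp PatchN FTn)

/-! ## A. Restrictions of polynomials -/

/-- [LPR] Laplace operator and gradient of a restriction. PROOF. `S = ∑ N_b W_b(x)`. Chain rule and
`dx`: `D_a (W(x)) = W_a(x) - N_a S`. By `tan`, `∑ N_a D_a S = 0`, so
`lapD (W(x)) = ∑ D_a (W_a(x)) - (∑ D_a N_a) S = (lp W)(x) - ∑ N_a N_b W_ab(x) - H S`,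
`H = ∑ D_a N_a`. For `W = P`: `0 = (lp P)(x) - ∑ N_a N_b P_ab(x) - H T`, `T = ∑ N_b P_b(x)`, and
`0 = D_a (P(x)) = P_a(x) - N_a T`; so `P_a(x) = N_a T`, `T ^ 2 = gq P (x)` (as `∑ N_a ^ 2 = 1`), and
`gq P (x) N_a N_b = P_a(x) P_b(x)`. Multiply by `T ^ 4`. The second formula:
`∑ D_a(V(x)) D_a(W(x)) = ∑ V_a W_a - (∑ N_a V_a) (∑ N_a W_a)`, times `T ^ 2`. -/
def S_LPR : Prop := ∀ (R : Type) [CommRing R] [Algebra ℝ R] (n : ℕ)
  (D : Fin n → Derivation ℝ R R) (x N : Fin n → R) (P : MvPolynomial (Fin n) ℝ), Hyp D x N →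
  aeval x P = 0 →
  (∀ W, aeval x (gq P) ^ 2 * lapD D (aeval x W) = aeval x (LW P W)) ∧
  ∀ V W, aeval x (gq P) * ∑ a, D a (aeval x V) * D a (aeval x W) =
    aeval x (gq P * gi V W - gi P V * gi P W)

/-- [ITE] iterates of the Laplace operator. PROOF. Induction on `j` for all `W`: let `q = gq P (x)`,
`q ^ s lapD^[j] (W(x)) = A(x)`. With `f = lapD^[j] (W(x))`, `f = qi ^ s A(x)` (`qi` the inverse of
`q`). `lapD (g h) = g lapD h + h lapD g + 2 ∑ D_a g D_a h`; apply it to `q ^ s f = A(x)`: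
`q ^ s lapD f = (lapD A(x)) - f lapD (q ^ s) - 2 ∑ D_a (q ^ s) D_a f` and
`q ^ s D_a f = D_a A(x) - f D_a (q ^ s)`; multiply by `q ^ (2 s + 4)` and use `S_LPR` for `A`, for
`gq P ^ s` and for the pairs `(gq P ^ s, A)`, `(gq P ^ s, gq P ^ s)`; every term is the value at `x`
of a polynomial which depends on `P`, `W`, `j` only. -/
def S_ITE : Prop := ∀ (n : ℕ) (P W : MvPolynomial (Fin n) ℝ) (j : ℕ),
  ∃ (A : MvPolynomial (Fin n) ℝ) (s : ℕ), ∀ (R : Type) [CommRing R] [Algebra ℝ R]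
  (D : Fin n → Derivation ℝ R R) (x N : Fin n → R) (Qi : R), Hyp D x N → aeval x P = 0 →
  aeval x (gq P) * Qi = 1 → aeval x (gq P) ^ s * (lapD D)^[j] (aeval x W) = aeval x A

/-- [ZPO] the equation of finite type is given by polynomials (`S_ITE` for `W = X a`, common
denominator; `gq P (x)` is a unit). -/
def S_ZPO : Prop := ∀ (n k : ℕ) (al : ℕ → ℝ) (P : MvPolynomial (Fin n) ℝ),
  ∃ Z : Fin n → MvPolynomial (Fin n) ℝ, ∀ (R : Type) [CommRing R] [Algebra ℝ R]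
  (D : Fin n → Derivation ℝ R R) (x N : Fin n → R) (Qi : R), Hyp D x N → aeval x P = 0 →
  aeval x (gq P) * Qi = 1 → ((∀ a, pL k al (lapD D) (x a) = 0) ↔ ∀ a, aeval x (Z a) = 0)

/-! ## B. Linear algebra, elimination, generic points -/

/-- the polynomial `W` as a polynomial in the variable `c` -/
noncomputable def tau {k : Type} [Field k] {n : ℕ} (c : Fin (n + 1)) :
    MvPolynomial (Fin (n + 1)) k →ₐ[k] Polynomial (MvPolynomial (Fin n) k) :=
  aeval (Fin.insertNth (α := fun _ => Polynomial (MvPolynomial (Fin n) k)) c Polynomial.X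
    fun i => Polynomial.C (X i))

/-- [TAU] `tau c` is bijective, and of degree `0` iff the variable `c` does not occur (inverse map:
coefficients by `rename c.succAbove`, the variable to `X c`; or `finSuccEquiv` and a permutation). -/
def S_TAU : Prop := ∀ (k : Type) [Field k] (n : ℕ) (c : Fin (n + 1)),
  Function.Bijective (tau (k := k) c) ∧
  (∀ r : MvPolynomial (Fin n) k, tau c (rename c.succAbove r) = Polynomial.C r) ∧
  ∀ W : MvPolynomial (Fin (n + 1)) k, pderiv c W ≠ 0 → 1 ≤ (tau c W).natDegree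

/-- [ELI] elimination of the variable `c`. PROOF. If `tau c P = C r₀` then `A = 1`, `B = 0`,
`r = r₀`. Otherwise `tau c P` is irreducible of positive degree, hence primitive and irreducible over
the field of fractions (Gauss lemma), it does not divide `tau c W` there either, so the two are
coprime over the field of fractions; clear denominators. (Model: `SA2`, proof `a2`.) -/
def S_ELI : Prop := ∀ (k : Type) [Field k] (n : ℕ) (P W : MvPolynomial (Fin (n + 1)) k)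
  (c : Fin (n + 1)), Irreducible P → ¬ P ∣ W →
  ∃ (A B : MvPolynomial (Fin (n + 1)) k) (r : MvPolynomial (Fin n) k), r ≠ 0 ∧
    A * P + B * W = rename c.succAbove r

/-- [JAC] Jacobian criterion. PROOF. Induction on the total degree of `r`: apply `d i` to
`r(z) = 0`: `∑_a r_a(z) d_i z_a = 0`, so `r_a(z) = 0` for all `a`; `r_a` has smaller degree (or is
zero), so `r_a = 0` for all `a`, `r` is constant (characteristic `0`) and `r(z) = 0` gives `r = 0`. -/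
def S_JAC : Prop := ∀ (k : Type) [Field k] [CharZero k] (K : Type) [Field K] [Algebra k K] (n : ℕ)
  (d : Fin n → Derivation k K K) (z : Fin n → K), (Matrix.of fun i j => d i (z j)).det ≠ 0 →
  ∀ r : MvPolynomial (Fin n) k, aeval z r = 0 → r = 0

/-- [MIN] `n` independent vectors in `K ^ (n + 1)` have a non-zero minor. PROOF. The span is not
everything, so some `e_c` is not in it; the vectors and `e_c` are a basis; expand the determinant
along the row `e_c`. -/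
def S_MIN : Prop := ∀ (K : Type) [Field K] (n : ℕ) (v : Fin n → Fin (n + 1) → K),
  LinearIndependent K v → ∃ c : Fin (n + 1), (Matrix.of fun i j => v i (c.succAbove j)).det ≠ 0

/-- [GEN] generic points of `P = 0` (`S_MIN`, `S_JAC`, `S_ELI`: if `P ∤ W` and `W(x) = 0` then
`r(x ∘ c.succAbove) = 0`, `r ≠ 0`). -/
def S_GEN : Prop := ∀ (k : Type) [Field k] [CharZero k] (K : Type) [Field K] [Algebra k K] (n : ℕ)
  (d : Fin n → Derivation k K K) (x : Fin (n + 1) → K) (P W : MvPolynomial (Fin (n + 1)) k),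
  LinearIndependent K (fun i a => d i (x a)) → Irreducible P → aeval x P = 0 → aeval x W = 0 → P ∣ W

/-- [GRA] Gram matrices. PROOF. `B` = the matrix with the rows `v 0, …, v (n - 1), ν`. `ν` is not in
the span of the `v i` (it would be orthogonal to itself), so `B` is invertible, and
`B Bᵀ = diag (Gram, ⟨ν, ν⟩)`; so `det Gram ⟨ν, ν⟩ = det B ^ 2 ≠ 0`, and
`Bᵀ diag (Gram⁻¹, ⟨ν, ν⟩⁻¹) B = 1`. -/
def S_GRA : Prop := ∀ (K : Type) [Field K] (n : ℕ) (v : Fin n → Fin (n + 1) → K)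
  (ν : Fin (n + 1) → K), LinearIndependent K v → (∀ i, ∑ a, ν a * v i a = 0) →
  ∑ a, ν a ^ 2 ≠ 0 →
  (Matrix.of fun i j => ∑ a, v i a * v j a).det ≠ 0 ∧
  ∀ a b, ∑ i, ∑ j, (Matrix.of fun i j => ∑ a, v i a * v j a)⁻¹ i j * v i a * v j b =
    (if a = b then 1 else 0) - ν a * ν b / ∑ c, ν c ^ 2

/-- [FTK] the equation of finite type in coordinates at a generic point. PROOF. `gq P (x) ≠ 0` by
`S_GEN` and `nd`. `ν = grad P (x)` is orthogonal to the vectors `d_i x` (`d_i (P(x)) = 0`); `S_GRA`;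
`N = ν / s`, `s ^ 2 = gq P (x)`; `Rot.HY` gives `Hyp (nb d x Gi) x N`, `Good.ft` the equation for
`lapD (nb d x Gi)`, and `Rot.LD` (`W ^ 2 = det`) replaces it by `lapC`. -/
def S_FTK : Prop := ∀ (n k : ℕ) (al : ℕ → ℝ) (P : MvPolynomial (Fin (n + 1)) ℝ), Good k al P →
  ∀ (K : Type) [Field K] [IsAlgClosed K] [Algebra ℝ K] (d : Fin n → Derivation ℝ K K)
  (x : Fin (n + 1) → K), (∀ i j f, d i (d j f) = d j (d i f)) →
  LinearIndependent K (fun i a => d i (x a)) → aeval x P = 0 →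
  (Rot.gm d x).det ≠ 0 ∧ ∀ W, W ^ 2 = (Rot.gm d x).det →
    ∀ a, pL k al (lapC d (Rot.gm d x)⁻¹ W W⁻¹) (x a) = 0

/-! ## C. Decay -/

/-- [DEC] decay. PROOF. `L = lapC`: `L g = ∑ W⁻¹ dd_i (W Gi_ij dd_j g)`, so for `g ≠ 0` the value of
`L g` is greater than the value of `g` (`ww_dd`). So `L^[j] f` has a greater value than `f` for
`j ≥ 1`, and the term `al_k f` cannot cancel. -/
def S_DEC : Prop := ∀ (m k : ℕ) (al : ℕ → ℝ) (Gi : Matrix (Fin (m + 1)) (Fin (m + 1)) (KK m))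
  (W f : KK m), W ≠ 0 → (∀ i j, 0 < ww m (Gi i j)) → al k ≠ 0 → f ≠ 0 →
  pL k al (lapC (dd m) Gi W W⁻¹) f ≠ 0

/-! ## D. Points over the cone of a factor of the leading form -/

/-- [HOM] factors of forms are forms (perhaps in Mathlib). -/
def S_HOM : Prop := ∀ (k : Type) [Field k] (n : ℕ) (R W : MvPolynomial (Fin n) k) (d : ℕ),
  W ≠ 0 → W.IsHomogeneous d → R ∣ W → ∃ e, R.IsHomogeneous e

/-- [IND] the elements `ρ, ρ θ_1, …, ρ θ_m` are algebraically independent over `ℂ` (`S_JAC`: the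
matrix `dC_i (ρ (1, θ)_j)` is triangular). -/
def S_IND : Prop := ∀ (m : ℕ) (r : MvPolynomial (Fin (m + 1)) ℂ),
  aeval (fun i => rp m 1 * jj m (ct m i)) r = 0 → r = 0

/-- [NZT] a form does not vanish on the line of the points `cp c φ`. PROOF. `ρ ^ d W(cp c T)` is
`W` at `(ρ T, ρ (1, θ))`, the value of `tau c W` at `ρ T` with the coefficients evaluated at
`ρ (1, θ)`; so the coefficients of `aeval (insertNth c X (C ∘ ct)) W` vanish exactly if those of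
`tau c W` vanish (`S_IND`). -/
def S_NZT : Prop := ∀ (m d : ℕ) (c : Fin (m + 2)) (W : MvPolynomial (Fin (m + 2)) ℂ),
  W.IsHomogeneous d → ∀ j, (tau c W).coeff j ≠ 0 →
  (aeval (Fin.insertNth (α := fun _ => Polynomial (K0 m)) c Polynomial.X
    fun i => Polynomial.C (ct m i)) W : Polynomial (K0 m)).coeff j ≠ 0

/-- [CHO] a point of the cone of an irreducible form: choose `c` with `pderiv c R ≠ 0`; by `S_TAU`
and `S_NZT` the polynomial `R(cp c T)` in `T` has positive degree; `K0 m` is algebraically closed. -/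
def S_CHO : Prop := ∀ (m e : ℕ) (R : MvPolynomial (Fin (m + 2)) ℂ), Irreducible R →
  R.IsHomogeneous e → ∃ (c : Fin (m + 2)) (φ : K0 m), aeval (cp c φ) R = 0

/-- [CLI] the tangent vectors at `cP c ψ` and at `cp c φ` are independent (the components different
from `c` form a triangular matrix). -/
def S_CLI : Prop := ∀ (m : ℕ) (c : Fin (m + 2)),
  (∀ ψ : KK m, LinearIndependent (KK m) (fun (i : Fin (m + 1)) a => dd m i (cP c ψ a))) ∧
  ∀ φ : K0 m, LinearIndependent (K0 m) (fun (i : Fin (m + 1)) a =>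
    (Fin.cons (cp c φ) (fun j b => d0 m j (cp c φ b)) : Fin (m + 1) → Fin (m + 2) → K0 m) i a)

/-- [CGE] `cp c φ` is a generic point of the cone `R = 0`, for forms. PROOF. `R` and `W` vanish at
`cP c (jj φ) = ρ (cp c φ)` (forms); `S_GEN` for `k = ℂ`, `d = dC`, `S_CLI`. -/
def S_CGE : Prop := ∀ (m e d : ℕ) (c : Fin (m + 2)) (φ : K0 m) (R W : MvPolynomial (Fin (m + 2)) ℂ),
  Irreducible R → R.IsHomogeneous e → aeval (cp c φ) R = 0 → W.IsHomogeneous d →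
  aeval (cp c φ) W = 0 → R ∣ W

/-- [LIF] roots near an approximate root. PROOF. `g(T) = f(T + z)` has coefficients of value `≥ 0`,
one of them of value `0` (otherwise all coefficients of `f` have positive values), and
`g(0) = f(z)` has positive value; apply `SB2` (proof `b2`) to `h(T) = g(T - 1)` at the point `1`. -/
def S_LIF : Prop := ∀ (m : ℕ) (f : Polynomial (KK m)) (z : KK m), (∀ i, 0 ≤ ww m (f.coeff i)) →
  (∃ i, ww m (f.coeff i) = 0) → 0 ≤ ww m z → 0 < ww m (f.eval z) →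
  ∃ r, f.eval r = 0 ∧ 0 < ww m (r - z)

/-- [CPT] the point of `P = 0` over `cp c φ`. PROOF. `P = ∑ P_e` (homogeneous components), `d` the
degree; `f(T) = ρ ^ (-d) P(cP c T) = ∑ ρ ^ (e - d) (P_e(cp c T))^jj`. The coefficients have values
`≥ 0` and are congruent to those of `P_d(cp c T)`, which is not zero (`S_NZT`), and
`P_d(cp c φ) = 0` because `R ∣ P_d`. `S_LIF` with `z = jj φ`. -/
def S_CPT : Prop := ∀ (m : ℕ) (c : Fin (m + 2)) (φ : K0 m) (P : MvPolynomial (Fin (m + 2)) ℝ),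
  P ≠ 0 → aeval (cp c φ) (tp P) = 0 → ∃ ψ : KK m, 0 < ww m (ψ - jj m φ) ∧ aeval (cP c ψ) P = 0

/-- [CME] the metric at `cP c ψ` is conical. PROOF. `x = cP c ψ = ρ ω`, `ω ≡ jj (cp c φ)`;
`dd_0 x = ρ (ω + dd_0 ω)`, `dd_0 ω = dd_0 (ω - jj (cp c φ)) ≡ 0`, `dd_i x = ρ dd_i ω`,
`dd_i ω ≡ jj (d0_i (cp c φ))` (congruences modulo positive values). So the metric is `ρ ^ 2 G'` with
`G' ≡ jj (Gram matrix of cp c φ, d0_i (cp c φ))`, whose determinant is not zero (`S_GRA`, `S_CLI`);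
so `det G'` has the value `0`, the inverse of `G'` has entries of value `≥ 0`, and the inverse of
the metric has entries of value `≥ 2`. -/
def S_CME : Prop := ∀ (m : ℕ) (c : Fin (m + 2)) (φ : K0 m) (ψ : KK m) (ν : Fin (m + 2) → K0 m),
  0 < ww m (ψ - jj m φ) → ∑ a, ν a * cp c φ a = 0 → (∀ i, ∑ a, ν a * d0 m i (cp c φ a) = 0) →
  ∑ a, ν a ^ 2 ≠ 0 → ∀ i j, 0 < ww m ((Rot.gm (dd m) (cP c ψ))⁻¹ i j)

/-- [CON] THE FIRST MAIN STEP: the factors of the leading form are isotropic. PROOF. Suppose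
`R ∤ gq R`. `R` is a form (`S_HOM`); `S_CHO`, `S_CPT` (`tp P` vanishes at `cp c φ`). `ν` = the
gradient of `R` at `cp c φ`: Euler's formula, `d0_i (R(cp c φ)) = 0`, and `∑ ν_a ^ 2 ≠ 0` by `S_CGE`
(`gq R` is a form). `S_CME`. `S_FTK` with `d = dd m`, `dd_comm`, `S_CLI`; `W` exists because `KK m`
is algebraically closed. `S_DEC` for a coordinate `x a ≠ 0`. -/
def S_CON : Prop := ∀ (m k : ℕ) (al : ℕ → ℝ) (P : MvPolynomial (Fin (m + 2)) ℝ), Good k al P →
  ∀ R : MvPolynomial (Fin (m + 2)) ℂ, Irreducible R → R ∣ cx (tp P) → R ∣ gq R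

/-! ## E. Points over the absolute quadric -/

/-- [NME] the metric at `pt f` (`∑ x_a x'_a = (ξ η' + η ξ') / 2 + ∑ y_i y'_i` in the coordinates of
`nu`), the sum of the squares, and the independence of the tangent vectors (the components
`η = x_0 - I x_1`, `y_i` form a triangular matrix). -/
def S_NME : Prop := ∀ (m : ℕ) (f : KK m), Rot.gm (dd m) (pt f) = GM f ∧ ∑ a, pt f a ^ 2 = f ∧
  LinearIndependent (KK m) (fun (i : Fin (m + 1)) a => dd m i (pt f a))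

/-- [NIN] determinant and inverse of the metric. (`GM f = [[A, bᵀ], [b, D]]`, `D` diagonal,
`EE f = A - bᵀ D⁻¹ b`.) -/
def S_NIN : Prop := ∀ (m : ℕ) (f : KK m), (GM f).det = (∏ i, rt m i ^ 2) * EE f ∧
  (EE f ≠ 0 → GM f * GI f = 1)

/-- [NLI] `Lf f W` is linear over `ℂ`, and so is `pL`. -/
def S_NLI : Prop := ∀ (m k : ℕ) (al : ℕ → ℝ) (f W : KK m),
  (∀ g h, Lf f W (g + h) = Lf f W g + Lf f W h) ∧ (∀ (c : ℂ) g, Lf f W (c • g) = c • Lf f W g) ∧
  (∀ g h, pL k al (Lf f W) (g + h) = pL k al (Lf f W) g + pL k al (Lf f W) h) ∧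
  ∀ (c : ℂ) g, pL k al (Lf f W) (c • g) = c • pL k al (Lf f W) g

/-- [NDA] the data at a point of `P = 0` over the absolute quadric (`S_FTK`, `S_NME`, `S_NIN`,
`S_NLI`: `ξ = x_0 + I x_1`, `η = x_0 - I x_1`). -/
def S_NDA : Prop := ∀ (m k : ℕ) (al : ℕ → ℝ) (P : MvPolynomial (Fin (m + 2)) ℝ) (f : KK m),
  Good k al P → aeval (pt f) P = 0 → ∃ W, NData k al f W

/-- [NGR] growth is impossible. PROOF. Suppose `s = ww (EE f) > 0`. `ww W = -m + s / 2`;
`GI_00 = (EE f)⁻¹` has the value `-s`, the other entries have values `> -s` (`≥ 1 - s` for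
`(0, i)`, `(i, 0)`, `≥ min 2 (2 - s)` for `(i, j)`), because `-1 ≤ ww f ≤ ww (dd_i f)`. CLAIM: if
`ww g = -κ`, `κ > 0`, then `ww (Lf f W g) = -κ - s`: the terms `(i, j) ≠ (0, 0)` have greater
values, and `h = W (EE f)⁻¹ dd_0 g` has the value `-m + s / 2 - s - κ` (`dd_0 g ≡ κ g`,
`dd_zero_lead`), so `dd_0 h ≡ (m + s / 2 + κ) h`, a non-zero multiple. So the iterates of `ρ` have
the values `-1 - j s`, and the term `l = 0` of `fe` cannot cancel (`k ≥ 1`). -/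
def S_NGR : Prop := ∀ (m k : ℕ) (al : ℕ → ℝ) (f W : KK m), NData k al f W →
  ((-1 : ℚ) : WithTop ℚ) ≤ ww m f → ww m (EE f) ≤ 0

/-- [NDE] decay unless the value of `f` is `-1`. PROOF. Let `t = ww f`, `-2 < t < 0`, `t ≠ -1`.
`dd_0 f - f ≡ (-t - 1) f` has the value `t`, the sum in `EE f` has values `≥ 2 t + 2 > t`, so
`ww (EE f) = t`. `GI_00`: `-t > 0`; `GI_0i`: `≥ t + 2 - t = 2`; `GI_ij`: `≥ min 2 (t + 4)`. `S_DEC`
with the equation `fe` (`f := ρ`); `W ≠ 0`. -/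
def S_NDE : Prop := ∀ (m k : ℕ) (al : ℕ → ℝ) (f W : KK m), NData k al f W →
  ((-2 : ℚ) : WithTop ℚ) < ww m f → ww m f < 0 → ww m f = ((-1 : ℚ) : WithTop ℚ)

/-- [NDF] the form of `f`. PROOF. `exists_lead`: `f = ρ jj κ + f₁`, `ww f₁ > -1`; `κ ≠ 0`. Suppose
`t = ww f₁ < 0`. `dd_0 f - f = dd_0 f₁ - f₁ ≡ (-t - 1) f₁` has the value `t`, the sum in `EE f` has
values `≥ 0`, so `ww (EE f) = t`; `GI_00`: `-t`; `GI_0i`: `≥ -1 + 2 - t`; `GI_ij`:
`≥ min 2 (-2 + 4 - t)`; all positive. `S_DEC` with `fe`. -/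
def S_NDF : Prop := ∀ (m k : ℕ) (al : ℕ → ℝ) (f W : KK m), NData k al f W →
  ww m f = ((-1 : ℚ) : WithTop ℚ) → ∃ (κ : K0 m) (f₁ : KK m), κ ≠ 0 ∧ f = rp m 1 * jj m κ + f₁ ∧
    0 ≤ ww m f₁

/-- the situation of the neutral case -/
structure Neu {m : ℕ} (k : ℕ) (al : ℕ → ℝ) (f W : KK m) (κ : K0 m) (ε : ℂ) : Prop where
  nd : NData k al f W
  f1 : 0 ≤ ww m (f - rp m 1 * jj m κ)
  e0 : ε ≠ 0
  e : 0 < ww m (EE f - algebraMap ℂ (KK m) ε)
  p : ∑ l ∈ Finset.range (k + 1), (al l : ℂ) * (((m : ℂ) + 1) / ε) ^ (k - l) = 0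

/-- [NVA] values in the neutral case. PROOF. `ww (EE f) = 0`: `dd_0 f - f = dd_0 f₁ - f₁` with
`f₁ = f - ρ jj κ`, the sum has values `≥ 0`, so `ww (EE f) ≥ 0`, and `≤ 0` is `S_NGR`. Then
`ww W = -m`. The entries of `GI f`. The operator does not lower values. -/
def S_NVA : Prop := ∀ (m k : ℕ) (al : ℕ → ℝ) (f W : KK m) (κ : K0 m), NData k al f W →
  0 ≤ ww m (f - rp m 1 * jj m κ) → ww m (EE f) = 0 ∧ ww m W = ((-m : ℚ) : WithTop ℚ) ∧
  (∀ i : Fin m, 1 ≤ ww m (GI f 0 i.succ) ∧ 1 ≤ ww m (GI f i.succ 0)) ∧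
  (∀ i j : Fin m, 2 ≤ ww m (GI f i.succ j.succ)) ∧
  ∀ (t : WithTop ℚ) (g : KK m), t ≤ ww m g → t ≤ ww m (Lf f W g) ∧ t ≤ ww m (Tf f W g) ∧
    t + 1 ≤ ww m (Lf f W g - Tf f W g)

/-- [NEP] the constant. PROOF. By `S_NVA` and `exists_lead` `EE f ≡ jj ε₀`, `ε₀ ≠ 0`. `W` has the
value `-m`, so `Tf ρ = W⁻¹ dd_0 (W (EE f)⁻¹ ρ) ≡ (m + 1) (jj ε₀)⁻¹ ρ` modulo values `> -1`
(`dd_zero_lead`), and `Lf ≡ Tf` there (`S_NVA`), also on `jj a ρ`: `Lf^[j] ρ ≡ jj λ ^ j ρ`,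
`λ = (m + 1) / ε₀`. `fe` gives `∑ al_l λ ^ (k - l) = 0` in `K0 m` (`jj_eq_zero` after division by
`ρ`); the left side is a non-zero polynomial over `ℂ` in `λ` (`al 0 = 1`), `ℂ` is algebraically
closed, so `λ` is a constant (a root of a product of linear factors), not zero because `al k ≠ 0`
or because `ε₀` is finite. `ε = (m + 1) / λ`. -/
def S_NEP : Prop := ∀ (m k : ℕ) (al : ℕ → ℝ) (f W : KK m) (κ : K0 m), NData k al f W →
  0 ≤ ww m (f - rp m 1 * jj m κ) → ∃ ε : ℂ, Neu k al f W κ ε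

/-- [NT1] the operator `Tf` in the neutral case. PROOF. `dd_0 (jj φ) = 0`. If `τ = a ρ + τ'`,
`ww τ' > -1`, then `h = W (EE f)⁻¹ dd_0 τ` satisfies `h ≡ a ε⁻¹ W ρ`, `ww (W ρ) = -m - 1`,
`dd_0 (W ρ) ≡ (m + 1) W ρ`. -/
def S_NT1 : Prop := ∀ (m k : ℕ) (al : ℕ → ℝ) (f W : KK m) (κ : K0 m) (ε : ℂ),
  Neu k al f W κ ε → (∀ (φ : K0 m) (g : KK m), Tf f W (jj m φ * g) = jj m φ * Tf f W g) ∧
  (∀ φ : K0 m, Tf f W (jj m φ) = 0) ∧
  ∀ (τ : KK m) (a : ℂ), ((-1 : ℚ) : WithTop ℚ) < ww m (τ - a • rp m 1) →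
    ((-1 : ℚ) : WithTop ℚ) < ww m (Tf f W τ - (a * ((m + 1) / ε)) • rp m 1)

/-- [NS1] the first order part of the operator. PROOF. `Lf g - Tf g` = the terms `(0, i)`, `(i, 0)`
(values `≥ ww g + 1`) and `(i, j)` (values `≥ ww g + 2`, so `≥ 1` for `g = jj φ τ`). With
`-(dd_i f) / (2 rt_i ^ 2 EE f) ≡ -(1 / (2 ε)) ρ⁻¹ jj (d0_i κ / θ_i ^ 2)` modulo values `> 1`
(`dd_i f ≡ ρ jj (d0_i κ)` modulo values `≥ 0`), `g ≡ a ρ jj φ`, `dd_i g ≡ a ρ jj (d0_i φ)`,
`dd_0 g ≡ a ρ jj φ`, `ww W = -m`, `dd_0 W ≡ m W`, and `dd_i W ≡ W` (from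
`W ^ 2 = ∏ rt_i ^ 2 EE f`: `2 dd_i W / W = 2 + dd_i (EE f) / EE f`, and `dd_i (EE f) ≡ 0` because
`EE f ≡ ε`), modulo positive values:
`(0, i)`: `W⁻¹ dd_0 (W h) = dd_0 h + (dd_0 W / W) h ≡ m h`, `h ≡ -(a / (2 ε)) jj (d0_i κ d0_i φ / θ_i ^ 2)`;
`(i, 0)`: `dd_i h' + h'`, `h' ≡ -(a / (2 ε)) jj (d0_i κ φ / θ_i ^ 2)`, `d0_i (θ_i ^ (-2)) = -2 θ_i ^ (-2)`;
the sum is `a jj (sg ε κ φ)`. -/
def S_NS1 : Prop := ∀ (m k : ℕ) (al : ℕ → ℝ) (f W : KK m) (κ : K0 m) (ε : ℂ),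
  Neu k al f W κ ε → ∀ (φ : K0 m) (τ : KK m) (a : ℂ),
  ((-1 : ℚ) : WithTop ℚ) < ww m (τ - a • rp m 1) →
  0 < ww m (Lf f W (jj m φ * τ) - jj m φ * Tf f W τ - a • jj m (sg ε κ φ))

/-- [NIT] the iterates. PROOF. Induction on `j`, with `τ_j = Tf^[j] ρ ≡ λ ^ j ρ` modulo values
`> -1` (`S_NT1`), `λ = (m + 1) / ε`; `Lf (jj φ τ_j) ≡ jj φ τ_(j+1) + λ ^ j jj (sg ε κ φ)` (`S_NS1`);
`Lf (jj b) ≡ 0` for all `b` (`Tf (jj b) = 0` and `S_NVA`), and `Lf` does not lower values. -/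
def S_NIT : Prop := ∀ (m k : ℕ) (al : ℕ → ℝ) (f W : KK m) (κ : K0 m) (ε : ℂ),
  Neu k al f W κ ε → ∀ (φ : K0 m) (j : ℕ),
  0 < ww m ((Lf f W)^[j + 1] (jj m φ * rp m 1) - jj m φ * (Tf f W)^[j + 1] (rp m 1)
    - (((m : ℂ) + 1) / ε) ^ j • jj m (sg ε κ φ)) ∧
  0 < ww m ((Lf f W)^[j + 1] (jj m φ))

/-- [NPO] the polynomial in the operator. PROOF. `S_NIT`;
`∑_(j ≥ 1) al_(k - j) λ ^ (j - 1) = -al_k / λ` by `Neu.p`. -/
def S_NPO : Prop := ∀ (m k : ℕ) (al : ℕ → ℝ) (f W : KK m) (κ : K0 m) (ε : ℂ),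
  Neu k al f W κ ε → ∃ A : KK m, (∀ φ : K0 m,
    0 < ww m (pL k al (Lf f W) (jj m φ * rp m 1) - jj m φ * A
      + ((al k : ℂ) * ε / (m + 1)) • jj m (sg ε κ φ))) ∧
  (∀ φ : K0 m, 0 < ww m (pL k al (Lf f W) (jj m φ) - (al k : ℂ) • jj m φ)) ∧
  ∀ g : KK m, 0 < ww m g → 0 < ww m (pL k al (Lf f W) g)

/-- [NKA] the neutral case is impossible. PROOF. `c = al_k ε / (m + 1) ≠ 0`. `S_NPO` with `fe`
(`φ = 1`), `fy` (`φ = θ_i`): `A ≡ c jj (sg 1)`, `jj θ_i A ≡ c jj (sg θ_i)`, and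
`sg θ_i - θ_i sg 1 = -(1 / (2 ε)) (m + 1) (d0_i κ) / θ_i` (only the term `i` of the sum has
`d0_i θ_i = θ_i ≠ 0`), so `d0_i κ = 0` for all `i` (`jj_eq_zero`); `sg = 0`, `A ≡ 0`. By `fx`, with
`f ρ⁻¹ = jj κ + (value ≥ 1)`: `al_k jj κ ≡ 0` (the term `ρ jj (th2)` contributes
`jj (th2) A - c jj (sg th2) ≡ 0`), so `κ = 0`. -/
def S_NKA : Prop := ∀ (m k : ℕ) (al : ℕ → ℝ) (f W : KK m) (κ : K0 m) (ε : ℂ),
  Neu k al f W κ ε → κ = 0

/-- [NUL] THE SECOND MAIN STEP (`S_NDE`, `S_NDF`, `S_NEP`, `S_NKA`). -/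
def S_NUL : Prop := ∀ (m k : ℕ) (al : ℕ → ℝ) (f W : KK m), NData k al f W →
  ((-2 : ℚ) : WithTop ℚ) < ww m f → ¬ ww m f < 0

/-! ## F. Leading form a power of the sum of squares -/

/-- [BBE] values of forms at `pt f`: `pt f = ρ nu (f ρ ^ (-2) - th2, 1, θ)`. -/
def S_BBE : Prop := ∀ (m e : ℕ) (f : KK m) (W : MvPolynomial (Fin (m + 2)) ℂ), W.IsHomogeneous e →
  aeval (pt f) W = rp m e * ((bb W).map (jj m).toRingHom).eval (f * rp m (-2)) ∧
  bb (sq ℂ (m + 2)) = (Polynomial.X : Polynomial (K0 m))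

/-- [NEW] Newton polygon. PROOF. Let `W_e = homogeneousComponent e P`, `b_je = (bb (cx W_e)).coeff j`,
`2 μ` the degree of `P`. In terms of `s = f ρ ^ (-2)`, by `S_BBE`:
`ρ ^ (-2 μ) P(pt f) = c s ^ μ + ∑_(e < 2 μ) ρ ^ (e - 2 μ) ∑_j jj (b_je) s ^ j = ∑ B_j s ^ j =: Ψ(s)`.
`B_μ` has the value `0`, the other `B_j` have values `≥ 1`. Given `b_je ≠ 0` with `2 j < e`, let
`j₀ = j` (so `j₀ < μ`) and `e₀ ≥ e` the largest index with `b_(j₀ e₀) ≠ 0`: `B_(j₀)` has the value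
`2 μ - e₀ < 2 μ - 2 j₀`. `SB4` (proof `b4`) with `g1 = 1 / (μ + 1)`, `g0 = 2` gives a root `s` of
`Ψ` with `0 < g1 < ww s < 2`; `f = s ρ ^ 2`. -/
def S_NEW : Prop := ∀ (m μ : ℕ) (c : ℝ) (P : MvPolynomial (Fin (m + 2)) ℝ), c ≠ 0 → 1 ≤ μ →
  tp P = C c * sq ℝ (m + 2) ^ μ → ∀ e j, 2 * j < e →
  (bb (cx (homogeneousComponent e P)) : Polynomial (K0 m)).coeff j ≠ 0 →
  ∃ f : KK m, aeval (pt f) P = 0 ∧ ((-2 : ℚ) : WithTop ℚ) < ww m f ∧ ww m f < 0

/-- [QIR] the sum of at least three squares is irreducible over `ℂ`. (For instance: a proper factor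
is a linear form `L` (`S_HOM`), `sq = L L'`; then `sq` would vanish to second order, i.e. all
`pderiv a sq = 2 X a` would vanish, at a point `v ≠ 0` with `L(v) = L'(v) = 0`, which exists in
dimension `≥ 3`.) -/
def S_QIR : Prop := ∀ m : ℕ, 1 ≤ m → Irreducible (sq ℂ (m + 2))

/-- [NGE] `nu (-th2, 1, θ)` is a generic point of the absolute quadric, for forms. PROOF.
`(bb W).coeff 0 = 0` says that `W` vanishes at `nu (-th2) 1 θ`, so at `pt 0` (`S_BBE` with `f = 0`);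
`sq` also vanishes there (`S_NME`). `S_GEN` for `k = ℂ`, `d = dC m` and `S_NME`, `S_QIR`. -/
def S_NGE : Prop := ∀ (m d : ℕ) (W : MvPolynomial (Fin (m + 2)) ℂ), 1 ≤ m → W.IsHomogeneous d →
  (bb W : Polynomial (K0 m)).coeff 0 = 0 → sq ℂ (m + 2) ∣ W

/-- [SQP] forms with small coefficients are powers of the sum of squares. PROOF. Let `W ≠ 0`,
`W = sq ^ i G`, `sq ∤ G` (finite multiplicity), `G` a form of degree `e - 2 i`.
`bb W = X ^ i bb G`, and `(bb G).coeff 0 ≠ 0` by `S_NGE`, so the coefficient `i` of `bb W` is not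
zero and `e ≤ 2 i`; so `G` is a constant and `e = 2 i`. -/
def S_SQP : Prop := ∀ (m e : ℕ) (W : MvPolynomial (Fin (m + 2)) ℂ), 1 ≤ m → W.IsHomogeneous e →
  (∀ j, 2 * j < e → (bb W : Polynomial (K0 m)).coeff j = 0) →
  ∃ (c : ℂ) (i : ℕ), W = C c * sq ℂ (m + 2) ^ i

/-- [POL] PROOF. `S_SQP` for all homogeneous components; the constants are real because
`homogeneousComponent e P` is real: `cx V = C c * cx (sq ^ i)` implies that `c` is real (compare a
non-zero coefficient of `sq ^ i`). -/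
def S_POL : Prop := ∀ (m : ℕ) (P : MvPolynomial (Fin (m + 2)) ℝ), 1 ≤ m →
  (∀ e j, 2 * j < e → (bb (cx (homogeneousComponent e P)) : Polynomial (K0 m)).coeff j = 0) →
  ∃ g : Polynomial ℝ, P = Polynomial.aeval (sq ℝ (m + 2)) g

/-- [TOP] PROOF. All irreducible factors of `cx (tp P)` are associated to `sq`, so
`cx (tp P) = C c sq ^ μ` (unique factorisation), `c` real as in `S_POL`, `μ ≥ 1` because the degree
of `P` is positive. -/
def S_TOP : Prop := ∀ (m : ℕ) (P : MvPolynomial (Fin (m + 2)) ℝ), 1 ≤ P.totalDegree →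
  (∀ R : MvPolynomial (Fin (m + 2)) ℂ, Irreducible R → R ∣ cx (tp P) →
    ∃ c : ℂ, R = C c * sq ℂ (m + 2)) →
  ∃ (c : ℝ) (μ : ℕ), c ≠ 0 ∧ 1 ≤ μ ∧ tp P = C c * sq ℝ (m + 2) ^ μ

/-- [ALG] THE ALGEBRAIC MAIN THEOREM. PROOF. `S_CON`, `S_TOP` (an irreducible polynomial has
positive degree), `S_NEW`, `S_NDA`, `S_NUL`, `S_POL`. -/
def S_ALG : Prop := ∀ (m k : ℕ) (al : ℕ → ℝ) (P : MvPolynomial (Fin (m + 2)) ℝ), 1 ≤ m →
  Good k al P →
  (∀ R : MvPolynomial (Fin (m + 2)) ℂ, Irreducible R → R ∣ cx (tp P) → R ∣ gq R →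
    ∃ c : ℂ, R = C c * sq ℂ (m + 2)) →
  ∃ g : Polynomial ℝ, P = Polynomial.aeval (sq ℝ (m + 2)) g

/-! ## G. Geometry -/

/-- [DNS] patches are dense in the hypersurface. PROOF. Let `p ∈ O`; the tangent space has dimension
`n` in `E (n + 1)`, so some `e_c` is not tangent at `p` (`S_MIN` for the vectors `∂_i X (p)`), and
`X ∘ c.succAbove` is a local diffeomorphism at `p` (inverse function theorem); its image contains an
open set. If `P ∤ W`, `S_ELI` gives `r ≠ 0` vanishing on that open set: contradiction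
(`MvPolynomial.funext` on open sets / infinite sets). -/
def S_DNS : Prop := ∀ (n : ℕ) (O : TopologicalSpace.Opens (E n)) (X : E n → E (n + 1))
  (P W : MvPolynomial (Fin (n + 1)) ℝ), (O : Set (E n)).Nonempty → PatchN O X → Irreducible P →
  (∀ p ∈ O, eval (fun a => X p a) P = 0) → (∀ p ∈ O, eval (fun a => X p a) W = 0) → P ∣ W

/-- [NDG] PROOF. If `P ∣ gq P` then `gq P (X p) = 0`, so `P_c (X p) = 0` for all `c`, `p ∈ O` (real
squares), so `P ∣ P_c` (`S_DNS`), `P_c = 0` (degree) for all `c`, and `P` is a constant. If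
`gq P (X p) = 0` on all of `O` then `P ∣ gq P` by `S_DNS`. -/
def S_NDG : Prop := ∀ (n : ℕ) (O : TopologicalSpace.Opens (E n)) (X : E n → E (n + 1))
  (P : MvPolynomial (Fin (n + 1)) ℝ), (O : Set (E n)).Nonempty → PatchN O X → Irreducible P →
  (∀ p ∈ O, eval (fun a => X p a) P = 0) → ¬ P ∣ gq P ∧ ∃ p ∈ O, eval (fun a => X p a) (gq P) ≠ 0

/-- [RNG] from a patch to the ring of smooth functions near a point. PROOF. `Rot.NE1`, `Rot.NE2`,
`Rot.HY`, `Rot.LD` on a small neighbourhood `V` of `p` (restrict the patch); the iterates of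
`lap X` are the values of the iterates of `lapD` (last part of `Rot.NE1`, and `Rot.LD`). (Model:
the proof of `Rot.GLoc` in `Rot/PG.lean`.) -/
def S_RNG : Prop := ∀ (n k : ℕ) (al : ℕ → ℝ) (O : TopologicalSpace.Opens (E n))
  (X : E n → E (n + 1)), PatchN O X → FTn O X k al → ∀ p ∈ O,
  ∀ O' : TopologicalSpace.Opens (E n), O' ≤ O → p ∈ O' →
  ∃ V : TopologicalSpace.Opens (E n), V ≤ O' ∧ p ∈ V ∧
  ∃ (D : Fin (n + 1) → Derivation ℝ (Rot.Sm V) (Rot.Sm V)) (x N : Fin (n + 1) → Rot.Sm V),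
    Hyp D x N ∧ (∀ a, ∀ q ∈ V, Rot.ev (x a) q = X q a) ∧ ∀ a, pL k al (lapD D) (x a) = 0

/-- [GOO] a patch of finite type in `P = 0` makes `P` good. PROOF. `S_NDG`; take `p ∈ O` with
`gq P (X p) ≠ 0` and `O'` = the set where it is not zero; `S_RNG`; `gq P (x)` is a unit in `Sm V`
(`Rot.isUnit_of_ne`), `P(x) = 0`; `S_ZPO`: `Z_a (x) = 0`, so `Z_a (X q) = 0` on `V`, so `P ∣ Z_a`
(`S_DNS` on `V`); so `Z_a (x) = 0` at all points `x` of `P = 0` over a field, and `S_ZPO` gives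
`ft`. -/
def S_GOO : Prop := ∀ (n k : ℕ) (al : ℕ → ℝ) (O : TopologicalSpace.Opens (E n))
  (X : E n → E (n + 1)) (P : MvPolynomial (Fin (n + 1)) ℝ), 1 ≤ k → al 0 = 1 → al k ≠ 0 →
  (O : Set (E n)).Nonempty → PatchN O X → FTn O X k al → Irreducible P →
  (∀ p ∈ O, eval (fun a => X p a) P = 0) → Good k al P

/-- [FAC] an irreducible factor vanishes on a smaller open set (induction on the number of factors:
if `P F'` vanishes on `O` and `P` does not, then `F'` vanishes on the non-empty open subset where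
`P ≠ 0`). -/
def S_FAC : Prop := ∀ (n : ℕ) (O : TopologicalSpace.Opens (E n)) (X : E n → E (n + 1))
  (F : MvPolynomial (Fin (n + 1)) ℝ), F ≠ 0 → (O : Set (E n)).Nonempty →
  (∀ a, ContinuousOn (fun q => X q a) O) → (∀ p ∈ O, eval (fun a => X p a) F = 0) →
  ∃ (O' : TopologicalSpace.Opens (E n)) (P : MvPolynomial (Fin (n + 1)) ℝ), O' ≤ O ∧
    (O' : Set (E n)).Nonempty ∧ Irreducible P ∧ P ∣ F ∧ ∀ p ∈ O', eval (fun a => X p a) P = 0

/-- [TRA] translations do not change the leading form. -/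
def S_TRA : Prop := ∀ (n : ℕ) (F : MvPolynomial (Fin n) ℝ) (c : Fin n → ℝ), F ≠ 0 →
  aeval (fun a => X a + C (c a)) F ≠ (0 : MvPolynomial (Fin n) ℝ) ∧
  tp (aeval (fun a => X a + C (c a)) F : MvPolynomial (Fin n) ℝ) = tp F

/-- [TPD] leading forms of divisors. -/
def S_TPD : Prop := ∀ (n : ℕ) (P F : MvPolynomial (Fin n) ℝ), F ≠ 0 → P ∣ F →
  cx (tp P) ∣ cx (tp F)

/-- [LOC] locally the distance to the centre is a root of a polynomial from a finite list. PROOF.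
Let `F' = F(X + c)`; `S_TRA`. `P ∣ F'` irreducible up to units: a finite list (unique
factorisation), so there is one polynomial `G ≠ 0` in one variable (the product of the `g` of
`S_ALG`, over those normalised irreducible factors `P` of `F'` which are of the form `g(sq)`) such
that: for every non-empty open `O'` of a chart there is a non-empty open `O'' ⊆ O'` on which some
irreducible `P ∣ F'` vanishes (`S_FAC`), `P` is good (`S_GOO`), the hypothesis on the factors holds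
for `P` (`S_TPD`), so `P = g(sq)` (`S_ALG`) and `G(|X|^2) = 0` on `O''`. By continuity
`G(|x - c|^2) = 0` on `M`: the zero set is closed and every non-empty open set meets it. -/
def S_LOC : Prop := ∀ (n k : ℕ) (al : ℕ → ℝ) (M : Type) [TopologicalSpace M] [ChartedSpace (E n) M]
  [IsManifold 𝓘(ℝ, E n) ∞ M] (x : M → E (n + 1)) (c : E (n + 1))
  (F : MvPolynomial (Fin (n + 1)) ℝ), 2 ≤ n → SmoothImmersion (V := E n) x → 1 ≤ k → al 0 = 1 →
  al k ≠ 0 → (∀ φ ∈ atlas (E n) M,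
    FTn ⟨φ.target, φ.open_target⟩ (fun q => x (φ.symm q) - c) k al) → F ≠ 0 →
  (∀ p, eval (fun a => x p a) F = 0) →
  (∀ R : MvPolynomial (Fin (n + 1)) ℂ, Irreducible R → R ∣ cx (tp F) → R ∣ gq R →
    ∃ c : ℂ, R = C c * sq ℂ (n + 1)) →
  ∃ G : Polynomial ℝ, G ≠ 0 ∧ ∀ p, G.eval (‖x p - c‖ ^ 2) = 0

/-- [FIN] THE THEOREM. PROOF. `Rot.MF`, `S_LOC`; `‖x p - c‖ ^ 2` is a continuous function on a
connected space with finitely many values, so it is constant; `Rot.MS` for `x - c` (an immersion). -/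
def S_FIN : Prop := ∀ (n : ℕ) (M : Type) [TopologicalSpace M] [ChartedSpace (E n) M]
  [IsManifold 𝓘(ℝ, E n) ∞ M] [CompactSpace M] [ConnectedSpace M] (x : M → E (n + 1))
  (F : MvPolynomial (Fin (n + 1)) ℝ), 2 ≤ n → SmoothImmersion (V := E n) x →
  FiniteType (n := n) x → F ≠ 0 → (∀ p, eval (fun a => x p a) F = 0) →
  (∀ R : MvPolynomial (Fin (n + 1)) ℂ, Irreducible R → R ∣ cx (tp F) → R ∣ gq R →
    ∃ c : ℂ, R = C c * sq ℂ (n + 1)) →
  ∃ (c : E (n + 1)) (r : ℝ), 0 < r ∧ Set.range x = Metric.sphere c r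

end Pool.Agent.Work.MP_157c12_gt.AN
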