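import Pool.Agent.Work.MP_157c12_gt.AN.Tool
import Pool.Agent.Work.MP_157c12_gt.AN.Stmts

set_option autoImplicit false

namespace Pool.Agent.Work.MP_157c12_gt.AN

open Pool.Agent.Work.MP_157c12_gt

namespace I_NME

variable {m : ℕ}

local instance cz : CharZero (KK m) :=
  charZero_of_injective_algebraMap (algebraMap ℂ (KK m)).injective

lemma dd_nu (i : Fin (m + 1)) (ξ η : KK m) (y : Fin m → KK m) (a : Fin (m + 2)) :
    dd m i (nu ξ η y a) = nu (dd m i ξ) (dd m i η) (fun j => dd m i (y j)) a := by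
  unfold nu
  refine Fin.cases ?_ (fun a => ?_) a
  · rw [Fin.cons_zero, Fin.cons_zero, dd_C_mul, map_add]
  · rw [Fin.cons_succ, Fin.cons_succ]
    refine Fin.cases ?_ (fun a => ?_) a
    · rw [Fin.cons_zero, Fin.cons_zero, dd_C_mul, map_sub]
    · rw [Fin.cons_succ, Fin.cons_succ]

lemma half : (algebraMap ℂ (KK m) (1 / 2)) = 1 / 2 := by
  rw [map_div₀, map_one, map_ofNat]

lemma hI : (algebraMap ℂ (KK m) (1 / (2 * Complex.I))) ^ 2 = -(1 / 4) := by
  rw [← map_pow]
  have : (1 / (2 * Complex.I)) ^ 2 = -(1 / 4 : ℂ) := by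
    rw [div_pow, mul_pow, Complex.I_sq]
    norm_num
  rw [this, map_neg, map_div₀, map_one, map_ofNat]

lemma sum_nu (ξ η ξ' η' : KK m) (y y' : Fin m → KK m) :
    ∑ a, nu ξ η y a * nu ξ' η' y' a = (ξ * η' + η * ξ') / 2 + ∑ i, y i * y' i := by
  rw [Fin.sum_univ_succ, Fin.sum_univ_succ]
  unfold nu
  simp only [Fin.cons_zero, Fin.cons_succ]
  have h1 := hI (m := m)
  have h2 := half (m := m)
  rw [← add_assoc]
  congr 1
  rw [h2]
  linear_combination (ξ - η) * (ξ' - η') * h1

lemma rp1 : rp m 1 * rp m (-1) = 1 := by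
  rw [rp_mul]
  norm_num
  exact rp_zero

lemma d0_th2 (i : Fin m) : d0 m i (th2 m) = 2 * ths m i ^ 2 := by
  unfold th2
  rw [map_sum]
  rw [Finset.sum_eq_single i]
  · rw [Derivation.leibniz_pow, d0_ths, if_pos rfl]
    simp only [smul_eq_mul, nsmul_eq_mul]
    push_cast
    ring
  · intro j _ hj
    rw [Derivation.leibniz_pow, d0_ths, if_neg (Ne.symm hj)]
    simp
  · intro h
    exact absurd (Finset.mem_univ _) h

lemma dd0_xi (f : KK m) : dd m 0 (f * rp m (-1) - rp m 1 * jj m (th2 m)) =
    (dd m 0 f - f) * rp m (-1) - rp m 1 * jj m (th2 m) := by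
  rw [map_sub, Derivation.leibniz, Derivation.leibniz, dd_zero_rp, dd_zero_rp, dd_zero_jj]
  have e1 : ((1 : ℚ) : ℂ) • rp m 1 = rp m 1 := by
    rw [Rat.cast_one, one_smul]
  have e2 : ((-1 : ℚ) : ℂ) • rp m (-1) = -rp m (-1) := by
    rw [smul_eq, Rat.cast_neg, Rat.cast_one, map_neg, map_one]
    ring
  rw [e1, e2]
  simp only [smul_eq_mul]
  ring

lemma ddS_xi (i : Fin m) (f : KK m) : dd m i.succ (f * rp m (-1) - rp m 1 * jj m (th2 m)) =
    dd m i.succ f * rp m (-1) - rp m 1 * (2 * jj m (ths m i) ^ 2) := by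
  rw [map_sub, Derivation.leibniz, Derivation.leibniz, dd_succ_rp, dd_succ_rp, dd_succ_jj, d0_th2]
  simp only [smul_eq_mul, map_mul, map_pow, map_ofNat]
  ring

lemma dd0_eta : dd m 0 (rp m 1) = rp m 1 := by
  rw [dd_zero_rp]
  push_cast
  rw [one_smul]

lemma sum_rt : ∑ i, rt m i ^ 2 = rp m 1 ^ 2 * jj m (th2 m) := by
  unfold th2 rt
  rw [map_sum, Finset.mul_sum]
  refine Finset.sum_congr rfl fun i _ => ?_
  rw [mul_pow, map_pow]

lemma dd0_pt (f : KK m) (a : Fin (m + 2)) : dd m 0 (pt f a) =
    nu ((dd m 0 f - f) * rp m (-1) - rp m 1 * jj m (th2 m)) (rp m 1) (rt m) a := by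
  unfold pt
  rw [dd_nu, dd0_xi, dd0_eta]
  congr 1
  ext j
  exact congrArg (fun q : KK m => q.coeff _) (dd_zero_rt j)

lemma ddS_pt (i : Fin m) (f : KK m) (a : Fin (m + 2)) : dd m i.succ (pt f a) =
    nu (dd m i.succ f * rp m (-1) - rp m 1 * (2 * jj m (ths m i) ^ 2)) 0
      (fun j => if i = j then rt m j else 0) a := by
  unfold pt
  rw [dd_nu, ddS_xi, dd_succ_rp]
  congr 1
  ext j
  exact congrArg (fun q : KK m => q.coeff _) (dd_succ_rt i j)

lemma nu_eta (ξ η : KK m) (y : Fin m → KK m) :
    nu ξ η y 0 - algebraMap ℂ (KK m) Complex.I * nu ξ η y 1 = η := by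
  have h0 : nu ξ η y 0 = algebraMap ℂ (KK m) (1 / 2) * (ξ + η) := rfl
  have h1 : nu ξ η y 1 = algebraMap ℂ (KK m) (1 / (2 * Complex.I)) * (ξ - η) := rfl
  rw [h0, h1, ← mul_assoc, ← map_mul]
  have : Complex.I * (1 / (2 * Complex.I)) = 1 / 2 := by
    field_simp
  rw [this, half]
  ring

lemma nu_y (ξ η : KK m) (y : Fin m → KK m) (j : Fin m) : nu ξ η y j.succ.succ = y j := rfl

end I_NME

attribute [local instance] I_NME.cz

open I_NME in
theorem NME_pf : S_NME := by
  intro m f
  refine ⟨?_, ?_, ?_⟩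
  · ext1 i j
    show ∑ a, dd m i (pt f a) * dd m j (pt f a) = GM f i j
    have h1 := rp1 (m := m)
    have h2 := sum_rt (m := m)
    refine Fin.cases ?_ (fun i => ?_) i <;> refine Fin.cases ?_ (fun j => ?_) j
    · show _ = dd m 0 f - f
      simp_rw [dd0_pt]
      rw [sum_nu]
      have h3 : ∑ i, rt m i * rt m i = rp m 1 ^ 2 * jj m (th2 m) := by
        rw [← h2]
        exact Finset.sum_congr rfl fun i _ => (pow_two _).symm
      rw [h3]
      linear_combination (dd m 0 f - f) * h1
    · show _ = dd m j.succ f / 2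
      simp_rw [dd0_pt, ddS_pt]
      rw [sum_nu]
      rw [Finset.sum_eq_single j]
      · rw [if_pos rfl]
        unfold rt
        linear_combination (dd m j.succ f / 2) * h1
      · intro b _ hb
        rw [if_neg (Ne.symm hb), mul_zero]
      · intro h
        exact absurd (Finset.mem_univ _) h
    · show _ = dd m i.succ f / 2
      simp_rw [dd0_pt, ddS_pt]
      rw [sum_nu]
      rw [Finset.sum_eq_single i]
      · rw [if_pos rfl]
        unfold rt
        linear_combination (dd m i.succ f / 2) * h1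
      · intro b _ hb
        rw [if_neg (Ne.symm hb), zero_mul]
      · intro h
        exact absurd (Finset.mem_univ _) h
    · show _ = if i = j then rt m i ^ 2 else 0
      simp_rw [ddS_pt]
      rw [sum_nu]
      simp only [mul_zero, zero_mul, add_zero, zero_div, zero_add]
      rw [Finset.sum_eq_single i]
      · rw [if_pos rfl]
        by_cases h : i = j
        · subst h
          rw [if_pos rfl, if_pos rfl, pow_two]
        · rw [if_neg h, if_neg (Ne.symm h), mul_zero]
      · intro b _ hb
        rw [if_neg (Ne.symm hb), zero_mul]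
      · intro h
        exact absurd (Finset.mem_univ _) h
  · have h1 := rp1 (m := m)
    have h2 := sum_rt (m := m)
    have h3 : ∑ a, pt f a ^ 2 = ∑ a, pt f a * pt f a := Finset.sum_congr rfl fun a _ => pow_two _
    rw [h3]
    unfold pt
    rw [sum_nu]
    have h4 : ∑ i, (rp m 1 * jj m (ths m i)) * (rp m 1 * jj m (ths m i)) =
        rp m 1 ^ 2 * jj m (th2 m) := by
      rw [← h2]
      exact Finset.sum_congr rfl fun i _ => (pow_two _).symm
    rw [h4]
    linear_combination f * h1
  · rw [Fintype.linearIndependent_iff]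
    intro c hc
    have hc' : ∀ a, ∑ i, c i * dd m i (pt f a) = 0 := by
      intro a
      have := congrFun hc a
      simpa [Finset.sum_apply, smul_eq_mul] using this
    have e1 : ∀ a, c 0 * nu ((dd m 0 f - f) * rp m (-1) - rp m 1 * jj m (th2 m)) (rp m 1) (rt m) a +
        ∑ i : Fin m, c i.succ *
          nu (dd m i.succ f * rp m (-1) - rp m 1 * (2 * jj m (ths m i) ^ 2)) 0
            (fun j => if i = j then rt m j else 0) a = 0 := by
      intro a
      have := hc' a
      rw [Fin.sum_univ_succ] at this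
      simp_rw [dd0_pt, ddS_pt] at this
      exact this
    have h0 : c 0 = 0 := by
      have ha := e1 0
      have hb := e1 1
      have hsum : (c 0 * nu ((dd m 0 f - f) * rp m (-1) - rp m 1 * jj m (th2 m)) (rp m 1) (rt m) 0 +
        ∑ i : Fin m, c i.succ *
          nu (dd m i.succ f * rp m (-1) - rp m 1 * (2 * jj m (ths m i) ^ 2)) 0
            (fun j => if i = j then rt m j else 0) 0) -
          algebraMap ℂ (KK m) Complex.I *
          (c 0 * nu ((dd m 0 f - f) * rp m (-1) - rp m 1 * jj m (th2 m)) (rp m 1) (rt m) 1 +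
        ∑ i : Fin m, c i.succ *
          nu (dd m i.succ f * rp m (-1) - rp m 1 * (2 * jj m (ths m i) ^ 2)) 0
            (fun j => if i = j then rt m j else 0) 1) = c 0 * rp m 1 := by
        rw [mul_add, Finset.mul_sum, add_sub_add_comm, ← Finset.sum_sub_distrib]
        have h5 : ∀ i : Fin m, c i.succ *
          nu (dd m i.succ f * rp m (-1) - rp m 1 * (2 * jj m (ths m i) ^ 2)) 0
            (fun j => if i = j then rt m j else 0) 0 - algebraMap ℂ (KK m) Complex.I *
            (c i.succ * nu (dd m i.succ f * rp m (-1) - rp m 1 * (2 * jj m (ths m i) ^ 2)) 0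
            (fun j => if i = j then rt m j else 0) 1) = 0 := by
          intro i
          have := nu_eta (m := m) (dd m i.succ f * rp m (-1) - rp m 1 * (2 * jj m (ths m i) ^ 2)) 0
            (fun j => if i = j then rt m j else 0)
          linear_combination c i.succ * this
        rw [Finset.sum_eq_zero fun i _ => h5 i]
        have := nu_eta (m := m) ((dd m 0 f - f) * rp m (-1) - rp m 1 * jj m (th2 m)) (rp m 1) (rt m)
        linear_combination c 0 * this
      rw [ha, hb, mul_zero, sub_zero] at hsum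
      rcases mul_eq_zero.mp hsum.symm with h | h
      · exact h
      · exact absurd h (rp_ne 1)
    intro i
    refine Fin.cases h0 (fun j => ?_) i
    have := e1 j.succ.succ
    rw [h0, zero_mul, zero_add] at this
    simp_rw [nu_y] at this
    rw [Finset.sum_eq_single j] at this
    · rw [if_pos rfl] at this
      rcases mul_eq_zero.mp this with h | h
      · exact h
      · exact absurd h (rt_ne j)
    · intro b _ hb
      rw [if_neg hb, mul_zero]
    · intro h
      exact absurd (Finset.mem_univ _) h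

end Pool.Agent.Work.MP_157c12_gt.AN
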