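import Pool.Agent.Work.MP_157c12_gt.AN.Stmts

/-!
# Item NPO: the polynomial in the Laplace operator in the neutral case
-/

set_option autoImplicit false

open MvPolynomial

namespace Pool.Agent.Work.MP_157c12_gt.AN

open Pool.Agent.Work.MP_157c12_gt
open Pool.Agent.Work.MP_157c12_gt.Rot (nb lapC lapD Hyp PatchN FTn)

namespace I_NPO

variable {m : ℕ}

lemma pL_eq (k : ℕ) (al : ℕ → ℝ) (L : KK m → KK m) (g : KK m) :
    pL k al L g = ∑ l ∈ Finset.range (k + 1), (al l : ℂ) • L^[k - l] g := by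
  unfold pL
  refine Finset.sum_congr rfl fun l _ => ?_
  rw [smul_eq]
  rfl

/-- the last term separately -/
lemma pL_succ (k : ℕ) (al : ℕ → ℝ) (L : KK m → KK m) (g : KK m) :
    pL k al L g = ∑ l ∈ Finset.range k, (al l : ℂ) • L^[k - l] g + (al k : ℂ) • g := by
  rw [pL_eq, Finset.sum_range_succ, Nat.sub_self]
  rfl

lemma exp_sub {k l : ℕ} (h : l ∈ Finset.range k) : ∃ j, k - l = j + 1 := by
  rw [Finset.mem_range] at h
  exact ⟨k - l - 1, by omega⟩

end I_NPO

open I_NPO in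
theorem NPO_pf (hNIT : S_NIT) (hNVA : S_NVA) : S_NPO := by
  intro m k al f W κ ε hN
  obtain ⟨-, -, -, -, hop⟩ := hNVA m k al f W κ hN.nd hN.f1
  have hit := hNIT m k al f W κ ε hN
  -- the operator does not lower values
  have hL : ∀ (j : ℕ) (g : KK m), 0 < ww m g → 0 < ww m ((Lf f W)^[j] g) := by
    intro j
    induction j with
    | zero => intro g hg; exact hg
    | succ j ih =>
      intro g hg
      rw [Function.iterate_succ_apply]
      exact ih _ (hg.trans_le (hop _ g le_rfl).1)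
  have hm : ((m : ℂ) + 1) ≠ 0 := by exact_mod_cast Nat.succ_ne_zero m
  have hlam : ((m : ℂ) + 1) / ε ≠ 0 := div_ne_zero hm hN.e0
  -- the constant
  have hc : ∑ l ∈ Finset.range k, (al l : ℂ) * (((m : ℂ) + 1) / ε) ^ (k - l - 1) =
      -((al k : ℂ) * ε / (m + 1)) := by
    have h1 := hN.p
    rw [Finset.sum_range_succ, Nat.sub_self, pow_zero, mul_one] at h1
    have h2 : ∑ l ∈ Finset.range k, (al l : ℂ) * (((m : ℂ) + 1) / ε) ^ (k - l) =
        (((m : ℂ) + 1) / ε) *
          ∑ l ∈ Finset.range k, (al l : ℂ) * (((m : ℂ) + 1) / ε) ^ (k - l - 1) := by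
      rw [Finset.mul_sum]
      refine Finset.sum_congr rfl fun l hl => ?_
      obtain ⟨j, hj⟩ := exp_sub hl
      rw [hj, Nat.add_sub_cancel, pow_succ]
      ring
    rw [h2] at h1
    have h3 : (((m : ℂ) + 1) / ε) *
          ∑ l ∈ Finset.range k, (al l : ℂ) * (((m : ℂ) + 1) / ε) ^ (k - l - 1) = -(al k : ℂ) :=
      eq_neg_of_add_eq_zero_left h1
    refine mul_left_cancel₀ hlam ?_
    rw [h3]
    have he := hN.e0
    field_simp
  refine ⟨pL k al (Tf f W) (rp m 1), ?_, ?_, ?_⟩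
  · intro φ
    have h1 : pL k al (Lf f W) (jj m φ * rp m 1) - jj m φ * pL k al (Tf f W) (rp m 1)
        + ((al k : ℂ) * ε / (m + 1)) • jj m (sg ε κ φ) =
        ∑ l ∈ Finset.range k, (al l : ℂ) • ((Lf f W)^[k - l] (jj m φ * rp m 1)
          - jj m φ * (Tf f W)^[k - l] (rp m 1)
          - (((m : ℂ) + 1) / ε) ^ (k - l - 1) • jj m (sg ε κ φ)) := by
      have h2 : ∀ l ∈ Finset.range k, (al l : ℂ) • ((Lf f W)^[k - l] (jj m φ * rp m 1)
          - jj m φ * (Tf f W)^[k - l] (rp m 1)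
          - (((m : ℂ) + 1) / ε) ^ (k - l - 1) • jj m (sg ε κ φ)) =
          (al l : ℂ) • (Lf f W)^[k - l] (jj m φ * rp m 1)
          - jj m φ * ((al l : ℂ) • (Tf f W)^[k - l] (rp m 1))
          - ((al l : ℂ) * (((m : ℂ) + 1) / ε) ^ (k - l - 1)) • jj m (sg ε κ φ) := by
        intro l _
        rw [smul_sub, smul_sub, smul_smul]
        congr 2
        rw [smul_eq, smul_eq]
        ring
      rw [Finset.sum_congr rfl h2, Finset.sum_sub_distrib, Finset.sum_sub_distrib,
        ← Finset.mul_sum, ← Finset.sum_smul, hc, pL_succ, pL_succ, neg_smul, mul_add]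
      have h3 : jj m φ * ((al k : ℂ) • rp m 1) = (al k : ℂ) • (jj m φ * rp m 1) := by
        rw [smul_eq, smul_eq]
        ring
      rw [h3]
      abel
    rw [h1]
    refine ww_sum_lt (by simp) fun l hl => lt_ww_smul ?_ _
    obtain ⟨j, hj⟩ := exp_sub hl
    rw [hj, Nat.add_sub_cancel]
    exact (hit φ j).1
  · intro φ
    rw [pL_succ, add_sub_cancel_right]
    refine ww_sum_lt (by simp) fun l hl => lt_ww_smul ?_ _
    obtain ⟨j, hj⟩ := exp_sub hl
    rw [hj]
    exact (hit φ j).2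
  · intro g hg
    rw [pL_eq]
    exact ww_sum_lt (by simp) fun l _ => lt_ww_smul (hL _ _ hg) _

end Pool.Agent.Work.MP_157c12_gt.AN
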