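import Pool.Agent.Work.MP_157c12_gt.AN.Stmts

/-!
# Block [157c12 AN], item NS1: the first order part of the operator
-/

set_option autoImplicit false

namespace Pool.Agent.Work.MP_157c12_gt.AN

open Pool.Agent.Work.MP_157c12_gt
open Pool.Agent.Work.MP_157c12_gt.Rot (nb lapC lapD Hyp PatchN FTn)

namespace I_NS1

variable {m : ℕ}

/-- congruence modulo positive values -/
def Cg (x y : KK m) : Prop := 0 < ww m (x - y)

theorem cg_refl (x : KK m) : Cg x x := by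
  unfold Cg
  rw [sub_self, ww_zero]
  exact WithTop.coe_lt_top _

theorem cg_trans {x y z : KK m} (h1 : Cg x y) (h2 : Cg y z) : Cg x z := by
  unfold Cg at *
  have : x - z = (x - y) + (y - z) := by ring
  rw [this]
  exact ww_add_lt h1 h2

theorem cg_add {x y z t : KK m} (h1 : Cg x y) (h2 : Cg z t) : Cg (x + z) (y + t) := by
  unfold Cg at *
  have : x + z - (y + t) = (x - y) + (z - t) := by ring
  rw [this]
  exact ww_add_lt h1 h2

theorem cg_mul {x x0 y y0 : KK m} (hx : Cg x x0) (hy : Cg y y0) (hx0 : 0 ≤ ww m x0)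
    (hy0 : 0 ≤ ww m y0) : Cg (x * y) (x0 * y0) := by
  unfold Cg at *
  have : x * y - x0 * y0 = ((x - x0) * (y - y0) + (x - x0) * y0) + x0 * (y - y0) := by ring
  rw [this]
  refine ww_add_lt (ww_add_lt ?_ ?_) ?_
  · rw [ww_mul]
    exact add_pos_of_pos_of_nonneg hx hy.le
  · rw [ww_mul]
    exact add_pos_of_pos_of_nonneg hx hy0
  · rw [ww_mul, add_comm]
    exact add_pos_of_pos_of_nonneg hy hx0

theorem ww_inv_add {x : KK m} (hx : x ≠ 0) : ww m x⁻¹ + ww m x = 0 := by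
  rw [← ww_mul, inv_mul_cancel₀ hx, ww_one]

theorem ww_of_cg {x : KK m} {c : ℂ} (hc : c ≠ 0) (h : Cg x (algebraMap ℂ (KK m) c)) :
    ww m x = 0 := by
  have e : x = algebraMap ℂ (KK m) c + (x - algebraMap ℂ (KK m) c) := by ring
  rw [e, ww_add_eq, ww_algebraMap hc]
  rw [ww_algebraMap hc]
  exact h

theorem cg_inv {x : KK m} {c : ℂ} (hc : c ≠ 0) (h : Cg x (algebraMap ℂ (KK m) c)) :
    Cg x⁻¹ (algebraMap ℂ (KK m) c⁻¹) := by
  have hw : ww m x = 0 := ww_of_cg hc h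
  have hx : x ≠ 0 := by
    intro h0
    rw [h0, ww_zero] at hw
    exact WithTop.top_ne_zero hw
  have hc' : algebraMap ℂ (KK m) c ≠ 0 := by
    intro h0
    exact hc ((algebraMap ℂ (KK m)).injective (by rw [h0, map_zero]))
  have hwi : ww m x⁻¹ = 0 := by
    have := ww_inv_add hx
    rwa [hw, add_zero] at this
  have e : x⁻¹ - algebraMap ℂ (KK m) c⁻¹
      = -(x - algebraMap ℂ (KK m) c) * (x⁻¹ * algebraMap ℂ (KK m) c⁻¹) := by
    rw [map_inv₀]
    field_simp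
    ring
  unfold Cg at *
  rw [e, ww_mul, ww_mul, ww_neg, hwi, ww_algebraMap (inv_ne_zero hc), add_zero, add_zero]
  exact h

theorem L0 {W h : KK m} (hW : W ≠ 0) (i : Fin (m + 1)) (hh : 0 < ww m h) :
    0 < ww m (W⁻¹ * dd m i (W * h)) := by
  rw [ww_mul]
  have h1 : ww m (W * h) ≤ ww m (dd m i (W * h)) := ww_dd _ _
  have h2 : ww m W⁻¹ + ww m (W * h) ≤ ww m W⁻¹ + ww m (dd m i (W * h)) := add_le_add_right h1 _
  refine lt_of_lt_of_le ?_ h2
  rw [ww_mul, ← add_assoc, ww_inv_add hW, zero_add]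
  exact hh

/-- `W⁻¹ ∂ (W h)` for `h ≡ jj b` and `W⁻¹ ∂ W ≡ μ`. -/
theorem M0 {W h : KK m} (hW : W ≠ 0) (i : Fin (m + 1)) {b : K0 m} {μ : ℂ} {c : KK m}
    (hh : Cg h (jj m b)) (hμ : Cg (W⁻¹ * dd m i W) (algebraMap ℂ (KK m) μ))
    (hc : dd m i (jj m b) = c) :
    Cg (W⁻¹ * dd m i (W * h)) (algebraMap ℂ (KK m) μ * jj m b + c) := by
  have e : W⁻¹ * dd m i (W * h) - (algebraMap ℂ (KK m) μ * jj m b + c)
      = W⁻¹ * dd m i (W * (h - jj m b))
        + (W⁻¹ * dd m i W - algebraMap ℂ (KK m) μ) * jj m b := by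
    rw [← hc]
    have e1 : W * h = W * (h - jj m b) + W * jj m b := by ring
    rw [e1, map_add, Derivation.leibniz (dd m i) W (jj m b), smul_eq_mul, smul_eq_mul]
    have e2 : W⁻¹ * W = 1 := inv_mul_cancel₀ hW
    have e3 : W⁻¹ * (dd m i (W * (h - jj m b)) + (W * dd m i (jj m b) + jj m b * dd m i W))
        = W⁻¹ * dd m i (W * (h - jj m b)) + (W⁻¹ * W) * dd m i (jj m b)
          + jj m b * (W⁻¹ * dd m i W) := by ring
    rw [e3, e2]
    ring
  unfold Cg at *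
  rw [e]
  refine ww_add_lt (L0 hW i hh) ?_
  rw [ww_mul]
  exact add_pos_of_pos_of_nonneg hμ (le_ww_jj b)

theorem two_ne : (2 : KK m) ≠ 0 := by
  have h : (2 : KK m) = algebraMap ℂ (KK m) 2 := by rw [map_ofNat]
  rw [h]
  intro h0
  exact two_ne_zero ((algebraMap ℂ (KK m)).injective (by rw [h0, map_zero]))

theorem dd_prod (i : Fin m) (s : Finset (Fin m)) :
    dd m i.succ (∏ j ∈ s, rt m j ^ 2) = (if i ∈ s then 2 else 0) * ∏ j ∈ s, rt m j ^ 2 := by
  classical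
  induction s using Finset.induction_on with
  | empty => simp
  | insert a s ha ih =>
    rw [Finset.prod_insert ha, Derivation.leibniz, ih, Derivation.leibniz_pow, dd_succ_rt]
    by_cases hia : i = a
    · subst hia
      rw [if_neg ha, if_pos rfl, if_pos (Finset.mem_insert_self _ _)]
      simp only [smul_eq_mul, nsmul_eq_mul]
      push_cast
      ring
    · rw [if_neg hia]
      have : (i ∈ insert a s) ↔ i ∈ s := by
        rw [Finset.mem_insert]
        exact or_iff_right hia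
      simp only [this, smul_eq_mul, nsmul_eq_mul]
      ring

theorem dd_alg (i : Fin (m + 1)) (c : ℂ) : dd m i (algebraMap ℂ (KK m) c) = 0 :=
  (dC m i).map_algebraMap c

/-- The logarithmic derivative of `W` in the direction `i.succ`. -/
theorem logW {f W : KK m} {ε : ℂ} (he : ε ≠ 0) (hE : Cg (EE f) (algebraMap ℂ (KK m) ε))
    (hW0 : W ≠ 0) (hW : W ^ 2 = (∏ i, rt m i ^ 2) * EE f) (i : Fin m) :
    Cg (W⁻¹ * dd m i.succ W) (algebraMap ℂ (KK m) 1) := by
  have hE0 : ww m (EE f) = 0 := ww_of_cg he hE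
  have hEn : EE f ≠ 0 := by
    intro h0
    rw [h0, ww_zero] at hE0
    exact WithTop.top_ne_zero hE0
  have hprod : dd m i.succ (∏ j, rt m j ^ 2) = 2 * ∏ j, rt m j ^ 2 := by
    rw [dd_prod, if_pos (Finset.mem_univ i)]
  have h1 : dd m i.succ (W ^ 2) = dd m i.succ ((∏ i, rt m i ^ 2) * EE f) := by rw [hW]
  rw [Derivation.leibniz_pow, Derivation.leibniz, hprod] at h1
  simp only [smul_eq_mul, nsmul_eq_mul] at h1
  have h2 : W⁻¹ * dd m i.succ W - 1 = dd m i.succ (EE f - algebraMap ℂ (KK m) ε) * (2⁻¹ * (EE f)⁻¹) := by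
    rw [map_sub, dd_alg, sub_zero]
    have h3 : W ^ 2 * (2 * (W⁻¹ * dd m i.succ W))
        = W ^ 2 * (dd m i.succ (EE f) * (EE f)⁻¹ + 2) := by
      have e1 : W ^ 2 * (2 * (W⁻¹ * dd m i.succ W)) = 2 * W * dd m i.succ W := by
        field_simp
      have e2 : W ^ 2 * (dd m i.succ (EE f) * (EE f)⁻¹ + 2)
          = (∏ i, rt m i ^ 2) * dd m i.succ (EE f) + EE f * (2 * ∏ j, rt m j ^ 2) := by
        rw [hW]
        field_simp
      rw [e1, e2, ← h1]
      push_cast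
      ring
    have h4 := mul_left_cancel₀ (pow_ne_zero 2 hW0) h3
    have h5 : W⁻¹ * dd m i.succ W = 2⁻¹ * (dd m i.succ (EE f) * (EE f)⁻¹ + 2) := by
      rw [← h4, inv_mul_cancel_left₀ two_ne]
    have h6 : (2⁻¹ : KK m) * 2 = 1 := inv_mul_cancel₀ two_ne
    rw [h5]
    linear_combination h6
  unfold Cg
  rw [map_one, h2, ww_mul]
  refine add_pos_of_pos_of_nonneg ?_ ?_
  · exact lt_of_lt_of_le hE (ww_dd _ _)
  · have h2' : (2⁻¹ : KK m) = algebraMap ℂ (KK m) 2⁻¹ := by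
      rw [map_inv₀, map_ofNat]
    rw [ww_mul, h2', ww_algebraMap (by norm_num), zero_add]
    have := ww_inv_add hEn
    rw [hE0, add_zero] at this
    rw [this]

theorem cg_sum {ι : Type} {s : Finset ι} {x y : ι → KK m} (h : ∀ i ∈ s, Cg (x i) (y i)) :
    Cg (∑ i ∈ s, x i) (∑ i ∈ s, y i) := by
  unfold Cg
  rw [← Finset.sum_sub_distrib]
  exact ww_sum_lt WithTop.zero_ne_top h

theorem S0 {x h : KK m} {t : ℚ} (hx : ww m x = (t : WithTop ℚ))
    (hh : (t : WithTop ℚ) < ww m (x * h)) : 0 < ww m h := by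
  by_contra hle
  have h1 := add_le_add_right (not_lt.mp hle) (ww m x)
  rw [← ww_mul, add_zero, hx] at h1
  exact absurd hh (not_lt.mpr h1)

theorem V1 {x : KK m} (hx : ((-1 : ℚ) : WithTop ℚ) < ww m x) : 0 < ww m (rp m (-1) * x) := by
  have h1 : ww m (rp m 1) = ((-1 : ℚ) : WithTop ℚ) := ww_rp 1
  refine S0 h1 ?_
  rw [← mul_assoc, rp_mul]
  have : (1 : ℚ) + -1 = 0 := by norm_num
  rw [this, rp_zero, one_mul]
  exact hx

theorem rp_cancel : rp m 1 * rp m (-1) = 1 := by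
  rw [rp_mul]
  have : (1 : ℚ) + -1 = 0 := by norm_num
  rw [this, rp_zero]

/-- `ρ⁻¹ τ` -/
theorem C0 {τ : KK m} {a : ℂ} (hτ : ((-1 : ℚ) : WithTop ℚ) < ww m (τ - a • rp m 1)) :
    Cg (rp m (-1) * τ) (algebraMap ℂ (KK m) a) := by
  have h := V1 hτ
  unfold Cg
  have e : rp m (-1) * (τ - a • rp m 1) = rp m (-1) * τ - algebraMap ℂ (KK m) a := by
    rw [mul_sub, smul_eq]
    have : rp m (-1) * (algebraMap ℂ (KK m) a * rp m 1)
        = algebraMap ℂ (KK m) a * (rp m 1 * rp m (-1)) := by ring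
    rw [this, rp_cancel, mul_one]
  rwa [e] at h

theorem C0s {τ : KK m} {a : ℂ} (hτ : ((-1 : ℚ) : WithTop ℚ) < ww m (τ - a • rp m 1))
    (j : Fin m) : Cg (rp m (-1) * dd m j.succ τ) 0 := by
  have h := V1 (lt_ww_dd hτ j.succ)
  rw [map_sub, dd_smul, dd_succ_rp, smul_zero, sub_zero] at h
  unfold Cg
  rwa [sub_zero]

theorem C00 {τ : KK m} {a : ℂ} (hτ : ((-1 : ℚ) : WithTop ℚ) < ww m (τ - a • rp m 1)) :
    Cg (rp m (-1) * dd m 0 τ) (algebraMap ℂ (KK m) a) := by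
  have h := lt_ww_dd hτ 0
  rw [map_sub, dd_smul, dd_zero_rp] at h
  have e : (((1 : ℚ) : ℂ)) • rp m 1 = rp m 1 := by
    push_cast
    rw [one_smul]
  rw [e] at h
  exact C0 h

/-- `ρ⁻¹ ∂_j (jj φ τ)` -/
theorem C2 {τ : KK m} {a : ℂ} (hτ : ((-1 : ℚ) : WithTop ℚ) < ww m (τ - a • rp m 1))
    (φ : K0 m) (j : Fin m) :
    Cg (rp m (-1) * dd m j.succ (jj m φ * τ)) (algebraMap ℂ (KK m) a * jj m (d0 m j φ)) := by
  have e : rp m (-1) * dd m j.succ (jj m φ * τ)
      = jj m φ * (rp m (-1) * dd m j.succ τ) + (rp m (-1) * τ) * jj m (d0 m j φ) := by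
    rw [Derivation.leibniz, dd_succ_jj, smul_eq_mul, smul_eq_mul]
    ring
  rw [e]
  have h1 : Cg (jj m φ * (rp m (-1) * dd m j.succ τ)) (jj m φ * 0) :=
    cg_mul (cg_refl _) (C0s hτ j) (le_ww_jj φ) (by rw [ww_zero]; exact le_top)
  have h2 : Cg ((rp m (-1) * τ) * jj m (d0 m j φ)) (algebraMap ℂ (KK m) a * jj m (d0 m j φ)) := by
    refine cg_mul (C0 hτ) (cg_refl _) ?_ (le_ww_jj _)
    rw [← jj_algebraMap]
    exact le_ww_jj _
  have h3 := cg_add h1 h2
  rwa [mul_zero, zero_add] at h3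

/-- `ρ⁻¹ ∂_0 (jj φ τ)` -/
theorem C3 {τ : KK m} {a : ℂ} (hτ : ((-1 : ℚ) : WithTop ℚ) < ww m (τ - a • rp m 1))
    (φ : K0 m) :
    Cg (rp m (-1) * dd m 0 (jj m φ * τ)) (algebraMap ℂ (KK m) a * jj m φ) := by
  have e : rp m (-1) * dd m 0 (jj m φ * τ) = (rp m (-1) * dd m 0 τ) * jj m φ := by
    rw [Derivation.leibniz, dd_zero_jj, smul_eq_mul, smul_zero, add_zero]
    ring
  rw [e]
  refine cg_mul (C00 hτ) (cg_refl _) ?_ (le_ww_jj _)
  rw [← jj_algebraMap]
  exact le_ww_jj _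

/-- `ρ` times the mixed entries of `GI f` -/
theorem C1 {f : KK m} {κ : K0 m} {ε : ℂ} (hf : 0 ≤ ww m (f - rp m 1 * jj m κ)) (he : ε ≠ 0)
    (hE : Cg (EE f) (algebraMap ℂ (KK m) ε)) (j : Fin m) :
    Cg (rp m 1 * (-(dd m j.succ f) / (2 * rt m j ^ 2 * EE f)))
      (jj m (algebraMap ℂ (K0 m) (-1 / (2 * ε)) * ((ths m j ^ 2)⁻¹ * d0 m j κ))) := by
  have hE0 : ww m (EE f) = 0 := ww_of_cg he hE
  have hEn : EE f ≠ 0 := by
    intro h0
    rw [h0, ww_zero] at hE0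
    exact WithTop.top_ne_zero hE0
  -- the derivative of `f`
  have h1 : Cg (rp m (-1) * dd m j.succ f) (jj m (d0 m j κ)) := by
    have h2 : ((-1 : ℚ) : WithTop ℚ) < ww m (dd m j.succ (f - rp m 1 * jj m κ)) := by
      refine lt_of_lt_of_le ?_ (hf.trans (ww_dd _ _))
      exact_mod_cast (by norm_num : (-1 : ℚ) < 0)
    have h3 := V1 h2
    rw [map_sub, Derivation.leibniz, dd_succ_jj, dd_succ_rp, smul_zero, add_zero, smul_eq_mul,
      mul_sub] at h3
    have e : rp m (-1) * (rp m 1 * jj m (d0 m j κ)) = jj m (d0 m j κ) := by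
      rw [← mul_assoc, mul_comm (rp m (-1)), rp_cancel, one_mul]
    rw [e] at h3
    exact h3
  have hth : jj m (ths m j) ≠ 0 := jj_ne (ths_ne j)
  have e1 : rp m 1 * (-(dd m j.succ f) / (2 * rt m j ^ 2 * EE f))
      = (algebraMap ℂ (KK m) (-1 / 2) * (EE f)⁻¹) * (jj m ((ths m j ^ 2)⁻¹)
        * (rp m (-1) * dd m j.succ f)) := by
    have h2 : algebraMap ℂ (KK m) (-1 / 2) = - (2 : KK m)⁻¹ := by
      rw [neg_div, map_neg, one_div, map_inv₀, map_ofNat]
    rw [h2, map_inv₀, map_pow, rt]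
    have h5 : rp m (-1) = (rp m 1)⁻¹ := by rw [rp_inv]
    rw [h5]
    have h6 : rp m 1 ≠ 0 := rp_ne 1
    have h7 := two_ne (m := m)
    field_simp
  have e2 : jj m (algebraMap ℂ (K0 m) (-1 / (2 * ε)) * ((ths m j ^ 2)⁻¹ * d0 m j κ))
      = (algebraMap ℂ (KK m) (-1 / 2) * algebraMap ℂ (KK m) ε⁻¹) * (jj m ((ths m j ^ 2)⁻¹)
        * jj m (d0 m j κ)) := by
    rw [map_mul, map_mul, jj_algebraMap, ← map_mul (algebraMap ℂ (KK m))]
    congr 2
    field_simp
  rw [e1, e2]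
  refine cg_mul (cg_mul (cg_refl _) (cg_inv he hE) ?_ ?_) (cg_mul (cg_refl _) h1 ?_ ?_) ?_ ?_
  · rw [← jj_algebraMap]
    exact le_ww_jj _
  · rw [← jj_algebraMap]
    exact le_ww_jj _
  · exact le_ww_jj _
  · exact le_ww_jj _
  · rw [← map_mul, ← jj_algebraMap]
    exact le_ww_jj _
  · rw [← map_mul]
    exact le_ww_jj _

/-- the derivative of the coefficient of the terms `(i, 0)` -/
theorem d0_b (c : ℂ) (κ φ : K0 m) (j : Fin m) :
    d0 m j (algebraMap ℂ (K0 m) c * ((ths m j ^ 2)⁻¹ * (d0 m j κ * φ)))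
      = algebraMap ℂ (K0 m) c * ((ths m j ^ 2)⁻¹ * (d0 m j (d0 m j κ) * φ + d0 m j κ * d0 m j φ
        - 2 * (d0 m j κ * φ))) := by
  have hth : ths m j ≠ 0 := ths_ne j
  have h1 : d0 m j ((ths m j ^ 2)⁻¹) = -2 * (ths m j ^ 2)⁻¹ := by
    rw [Derivation.leibniz_inv, Derivation.leibniz_pow, d0_ths, if_pos rfl]
    simp only [smul_eq_mul, nsmul_eq_mul]
    push_cast
    field_simp
  rw [Derivation.leibniz, Derivation.map_algebraMap, smul_zero, add_zero, Derivation.leibniz,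
    Derivation.leibniz, h1]
  simp only [smul_eq_mul]
  ring

end I_NS1

open I_NS1 in
/-- [NS1]; hypothesis: `S_NVA`. -/
theorem NS1_pf (hNVA : S_NVA) : S_NS1 := by
  intro m k al f W κ ε hN φ τ a hτ
  obtain ⟨hd, hf, he, hE, _⟩ := hN
  obtain ⟨_, hWv, _, hGij, _⟩ := hNVA m k al f W κ hd hf
  have hE' : Cg (EE f) (algebraMap ℂ (KK m) ε) := hE
  have hW0 : W ≠ 0 := by
    intro h0
    rw [h0, ww_zero] at hWv
    exact WithTop.top_ne_coe hWv
  -- the logarithmic derivatives of `W`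
  have hl0 : Cg (W⁻¹ * dd m 0 W) (algebraMap ℂ (KK m) (m : ℂ)) := by
    have h1 := dd_zero_lead (f := W) hWv.ge
    refine S0 hWv ?_
    have e : W * (W⁻¹ * dd m 0 W - algebraMap ℂ (KK m) (m : ℂ))
        = dd m 0 W + (((-(m : ℚ) : ℚ)) : ℂ) • W := by
      rw [smul_eq, mul_sub, mul_inv_cancel_left₀ hW0]
      push_cast
      ring
    rw [e]
    exact h1
  have hls : ∀ i : Fin m, Cg (W⁻¹ * dd m i.succ W) (algebraMap ℂ (KK m) 1) :=
    fun i => logW he hE' hW0 hd.w i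
  -- the terms
  set g := jj m φ * τ with hg
  have hsplit : Lf f W g = jj m φ * Tf f W τ
      + ∑ j : Fin m, W⁻¹ * dd m 0 (W * (GI f 0 j.succ * dd m j.succ g))
      + ∑ i : Fin m, (W⁻¹ * dd m i.succ (W * (GI f i.succ 0 * dd m 0 g))
        + ∑ j : Fin m, W⁻¹ * dd m i.succ (W * (GI f i.succ j.succ * dd m j.succ g))) := by
    have h0 : jj m φ * Tf f W τ = W⁻¹ * dd m 0 (W * (GI f 0 0 * dd m 0 g)) := by
      have e1 : dd m 0 g = jj m φ * dd m 0 τ := by
        rw [hg, Derivation.leibniz, dd_zero_jj, smul_zero, add_zero, smul_eq_mul]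
      have e2 : GI f 0 0 = (EE f)⁻¹ := rfl
      rw [e1, e2, Tf]
      have e3 : W * ((EE f)⁻¹ * (jj m φ * dd m 0 τ)) = jj m φ * (W * ((EE f)⁻¹ * dd m 0 τ)) := by
        ring
      rw [e3, Derivation.leibniz (dd m 0) (jj m φ), dd_zero_jj, smul_zero, add_zero, smul_eq_mul]
      ring
    rw [h0]
    show W⁻¹ * ∑ i, dd m i (W * ∑ j, GI f i j * dd m j g) = _
    have h1 : ∀ i : Fin (m + 1), dd m i (W * ∑ j, GI f i j * dd m j g)
        = ∑ j, dd m i (W * (GI f i j * dd m j g)) := by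
      intro i
      rw [Finset.mul_sum, map_sum]
    simp only [h1]
    rw [Fin.sum_univ_succ, mul_add, Fin.sum_univ_succ, mul_add, Finset.mul_sum, Finset.mul_sum]
    congr 1
    refine Finset.sum_congr rfl ?_
    intro i _
    rw [Fin.sum_univ_succ, mul_add, Finset.mul_sum]
  -- mixed terms
  have hu : ∀ j : Fin m, GI f 0 j.succ = -(dd m j.succ f) / (2 * rt m j ^ 2 * EE f) := fun j => rfl
  have hu' : ∀ j : Fin m, GI f j.succ 0 = -(dd m j.succ f) / (2 * rt m j ^ 2 * EE f) := fun j => rfl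
  have hone : ∀ x y : KK m, x * y = (rp m 1 * x) * (rp m (-1) * y) := by
    intro x y
    have : (rp m 1 * x) * (rp m (-1) * y) = (rp m 1 * rp m (-1)) * (x * y) := by ring
    rw [this, rp_cancel, one_mul]
  have hA : ∀ j : Fin m, Cg (W⁻¹ * dd m 0 (W * (GI f 0 j.succ * dd m j.succ g)))
      (algebraMap ℂ (KK m) (m : ℂ) * jj m (algebraMap ℂ (K0 m) (-a / (2 * ε))
        * ((ths m j ^ 2)⁻¹ * (d0 m j κ * d0 m j φ))) + 0) := by
    intro j
    refine M0 hW0 0 ?_ hl0 (dd_zero_jj _)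
    rw [hone, hu]
    have h1 := cg_mul (C1 hf he hE' j) (C2 hτ φ j) (le_ww_jj _) (by
      rw [← jj_algebraMap, ← map_mul]
      exact le_ww_jj _)
    have e : jj m (algebraMap ℂ (K0 m) (-1 / (2 * ε)) * ((ths m j ^ 2)⁻¹ * d0 m j κ))
        * (algebraMap ℂ (KK m) a * jj m (d0 m j φ))
        = jj m (algebraMap ℂ (K0 m) (-a / (2 * ε))
        * ((ths m j ^ 2)⁻¹ * (d0 m j κ * d0 m j φ))) := by
      rw [← jj_algebraMap, ← map_mul, ← map_mul]
      congr 1
      have : (-a / (2 * ε)) = (-1 / (2 * ε)) * a := by ring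
      rw [this, map_mul]
      ring
    rw [e] at h1
    exact h1
  have hB : ∀ j : Fin m, Cg (W⁻¹ * dd m j.succ (W * (GI f j.succ 0 * dd m 0 g)))
      (algebraMap ℂ (KK m) 1 * jj m (algebraMap ℂ (K0 m) (-a / (2 * ε))
        * ((ths m j ^ 2)⁻¹ * (d0 m j κ * φ))) + jj m (d0 m j (algebraMap ℂ (K0 m) (-a / (2 * ε))
        * ((ths m j ^ 2)⁻¹ * (d0 m j κ * φ))))) := by
    intro j
    refine M0 hW0 j.succ ?_ (hls j) (dd_succ_jj _ _)
    rw [hone, hu']
    have h1 := cg_mul (C1 hf he hE' j) (C3 hτ φ) (le_ww_jj _) (by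
      rw [← jj_algebraMap, ← map_mul]
      exact le_ww_jj _)
    have e : jj m (algebraMap ℂ (K0 m) (-1 / (2 * ε)) * ((ths m j ^ 2)⁻¹ * d0 m j κ))
        * (algebraMap ℂ (KK m) a * jj m φ)
        = jj m (algebraMap ℂ (K0 m) (-a / (2 * ε)) * ((ths m j ^ 2)⁻¹ * (d0 m j κ * φ))) := by
      rw [← jj_algebraMap, ← map_mul, ← map_mul]
      congr 1
      have : (-a / (2 * ε)) = (-1 / (2 * ε)) * a := by ring
      rw [this, map_mul]
      ring
    rw [e] at h1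
    exact h1
  have hC : ∀ i j : Fin m,
      Cg (W⁻¹ * dd m i.succ (W * (GI f i.succ j.succ * dd m j.succ g))) 0 := by
    intro i j
    have h1 : 0 < ww m (GI f i.succ j.succ * dd m j.succ g) := by
      rw [hone, ww_mul]
      refine add_pos_of_pos_of_nonneg ?_ ?_
      · rw [ww_mul, ww_rp]
        have h2 := add_le_add_right (hGij i j) (((-1 : ℚ)) : WithTop ℚ)
        refine lt_of_lt_of_le ?_ h2
        have h3 : ((-1 : ℚ) : WithTop ℚ) + 2 = ((1 : ℚ) : WithTop ℚ) := by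
          have : (2 : WithTop ℚ) = ((2 : ℚ) : WithTop ℚ) := rfl
          rw [this, ← WithTop.coe_add]
          norm_num
        rw [h3]
        exact_mod_cast (by norm_num : (0 : ℚ) < 1)
      · have h2 := C2 hτ φ j
        unfold Cg at h2
        have e : rp m (-1) * dd m j.succ g = (rp m (-1) * dd m j.succ g
            - algebraMap ℂ (KK m) a * jj m (d0 m j φ))
            + algebraMap ℂ (KK m) a * jj m (d0 m j φ) := by ring
        rw [e]
        refine ww_add h2.le ?_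
        rw [← jj_algebraMap, ← map_mul]
        exact le_ww_jj _
    have h2 := L0 hW0 i.succ h1
    unfold Cg
    rw [sub_zero]
    exact h2
  have hD : ∀ i : Fin m, Cg (W⁻¹ * dd m i.succ (W * (GI f i.succ 0 * dd m 0 g))
        + ∑ j : Fin m, W⁻¹ * dd m i.succ (W * (GI f i.succ j.succ * dd m j.succ g)))
      ((algebraMap ℂ (KK m) 1 * jj m (algebraMap ℂ (K0 m) (-a / (2 * ε))
        * ((ths m i ^ 2)⁻¹ * (d0 m i κ * φ))) + jj m (d0 m i (algebraMap ℂ (K0 m) (-a / (2 * ε))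
        * ((ths m i ^ 2)⁻¹ * (d0 m i κ * φ))))) + ∑ j : Fin m, 0) :=
    fun i => cg_add (hB i) (cg_sum fun j _ => hC i j)
  have hfin := cg_add (cg_add (cg_refl (jj m φ * Tf f W τ)) (cg_sum (s := Finset.univ)
    fun j _ => hA j)) (cg_sum (s := Finset.univ) fun i _ => hD i)
  rw [← hsplit] at hfin
  unfold Cg at hfin
  have e : Lf f W g - jj m φ * Tf f W τ - a • jj m (sg ε κ φ)
      = Lf f W g - (jj m φ * Tf f W τ + ∑ j : Fin m, (algebraMap ℂ (KK m) (m : ℂ)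
        * jj m (algebraMap ℂ (K0 m) (-a / (2 * ε))
        * ((ths m j ^ 2)⁻¹ * (d0 m j κ * d0 m j φ))) + 0)
      + ∑ i : Fin m, ((algebraMap ℂ (KK m) 1 * jj m (algebraMap ℂ (K0 m) (-a / (2 * ε))
        * ((ths m i ^ 2)⁻¹ * (d0 m i κ * φ))) + jj m (d0 m i (algebraMap ℂ (K0 m) (-a / (2 * ε))
        * ((ths m i ^ 2)⁻¹ * (d0 m i κ * φ))))) + ∑ j : Fin m, 0)) := by
    have h1 : a • jj m (sg ε κ φ) = ∑ j : Fin m, (algebraMap ℂ (KK m) (m : ℂ)
        * jj m (algebraMap ℂ (K0 m) (-a / (2 * ε))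
        * ((ths m j ^ 2)⁻¹ * (d0 m j κ * d0 m j φ))) + 0)
      + ∑ i : Fin m, ((algebraMap ℂ (KK m) 1 * jj m (algebraMap ℂ (K0 m) (-a / (2 * ε))
        * ((ths m i ^ 2)⁻¹ * (d0 m i κ * φ))) + jj m (d0 m i (algebraMap ℂ (K0 m) (-a / (2 * ε))
        * ((ths m i ^ 2)⁻¹ * (d0 m i κ * φ))))) + ∑ j : Fin m, 0) := by
      rw [← Finset.sum_add_distrib, smul_eq, ← jj_algebraMap, ← map_mul, sg, ← mul_assoc,
        ← map_mul (algebraMap ℂ (K0 m)), Finset.mul_sum, map_sum]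
      refine Finset.sum_congr rfl ?_
      intro j _
      rw [Finset.sum_const_zero, add_zero, add_zero, d0_b, ← jj_algebraMap, ← jj_algebraMap,
        ← map_mul (jj m), ← map_mul (jj m), ← map_add (jj m), ← map_add (jj m)]
      congr 1
      have : (-a / (2 * ε)) = a * (-1 / (2 * ε)) := by ring
      rw [this, map_one, map_natCast]
      ring
    rw [h1]
    ring
  rw [e]
  exact hfin

end Pool.Agent.Work.MP_157c12_gt.AN
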