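import Pool.Agent.Work.MP_157c12_gt.AN.Stmts

/-!
# Item NT1
-/

set_option autoImplicit false

open MvPolynomial

namespace Pool.Agent.Work.MP_157c12_gt.AN

open Pool.Agent.Work.MP_157c12_gt

namespace I_NT1

variable {m : ℕ}

/-- multiplication by an element of value `s` -/
lemma lt_mul {f g : KK m} {s t : ℚ} (hf : ww m f = (s : WithTop ℚ))
    (hg : (t : WithTop ℚ) < ww m g) : ((s + t : ℚ) : WithTop ℚ) < ww m (f * g) := by
  rw [ww_mul, hf, WithTop.coe_add]
  exact WithTop.add_lt_add_left (WithTop.coe_ne_top) hg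

end I_NT1

open I_NT1 in
theorem NT1_pf (hNVA : S_NVA) : S_NT1 := by
  intro m k al f W κ ε h
  obtain ⟨hE0, hW, -, -, -⟩ := hNVA m k al f W κ h.nd h.f1
  have hE : EE f ≠ 0 := h.nd.e
  have hWne : W ≠ 0 := by
    rintro rfl
    rw [ww_zero] at hW
    exact absurd hW.symm (WithTop.coe_ne_top)
  have p1 : ∀ (φ : K0 m) (g : KK m), Tf f W (jj m φ * g) = jj m φ * Tf f W g := by
    intro φ g
    unfold Tf
    have h1 : dd m 0 (jj m φ * g) = jj m φ * dd m 0 g := by
      rw [Derivation.leibniz, dd_zero_jj, smul_zero, add_zero, smul_eq_mul]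
    have h2 : W * ((EE f)⁻¹ * (jj m φ * dd m 0 g)) = jj m φ * (W * ((EE f)⁻¹ * dd m 0 g)) := by
      ring
    have h3 : ∀ y : KK m, dd m 0 (jj m φ * y) = jj m φ * dd m 0 y := by
      intro y
      rw [Derivation.leibniz, dd_zero_jj, smul_zero, add_zero, smul_eq_mul]
    rw [h1, h2, h3]
    ring
  refine ⟨p1, ?_, ?_⟩
  · intro φ
    have h1 := p1 φ 1
    rw [mul_one] at h1
    rw [h1]
    unfold Tf
    simp
  · intro τ a hτ
    set r := (EE f)⁻¹ * dd m 0 τ - (a / ε) • rp m 1 with hr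
    have hinv : ww m ((EE f)⁻¹) = 0 := by
      have h1 : ww m ((EE f)⁻¹) + ww m (EE f) = 0 := by
        rw [← ww_mul, inv_mul_cancel₀ hE, ww_one]
      rwa [hE0, add_zero] at h1
    have hr1 : ((-1 : ℚ) : WithTop ℚ) < ww m r := by
      have e1 : r = (EE f)⁻¹ * (dd m 0 (τ - a • rp m 1)) +
          (((EE f)⁻¹ * (algebraMap ℂ (KK m) ε)⁻¹) * -(EE f - algebraMap ℂ (KK m) ε)) *
            (a • rp m 1) := by
        have e2 : dd m 0 (τ - a • rp m 1) = dd m 0 τ - a • rp m 1 := by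
          rw [map_sub, dd_smul, dd_zero_rp]
          congr 2
          push_cast
          exact one_smul _ _
        rw [hr, e2]
        have hε : algebraMap ℂ (KK m) ε ≠ 0 := by
          intro h0
          exact h.e0 ((algebraMap ℂ (KK m)).injective (by rw [h0, map_zero]))
        rw [smul_eq, smul_eq, map_div₀]
        field_simp
        ring
      rw [e1]
      refine ww_add_lt ?_ ?_
      · rw [ww_mul, hinv, zero_add]
        exact hτ.trans_le (ww_dd _ _)
      · have hs : ww m ((EE f)⁻¹ * (algebraMap ℂ (KK m) ε)⁻¹) = 0 := by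
          rw [ww_mul, hinv, zero_add]
          have h1 : algebraMap ℂ (KK m) ε ≠ 0 := by
            intro h0
            exact h.e0 ((algebraMap ℂ (KK m)).injective (by rw [h0, map_zero]))
          have h2 : ww m ((algebraMap ℂ (KK m) ε)⁻¹) + ww m (algebraMap ℂ (KK m) ε) = 0 := by
            rw [← ww_mul, inv_mul_cancel₀ h1, ww_one]
          rwa [ww_algebraMap h.e0, add_zero] at h2
        have h3 : (0 : WithTop ℚ) < ww m ((((EE f)⁻¹ * (algebraMap ℂ (KK m) ε)⁻¹) *
            -(EE f - algebraMap ℂ (KK m) ε))) := by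
          rw [ww_mul, hs, zero_add, ww_neg]
          exact h.e
        have h4 : ((-1 : ℚ) : WithTop ℚ) ≤ ww m (a • rp m 1) :=
          le_ww_smul (by rw [ww_rp]) a
        rw [ww_mul]
        calc ((-1 : ℚ) : WithTop ℚ) = 0 + ((-1 : ℚ) : WithTop ℚ) := (zero_add _).symm
          _ < _ := by
            have h5 : (0 : WithTop ℚ) + ((-1 : ℚ) : WithTop ℚ) < ww m ((((EE f)⁻¹ *
                (algebraMap ℂ (KK m) ε)⁻¹) * -(EE f - algebraMap ℂ (KK m) ε))) +
                ((-1 : ℚ) : WithTop ℚ) := WithTop.add_lt_add_right (WithTop.coe_ne_top) h3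
            exact h5.trans_le (add_le_add le_rfl h4)
    have hWρ : ww m (W * rp m 1) = ((-m - 1 : ℚ) : WithTop ℚ) := by
      rw [ww_mul, hW, ww_rp, ← WithTop.coe_add, ← sub_eq_add_neg]
    have hlead := dd_zero_lead (f := W * rp m 1) (t := -m - 1) hWρ.ge
    have hh : W * ((EE f)⁻¹ * dd m 0 τ) = (a / ε) • (W * rp m 1) + W * r := by
      rw [hr, smul_eq, smul_eq]
      ring
    have hTf : Tf f W τ - (a * ((m + 1) / ε)) • rp m 1 = W⁻¹ * ((a / ε) •
        (dd m 0 (W * rp m 1) + ((-m - 1 : ℚ) : ℂ) • (W * rp m 1)) + dd m 0 (W * r)) := by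
      unfold Tf
      rw [hh, map_add, dd_smul]
      rw [smul_eq, smul_eq, smul_eq, smul_eq]
      have e3 : (a * ((m + 1) / ε) : ℂ) = -((a / ε) * ((-m - 1 : ℚ) : ℂ)) := by
        push_cast
        ring
      rw [e3, map_neg, (algebraMap ℂ (KK m)).map_mul]
      have e4 : W⁻¹ * W = 1 := inv_mul_cancel₀ hWne
      linear_combination (-(algebraMap ℂ (KK m) (a / ε) * algebraMap ℂ (KK m) ((-m - 1 : ℚ) : ℂ)
        * rp m 1)) * e4
    rw [hTf]
    have hinvW : ww m W⁻¹ = ((m : ℚ) : WithTop ℚ) := by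
      have h1 : ww m W⁻¹ + ww m W = 0 := by
        rw [← ww_mul, inv_mul_cancel₀ hWne, ww_one]
      rw [hW] at h1
      have h2 : ww m W⁻¹ ≠ ⊤ := by
        rw [ww_ne_top]
        exact inv_ne_zero hWne
      obtain ⟨q, hq⟩ := WithTop.ne_top_iff_exists.mp h2
      rw [← hq] at h1 ⊢
      have h3 : q + (-m : ℚ) = 0 := by exact_mod_cast h1
      have : q = m := by linarith
      rw [this]
    have hsum : ((-m - 1 : ℚ) : WithTop ℚ) < ww m ((a / ε) •
        (dd m 0 (W * rp m 1) + ((-m - 1 : ℚ) : ℂ) • (W * rp m 1)) + dd m 0 (W * r)) := by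
      refine ww_add_lt (lt_ww_smul hlead _) ?_
      have h6 := lt_mul hW hr1
      have h7 : ((-m + -1 : ℚ) : WithTop ℚ) < ww m (dd m 0 (W * r)) :=
        h6.trans_le (ww_dd _ _)
      have h8 : (-m + -1 : ℚ) = -m - 1 := by ring
      rwa [h8] at h7
    have h9 := lt_mul hinvW hsum
    have h10 : (m + (-m - 1) : ℚ) = -1 := by ring
    rwa [h10] at h9

end Pool.Agent.Work.MP_157c12_gt.AN
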