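import Pool.Agent.Work.MP_157c12_gt.AN.Stmts

/-!
# Block [157c12 AN], item NUL: the second main step
-/

set_option autoImplicit false

namespace Pool.Agent.Work.MP_157c12_gt.AN

theorem NUL_pf (hNDE : S_NDE) (hNDF : S_NDF) (hNEP : S_NEP) (hNKA : S_NKA) : S_NUL := by
  intro m k al f W hd h2 h0
  obtain ⟨κ, f₁, hκ, hf, hf₁⟩ := hNDF m k al f W hd (hNDE m k al f W hd h2 h0)
  have h1 : f - rp m 1 * jj m κ = f₁ := by
    rw [hf]
    ring
  obtain ⟨ε, hN⟩ := hNEP m k al f W κ hd (by rw [h1]; exact hf₁)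
  exact hκ (hNKA m k al f W κ ε hN)

end Pool.Agent.Work.MP_157c12_gt.AN
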