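import Pool.Agent.Work.MP_157c12_gt.AN.Stmts

/-!
# Values in the neutral case
-/

set_option autoImplicit false

namespace Pool.Agent.Work.MP_157c12_gt.AN

open Pool.Agent.Work.MP_157c12_gt
open Pool.Agent.Work.MP_157c12_gt.Rot (lapC)

namespace I_NVA

variable {m : ℕ}

lemma ww_inv_add {f : KK m} (h : f ≠ 0) : ww m f⁻¹ + ww m f = 0 := by
  rw [← ww_mul, inv_mul_cancel₀ h, ww_one]

lemma ww_inv {f : KK m} {t : ℚ} (h : ww m f = t) : ww m f⁻¹ = ((-t : ℚ) : WithTop ℚ) := by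
  have hf : f ≠ 0 := by
    rw [← ww_ne_top, h]
    exact WithTop.coe_ne_top
  have h1 := ww_inv_add hf
  rcases ww_cases f⁻¹ with h2 | ⟨s, hs⟩
  · exact absurd (inv_eq_zero.mp h2) hf
  · rw [hs, h] at h1
    rw [hs]
    have h3 : s + t = 0 := by exact_mod_cast h1
    have h4 : s = -t := by linarith
    rw [h4]

lemma ww_two : ww m (2 : KK m) = 0 := by
  have h : (2 : KK m) = algebraMap ℂ (KK m) 2 := (map_ofNat _ 2).symm
  rw [h]
  exact ww_algebraMap two_ne_zero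

lemma ww_four : ww m (4 : KK m) = 0 := by
  have h : (4 : KK m) = algebraMap ℂ (KK m) 4 := (map_ofNat _ 4).symm
  rw [h]
  exact ww_algebraMap (by norm_num)

lemma ww_rt2 (i : Fin m) : ww m (rt m i ^ 2) = ((-2 : ℚ) : WithTop ℚ) := by
  rw [pow_two, ww_mul, ww_rt]
  have h : (-1 : ℚ) + -1 = -2 := by norm_num
  rw [← WithTop.coe_add, h]

lemma ww_prod (s : Finset (Fin m)) :
    ww m (∏ i ∈ s, rt m i ^ 2) = ((-(2 * (s.card : ℚ)) : ℚ) : WithTop ℚ) := by
  classical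
  induction s using Finset.induction_on with
  | empty =>
    rw [Finset.prod_empty, ww_one, Finset.card_empty]
    norm_num
  | insert a s ha ih =>
    rw [Finset.prod_insert ha, ww_mul, ih, ww_rt2, Finset.card_insert_of_notMem ha,
      ← WithTop.coe_add]
    congr 1
    push_cast
    ring

/-- the operator does not lower values -/
lemma op {W R : KK m} {t : WithTop ℚ} (hW : W ≠ 0) (i : Fin (m + 1)) (h : t ≤ ww m R) :
    t ≤ ww m (W⁻¹ * dd m i (W * R)) := by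
  rw [ww_mul]
  calc t ≤ ww m R := h
    _ = ww m (W⁻¹ * (W * R)) := by rw [inv_mul_cancel_left₀ hW]
    _ = ww m W⁻¹ + ww m (W * R) := ww_mul _ _
    _ ≤ _ := by gcongr; exact ww_dd _ _

lemma GI00 (f : KK m) : GI f 0 0 = (EE f)⁻¹ := rfl

lemma GI0s (f : KK m) (i : Fin m) :
    GI f 0 i.succ = -(dd m i.succ f) / (2 * rt m i ^ 2 * EE f) := rfl

lemma GIs0 (f : KK m) (i : Fin m) :
    GI f i.succ 0 = -(dd m i.succ f) / (2 * rt m i ^ 2 * EE f) := rfl

lemma GIss (f : KK m) (i j : Fin m) :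
    GI f i.succ j.succ = (if i = j then (rt m i ^ 2)⁻¹ else 0) +
        dd m i.succ f * dd m j.succ f / (4 * rt m i ^ 2 * rt m j ^ 2 * EE f) := rfl

end I_NVA

open I_NVA in
theorem NVA_pf (hNGR : S_NGR) : S_NVA := by
  intro m k al f W κ hN hf1
  have hκ : ((-1 : ℚ) : WithTop ℚ) ≤ ww m (rp m 1 * jj m κ) := by
    rw [ww_mul, ww_rp]
    calc ((-1 : ℚ) : WithTop ℚ) = ((-1 : ℚ) : WithTop ℚ) + 0 := (add_zero _).symm
      _ ≤ _ := by gcongr; exact le_ww_jj κ
  have hm10 : ((-1 : ℚ) : WithTop ℚ) ≤ 0 := by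
    have : (-1 : ℚ) ≤ 0 := by norm_num
    exact_mod_cast this
  have hf : ((-1 : ℚ) : WithTop ℚ) ≤ ww m f := by
    have h1 : f = rp m 1 * jj m κ + (f - rp m 1 * jj m κ) := by ring
    rw [h1]
    exact ww_add hκ (hm10.trans hf1)
  have hdf : ∀ i : Fin (m + 1), ((-1 : ℚ) : WithTop ℚ) ≤ ww m (dd m i f) := fun i =>
    hf.trans (ww_dd f i)
  -- the value of `EE f`
  have h0 : dd m 0 f - f = dd m 0 (f - rp m 1 * jj m κ) - (f - rp m 1 * jj m κ) := by
    rw [map_sub, Derivation.leibniz, dd_zero_jj, dd_zero_rp, smul_zero, zero_add, smul_eq_mul]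
    rw [Rat.cast_one, one_smul]
    ring
  have h1 : (0 : WithTop ℚ) ≤ ww m (dd m 0 f - f) := by
    rw [h0]
    exact ww_sub (hf1.trans (ww_dd _ 0)) hf1
  have h2 : ∀ i : Fin m, (0 : WithTop ℚ) ≤ ww m (dd m i.succ f ^ 2 / (4 * rt m i ^ 2)) := by
    intro i
    rw [div_eq_mul_inv, ww_mul, pow_two, ww_mul]
    have h3 : ww m (4 * rt m i ^ 2)⁻¹ = ((2 : ℚ) : WithTop ℚ) := by
      have h4 : ww m (4 * rt m i ^ 2) = ((-2 : ℚ) : WithTop ℚ) := by
        rw [ww_mul, ww_four, zero_add, ww_rt2]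
      rw [ww_inv h4, neg_neg]
    rw [h3]
    calc (0 : WithTop ℚ) = ((-1 : ℚ) : WithTop ℚ) + ((-1 : ℚ) : WithTop ℚ) +
          ((2 : ℚ) : WithTop ℚ) := by
          rw [← WithTop.coe_add, ← WithTop.coe_add]
          norm_num
      _ ≤ _ := by gcongr <;> exact hdf i.succ
  have h3 : (0 : WithTop ℚ) ≤ ww m (EE f) := by
    unfold EE
    exact ww_sub h1 (ww_sum fun i _ => h2 i)
  have hE : ww m (EE f) = 0 := le_antisymm (hNGR m k al f W hN hf) h3
  have hE' : ww m (EE f) = ((0 : ℚ) : WithTop ℚ) := by rw [hE]; rfl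
  -- the value of `W`
  have hWw : ww m W = ((-m : ℚ) : WithTop ℚ) := by
    have h4 : ww m (W ^ 2) = ((-(2 * (m : ℚ)) : ℚ) : WithTop ℚ) := by
      rw [hN.w, ww_mul, hE, add_zero, ww_prod, Finset.card_univ, Fintype.card_fin]
    rcases ww_cases W with h5 | ⟨s, hs⟩
    · rw [h5, zero_pow two_ne_zero, ww_zero] at h4
      exact absurd h4 WithTop.top_ne_coe
    · rw [pow_two, ww_mul, hs, ← WithTop.coe_add, WithTop.coe_inj] at h4
      rw [hs]
      have h6 : s = -m := by linarith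
      rw [h6]
  have hW : W ≠ 0 := by
    rw [← ww_ne_top, hWw]
    exact WithTop.coe_ne_top
  -- the entries
  have hG1 : ∀ i : Fin m, (1 : WithTop ℚ) ≤
      ww m (-(dd m i.succ f) / (2 * rt m i ^ 2 * EE f)) := by
    intro i
    rw [div_eq_mul_inv, ww_mul, ww_neg]
    have h4 : ww m (2 * rt m i ^ 2 * EE f)⁻¹ = ((2 : ℚ) : WithTop ℚ) := by
      have h5 : ww m (2 * rt m i ^ 2 * EE f) = ((-2 : ℚ) : WithTop ℚ) := by
        rw [ww_mul, ww_mul, ww_two, zero_add, ww_rt2, hE, add_zero]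
      rw [ww_inv h5, neg_neg]
    rw [h4]
    calc (1 : WithTop ℚ) = ((-1 : ℚ) : WithTop ℚ) + ((2 : ℚ) : WithTop ℚ) := by
          rw [← WithTop.coe_add]
          norm_num
      _ ≤ _ := by gcongr; exact hdf i.succ
  have hG2 : ∀ i j : Fin m, (2 : WithTop ℚ) ≤ ww m (GI f i.succ j.succ) := by
    intro i j
    rw [GIss]
    refine ww_add ?_ ?_
    · split_ifs
      · rw [ww_inv (ww_rt2 i), neg_neg]
        rfl
      · rw [ww_zero]
        exact le_top
    · rw [div_eq_mul_inv, ww_mul, ww_mul]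
      have h4 : ww m (4 * rt m i ^ 2 * rt m j ^ 2 * EE f)⁻¹ = ((4 : ℚ) : WithTop ℚ) := by
        have h5 : ww m (4 * rt m i ^ 2 * rt m j ^ 2 * EE f) = ((-4 : ℚ) : WithTop ℚ) := by
          rw [ww_mul, ww_mul, ww_mul, ww_four, zero_add, ww_rt2, ww_rt2, hE, add_zero,
            ← WithTop.coe_add]
          norm_num
        rw [ww_inv h5, neg_neg]
      rw [h4]
      calc (2 : WithTop ℚ) = ((-1 : ℚ) : WithTop ℚ) + ((-1 : ℚ) : WithTop ℚ) +
            ((4 : ℚ) : WithTop ℚ) := by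
            rw [← WithTop.coe_add, ← WithTop.coe_add]
            norm_num
        _ ≤ _ := by
            gcongr
            · exact hdf i.succ
            · exact hdf j.succ
  have hG00 : ww m (EE f)⁻¹ = 0 := by
    rw [ww_inv hE']
    norm_num
  have h12 : (1 : WithTop ℚ) ≤ 2 := by
    have : (1 : ℚ) ≤ 2 := by norm_num
    exact_mod_cast this
  refine ⟨hE, hWw, fun i => ⟨hG1 i, hG1 i⟩, hG2, ?_⟩
  intro t g ht
  have hdg : ∀ i : Fin (m + 1), t ≤ ww m (dd m i g) := fun i => ht.trans (ww_dd g i)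
  -- the remainders
  have hR0 : t + 1 ≤ ww m (∑ j : Fin m, GI f 0 j.succ * dd m j.succ g) := by
    refine ww_sum fun j _ => ?_
    rw [ww_mul, add_comm t 1]
    exact add_le_add (hG1 j) (hdg j.succ)
  have hRi : ∀ i : Fin m, t + 1 ≤ ww m (∑ j : Fin (m + 1), GI f i.succ j * dd m j g) := by
    intro i
    rw [Fin.sum_univ_succ]
    refine ww_add ?_ (ww_sum fun j _ => ?_)
    · rw [ww_mul, add_comm t 1]
      exact add_le_add (hG1 i) (hdg 0)
    · rw [ww_mul, add_comm t 1]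
      exact add_le_add (h12.trans (hG2 i j)) (hdg j.succ)
  have hT0 : t ≤ ww m ((EE f)⁻¹ * dd m 0 g) := by
    rw [ww_mul, hG00, zero_add]
    exact hdg 0
  have hT : t ≤ ww m (Tf f W g) := op hW 0 hT0
  have hD : Lf f W g - Tf f W g =
      W⁻¹ * dd m 0 (W * ∑ j : Fin m, GI f 0 j.succ * dd m j.succ g) +
        ∑ i : Fin m, W⁻¹ * dd m i.succ (W * ∑ j : Fin (m + 1), GI f i.succ j * dd m j g) := by
    rw [← Finset.mul_sum]
    unfold Lf Tf Rot.lapC
    rw [Fin.sum_univ_succ, Fin.sum_univ_succ (fun j => GI f 0 j * dd m j g), GI00, mul_add W,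
      map_add]
    ring
  have hDw : t + 1 ≤ ww m (Lf f W g - Tf f W g) := by
    rw [hD]
    exact ww_add (op hW 0 hR0) (ww_sum fun i _ => op hW i.succ (hRi i))
  refine ⟨?_, hT, hDw⟩
  have h4 : Lf f W g = Tf f W g + (Lf f W g - Tf f W g) := by ring
  rw [h4]
  refine ww_add hT (le_trans ?_ hDw)
  calc t = t + 0 := (add_zero t).symm
    _ ≤ t + 1 := by
      gcongr
      have : (0 : ℚ) ≤ 1 := by norm_num
      exact_mod_cast this

end Pool.Agent.Work.MP_157c12_gt.AN
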