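import Pool.Agent.Work.MP_157c12_gt.AN.Stmts

/-!
# Item NZT: a form does not vanish on the line of the points `cp c φ`
-/

set_option autoImplicit false

open MvPolynomial

namespace Pool.Agent.Work.MP_157c12_gt.AN

open Pool.Agent.Work.MP_157c12_gt

namespace I_NZT

lemma aeval_scale {σ A : Type} [CommRing A] [Algebra ℂ A] {W : MvPolynomial σ ℂ} {d : ℕ}
    (hW : W.IsHomogeneous d) (a : A) (g : σ → A) :
    aeval (fun i => a * g i) W = a ^ d * aeval g W := by
  rw [aeval_def, aeval_def, eval₂_eq, eval₂_eq, Finset.mul_sum]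
  refine Finset.sum_congr rfl fun s hs => ?_
  have hd : ∑ i ∈ s.support, s i = d := by
    have h := hW (mem_support_iff.mp hs)
    simpa [Finsupp.weight_apply, Finsupp.sum] using h
  simp only [mul_pow, Finset.prod_mul_distrib, Finset.prod_pow_eq_pow_sum, hd]
  ring

lemma comp_ae {σ A B : Type} [CommRing A] [Algebra ℂ A] [CommRing B] [Algebra ℂ B]
    (φ : Polynomial A →ₐ[ℂ] Polynomial B) (f : σ → Polynomial A) (W : MvPolynomial σ ℂ) :
    φ (aeval f W) = aeval (fun i => φ (f i)) W := by
  have h : φ.comp (aeval f) = aeval fun i => φ (f i) := by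
    apply MvPolynomial.algHom_ext
    intro i
    simp
  exact DFunLike.congr_fun h W

/-- maps of a point with an inserted coordinate -/
lemma ins_eq {A B : Type} {n : ℕ} (c : Fin (n + 1)) (φ : A → B) (x : A) (f : Fin n → A) (y : B)
    (g : Fin n → B) (h0 : φ x = y) (h1 : ∀ i, φ (f i) = g i) :
    (fun i => φ (Fin.insertNth (α := fun _ => A) c x f i)) =
      Fin.insertNth (α := fun _ => B) c y g := by
  funext i
  rcases Fin.eq_self_or_eq_succAbove c i with rfl | ⟨i', rfl⟩
  · simp [h0]
  · simp [h1]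

end I_NZT

/-- [NZT] a form does not vanish on the line of the points `cp c φ`. -/
theorem NZT_pf (hIND : S_IND) : S_NZT := by
  intro m d c W hW j hj
  have h1 : aeval (fun i => rp m 1 * jj m (ct m i)) ((tau c W).coeff j) ≠ 0 :=
    fun h => hj (hIND m _ h)
  let ev : MvPolynomial (Fin (m + 1)) ℂ →ₐ[ℂ] KK m := aeval fun i => rp m 1 * jj m (ct m i)
  let G : Fin (m + 2) → Polynomial (KK m) := Fin.insertNth (α := fun _ => Polynomial (KK m)) c
    Polynomial.X fun i => Polynomial.C (rp m 1 * jj m (ct m i))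
  let g : Fin (m + 2) → Polynomial (KK m) := Fin.insertNth (α := fun _ => Polynomial (KK m)) c
    Polynomial.X fun i => Polynomial.C (jj m (ct m i))
  have e1 : Polynomial.mapAlgHom ev (tau c W) = aeval G W := by
    unfold tau
    refine (I_NZT.comp_ae (Polynomial.mapAlgHom ev) _ W).trans ?_
    rw [I_NZT.ins_eq c (Polynomial.mapAlgHom ev) _ _ Polynomial.X
      (fun i => Polynomial.C (rp m 1 * jj m (ct m i))) (by simp) (fun i => by simp [ev])]
  have e2 : (aeval G W).comp (Polynomial.C (rp m 1) * Polynomial.X) =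
      Polynomial.C (rp m 1) ^ d * aeval g W := by
    refine Eq.trans ?_ (I_NZT.aeval_scale hW (Polynomial.C (rp m 1)) g)
    let ψ : Polynomial (KK m) →ₐ[ℂ] Polynomial (KK m) :=
      (Polynomial.aeval (Polynomial.C (rp m 1) * Polynomial.X)).restrictScalars ℂ
    have hψ : ∀ p : Polynomial (KK m), p.comp (Polynomial.C (rp m 1) * Polynomial.X) = ψ p :=
      fun p => by
        show _ = Polynomial.aeval (Polynomial.C (rp m 1) * Polynomial.X) p
        rw [Polynomial.comp, Polynomial.aeval_def]
        rfl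
    rw [hψ]
    refine (I_NZT.comp_ae ψ _ W).trans ?_
    congr 2
    funext i
    rcases Fin.eq_self_or_eq_succAbove c i with rfl | ⟨i', rfl⟩
    · simp [G, g, ψ]
    · simp [G, g, ψ]
  have e3 : Polynomial.mapAlgHom (jj m) (aeval (Fin.insertNth (α := fun _ => Polynomial (K0 m)) c
      Polynomial.X fun i => Polynomial.C (ct m i)) W) = aeval g W := by
    refine (I_NZT.comp_ae (Polynomial.mapAlgHom (jj m)) _ W).trans ?_
    rw [I_NZT.ins_eq c (Polynomial.mapAlgHom (jj m)) _ _ Polynomial.X
      (fun i => Polynomial.C (jj m (ct m i))) (by simp) (fun i => by simp)]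
  intro h
  have e4 : (aeval g W : Polynomial (KK m)).coeff j = 0 := by
    rw [← e3, Polynomial.coe_mapAlgHom, Polynomial.coeff_map, h]
    simp
  have e5 := congrArg (fun p => Polynomial.coeff p j) e2
  simp only [Polynomial.comp_C_mul_X_coeff, ← Polynomial.C_pow, Polynomial.coeff_C_mul, e4,
    mul_zero] at e5
  have e6 : (aeval G W : Polynomial (KK m)).coeff j = 0 := by
    rcases mul_eq_zero.mp e5 with h2 | h2
    · exact h2
    · exact absurd h2 (pow_ne_zero _ (rp_ne 1))
  rw [← e1, Polynomial.coe_mapAlgHom, Polynomial.coeff_map] at e6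
  exact h1 e6

end Pool.Agent.Work.MP_157c12_gt.AN
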