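import Pool.Agent.Work.MP_157c12_gt.AN.Stmts

set_option autoImplicit false

open MvPolynomial

namespace Pool.Agent.Work.MP_157c12_gt.AN

open Pool.Agent.Work.MP_157c12_gt

namespace I_POL

lemma cx_sq (n : ℕ) : cx (sq ℝ n) = sq ℂ n := by
  simp [cx, sq]

lemma sq_ne (m : ℕ) : sq ℝ (m + 2) ≠ 0 := by
  intro h
  have h1 := congrArg (MvPolynomial.eval fun _ => (1 : ℝ)) h
  simp only [sq, map_sum, map_pow, eval_X, map_zero, one_pow, Finset.sum_const,
    Finset.card_univ, Fintype.card_fin, nsmul_eq_mul, mul_one] at h1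
  have : (0 : ℝ) < ((m + 2 : ℕ) : ℝ) := by positivity
  exact this.ne' h1

lemma cx_inj (n : ℕ) : Function.Injective (cx (n := n)) :=
  MvPolynomial.map_injective _ (algebraMap ℝ ℂ).injective

lemma real_of (m : ℕ) (V : MvPolynomial (Fin (m + 2)) ℝ) (c : ℂ) (i : ℕ)
    (h : cx V = C c * sq ℂ (m + 2) ^ i) : ∃ c' : ℝ, V = C c' * sq ℝ (m + 2) ^ i := by
  have h0 : sq ℝ (m + 2) ^ i ≠ 0 := pow_ne_zero _ (sq_ne m)
  obtain ⟨s, hs⟩ := MvPolynomial.ne_zero_iff.mp h0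
  have h1 : cx (sq ℝ (m + 2) ^ i) = sq ℂ (m + 2) ^ i := by
    rw [← cx_sq]
    simp [cx]
  have h2 : ((V.coeff s : ℝ) : ℂ) = c * (((sq ℝ (m + 2) ^ i).coeff s : ℝ) : ℂ) := by
    have := congrArg (MvPolynomial.coeff s) h
    rw [← h1, MvPolynomial.coeff_C_mul] at this
    rw [cx, cx, MvPolynomial.coeff_map, MvPolynomial.coeff_map] at this
    exact this
  refine ⟨V.coeff s / (sq ℝ (m + 2) ^ i).coeff s, cx_inj _ ?_⟩
  rw [h, ← h1]
  have h3 : c = ((V.coeff s / (sq ℝ (m + 2) ^ i).coeff s : ℝ) : ℂ) := by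
    have h4 : (((sq ℝ (m + 2) ^ i).coeff s : ℝ) : ℂ) ≠ 0 := by exact_mod_cast hs
    push_cast
    rw [eq_div_iff h4, h2]
  have h5 : cx (C (V.coeff s / (sq ℝ (m + 2) ^ i).coeff s) * sq ℝ (m + 2) ^ i) =
      C c * cx (sq ℝ (m + 2) ^ i) := by
    rw [h3]
    simp only [cx, map_mul, MvPolynomial.map_C]
    rfl
  rw [h5]

end I_POL

open I_POL in
theorem POL_pf (h1 : S_SQP) : S_POL := by
  intro m P hm h
  have h2 : ∀ e : ℕ, ∃ (c : ℝ) (i : ℕ), homogeneousComponent e P = C c * sq ℝ (m + 2) ^ i := by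
    intro e
    have hh : (cx (homogeneousComponent e P)).IsHomogeneous e :=
      (homogeneousComponent_isHomogeneous e P).map _
    obtain ⟨c, i, hc⟩ := h1 m e _ hm hh (h e)
    obtain ⟨c', hc'⟩ := real_of m _ c i hc
    exact ⟨c', i, hc'⟩
  choose c i hci using h2
  refine ⟨∑ e ∈ Finset.range (P.totalDegree + 1), Polynomial.C (c e) * Polynomial.X ^ i e, ?_⟩
  rw [map_sum]
  conv_lhs => rw [← MvPolynomial.sum_homogeneousComponent P]
  refine Finset.sum_congr rfl fun e _ => ?_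
  rw [hci e, map_mul, map_pow, Polynomial.aeval_X, Polynomial.aeval_C]
  rfl

end Pool.Agent.Work.MP_157c12_gt.AN
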