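import Pool.Agent.Work.MP_157c12_gt.AN.Stmts
import Mathlib.RingTheory.MvPolynomial.Homogeneous

/-!
The sum of at least three squares is irreducible over the complex numbers: the statement `S_QIR`.
-/

set_option autoImplicit false

open MvPolynomial

namespace Pool.Agent.Work.MP_157c12_gt.AN

open Pool.Agent.Work.MP_157c12_gt

namespace I_QIR

lemma sq_hom (n : ℕ) : (sq ℂ n).IsHomogeneous 2 := by
  unfold sq
  apply IsHomogeneous.sum
  intro a _
  simpa using (isHomogeneous_X ℂ a).pow 2

lemma sq_ne (n : ℕ) : sq ℂ (n + 1) ≠ 0 := by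
  intro h
  have h1 := congrArg (eval (Pi.single 0 1 : Fin (n + 1) → ℂ)) h
  rw [sq, map_sum, map_zero] at h1
  rw [Finset.sum_eq_single 0] at h1
  · simp at h1
  · intro b _ hb
    simp [hb]
  · intro h2
    exact absurd (Finset.mem_univ _) h2

/-- polynomials of degree at most one -/
lemma exists_lin {n : ℕ} {a : MvPolynomial (Fin n) ℂ} (h : a.totalDegree ≤ 1) :
    ∃ (α : ℂ) (c : Fin n → ℂ), ∀ x : Fin n → ℂ, eval x a = α + ∑ i, c i * x i := by
  have h1 : homogeneousComponent 1 a ∈ homogeneousSubmodule (Fin n) ℂ 1 :=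
    homogeneousComponent_isHomogeneous 1 a
  rw [homogeneousSubmodule_one_eq_span_X, Submodule.mem_span_range_iff_exists_fun] at h1
  obtain ⟨c, hc⟩ := h1
  have h2 : a = homogeneousComponent 0 a + homogeneousComponent 1 a := by
    conv_lhs => rw [← sum_homogeneousComponent a]
    have h3 : ∑ i ∈ Finset.range (a.totalDegree + 1), homogeneousComponent i a =
        ∑ i ∈ Finset.range 2, homogeneousComponent i a := by
      apply Finset.sum_subset
      · intro i hi
        rw [Finset.mem_range] at hi ⊢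
        omega
      · intro i hi hi'
        rw [Finset.mem_range] at hi hi'
        exact homogeneousComponent_eq_zero i a (by omega)
    rw [h3, Finset.sum_range_succ, Finset.sum_range_one]
  refine ⟨coeff 0 a, c, fun x => ?_⟩
  conv_lhs => rw [h2, ← hc, homogeneousComponent_zero]
  rw [map_add, eval_C, map_sum]
  congr 1
  apply Finset.sum_congr rfl
  intro i _
  rw [smul_eval, eval_X]

end I_QIR

open I_QIR in
theorem QIR_pf : S_QIR := by
  intro m hm
  obtain ⟨n, rfl⟩ : ∃ n, m = n + 1 := ⟨m - 1, by omega⟩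
  have hd : (sq ℂ (n + 1 + 2)).totalDegree = 2 := (sq_hom _).totalDegree (sq_ne _)
  refine ⟨?_, ?_⟩
  · intro hu
    have h1 := (MvPolynomial.isUnit_iff_totalDegree_of_isReduced.mp hu).2
    rw [hd] at h1
    omega
  · intro a b hab
    have hne : a * b ≠ 0 := by
      rw [← hab]
      exact sq_ne _
    have ha : a ≠ 0 := left_ne_zero_of_mul hne
    have hb : b ≠ 0 := right_ne_zero_of_mul hne
    have hs : a.totalDegree + b.totalDegree = 2 := by
      rw [← totalDegree_mul_of_isDomain ha hb, ← hab, hd]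
    have hu : ∀ p : MvPolynomial (Fin (n + 1 + 2)) ℂ, p ≠ 0 → p.totalDegree = 0 → IsUnit p := by
      intro p hp h0
      rw [totalDegree_eq_zero_iff_eq_C] at h0
      rw [h0]
      apply IsUnit.map
      rw [isUnit_iff_ne_zero]
      intro h2
      rw [h2, C_0] at h0
      exact hp h0
    by_cases h0 : a.totalDegree = 0
    · exact Or.inl (hu a ha h0)
    by_cases h0' : b.totalDegree = 0
    · exact Or.inr (hu b hb h0')
    exfalso
    obtain ⟨α, c, hc⟩ := exists_lin (a := a) (by omega)
    obtain ⟨β, d, hd'⟩ := exists_lin (a := b) (by omega)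
    have key : ∀ x y z : ℂ, (α + (c 0 * x + (c 1 * y + c 2 * z))) *
        (β + (d 0 * x + (d 1 * y + d 2 * z))) = x ^ 2 + (y ^ 2 + z ^ 2) := by
      intro x y z
      have h1 := congrArg (eval (Fin.cons x (Fin.cons y (Fin.cons z fun _ => 0)) :
        Fin (n + 1 + 2) → ℂ)) hab
      rw [map_mul, hc, hd', sq, map_sum] at h1
      simp only [map_pow, eval_X, Fin.sum_univ_succ, Fin.cons_zero, Fin.cons_succ, mul_zero,
        Finset.sum_const_zero, add_zero, ne_eq, OfNat.ofNat_ne_zero, not_false_eq_true,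
        zero_pow] at h1
      exact h1.symm
    have e0 := key 0 0 0
    have e1 := key 1 0 0
    have e1' := key (-1) 0 0
    have e2 := key 0 1 0
    have e2' := key 0 (-1) 0
    have e3 := key 0 0 1
    have e3' := key 0 0 (-1)
    have f1 : c 0 * d 0 = 1 := by linear_combination (e1 + e1' - 2 * e0) / 2
    have f2 : c 1 * d 1 = 1 := by linear_combination (e2 + e2' - 2 * e0) / 2
    have f3 : c 2 * d 2 = 1 := by linear_combination (e3 + e3' - 2 * e0) / 2
    have g1 := key 1 1 0
    have g1' := key (-1) (-1) 0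
    have g2 := key 1 0 1
    have g2' := key (-1) 0 (-1)
    have g3 := key 0 1 1
    have g3' := key 0 (-1) (-1)
    have k1 : c 0 * d 1 + c 1 * d 0 = 0 := by
      linear_combination (g1 + g1' - 2 * e0) / 2 - f1 - f2
    have k2 : c 0 * d 2 + c 2 * d 0 = 0 := by
      linear_combination (g2 + g2' - 2 * e0) / 2 - f1 - f3
    have k3 : c 1 * d 2 + c 2 * d 1 = 0 := by
      linear_combination (g3 + g3' - 2 * e0) / 2 - f2 - f3
    have l1 : c 0 ^ 2 + c 1 ^ 2 = 0 := by
      linear_combination (c 0 * c 1) * k1 - c 0 ^ 2 * f2 - c 1 ^ 2 * f1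
    have l2 : c 0 ^ 2 + c 2 ^ 2 = 0 := by
      linear_combination (c 0 * c 2) * k2 - c 0 ^ 2 * f3 - c 2 ^ 2 * f1
    have l3 : c 1 ^ 2 + c 2 ^ 2 = 0 := by
      linear_combination (c 1 * c 2) * k3 - c 1 ^ 2 * f3 - c 2 ^ 2 * f2
    have l4 : c 0 ^ 2 = 0 := by linear_combination (l1 + l2 - l3) / 2
    have l5 : c 0 = 0 := pow_eq_zero_iff (two_ne_zero) |>.mp l4
    rw [l5, zero_mul] at f1
    exact zero_ne_one f1

end Pool.Agent.Work.MP_157c12_gt.AN
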