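import Pool.Agent.Work.MP_157c12_gt.AN.Stmts
import Pool.Agent.Work.MP_157c12_gt.Rot.Final

/-!
# Item RNG: from a patch to the ring of smooth functions near a point
-/

set_option autoImplicit false

open MvPolynomial
open scoped Manifold ContDiff

namespace Pool.Agent.Work.MP_157c12_gt.AN

open Pool.Agent.Work.MP_157c12_gt
open Pool.Agent.Work.MP_157c12_gt.Rot (nb lapC lapD Hyp PatchN FTn)

theorem RNG_pf : S_RNG := by
  intro n k al O X hP hFT p hp O' hO' hp'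
  obtain ⟨U, hUO, hpU, hU⟩ := Rot.pNE2 n O X hP p hp
  have hVU : U ⊓ O' ≤ U := inf_le_left
  have hVO' : U ⊓ O' ≤ O' := inf_le_right
  have hVO : U ⊓ O' ≤ O := hVO'.trans hO'
  have hpV : p ∈ U ⊓ O' := ⟨hpU, hp'⟩
  generalize U ⊓ O' = V at hVU hVO' hVO hpV
  have hPV : PatchN V X := ⟨fun a => (hP.smooth a).mono hVO, fun q hq => hP.imm q (hVO hq)⟩
  obtain ⟨x, Gi, W, Wi, hx, hG, hW, hWi, hlap⟩ := Rot.pr_NE1 n (n + 1) V X hPV
  obtain ⟨N, hN1, hN2⟩ := hU V hVU x Gi hx hG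
  obtain ⟨hHyp, -, -⟩ :=
    Rot.pr_HY (Rot.Sm V) n (n + 1) (Rot.dS V) x N Gi (Rot.dS_comm V) hG hN1 hN2
  refine ⟨V, hVO', hpV, nb (Rot.dS V) x Gi, x, N, hHyp, hx, ?_⟩
  have hL : lapD (nb (Rot.dS V) x Gi) = lapC (Rot.dS V) Gi W Wi := by
    funext f
    exact Rot.pLD (Rot.Sm V) n (n + 1) (Rot.dS V) x Gi W Wi (Rot.dS_comm V) hG hW hWi f
  intro a
  rw [hL, pL]
  apply Rot.ext_ev
  intro q hq
  rw [Rot.zero_ev hq, ← Rot.evH_apply hq, map_sum, ← hFT q (hVO hq) a]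
  refine Finset.sum_congr rfl fun l _ => ?_
  rw [map_mul, Rot.evH_apply, Rot.evH_apply, Rot.algebraMap_ev _ hq,
    Rot.GLo_iter hlap (fun q => X q a) (x a) (hx a) (k - l) q hq]

end Pool.Agent.Work.MP_157c12_gt.AN
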