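import Pool.Agent.Work.MP_157c12_gt.AN.Stmts

set_option autoImplicit false

open MvPolynomial

namespace Pool.Agent.Work.MP_157c12_gt.AN

open Pool.Agent.Work.MP_157c12_gt

namespace I_SQP

theorem bb_mul {m : ℕ} (P Q : MvPolynomial (Fin (m + 2)) ℂ) : bb (P * Q) = bb P * bb Q := by
  simp only [bb, map_mul]

theorem bb_pow {m : ℕ} (P : MvPolynomial (Fin (m + 2)) ℂ) (i : ℕ) : bb (P ^ i) = bb P ^ i := by
  simp only [bb, map_pow]

theorem bb_unit {m : ℕ} (P : MvPolynomial (Fin (m + 2)) ℂ) (h : IsUnit P) : IsUnit (bb P) := by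
  unfold bb
  exact h.map _

theorem sq_hom (m : ℕ) : (sq ℂ (m + 2)).IsHomogeneous 2 := by
  unfold sq
  refine MvPolynomial.IsHomogeneous.sum _ _ _ ?_
  intro a _
  simpa using (MvPolynomial.isHomogeneous_X ℂ a).pow 2

end I_SQP

theorem SQP_pf (h1 : S_HOM) (h2 : S_BBE) (h3 : S_NGE) : S_SQP := by
  intro m e W hm hW hj
  by_cases hW0 : W = 0
  · exact ⟨0, 0, by simp [hW0]⟩
  have hX : bb (sq ℂ (m + 2)) = (Polynomial.X : Polynomial (K0 m)) := (h2 m e 0 W hW).2
  have hnu : ¬ IsUnit (sq ℂ (m + 2)) := by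
    intro h
    have := I_SQP.bb_unit _ h
    rw [hX] at this
    exact Polynomial.not_isUnit_X this
  obtain ⟨i, G, hG, hWG⟩ := WfDvdMonoid.max_power_factor' hW0 hnu
  have hG0 : G ≠ 0 := by
    rintro rfl
    exact hW0 (by rw [hWG, mul_zero])
  obtain ⟨e', he'⟩ := h1 ℂ (m + 2) G W e hW0 hW ⟨sq ℂ (m + 2) ^ i, by rw [hWG, mul_comm]⟩
  have hWd : W.IsHomogeneous (2 * i + e') := by
    rw [hWG]
    exact ((I_SQP.sq_hom m).pow i).mul he'
  have hee : e = 2 * i + e' := hW.inj_right hWd hW0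
  have hc : (bb W : Polynomial (K0 m)).coeff i = (bb G : Polynomial (K0 m)).coeff 0 := by
    rw [hWG, I_SQP.bb_mul, I_SQP.bb_pow, hX]
    have := Polynomial.coeff_X_pow_mul (bb G : Polynomial (K0 m)) i 0
    rw [zero_add] at this
    exact this
  have hne : (bb G : Polynomial (K0 m)).coeff 0 ≠ 0 := fun h => hG (h3 m e' G hm he' h)
  have hle : ¬ 2 * i < e := fun h => hne (hc ▸ hj i h)
  have he0 : e' = 0 := by omega
  subst he0
  have ht : G.totalDegree = 0 := he'.totalDegree hG0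
  rw [MvPolynomial.totalDegree_eq_zero_iff_eq_C] at ht
  refine ⟨MvPolynomial.coeff 0 G, i, ?_⟩
  rw [← ht, mul_comm]
  exact hWG

end Pool.Agent.Work.MP_157c12_gt.AN
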