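import Pool.Agent.Work.MP_157c12_gt.AN.Stmts

/-!
# Item TAU
-/

set_option autoImplicit false

open MvPolynomial

namespace Pool.Agent.Work.MP_157c12_gt.AN

namespace I_TAU

variable {k : Type} [Field k] {n : ℕ}

theorem tau_X_self (c : Fin (n + 1)) : tau (k := k) c (X c) = Polynomial.X := by
  unfold tau
  rw [aeval_X, Fin.insertNth_apply_same]

theorem tau_X_succAbove (c : Fin (n + 1)) (i : Fin n) :
    tau (k := k) c (X (c.succAbove i)) = Polynomial.C (X i) := by
  unfold tau
  rw [aeval_X, Fin.insertNth_apply_succAbove]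

theorem tau_C (c : Fin (n + 1)) (a : k) : tau (k := k) c (C a) = Polynomial.C (C a) := by
  unfold tau
  rw [aeval_C]
  rfl

theorem tau_rename (c : Fin (n + 1)) (r : MvPolynomial (Fin n) k) :
    tau c (rename c.succAbove r) = Polynomial.C r := by
  induction r using MvPolynomial.induction_on with
  | C a => rw [rename_C, tau_C]
  | add p q hp hq => rw [map_add, map_add, hp, hq, map_add]
  | mul_X p i hp => rw [map_mul, map_mul, hp, rename_X, tau_X_succAbove, map_mul]

/-- the inverse map -/
noncomputable def inv (c : Fin (n + 1)) :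
    Polynomial (MvPolynomial (Fin n) k) →+* MvPolynomial (Fin (n + 1)) k :=
  Polynomial.eval₂RingHom (rename (R := k) c.succAbove).toRingHom (X c)

theorem inv_C (c : Fin (n + 1)) (r : MvPolynomial (Fin n) k) :
    inv c (Polynomial.C r) = rename c.succAbove r := by
  unfold inv
  rw [Polynomial.coe_eval₂RingHom, Polynomial.eval₂_C]
  rfl

theorem inv_X (c : Fin (n + 1)) : inv (k := k) c Polynomial.X = X c := by
  unfold inv
  rw [Polynomial.coe_eval₂RingHom, Polynomial.eval₂_X]

theorem inv_tau (c : Fin (n + 1)) (W : MvPolynomial (Fin (n + 1)) k) : inv c (tau c W) = W := by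
  induction W using MvPolynomial.induction_on with
  | C a => rw [tau_C, inv_C, rename_C]
  | add p q hp hq => rw [map_add, map_add, hp, hq]
  | mul_X p i hp =>
    rw [map_mul, map_mul, hp]
    congr 1
    rcases Fin.eq_self_or_eq_succAbove c i with hi | ⟨j, hi⟩
    · rw [hi, tau_X_self, inv_X]
    · rw [hi, tau_X_succAbove, inv_C, rename_X]

theorem tau_inv (c : Fin (n + 1)) (V : Polynomial (MvPolynomial (Fin n) k)) :
    tau c (inv c V) = V := by
  have h : ((tau (k := k) c).toRingHom.comp (inv c)) = RingHom.id _ := by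
    apply Polynomial.ringHom_ext
    · intro r
      show tau c (inv c (Polynomial.C r)) = Polynomial.C r
      rw [inv_C, tau_rename]
    · show tau c (inv c Polynomial.X) = Polynomial.X
      rw [inv_X, tau_X_self]
  exact congrArg (fun φ => φ V) h

end I_TAU

theorem TAU_pf : S_TAU := by
  intro k _ n c
  have hinj : Function.Injective (tau (k := k) c) :=
    Function.LeftInverse.injective (I_TAU.inv_tau c)
  refine ⟨⟨hinj, fun V => ⟨I_TAU.inv c V, I_TAU.tau_inv c V⟩⟩, I_TAU.tau_rename c, ?_⟩
  intro W hW
  by_contra h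
  have h0 : (tau c W).natDegree = 0 := by omega
  rw [Polynomial.natDegree_eq_zero] at h0
  obtain ⟨r, hr⟩ := h0
  apply hW
  have h1 : W = rename c.succAbove r := by
    apply hinj
    rw [I_TAU.tau_rename, hr]
  rw [h1]
  apply pderiv_eq_zero_of_notMem_vars
  intro h2
  have h3 := vars_rename c.succAbove r h2
  rw [Finset.mem_image] at h3
  obtain ⟨i, _, hi⟩ := h3
  exact Fin.succAbove_ne c i hi

end Pool.Agent.Work.MP_157c12_gt.AN
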