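import Pool.Agent.Work.MP_157c12_gt.AN.Stmts

/-!
# Item TOP: the leading form is a power of the sum of squares
-/

set_option autoImplicit false

open MvPolynomial

namespace Pool.Agent.Work.MP_157c12_gt.AN

open Pool.Agent.Work.MP_157c12_gt

namespace I_TOP

/-- A non-zero polynomial all of whose irreducible factors are multiples of `s` by constants is a
constant times a power of `s`. -/
theorem pow_of_factors {n : ℕ} (s : MvPolynomial (Fin n) ℂ) (W : MvPolynomial (Fin n) ℂ) :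
    W ≠ 0 → (∀ R : MvPolynomial (Fin n) ℂ, Irreducible R → R ∣ W → ∃ c : ℂ, R = C c * s) →
    ∃ (c : ℂ) (μ : ℕ), W = C c * s ^ μ := by
  refine WfDvdMonoid.induction_on_irreducible W ?_ ?_ ?_
  · intro h
    exact absurd rfl h
  · intro u hu _ _
    obtain ⟨r, -, h⟩ := (MvPolynomial.isUnit_iff_eq_C_of_isReduced).1 hu
    exact ⟨r, 0, by rw [h, pow_zero, mul_one]⟩
  · intro a i ha hi ih _ hR
    obtain ⟨c, μ, h⟩ := ih ha (fun R hR1 hR2 => hR R hR1 (hR2.mul_left i))
    obtain ⟨c', h'⟩ := hR i hi (Dvd.intro a rfl)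
    refine ⟨c' * c, μ + 1, ?_⟩
    rw [h, h', C_mul, pow_succ]
    ring

theorem sq_ne_zero (n : ℕ) : sq ℝ (n + 1) ≠ 0 := by
  intro h
  have h1 : eval (fun _ => (1 : ℝ)) (sq ℝ (n + 1)) = 0 := by rw [h, map_zero]
  rw [sq, map_sum] at h1
  simp only [map_pow, eval_X, one_pow, Finset.sum_const, Finset.card_univ, Fintype.card_fin,
    nsmul_eq_mul, mul_one] at h1
  have : (0 : ℝ) < ((n + 1 : ℕ) : ℝ) := by positivity
  exact absurd h1 this.ne'

theorem cx_sq (n μ : ℕ) : cx (sq ℝ n ^ μ) = sq ℂ n ^ μ := by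
  rw [cx, map_pow, sq, map_sum, sq]
  simp only [map_pow, map_X]

theorem tp_ne_zero {n : ℕ} (P : MvPolynomial (Fin n) ℝ) (h : 1 ≤ P.totalDegree) : tp P ≠ 0 := by
  have hP : P ≠ 0 := by
    intro h0
    rw [h0, totalDegree_zero] at h
    omega
  have hs : P.support.Nonempty := by
    rw [Finset.nonempty_iff_ne_empty]
    exact fun h0 => hP (MvPolynomial.support_eq_empty.1 h0)
  obtain ⟨d, hd, hd'⟩ := Finset.exists_mem_eq_sup P.support hs (fun s => s.sum fun _ e => e)
  intro h0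
  have h1 : coeff d (tp P) = 0 := by rw [h0, coeff_zero]
  rw [tp, coeff_homogeneousComponent, if_pos] at h1
  · exact (mem_support_iff.1 hd) h1
  · rw [totalDegree, hd']
    rfl

end I_TOP

open I_TOP in
theorem TOP_pf : S_TOP := by
  intro m P hP hR
  have ht := tp_ne_zero P hP
  have hinj : Function.Injective (MvPolynomial.map (σ := Fin (m + 2)) (algebraMap ℝ ℂ)) :=
    map_injective _ (algebraMap ℝ ℂ).injective
  have hct : cx (tp P) ≠ 0 := by
    intro h0
    apply ht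
    apply hinj
    rw [map_zero]
    exact h0
  obtain ⟨c, μ, hc⟩ := pow_of_factors (sq ℂ (m + 2)) (cx (tp P)) hct hR
  have hsq : sq ℝ (m + 2) ^ μ ≠ 0 := pow_ne_zero _ (sq_ne_zero (m + 1))
  obtain ⟨d, hd⟩ := MvPolynomial.ne_zero_iff.1 hsq
  rw [← cx_sq] at hc
  have h1 := congrArg (coeff d) hc
  rw [cx, coeff_map, coeff_C_mul, cx, coeff_map] at h1
  have hd' : (algebraMap ℝ ℂ) (coeff d (sq ℝ (m + 2) ^ μ)) ≠ 0 := by
    intro h0
    exact hd ((algebraMap ℝ ℂ).injective (by rw [h0, map_zero]))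
  have h2 : c = algebraMap ℝ ℂ (coeff d (tp P) / coeff d (sq ℝ (m + 2) ^ μ)) := by
    rw [map_div₀, eq_div_iff hd', ← h1]
  have h3 : tp P = C (coeff d (tp P) / coeff d (sq ℝ (m + 2) ^ μ)) * sq ℝ (m + 2) ^ μ := by
    apply hinj
    rw [map_mul, map_C, ← h2]
    exact hc
  set r := coeff d (tp P) / coeff d (sq ℝ (m + 2) ^ μ) with hr
  have hr0 : r ≠ 0 := by
    intro h0
    rw [h0, C_0, zero_mul] at h3
    exact ht h3
  refine ⟨r, μ, hr0, ?_, h3⟩
  by_contra hμ
  have hμ0 : μ = 0 := by omega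
  rw [hμ0, pow_zero, mul_one] at h3
  have h4 : (tp P).IsHomogeneous P.totalDegree := homogeneousComponent_isHomogeneous _ _
  have h5 : (tp P).IsHomogeneous 0 := by
    rw [h3]
    exact isHomogeneous_C _ _
  have := h4.inj_right h5 ht
  omega

end Pool.Agent.Work.MP_157c12_gt.AN
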