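import Pool.Agent.Work.MP_157c12_gt.AN.Stmts

set_option autoImplicit false

open MvPolynomial

namespace Pool.Agent.Work.MP_157c12_gt.AN

open Pool.Agent.Work.MP_157c12_gt

namespace I_TPD

lemma hc_mul {n : ℕ} {k : Type} [Field k] (P Q : MvPolynomial (Fin n) k) (a b : ℕ)
    (hP : P.totalDegree ≤ a) (hQ : Q.totalDegree ≤ b) :
    homogeneousComponent (a + b) (P * Q) =
      homogeneousComponent a P * homogeneousComponent b Q := by
  classical
  ext d
  rw [coeff_homogeneousComponent, coeff_mul, coeff_mul]
  have key : ∀ x ∈ Finset.HasAntidiagonal.antidiagonal d, (if d.degree = a + b then coeff x.1 P * coeff x.2 Q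
      else 0) = coeff x.1 (homogeneousComponent a P) * coeff x.2 (homogeneousComponent b Q) := by
    intro x hx
    rw [Finset.HasAntidiagonal.mem_antidiagonal] at hx
    have hdeg : x.1.degree + x.2.degree = d.degree := by
      rw [← hx, map_add]
    rw [coeff_homogeneousComponent, coeff_homogeneousComponent]
    have z1 : a < x.1.degree → coeff x.1 P = 0 := by
      intro h
      by_contra hne
      have h1 : x.1 ∈ P.support := mem_support_iff.mpr hne
      have h2 : x.1.degree ≤ P.totalDegree := le_totalDegree h1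
      omega
    have z2 : b < x.2.degree → coeff x.2 Q = 0 := by
      intro h
      by_contra hne
      have h1 : x.2 ∈ Q.support := mem_support_iff.mpr hne
      have h2 : x.2.degree ≤ Q.totalDegree := le_totalDegree h1
      omega
    by_cases h1 : x.1.degree = a
    · by_cases h2 : x.2.degree = b
      · rw [if_pos (by omega), if_pos h1, if_pos h2]
      · rw [if_neg (by omega), if_neg h2, mul_zero]
    · rw [if_neg h1, zero_mul]
      by_cases h3 : d.degree = a + b
      · rw [if_pos h3]
        rcases lt_or_gt_of_ne h1 with h4 | h4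
        · rw [z2 (by omega), mul_zero]
        · rw [z1 h4, zero_mul]
      · rw [if_neg h3]
  rw [← Finset.sum_congr rfl key]
  split_ifs with h
  · rfl
  · simp

lemma tp_mul {n : ℕ} {k : Type} [Field k] (P Q : MvPolynomial (Fin n) k) (hP : P ≠ 0)
    (hQ : Q ≠ 0) : tp (P * Q) = tp P * tp Q := by
  unfold tp
  rw [totalDegree_mul_of_isDomain hP hQ]
  exact hc_mul P Q _ _ le_rfl le_rfl

end I_TPD

theorem TPD_pf : S_TPD := by
  rintro n P F hF ⟨Q, rfl⟩
  have hP : P ≠ 0 := left_ne_zero_of_mul hF
  have hQ : Q ≠ 0 := right_ne_zero_of_mul hF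
  rw [I_TPD.tp_mul P Q hP hQ]
  unfold cx
  rw [map_mul]
  exact Dvd.intro _ rfl

end Pool.Agent.Work.MP_157c12_gt.AN
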