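import Pool.Agent.Work.MP_157c12_gt.AN.Stmts

/-!
# Block [157c12 AN], item ZPO: the equation of finite type is given by polynomials
-/

set_option autoImplicit false

open MvPolynomial
open scoped Manifold ContDiff

namespace Pool.Agent.Work.MP_157c12_gt.AN

open Pool.Agent.Work.MP_157c12_gt
open Pool.Agent.Work.MP_157c12_gt.Rot (nb lapC lapD Hyp PatchN FTn)

theorem ZPO_pf (hITE : S_ITE) : S_ZPO := by
  intro n k al P
  choose A s hA using fun (a : Fin n) (j : ℕ) => hITE n P (X a) j
  let S : Fin n → ℕ := fun a => ∑ j ∈ Finset.range (k + 1), s a j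
  refine ⟨fun a => ∑ l ∈ Finset.range (k + 1),
    C (al l) * (gq P ^ (S a - s a (k - l)) * A a (k - l)), ?_⟩
  intro R _ _ D x N Qi hH hP hQ
  have hkey : ∀ a, aeval x (gq P) ^ S a * pL k al (lapD D) (x a) =
      aeval x (∑ l ∈ Finset.range (k + 1),
        C (al l) * (gq P ^ (S a - s a (k - l)) * A a (k - l))) := by
    intro a
    rw [map_sum, pL, Finset.mul_sum]
    refine Finset.sum_congr rfl fun l hl => ?_
    have hle : s a (k - l) ≤ S a :=
      Finset.single_le_sum (f := fun j => s a j) (fun _ _ => Nat.zero_le _)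
        (Finset.mem_range.mpr (by omega))
    have h1 := hA a (k - l) R D x N Qi hH hP hQ
    rw [aeval_X] at h1
    rw [map_mul, map_mul, map_pow, algHom_C, ← h1]
    have h2 : aeval x (gq P) ^ S a =
        aeval x (gq P) ^ (S a - s a (k - l)) * aeval x (gq P) ^ s a (k - l) := by
      rw [← pow_add, Nat.sub_add_cancel hle]
    rw [h2]
    ring
  have hu : IsUnit (aeval x (gq P)) := IsUnit.of_mul_eq_one _ hQ
  refine forall_congr' fun a => ?_
  rw [← hkey a]
  exact ((hu.pow (S a)).mul_right_eq_zero).symm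

end Pool.Agent.Work.MP_157c12_gt.AN
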