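import Pool.Agent.Work.MP_157c12_gt.AN.I_LPR
import Pool.Agent.Work.MP_157c12_gt.AN.I_ITE
import Pool.Agent.Work.MP_157c12_gt.AN.I_ZPO
import Pool.Agent.Work.MP_157c12_gt.AN.I_TAU
import Pool.Agent.Work.MP_157c12_gt.AN.I_ELI
import Pool.Agent.Work.MP_157c12_gt.AN.I_JAC
import Pool.Agent.Work.MP_157c12_gt.AN.I_MIN
import Pool.Agent.Work.MP_157c12_gt.AN.I_GEN
import Pool.Agent.Work.MP_157c12_gt.AN.I_GRA
import Pool.Agent.Work.MP_157c12_gt.AN.I_FTK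
import Pool.Agent.Work.MP_157c12_gt.AN.I_DEC
import Pool.Agent.Work.MP_157c12_gt.AN.I_HOM
import Pool.Agent.Work.MP_157c12_gt.AN.I_IND
import Pool.Agent.Work.MP_157c12_gt.AN.I_NZT
import Pool.Agent.Work.MP_157c12_gt.AN.I_CHO
import Pool.Agent.Work.MP_157c12_gt.AN.I_CLI
import Pool.Agent.Work.MP_157c12_gt.AN.I_CGE
import Pool.Agent.Work.MP_157c12_gt.AN.I_LIF
import Pool.Agent.Work.MP_157c12_gt.AN.I_CPT
import Pool.Agent.Work.MP_157c12_gt.AN.I_CME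
import Pool.Agent.Work.MP_157c12_gt.AN.I_CON
import Pool.Agent.Work.MP_157c12_gt.AN.I_NME
import Pool.Agent.Work.MP_157c12_gt.AN.I_NIN
import Pool.Agent.Work.MP_157c12_gt.AN.I_NLI
import Pool.Agent.Work.MP_157c12_gt.AN.I_NDA
import Pool.Agent.Work.MP_157c12_gt.AN.I_NGR
import Pool.Agent.Work.MP_157c12_gt.AN.I_NDE
import Pool.Agent.Work.MP_157c12_gt.AN.I_NDF
import Pool.Agent.Work.MP_157c12_gt.AN.I_NVA
import Pool.Agent.Work.MP_157c12_gt.AN.I_NEP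
import Pool.Agent.Work.MP_157c12_gt.AN.I_NT1
import Pool.Agent.Work.MP_157c12_gt.AN.I_NS1
import Pool.Agent.Work.MP_157c12_gt.AN.I_NIT
import Pool.Agent.Work.MP_157c12_gt.AN.I_NPO
import Pool.Agent.Work.MP_157c12_gt.AN.I_NKA
import Pool.Agent.Work.MP_157c12_gt.AN.I_NUL
import Pool.Agent.Work.MP_157c12_gt.AN.I_BBE
import Pool.Agent.Work.MP_157c12_gt.AN.I_NEW
import Pool.Agent.Work.MP_157c12_gt.AN.I_QIR
import Pool.Agent.Work.MP_157c12_gt.AN.I_NGE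
import Pool.Agent.Work.MP_157c12_gt.AN.I_SQP
import Pool.Agent.Work.MP_157c12_gt.AN.I_POL
import Pool.Agent.Work.MP_157c12_gt.AN.I_TOP
import Pool.Agent.Work.MP_157c12_gt.AN.I_ALG
import Pool.Agent.Work.MP_157c12_gt.AN.I_DNS
import Pool.Agent.Work.MP_157c12_gt.AN.I_NDG
import Pool.Agent.Work.MP_157c12_gt.AN.I_RNG
import Pool.Agent.Work.MP_157c12_gt.AN.I_GOO
import Pool.Agent.Work.MP_157c12_gt.AN.I_FAC
import Pool.Agent.Work.MP_157c12_gt.AN.I_TRA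
import Pool.Agent.Work.MP_157c12_gt.AN.I_TPD
import Pool.Agent.Work.MP_157c12_gt.AN.I_LOC
import Pool.Agent.Work.MP_157c12_gt.AN.I_FIN
import Pool.Agent.Work.MP_157c12_gt.Rot.Final

/-!
# Algebraic hypersurfaces of finite type in all dimensions: assembly
-/

set_option autoImplicit false

namespace Pool.Agent.Work.MP_157c12_gt.AN

open Pool.Agent.Work.MP_157c12_gt

theorem pLPR : S_LPR := LPR_pf

theorem pITE : S_ITE := ITE_pf pLPR

theorem pZPO : S_ZPO := ZPO_pf pITE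

theorem pTAU : S_TAU := TAU_pf

theorem pELI : S_ELI := ELI_pf pTAU

theorem pJAC : S_JAC := JAC_pf

theorem pMIN : S_MIN := MIN_pf

theorem pGEN : S_GEN := GEN_pf pELI pJAC pMIN

theorem pGRA : S_GRA := GRA_pf

theorem pFTK : S_FTK := FTK_pf pGEN pGRA

theorem pDEC : S_DEC := DEC_pf

theorem pHOM : S_HOM := HOM_pf

theorem pIND : S_IND := IND_pf pJAC

theorem pNZT : S_NZT := NZT_pf pIND

theorem pCHO : S_CHO := CHO_pf pTAU pNZT

theorem pCLI : S_CLI := CLI_pf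

theorem pCGE : S_CGE := CGE_pf pGEN pCLI

theorem pLIF : S_LIF := LIF_pf

theorem pCPT : S_CPT := CPT_pf pTAU pNZT pLIF

theorem pCME : S_CME := CME_pf pGRA pCLI

theorem pCON : S_CON := CON_pf pHOM pCHO pCPT pCGE pCLI pCME pFTK pDEC

theorem pNME : S_NME := NME_pf

theorem pNIN : S_NIN := NIN_pf

theorem pNLI : S_NLI := NLI_pf

theorem pNDA : S_NDA := NDA_pf pFTK pNME pNIN pNLI

theorem pNGR : S_NGR := NGR_pf

theorem pNDE : S_NDE := NDE_pf pDEC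

theorem pNDF : S_NDF := NDF_pf pDEC

theorem pNVA : S_NVA := NVA_pf pNGR

theorem pNEP : S_NEP := NEP_pf pNVA

theorem pNT1 : S_NT1 := NT1_pf pNVA

theorem pNS1 : S_NS1 := NS1_pf pNVA

theorem pNIT : S_NIT := NIT_pf pNVA pNT1 pNS1

theorem pNPO : S_NPO := NPO_pf pNIT pNVA

theorem pNKA : S_NKA := NKA_pf pNPO

theorem pNUL : S_NUL := NUL_pf pNDE pNDF pNEP pNKA

theorem pBBE : S_BBE := BBE_pf

theorem pNEW : S_NEW := NEW_pf pBBE

theorem pQIR : S_QIR := QIR_pf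

theorem pNGE : S_NGE := NGE_pf pGEN pNME pBBE pQIR

theorem pSQP : S_SQP := SQP_pf pHOM pBBE pNGE

theorem pPOL : S_POL := POL_pf pSQP

theorem pTOP : S_TOP := TOP_pf

theorem pALG : S_ALG := ALG_pf pCON pTOP pNEW pNDA pNUL pPOL

theorem pDNS : S_DNS := DNS_pf pELI pMIN

theorem pNDG : S_NDG := NDG_pf pDNS

theorem pRNG : S_RNG := RNG_pf

theorem pGOO : S_GOO := GOO_pf pNDG pRNG pZPO pDNS

theorem pFAC : S_FAC := FAC_pf

theorem pTRA : S_TRA := TRA_pf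

theorem pTPD : S_TPD := TPD_pf

theorem pLOC : S_LOC := LOC_pf pALG pGOO pFAC pTRA pTPD

theorem pFIN : S_FIN := FIN_pf pLOC

end Pool.Agent.Work.MP_157c12_gt.AN
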