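import Pool.Agent.Work.MP_157c12_gt.AN.Stmts

/-!
# The metric at a point over the cone is conical
-/

set_option autoImplicit false

open MvPolynomial

namespace Pool.Agent.Work.MP_157c12_gt.AN

open Pool.Agent.Work.MP_157c12_gt

namespace I_CME

variable {m : ℕ}

/-- tangent vectors of the cone -/
noncomputable def u (c : Fin (m + 2)) (φ : K0 m) : Fin (m + 1) → Fin (m + 2) → K0 m :=
  fun i a => (Fin.cons (cp c φ) (fun j b => d0 m j (cp c φ b)) :
    Fin (m + 1) → Fin (m + 2) → K0 m) i a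

/-- the direction of the point -/
noncomputable def om (c : Fin (m + 2)) (ψ : KK m) : Fin (m + 2) → KK m :=
  Fin.insertNth (α := fun _ => KK m) c ψ fun i => jj m (ct m i)

lemma cP_eq (c : Fin (m + 2)) (ψ : KK m) (a : Fin (m + 2)) :
    cP c ψ a = rp m 1 * om c ψ a := by
  rw [cP, om]
  refine Fin.succAboveCases c ?_ (fun i => ?_) a
  · rw [Fin.insertNth_apply_same, Fin.insertNth_apply_same]
  · rw [Fin.insertNth_apply_succAbove, Fin.insertNth_apply_succAbove]

lemma om_sub (c : Fin (m + 2)) (φ : K0 m) (ψ : KK m) (h : ((0 : ℚ) : WithTop ℚ) < ww m (ψ - jj m φ))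
    (a : Fin (m + 2)) : ((0 : ℚ) : WithTop ℚ) < ww m (om c ψ a - jj m (cp c φ a)) := by
  rw [om, cp]
  refine Fin.succAboveCases c ?_ (fun i => ?_) a
  · rw [Fin.insertNth_apply_same, Fin.insertNth_apply_same]
    exact h
  · rw [Fin.insertNth_apply_succAbove, Fin.insertNth_apply_succAbove, sub_self, ww_zero]
    exact WithTop.coe_lt_top _

/-- the normalised tangent vectors -/
noncomputable def w (c : Fin (m + 2)) (ψ : KK m) (i : Fin (m + 1)) (a : Fin (m + 2)) : KK m :=
  rp m (-1) * dd m i (cP c ψ a)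

lemma w_mul (c : Fin (m + 2)) (ψ : KK m) (i : Fin (m + 1)) (a : Fin (m + 2)) :
    dd m i (cP c ψ a) = rp m 1 * w c ψ i a := by
  rw [w, ← mul_assoc, rp_mul]
  norm_num
  rw [rp_zero, one_mul]

lemma rp_neg_mul (f : KK m) : rp m (-1) * (rp m 1 * f) = f := by
  rw [← mul_assoc, rp_mul]
  norm_num
  rw [rp_zero, one_mul]

lemma w_zero (c : Fin (m + 2)) (ψ : KK m) (a : Fin (m + 2)) :
    w c ψ 0 a = om c ψ a + dd m 0 (om c ψ a) := by
  rw [w, cP_eq, Derivation.leibniz, dd_zero_rp, Rat.cast_one, one_smul, smul_eq_mul, smul_eq_mul,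
    mul_comm (om c ψ a), ← mul_add, rp_neg_mul, add_comm]

lemma w_succ (c : Fin (m + 2)) (ψ : KK m) (i : Fin m) (a : Fin (m + 2)) :
    w c ψ i.succ a = dd m i.succ (om c ψ a) := by
  rw [w, cP_eq, Derivation.leibniz, dd_succ_rp, smul_eq_mul, smul_zero, add_zero, rp_neg_mul]

lemma w_sub (c : Fin (m + 2)) (φ : K0 m) (ψ : KK m) (h : ((0 : ℚ) : WithTop ℚ) < ww m (ψ - jj m φ))
    (i : Fin (m + 1)) (a : Fin (m + 2)) :
    ((0 : ℚ) : WithTop ℚ) < ww m (w c ψ i a - jj m (u c φ i a)) := by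
  have hs := om_sub c φ ψ h a
  refine Fin.cases ?_ (fun i => ?_) i
  · rw [w_zero]
    have e : om c ψ a + dd m 0 (om c ψ a) - jj m (u c φ 0 a) =
        (om c ψ a - jj m (cp c φ a)) + dd m 0 (om c ψ a - jj m (cp c φ a)) := by
      rw [map_sub, dd_zero_jj]
      show _ - jj m (cp c φ a) = _
      ring
    rw [e]
    exact ww_add_lt hs (lt_ww_dd hs 0)
  · rw [w_succ]
    have e : dd m i.succ (om c ψ a) - jj m (u c φ i.succ a) =
        dd m i.succ (om c ψ a - jj m (cp c φ a)) := by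
      rw [map_sub, dd_succ_jj]
      rfl
    rw [e]
    exact lt_ww_dd hs i.succ

lemma pos_add {a b : WithTop ℚ} (ha : 0 < a) (hb : 0 ≤ b) : 0 < a + b :=
  lt_of_lt_of_le ha (le_add_of_nonneg_right hb)

/-- products of congruent elements -/
lemma mul_sub_mul {f f' g g' : KK m} (h1 : ((0 : ℚ) : WithTop ℚ) < ww m (f - f'))
    (h2 : ((0 : ℚ) : WithTop ℚ) < ww m (g - g')) (h3 : (0 : WithTop ℚ) ≤ ww m f')
    (h4 : (0 : WithTop ℚ) ≤ ww m g') : ((0 : ℚ) : WithTop ℚ) < ww m (f * g - f' * g') := by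
  have e : f * g - f' * g' = (f - f') * (g - g') + f' * (g - g') + (f - f') * g' := by ring
  rw [e]
  have z : ((0 : ℚ) : WithTop ℚ) = 0 := rfl
  rw [z] at *
  refine ww_add_lt (ww_add_lt ?_ ?_) ?_
  · rw [ww_mul]
    exact pos_add h1 h2.le
  · rw [ww_mul]
    rw [add_comm]
    exact pos_add h2 h3
  · rw [ww_mul]
    exact pos_add h1 h4

/-- perturbed inverse matrices -/
lemma inv_nonneg {n : ℕ} (A : Matrix (Fin n) (Fin n) (K0 m)) (G H : Matrix (Fin n) (Fin n) (KK m))
    (hA : IsUnit A.det) (hG : ∀ i j, ((0 : ℚ) : WithTop ℚ) < ww m (G i j - jj m (A i j)))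
    (hGH : G * H = 1) (i j : Fin n) : (0 : WithTop ℚ) ≤ ww m (H i j) := by
  have : Nonempty (Fin n) := ⟨i⟩
  obtain ⟨k, hk⟩ := Finite.exists_min fun l => ww m (H l j)
  refine le_trans ?_ (hk i)
  by_contra hlt
  have hlt' : ww m (H k j) < 0 := not_le.mp hlt
  set B : Matrix (Fin n) (Fin n) (K0 m) := A⁻¹ with hB
  have hBA : B * A = 1 := Matrix.nonsing_inv_mul A hA
  -- `jj B * G = 1 + E`
  set E : Matrix (Fin n) (Fin n) (KK m) :=
    (B.map (jj m)) * (G - A.map (jj m)) with hE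
  have e1 : (B.map (jj m)) * G = 1 + E := by
    have : (B.map (jj m)) * (A.map (jj m)) = 1 := by
      rw [← Matrix.map_mul, hBA, Matrix.map_one _ (map_zero _) (map_one _)]
    rw [hE, Matrix.mul_sub, this]
    abel
  have e2 : B.map (jj m) = H + E * H := by
    calc B.map (jj m) = (B.map (jj m)) * (G * H) := by rw [hGH, Matrix.mul_one]
      _ = ((B.map (jj m)) * G) * H := by rw [Matrix.mul_assoc]
      _ = (1 + E) * H := by rw [e1]
      _ = H + E * H := by rw [Matrix.add_mul, Matrix.one_mul]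
  have e3 : H k j = jj m (B k j) - ∑ l, E k l * H l j := by
    have := congrFun (congrFun e2 k) j
    rw [Matrix.add_apply, Matrix.mul_apply, Matrix.map_apply] at this
    rw [this]
    ring
  have hEpos : ∀ a b, (0 : WithTop ℚ) < ww m (E a b) := by
    intro a b
    rw [hE, Matrix.mul_apply]
    have z : (0 : WithTop ℚ) ≠ ⊤ := WithTop.coe_ne_top
    refine ww_sum_lt z fun l _ => ?_
    rw [ww_mul, Matrix.map_apply, Matrix.sub_apply, Matrix.map_apply]
    rw [add_comm]
    exact pos_add (hG l b) (le_ww_jj _)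
  obtain ⟨t, ht⟩ : ∃ t : ℚ, ww m (H k j) = t := by
    rcases ww_cases (H k j) with h | h
    · rw [h, ww_zero] at hlt'
      exact absurd hlt' (not_lt.mpr le_top)
    · exact h
  have hcontra : ww m (H k j) < ww m (H k j) := by
    conv_rhs => rw [e3]
    refine ww_sub_lt (lt_of_lt_of_le hlt' (le_ww_jj _)) ?_
    have z : ww m (H k j) ≠ ⊤ := by
      rw [ht]
      exact WithTop.coe_ne_top
    refine ww_sum_lt z fun l _ => ?_
    rw [ww_mul]
    rcases ww_cases (H l j) with h | ⟨s, hs⟩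
    · rw [h, ww_zero, WithTop.add_top]
      exact lt_of_lt_of_le hlt' le_top
    · have h1 : ww m (H k j) ≤ ww m (H l j) := hk l
      rw [ht, hs] at h1
      rw [ht, hs]
      rcases ww_cases (E k l) with h' | ⟨r, hr⟩
      · rw [h', ww_zero, WithTop.top_add]
        exact WithTop.coe_lt_top _
      · have h2 := hEpos k l
        rw [hr] at h2 ⊢
        have h3 : (0 : ℚ) < r := by exact_mod_cast h2
        have h4 : t ≤ s := by exact_mod_cast h1
        have h5 : t < r + s := by linarith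
        exact_mod_cast h5
  exact lt_irrefl _ hcontra

end I_CME

open I_CME in
theorem CME_pf (hGRA : S_GRA) (hCLI : S_CLI) : S_CME := by
  intro m c φ ψ ν h0 h1 h2 h3 i j
  have h0' : ((0 : ℚ) : WithTop ℚ) < ww m (ψ - jj m φ) := h0
  by_cases hdet : IsUnit (Rot.gm (dd m) (cP c ψ)).det
  · set A : Matrix (Fin (m + 1)) (Fin (m + 1)) (K0 m) :=
      Matrix.of fun i j => ∑ a, u c φ i a * u c φ j a with hA
    have hAdet : A.det ≠ 0 := by
      refine (hGRA (K0 m) (m + 1) (u c φ) ν ((hCLI m c).2 φ) ?_ h3).1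
      intro i
      refine Fin.cases ?_ (fun i => ?_) i
      · exact h1
      · exact h2 i
    set G : Matrix (Fin (m + 1)) (Fin (m + 1)) (KK m) :=
      Matrix.of fun i j => ∑ a, w c ψ i a * w c ψ j a with hG
    have hgm : ∀ i j, Rot.gm (dd m) (cP c ψ) i j = rp m 2 * G i j := by
      intro i j
      show ∑ a, dd m i (cP c ψ a) * dd m j (cP c ψ a) = rp m 2 * ∑ a, w c ψ i a * w c ψ j a
      rw [Finset.mul_sum]
      refine Finset.sum_congr rfl fun a _ => ?_
      rw [w_mul, w_mul]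
      have : rp m 2 = rp m 1 * rp m 1 := by
        rw [rp_mul]
        norm_num
      rw [this]
      ring
    have hGA : ∀ i j, ((0 : ℚ) : WithTop ℚ) < ww m (G i j - jj m (A i j)) := by
      intro i j
      show _ < ww m (∑ a, w c ψ i a * w c ψ j a - jj m (∑ a, u c φ i a * u c φ j a))
      rw [map_sum, ← Finset.sum_sub_distrib]
      refine ww_sum_lt WithTop.coe_ne_top fun a _ => ?_
      rw [map_mul]
      exact mul_sub_mul (w_sub c φ ψ h0' i a) (w_sub c φ ψ h0' j a) (le_ww_jj _) (le_ww_jj _)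
    set H : Matrix (Fin (m + 1)) (Fin (m + 1)) (KK m) :=
      Matrix.of fun i j => rp m 2 * (Rot.gm (dd m) (cP c ψ))⁻¹ i j with hH
    have hGH : G * H = 1 := by
      have hmul := Matrix.mul_nonsing_inv _ hdet
      refine Matrix.ext fun i j => ?_
      rw [← hmul, Matrix.mul_apply, Matrix.mul_apply]
      refine Finset.sum_congr rfl fun l _ => ?_
      rw [hgm]
      show G i l * (rp m 2 * (Rot.gm (dd m) (cP c ψ))⁻¹ l j) = _
      ring
    have hnn := inv_nonneg A G H (isUnit_iff_ne_zero.mpr hAdet) hGA hGH i j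
    have hr : (Rot.gm (dd m) (cP c ψ))⁻¹ i j = rp m (-2) * H i j := by
      show _ = rp m (-2) * (rp m 2 * (Rot.gm (dd m) (cP c ψ))⁻¹ i j)
      rw [← mul_assoc, rp_mul, neg_add_cancel, rp_zero, one_mul]
    rw [hr, ww_mul, ww_rp]
    refine pos_add ?_ hnn
    have : (0 : ℚ) < - -2 := by norm_num
    exact_mod_cast this
  · rw [Matrix.nonsing_inv_apply_not_isUnit _ hdet]
    show 0 < ww m 0
    rw [ww_zero]
    exact WithTop.coe_lt_top (0 : ℚ)

end Pool.Agent.Work.MP_157c12_gt.AN
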