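import Pool.Agent.Work.MP_157c12_gt.AN.Stmts
import Pool.Agent.Work.MP_157c12_gt.Rot.Final

/-!
# The equation of finite type in coordinates at a generic point
-/

set_option autoImplicit false

open MvPolynomial

namespace Pool.Agent.Work.MP_157c12_gt.AN

open Pool.Agent.Work.MP_157c12_gt
open Pool.Agent.Work.MP_157c12_gt.Rot (nb lapC lapD Hyp PatchN FTn)

namespace I_FTK

/-- chain rule -/
theorem chain {K : Type} [Field K] [Algebra ℝ K] {m : ℕ} (D : Derivation ℝ K K) (x : Fin m → K)
    (P : MvPolynomial (Fin m) ℝ) : D (aeval x P) = ∑ a, aeval x (pderiv a P) * D (x a) := by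
  induction P using MvPolynomial.induction_on with
  | C r =>
    rw [algHom_C, Derivation.map_algebraMap]
    simp
  | add p q hp hq =>
    rw [map_add, map_add, hp, hq, ← Finset.sum_add_distrib]
    refine Finset.sum_congr rfl fun a _ => ?_
    rw [map_add, map_add]
    ring
  | mul_X p i hp =>
    rw [map_mul, aeval_X, Derivation.leibniz, hp, smul_eq_mul, smul_eq_mul, Finset.mul_sum]
    have h1 : ∀ a, aeval x (pderiv a (p * X i)) * D (x a) =
        x i * (aeval x (pderiv a p) * D (x a)) + (if i = a then aeval x p * D (x i) else 0) := by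
      intro a
      rw [Derivation.leibniz, pderiv_X, smul_eq_mul, smul_eq_mul, map_add, map_mul, map_mul,
        aeval_X]
      by_cases h : i = a
      · subst h
        rw [Pi.single_eq_same, map_one, if_pos rfl]
        ring
      · rw [Pi.single_eq_of_ne h, map_zero, if_neg h]
        ring
    rw [Finset.sum_congr rfl fun a _ => h1 a, Finset.sum_add_distrib, Finset.sum_ite_eq,
      if_pos (Finset.mem_univ _)]
    ring

end I_FTK

open I_FTK

theorem FTK_pf (h1 : S_GEN) (h2 : S_GRA) : S_FTK := by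
  intro n k al P hG K _ _ _ d x hcomm hli hP
  have hq : aeval x (gq P) ≠ 0 := by
    intro h
    exact hG.nd (h1 ℝ K n d x P (gq P) hli hG.irr hP h)
  have horth : ∀ i, ∑ a, aeval x (pderiv a P) * d i (x a) = 0 := by
    intro i
    rw [← chain (d i) x P, hP, map_zero]
  have hsum : ∑ a, (aeval x (pderiv a P)) ^ 2 = aeval x (gq P) := by
    rw [gq, map_sum]
    refine Finset.sum_congr rfl fun a _ => ?_
    rw [map_pow]
  have hsum0 : ∑ a, (aeval x (pderiv a P)) ^ 2 ≠ 0 := by
    rw [hsum]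
    exact hq
  obtain ⟨hdet, hid⟩ := h2 K n (fun i a => d i (x a)) (fun a => aeval x (pderiv a P)) hli horth
    hsum0
  have hdet' : (Rot.gm d x).det ≠ 0 := hdet
  refine ⟨hdet', fun W hW a => ?_⟩
  have hGi : Rot.gm d x * (Rot.gm d x)⁻¹ = 1 := by
    apply Matrix.mul_nonsing_inv
    exact isUnit_iff_ne_zero.mpr hdet'
  obtain ⟨s, hs⟩ := IsAlgClosed.exists_pow_nat_eq (aeval x (gq P)) (n := 2) (by norm_num)
  have hs0 : s ≠ 0 := by
    intro h
    rw [h] at hs
    exact hq (by rw [← hs]; ring)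
  have hN : ∑ a, (aeval x (pderiv a P) / s) ^ 2 = 1 := by
    have : ∀ a, (aeval x (pderiv a P) / s) ^ 2 = (aeval x (pderiv a P)) ^ 2 / s ^ 2 := by
      intro a
      rw [div_pow]
    rw [Finset.sum_congr rfl fun a _ => this a, ← Finset.sum_div, hsum, hs, div_self hq]
  have hNN : ∀ a b, aeval x (pderiv a P) / s * (aeval x (pderiv b P) / s) =
      (if a = b then 1 else 0) - nb d x (Rot.gm d x)⁻¹ a (x b) := by
    intro a b
    have h3 : nb d x (Rot.gm d x)⁻¹ a (x b) =
        ∑ i, ∑ j, (Rot.gm d x)⁻¹ i j * d i (x a) * d j (x b) := by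
      rw [nb, Rot.HYaux.HY_sum]
      refine Finset.sum_congr rfl fun i _ => ?_
      rw [Rot.HYaux.HY_sum]
      refine Finset.sum_congr rfl fun j _ => ?_
      rw [Derivation.smul_apply, smul_eq_mul]
    have h4 : ∑ i, ∑ j, (Rot.gm d x)⁻¹ i j * d i (x a) * d j (x b) =
        (if a = b then 1 else 0) -
          aeval x (pderiv a P) * aeval x (pderiv b P) / ∑ c, (aeval x (pderiv c P)) ^ 2 := hid a b
    rw [h3, h4, hsum, ← hs]
    field_simp
    ring
  have hyp := (Rot.pr_HY K n (n + 1) d x (fun a => aeval x (pderiv a P) / s) (Rot.gm d x)⁻¹ hcomm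
    hGi hN hNN).1
  have hft := hG.ft K (nb d x (Rot.gm d x)⁻¹) x _ hyp hP hq a
  have hW0 : W ≠ 0 := by
    intro h
    rw [h] at hW
    exact hdet' (by rw [← hW]; ring)
  have hL : lapD (nb d x (Rot.gm d x)⁻¹) = lapC d (Rot.gm d x)⁻¹ W W⁻¹ := by
    funext f
    exact Rot.pLD K n (n + 1) d x (Rot.gm d x)⁻¹ W W⁻¹ hcomm hGi hW (mul_inv_cancel₀ hW0) f
  rw [← hL]
  exact hft

end Pool.Agent.Work.MP_157c12_gt.AN
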