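import Pool.Agent.Work.MP_157c12_gt.AN.Stmts

/-!
# Laplace operator and gradient of a restriction
-/

set_option autoImplicit false

open MvPolynomial

namespace Pool.Agent.Work.MP_157c12_gt.AN

open Pool.Agent.Work.MP_157c12_gt
open Pool.Agent.Work.MP_157c12_gt.Rot (nb lapC lapD Hyp PatchN FTn)

namespace I_LPR

variable {R : Type} [CommRing R] [Algebra ℝ R] {n : ℕ}

/-- chain rule -/
lemma chain (D : Derivation ℝ R R) (x : Fin n → R) (W : MvPolynomial (Fin n) ℝ) :
    D (aeval x W) = ∑ b, aeval x (pderiv b W) * D (x b) := by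
  induction W using MvPolynomial.induction_on with
  | C r =>
    rw [MvPolynomial.algHom_C]
    simp
  | add p q hp hq =>
    rw [map_add, map_add, hp, hq, ← Finset.sum_add_distrib]
    refine Finset.sum_congr rfl fun b _ => ?_
    rw [map_add, map_add, add_mul]
  | mul_X p i hp =>
    rw [map_mul, aeval_X, Derivation.leibniz, hp]
    simp only [smul_eq_mul]
    have h1 : ∀ b, aeval x (pderiv b (p * X i)) * D (x b) =
        (if i = b then aeval x p * D (x b) else 0) + x i * (aeval x (pderiv b p) * D (x b)) := by
      intro b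
      rw [Derivation.leibniz, pderiv_X, smul_eq_mul, smul_eq_mul, map_add, map_mul, map_mul,
        aeval_X]
      by_cases hb : i = b
      · subst hb
        simp
        ring
      · rw [if_neg hb, Pi.single_eq_of_ne hb]
        simp
        ring
    rw [Finset.sum_congr rfl fun b _ => h1 b, Finset.sum_add_distrib, Finset.sum_ite_eq,
      if_pos (Finset.mem_univ i), ← Finset.mul_sum]

/-- normal derivative of a polynomial -/
noncomputable def S (x N : Fin n → R) (W : MvPolynomial (Fin n) ℝ) : R := ∑ b, N b * aeval x (pderiv b W)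

/-- Hessian on the normal -/
noncomputable def Q (x N : Fin n → R) (W : MvPolynomial (Fin n) ℝ) : R :=
  ∑ a, ∑ b, N a * N b * aeval x (pderiv a (pderiv b W))

lemma dW {D : Fin n → Derivation ℝ R R} {x N : Fin n → R} (h : Hyp D x N)
    (W : MvPolynomial (Fin n) ℝ) (a : Fin n) :
    D a (aeval x W) = aeval x (pderiv a W) - N a * S x N W := by
  rw [chain, S, Finset.mul_sum]
  have h1 : ∀ b, aeval x (pderiv b W) * D a (x b) =
      (if a = b then aeval x (pderiv b W) else 0) - N a * (N b * aeval x (pderiv b W)) := by
    intro b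
    rw [h.dx]
    by_cases hb : a = b
    · rw [if_pos hb, if_pos hb]
      ring
    · rw [if_neg hb, if_neg hb]
      ring
  rw [Finset.sum_congr rfl fun b _ => h1 b, Finset.sum_sub_distrib, Finset.sum_ite_eq,
    if_pos (Finset.mem_univ a)]

lemma lapW {D : Fin n → Derivation ℝ R R} {x N : Fin n → R} (h : Hyp D x N)
    (W : MvPolynomial (Fin n) ℝ) :
    lapD D (aeval x W) = aeval x (lp W) - Q x N W - S x N W * ∑ a, D a (N a) := by
  have h1 : ∀ a, D a (D a (aeval x W)) =
      aeval x (pderiv a (pderiv a W)) - (∑ b, N b * N a * aeval x (pderiv b (pderiv a W)))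
        - N a * D a (S x N W) - S x N W * D a (N a) := by
    intro a
    rw [dW h W a, map_sub, dW h (pderiv a W) a, Derivation.leibniz, smul_eq_mul, smul_eq_mul]
    have h2 : N a * S x N (pderiv a W) = ∑ b, N b * N a * aeval x (pderiv b (pderiv a W)) := by
      rw [S, Finset.mul_sum]
      refine Finset.sum_congr rfl fun b _ => ?_
      ring
    rw [h2]
    ring
  rw [lapD, Finset.sum_congr rfl fun a _ => h1 a, Finset.sum_sub_distrib, Finset.sum_sub_distrib,
    Finset.sum_sub_distrib, h.tan, ← Finset.mul_sum, Finset.sum_comm, lp, map_sum, Q]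
  ring

end I_LPR

open I_LPR in
theorem LPR_pf : S_LPR := by
  intro R _ _ n D x N P h hP
  -- the normal is proportional to the gradient
  have hp : ∀ a, aeval x (pderiv a P) = N a * S x N P := by
    intro a
    have h1 := dW h P a
    rw [hP, map_zero] at h1
    exact (sub_eq_zero.mp h1.symm)
  have hq : aeval x (gq P) = S x N P ^ 2 := by
    rw [gq, map_sum]
    have h1 : ∀ a, aeval x (pderiv a P ^ 2) = N a ^ 2 * S x N P ^ 2 := by
      intro a
      rw [map_pow, hp a]
      ring
    rw [Finset.sum_congr rfl fun a _ => h1 a, ← Finset.sum_mul, h.norm, one_mul]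
  have hg : ∀ W, aeval x (gi P W) = S x N P * S x N W := by
    intro W
    rw [gi, map_sum]
    have h1 : ∀ a, aeval x (pderiv a P * pderiv a W) =
        S x N P * (N a * aeval x (pderiv a W)) := by
      intro a
      rw [map_mul, hp a]
      ring
    rw [Finset.sum_congr rfl fun a _ => h1 a, ← Finset.mul_sum]
    rfl
  have hh : ∀ W, aeval x (hs P W) = S x N P ^ 2 * Q x N W := by
    intro W
    rw [hs, map_sum, Q, Finset.mul_sum]
    refine Finset.sum_congr rfl fun a _ => ?_
    rw [map_sum, Finset.mul_sum]
    refine Finset.sum_congr rfl fun b _ => ?_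
    rw [map_mul, map_mul, hp a, hp b]
    ring
  have h0 : aeval x (lp P) - Q x N P = S x N P * ∑ a, D a (N a) := by
    have h1 := lapW h P
    rw [hP] at h1
    have h2 : lapD D (0 : R) = 0 := by
      rw [lapD]
      simp
    rw [h2] at h1
    exact sub_eq_zero.mp h1.symm
  constructor
  · intro W
    rw [LW, map_sub, map_mul, map_sub, map_mul, map_mul, map_sub, map_mul, hq, hg, hh, hh,
      lapW h W]
    linear_combination (S x N P ^ 3 * S x N W) * h0
  · intro V W
    rw [map_sub, map_mul, map_mul, hq, hg, hg]
    have h1 : ∑ a, D a (aeval x V) * D a (aeval x W) =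
        aeval x (gi V W) - S x N V * S x N W := by
      have h2 : ∀ a, D a (aeval x V) * D a (aeval x W) =
          aeval x (pderiv a V * pderiv a W) - S x N W * (N a * aeval x (pderiv a V))
            - S x N V * (N a * aeval x (pderiv a W)) + N a ^ 2 * (S x N V * S x N W) := by
        intro a
        rw [dW h V a, dW h W a, map_mul]
        ring
      rw [Finset.sum_congr rfl fun a _ => h2 a, Finset.sum_add_distrib, Finset.sum_sub_distrib,
        Finset.sum_sub_distrib, ← Finset.mul_sum, ← Finset.mul_sum, ← Finset.sum_mul, h.norm,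
        gi, map_sum]
      change _ - S x N W * S x N V - S x N V * S x N W + _ = _
      ring
    rw [h1]
    ring

end Pool.Agent.Work.MP_157c12_gt.AN
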