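import Pool.Agent.Work.MP_157c12_gt.AN.Stmts

/-!
# Item NEP: the constant of the neutral case
-/

set_option autoImplicit false

open MvPolynomial

namespace Pool.Agent.Work.MP_157c12_gt.AN

open Pool.Agent.Work.MP_157c12_gt
open Pool.Agent.Work.MP_157c12_gt.Rot (nb lapC lapD Hyp PatchN FTn)

namespace I_NEP

variable {m : ℕ}

/-- values of products, strict form -/
lemma lt_mul {f g : KK m} {s t : ℚ} (hf : (s : WithTop ℚ) ≤ ww m f)
    (hg : (t : WithTop ℚ) < ww m g) : ((s + t : ℚ) : WithTop ℚ) < ww m (f * g) := by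
  rw [ww_mul]
  rcases ww_cases f with rfl | ⟨a, ha⟩
  · rw [ww_zero, top_add]
    exact WithTop.coe_lt_top _
  rcases ww_cases g with rfl | ⟨b, hb⟩
  · rw [ww_zero, add_top]
    exact WithTop.coe_lt_top _
  rw [ha] at hf ⊢
  rw [hb] at hg ⊢
  have h1 : s ≤ a := by exact_mod_cast hf
  have h2 : t < b := by exact_mod_cast hg
  have h3 : s + t < a + b := by linarith
  exact_mod_cast h3

/-- values of products -/
lemma le_mul {f g : KK m} {s t : ℚ} (hf : (s : WithTop ℚ) ≤ ww m f)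
    (hg : (t : WithTop ℚ) ≤ ww m g) : ((s + t : ℚ) : WithTop ℚ) ≤ ww m (f * g) := by
  rw [ww_mul]
  rcases ww_cases f with rfl | ⟨a, ha⟩
  · rw [ww_zero, top_add]
    exact le_top
  rcases ww_cases g with rfl | ⟨b, hb⟩
  · rw [ww_zero, add_top]
    exact le_top
  rw [ha] at hf ⊢
  rw [hb] at hg ⊢
  have h1 : s ≤ a := by exact_mod_cast hf
  have h2 : t ≤ b := by exact_mod_cast hg
  have h3 : s + t ≤ a + b := by linarith
  exact_mod_cast h3

/-- value of the inverse -/
lemma ww_inv {f : KK m} {t : ℚ} (h : ww m f = (t : WithTop ℚ)) :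
    ww m f⁻¹ = ((-t : ℚ) : WithTop ℚ) := by
  have hf : f ≠ 0 := by
    rw [← ww_ne_top, h]
    exact WithTop.coe_ne_top
  have h1 : ww m (f * f⁻¹) = 0 := by rw [mul_inv_cancel₀ hf, ww_one]
  rw [ww_mul, h] at h1
  rcases ww_cases f⁻¹ with h2 | ⟨s, hs⟩
  · exact absurd h2 (inv_ne_zero hf)
  · rw [hs] at h1 ⊢
    have h3 : t + s = 0 := by exact_mod_cast h1
    have h4 : s = -t := by linarith
    rw [h4]

lemma ne_of_ww {f : KK m} {t : ℚ} (h : ww m f = (t : WithTop ℚ)) : f ≠ 0 := by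
  rw [← ww_ne_top, h]
  exact WithTop.coe_ne_top

/-- the operator `Tf` on an element of value `≥ -1` -/
lemma tf_lead {f W : KK m} {a : K0 m} (ha : a ≠ 0) (hE0 : ww m (EE f) = 0)
    (hE : 0 < ww m (EE f - jj m a)) (hW : ww m W = ((-m : ℚ) : WithTop ℚ)) (b : K0 m) (g : KK m)
    (hg : ((-1 : ℚ) : WithTop ℚ) < ww m (g - rp m 1 * jj m b)) :
    ((-1 : ℚ) : WithTop ℚ) < ww m (Tf f W g - rp m 1 * jj m (b * (((m : K0 m) + 1) / a))) := by
  have hE0' : ww m (EE f) = ((0 : ℚ) : WithTop ℚ) := hE0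
  have hEne : EE f ≠ 0 := ne_of_ww hE0'
  have hWne : W ≠ 0 := ne_of_ww hW
  have hja : jj m a ≠ 0 := jj_ne ha
  have hEi : ww m (EE f)⁻¹ = ((-0 : ℚ) : WithTop ℚ) := ww_inv hE0'
  have hjai : ww m (jj m a)⁻¹ = ((-0 : ℚ) : WithTop ℚ) := ww_inv (ww_jj ha)
  have hWi : ww m W⁻¹ = ((-(-m) : ℚ) : WithTop ℚ) := ww_inv hW
  -- the derivative
  have hd : dd m 0 (rp m 1 * jj m b) = rp m 1 * jj m b := by
    rw [Derivation.leibniz, dd_zero_jj, dd_zero_rp, smul_zero, zero_add]
    simp [mul_comm]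
  have h1 : ((-1 : ℚ) : WithTop ℚ) < ww m (dd m 0 g - rp m 1 * jj m b) := by
    have h := lt_ww_dd hg 0
    rwa [map_sub, hd] at h
  have hrj : ∀ c : K0 m, ((-1 : ℚ) : WithTop ℚ) ≤ ww m (rp m 1 * jj m c) := by
    intro c
    have h := le_mul (s := -1) (t := 0) (ww_rp (m := m) 1).ge (le_ww_jj (m := m) c)
    simpa using h
  have hinv : ((0 : ℚ) : WithTop ℚ) < ww m ((EE f)⁻¹ - (jj m a)⁻¹) := by
    have h2 : (EE f)⁻¹ - (jj m a)⁻¹ = (-((EE f)⁻¹ * (jj m a)⁻¹)) * (EE f - jj m a) := by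
      field_simp
      ring
    rw [h2]
    have h3 : ((0 : ℚ) : WithTop ℚ) ≤ ww m (-((EE f)⁻¹ * (jj m a)⁻¹)) := by
      rw [ww_neg]
      have := le_mul hEi.ge hjai.ge
      simpa using this
    have h4 := lt_mul h3 (show ((0 : ℚ) : WithTop ℚ) < ww m (EE f - jj m a) from hE)
    simpa using h4
  -- the element `u`
  have hu : ((-1 : ℚ) : WithTop ℚ) < ww m ((EE f)⁻¹ * dd m 0 g - rp m 1 * jj m (b / a)) := by
    have h2 : (EE f)⁻¹ * dd m 0 g - rp m 1 * jj m (b / a) =
        (EE f)⁻¹ * (dd m 0 g - rp m 1 * jj m b) +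
          (rp m 1 * jj m b) * ((EE f)⁻¹ - (jj m a)⁻¹) := by
      rw [map_div₀]
      field_simp
      ring
    rw [h2]
    refine ww_add_lt ?_ ?_
    · have := lt_mul hEi.ge h1
      simpa using this
    · have := lt_mul (hrj b) hinv
      simpa using this
  set u : KK m := (EE f)⁻¹ * dd m 0 g with hudef
  have hu1 : ((-1 : ℚ) : WithTop ℚ) ≤ ww m u := by
    have h2 : u = (u - rp m 1 * jj m (b / a)) + rp m 1 * jj m (b / a) := by ring
    rw [h2]
    exact ww_add hu.le (hrj _)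
  have hWu : ((-m + -1 : ℚ) : WithTop ℚ) ≤ ww m (W * u) := le_mul hW.ge hu1
  have hl := dd_zero_lead hWu
  have hl2 := lt_mul hWi.ge hl
  have h5 : W⁻¹ * (dd m 0 (W * u) + ((-m + -1 : ℚ) : ℂ) • (W * u)) =
      Tf f W g - ((m : ℂ) + 1) • u := by
    rw [Tf, smul_eq, smul_eq, ← hudef]
    have h6 : algebraMap ℂ (KK m) ((-m + -1 : ℚ) : ℂ) = -algebraMap ℂ (KK m) ((m : ℂ) + 1) := by
      rw [← map_neg]
      congr 1
      push_cast
      ring
    rw [h6]
    field_simp
    ring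
  rw [h5] at hl2
  have hl3 : ((-1 : ℚ) : WithTop ℚ) < ww m (Tf f W g - ((m : ℂ) + 1) • u) := by
    have h7 : (-(-m) + (-m + -1) : ℚ) = -1 := by ring
    rw [h7] at hl2
    exact hl2
  have hl4 : ((-1 : ℚ) : WithTop ℚ) <
      ww m (((m : ℂ) + 1) • (u - rp m 1 * jj m (b / a))) := lt_ww_smul hu _
  have h8 : Tf f W g - rp m 1 * jj m (b * (((m : K0 m) + 1) / a)) =
      (Tf f W g - ((m : ℂ) + 1) • u) + ((m : ℂ) + 1) • (u - rp m 1 * jj m (b / a)) := by
    have h9 : b * (((m : K0 m) + 1) / a) = algebraMap ℂ (K0 m) ((m : ℂ) + 1) * (b / a) := by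
      rw [map_add, map_natCast, map_one]
      ring
    rw [h9, map_mul, jj_algebraMap, smul_sub, smul_eq, smul_eq]
    ring
  rw [h8]
  exact ww_add_lt hl3 hl4

/-- iterates of the operator -/
lemma iter_lead {f W : KK m} {a : K0 m} (ha : a ≠ 0) (hE0 : ww m (EE f) = 0)
    (hE : 0 < ww m (EE f - jj m a)) (hW : ww m W = ((-m : ℚ) : WithTop ℚ))
    (hop : ∀ (t : WithTop ℚ) (g : KK m), t ≤ ww m g → t ≤ ww m (Lf f W g) ∧
      t ≤ ww m (Tf f W g) ∧ t + 1 ≤ ww m (Lf f W g - Tf f W g)) (j : ℕ) :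
    ((-1 : ℚ) : WithTop ℚ) < ww m ((Lf f W)^[j] (rp m 1) -
      rp m 1 * jj m ((((m : K0 m) + 1) / a) ^ j)) := by
  induction j with
  | zero =>
    simp only [Function.iterate_zero, id_eq, pow_zero, map_one, mul_one, sub_self]
    rw [ww_zero]
    exact WithTop.coe_lt_top _
  | succ j ih =>
    rw [Function.iterate_succ_apply', pow_succ]
    set g := (Lf f W)^[j] (rp m 1) with hg
    have h1 := tf_lead ha hE0 hE hW _ g ih
    have hg1 : ((-1 : ℚ) : WithTop ℚ) ≤ ww m g := by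
      have h2 : g = (g - rp m 1 * jj m ((((m : K0 m) + 1) / a) ^ j)) +
          rp m 1 * jj m ((((m : K0 m) + 1) / a) ^ j) := by ring
      rw [h2]
      refine ww_add ih.le ?_
      have h := le_mul (s := -1) (t := 0) (ww_rp (m := m) 1).ge
        (le_ww_jj (m := m) ((((m : K0 m) + 1) / a) ^ j))
      simpa using h
    have h3 := (hop _ g hg1).2.2
    have h4 : ((-1 : ℚ) : WithTop ℚ) < ww m (Lf f W g - Tf f W g) := by
      refine lt_of_lt_of_le ?_ h3
      have h5 : (-1 : ℚ) < -1 + 1 := by norm_num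
      exact_mod_cast h5
    have h6 : Lf f W g - rp m 1 * jj m ((((m : K0 m) + 1) / a) ^ j * (((m : K0 m) + 1) / a)) =
        (Lf f W g - Tf f W g) + (Tf f W g - rp m 1 *
          jj m ((((m : K0 m) + 1) / a) ^ j * (((m : K0 m) + 1) / a))) := by ring
    rw [h6]
    exact ww_add_lt h4 h1

end I_NEP

open I_NEP in
theorem NEP_pf (hNVA : S_NVA) : S_NEP := by
  intro m k al f W κ nd hf
  obtain ⟨hE0, hW, -, -, hop⟩ := hNVA m k al f W κ nd hf
  obtain ⟨a, ha⟩ := exists_lead (f := EE f) (t := 0) hE0.ge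
  have hE : 0 < ww m (EE f - jj m a) := by
    have h : ((0 : ℚ) : WithTop ℚ) < ww m (EE f - rp m (-0) * jj m a) := ha
    rw [neg_zero, rp_zero, one_mul] at h
    exact h
  have hane : a ≠ 0 := by
    rintro rfl
    rw [map_zero, sub_zero, hE0] at hE
    exact lt_irrefl _ hE
  set lam : K0 m := ((m : K0 m) + 1) / a with hlam
  have hm1 : ((m : K0 m) + 1) ≠ 0 := by
    have h : algebraMap ℂ (K0 m) ((m : ℂ) + 1) ≠ 0 := by
      rw [Ne, map_eq_zero]
      exact_mod_cast Nat.succ_ne_zero m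
    rwa [map_add, map_natCast, map_one] at h
  have hlam0 : lam ≠ 0 := div_ne_zero hm1 hane
  have hit := fun j => iter_lead hane hE0 hE hW hop j
  -- the equation for `lam`
  set S : K0 m := ∑ l ∈ Finset.range (k + 1), algebraMap ℂ (K0 m) (al l : ℂ) * lam ^ (k - l)
    with hS
  have hS0 : S = 0 := by
    have h1 : ((-1 : ℚ) : WithTop ℚ) < ww m (pL k al (Lf f W) (rp m 1) - rp m 1 * jj m S) := by
      have h2 : pL k al (Lf f W) (rp m 1) - rp m 1 * jj m S =
          ∑ l ∈ Finset.range (k + 1), (al l : ℂ) • ((Lf f W)^[k - l] (rp m 1) -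
            rp m 1 * jj m (lam ^ (k - l))) := by
        rw [pL, hS, map_sum, Finset.mul_sum, ← Finset.sum_sub_distrib]
        refine Finset.sum_congr rfl fun l _ => ?_
        rw [map_mul, jj_algebraMap, smul_sub, smul_eq, smul_eq]
        have h3 : algebraMap ℝ (KK m) (al l) = algebraMap ℂ (KK m) (al l : ℂ) := rfl
        rw [h3]
        ring
      rw [h2]
      exact ww_sum_lt WithTop.coe_ne_top fun l _ => lt_ww_smul (hit (k - l)) _
    rw [nd.fe, zero_sub, ww_neg, ww_mul, ww_rp] at h1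
    by_contra hne
    rw [ww_jj hne, add_zero] at h1
    exact lt_irrefl _ h1
  -- `lam` is a constant
  have hpoly : ∃ c : ℂ, algebraMap ℂ (K0 m) c = lam := by
    set Q : Polynomial ℂ := ∑ l ∈ Finset.range (k + 1),
      Polynomial.C (al l : ℂ) * Polynomial.X ^ (k - l) with hQ
    have hQ0 : Q ≠ 0 := by
      intro h
      have h1 : Q.coeff k = 1 := by
        rw [hQ, Polynomial.finsetSum_coeff, Finset.sum_eq_single 0]
        · rw [Polynomial.coeff_C_mul, Polynomial.coeff_X_pow, nd.a0]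
          simp
        · intro l hl hl0
          rw [Polynomial.coeff_C_mul, Polynomial.coeff_X_pow, if_neg, mul_zero]
          have := Finset.mem_range.mp hl
          omega
        · intro h2
          exact absurd (Finset.mem_range.mpr (Nat.succ_pos k)) h2
      rw [h, Polynomial.coeff_zero] at h1
      exact zero_ne_one h1
    have hroot : Polynomial.aeval lam Q = 0 := by
      rw [hQ, map_sum, ← hS0, hS]
      refine Finset.sum_congr rfl fun l _ => ?_
      rw [map_mul, map_pow, Polynomial.aeval_C, Polynomial.aeval_X]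
    have hal : IsAlgebraic ℂ lam := ⟨Q, hQ0, hroot⟩
    have hint : IsIntegral ℂ lam := hal.isIntegral
    have hirr := minpoly.irreducible hint
    have hdeg := IsAlgClosed.degree_eq_one_of_irreducible ℂ hirr
    have := minpoly.mem_range_of_degree_eq_one ℂ lam hdeg
    exact this
  obtain ⟨c, hc⟩ := hpoly
  have hc0 : c ≠ 0 := by
    rintro rfl
    rw [map_zero] at hc
    exact hlam0 hc.symm
  have hmc : ((m : ℂ) + 1) ≠ 0 := by exact_mod_cast Nat.succ_ne_zero m
  refine ⟨((m : ℂ) + 1) / c, nd, hf, div_ne_zero hmc hc0, ?_, ?_⟩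
  · have h1 : algebraMap ℂ (K0 m) (((m : ℂ) + 1) / c) = a := by
      rw [map_div₀, hc, hlam, map_add, map_natCast, map_one]
      field_simp
    rw [← jj_algebraMap, h1]
    exact hE
  · have h2 : ((m : ℂ) + 1) / (((m : ℂ) + 1) / c) = c := by
      field_simp
    rw [h2]
    apply (algebraMap ℂ (K0 m)).injective
    rw [map_zero, map_sum, ← hS0, hS]
    refine Finset.sum_congr rfl fun l _ => ?_
    rw [map_mul, map_pow, hc]

end Pool.Agent.Work.MP_157c12_gt.AN
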