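import Pool.Agent.Work.MP_157c12_gt.AN.Stmts

/-!
# Item NGE
-/

set_option autoImplicit false

open MvPolynomial

namespace Pool.Agent.Work.MP_157c12_gt.AN

open Pool.Agent.Work.MP_157c12_gt

theorem NGE_pf (hGEN : S_GEN) (hNME : S_NME) (hBBE : S_BBE) (hQIR : S_QIR) : S_NGE := by
  intro m d W hm hW h0
  obtain ⟨_, hsq, hli⟩ := hNME m 0
  have h1 : aeval (pt (0 : KK m)) W = 0 := by
    rw [(hBBE m d 0 W hW).1, zero_mul, ← Polynomial.coeff_zero_eq_eval_zero,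
      Polynomial.coeff_map, h0, map_zero, mul_zero]
  have h2 : aeval (pt (0 : KK m)) (sq ℂ (m + 2)) = 0 := by
    rw [sq, map_sum]
    simpa [map_pow] using hsq
  exact hGEN ℂ (KK m) (m + 1) (dC m) (pt 0) (sq ℂ (m + 2)) W hli (hQIR m hm) h2 h1

end Pool.Agent.Work.MP_157c12_gt.AN
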