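import Pool.Agent.Work.MP_157c12_gt.AN.Stmts

/-!
# Block [157c12 AN], item TRA: translations do not change the leading form
-/

set_option autoImplicit false

open MvPolynomial

namespace Pool.Agent.Work.MP_157c12_gt.AN

namespace I_TRA

variable {n : ℕ}

lemma deg_eq (s : Fin n →₀ ℕ) : s.degree = s.sum fun _ e => e := rfl

/-- the translation -/
noncomputable def sh (c : Fin n → ℝ) : MvPolynomial (Fin n) ℝ →ₐ[ℝ] MvPolynomial (Fin n) ℝ :=
  aeval (fun a => X a + C (c a))

/-- degree at most `d`, and the translation does not change the coefficients of degree at least `d` -/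
def T (c : Fin n → ℝ) (G : MvPolynomial (Fin n) ℝ) (d : ℕ) : Prop :=
  (∀ s : Fin n →₀ ℕ, d < s.degree → coeff s G = 0) ∧
  (∀ s : Fin n →₀ ℕ, d ≤ s.degree → coeff s (sh c G) = coeff s G)

lemma T_mono {c : Fin n → ℝ} {G : MvPolynomial (Fin n) ℝ} {d e : ℕ} (h : T c G d) (hde : d ≤ e) :
    T c G e :=
  ⟨fun s hs => h.1 s (lt_of_le_of_lt hde hs), fun s hs => h.2 s (le_trans hde hs)⟩

lemma T_sum {ι : Type} {c : Fin n → ℝ} {d : ℕ} (A : Finset ι) (G : ι → MvPolynomial (Fin n) ℝ)
    (h : ∀ i ∈ A, T c (G i) d) : T c (∑ i ∈ A, G i) d := by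
  refine ⟨fun s hs => ?_, fun s hs => ?_⟩
  · rw [coeff_sum]
    exact Finset.sum_eq_zero fun i hi => (h i hi).1 s hs
  · rw [map_sum, coeff_sum, coeff_sum]
    exact Finset.sum_congr rfl fun i hi => (h i hi).2 s hs

lemma T_C (c : Fin n → ℝ) (a : ℝ) : T c (C a) 0 := by
  refine ⟨fun s hs => ?_, fun s _ => ?_⟩
  · rw [coeff_C, if_neg]
    rintro rfl
    simp at hs
  · have : sh c (C a) = C a := by
      exact (sh c).commutes a
    rw [this]

lemma T_mul_X {c : Fin n → ℝ} {G : MvPolynomial (Fin n) ℝ} {d : ℕ} (h : T c G d) (i : Fin n) :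
    T c (G * X i) (d + 1) := by
  classical
  have key : ∀ s : Fin n →₀ ℕ, i ∈ s.support → (s - Finsupp.single i 1).degree + 1 = s.degree := by
    intro s hs
    have h1 : Finsupp.single i 1 ≤ s := by
      rw [Finsupp.single_le_iff]
      exact Nat.one_le_iff_ne_zero.mpr (Finsupp.mem_support_iff.mp hs)
    have h2 : s - Finsupp.single i 1 + Finsupp.single i 1 = s := tsub_add_cancel_of_le h1
    have h3 : (s - Finsupp.single i 1 + Finsupp.single i 1).degree = s.degree := by rw [h2]
    rw [map_add, Finsupp.degree_single] at h3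
    exact h3
  refine ⟨fun s hs => ?_, fun s hs => ?_⟩
  · rw [coeff_mul_X']
    split_ifs with hi
    · refine h.1 _ ?_
      have := key s hi
      omega
    · rfl
  · have h1 : sh c (G * X i) = sh c G * X i + C (c i) * sh c G := by
      rw [map_mul]
      have : sh c (X i) = X i + C (c i) := by
        simp [sh]
      rw [this]
      ring
    rw [h1, coeff_add, coeff_C_mul, h.2 s (by omega), h.1 s (by omega), mul_zero, add_zero,
      coeff_mul_X', coeff_mul_X']
    split_ifs with hi
    · refine h.2 _ ?_
      have := key s hi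
      omega
    · rfl

lemma T_monomial (c : Fin n → ℝ) (N : ℕ) : ∀ (s : Fin n →₀ ℕ) (a : ℝ), s.degree = N →
    T c (monomial s a) N := by
  classical
  induction N with
  | zero =>
    intro s a hs
    have h0 : s = 0 := by
      rwa [Finsupp.degree_eq_zero_iff] at hs
    subst h0
    exact T_C c a
  | succ N ih =>
    intro s a hs
    have hne : s ≠ 0 := by
      rintro rfl
      simp at hs
    obtain ⟨i, hi⟩ := Finsupp.support_nonempty_iff.mpr hne
    have h1 : Finsupp.single i 1 ≤ s := by
      rw [Finsupp.single_le_iff]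
      exact Nat.one_le_iff_ne_zero.mpr (Finsupp.mem_support_iff.mp hi)
    have h2 : s - Finsupp.single i 1 + Finsupp.single i 1 = s := tsub_add_cancel_of_le h1
    have h3 : (s - Finsupp.single i 1).degree = N := by
      have h3 : (s - Finsupp.single i 1 + Finsupp.single i 1).degree = s.degree := by rw [h2]
      rw [map_add, Finsupp.degree_single] at h3
      omega
    have h4 : monomial s a = monomial (s - Finsupp.single i 1) a * (X i : MvPolynomial (Fin n) ℝ) := by
      rw [X, monomial_mul, h2, mul_one]
    rw [h4]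
    exact T_mul_X (ih _ a h3) i

lemma T_self (c : Fin n → ℝ) (F : MvPolynomial (Fin n) ℝ) : T c F F.totalDegree := by
  have h : T c (∑ s ∈ F.support, monomial s (coeff s F)) F.totalDegree := by
    refine T_sum _ _ fun s hs => T_mono (T_monomial c s.degree s _ rfl) ?_
    rw [deg_eq]
    exact le_totalDegree hs
  rwa [support_sum_monomial_coeff] at h

end I_TRA

open I_TRA in
theorem TRA_pf : S_TRA := by
  classical
  intro n F c hF
  have hT := T_self c F
  set d := F.totalDegree with hd
  obtain ⟨s, hs, hsd⟩ : ∃ s ∈ F.support, s.degree = d := by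
    have hne : F.support.Nonempty := by
      rwa [Finset.nonempty_iff_ne_empty, ne_eq, support_eq_empty]
    obtain ⟨s, hs, h⟩ := Finset.exists_mem_eq_sup F.support hne (fun s => s.degree)
    refine ⟨s, hs, ?_⟩
    rw [← h, hd]
    rfl
  have hc : coeff s (sh c F) ≠ 0 := by
    rw [hT.2 s (by omega)]
    exact mem_support_iff.mp hs
  have hne : sh c F ≠ 0 := by
    intro h
    rw [h, coeff_zero] at hc
    exact hc rfl
  have hdeg : (sh c F).totalDegree = d := by
    apply le_antisymm
    · refine Finset.sup_le fun t ht => ?_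
      by_contra hlt
      have ht' : d < t.degree := by
        have h5 := deg_eq t
        omega
      have := hT.2 t ht'.le
      rw [hT.1 t ht'] at this
      exact (mem_support_iff.mp ht) this
    · have := le_totalDegree (mem_support_iff.mpr hc)
      have h5 := deg_eq s
      omega
  refine ⟨hne, ?_⟩
  change tp (sh c F) = tp F
  unfold tp
  rw [hdeg, ← hd]
  ext t
  rw [coeff_homogeneousComponent, coeff_homogeneousComponent]
  split_ifs with h
  · exact hT.2 t h.ge
  · rfl

end Pool.Agent.Work.MP_157c12_gt.AN
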