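import Pool.Agent.Work.MP_157c12_gt.AN.Defs
import Pool.Agent.Work.MP_157c12_gt.ItemB1

/-!
# The field `KK m`: toolbox
-/

set_option autoImplicit false

open MvPolynomial

namespace Pool.Agent.Work.MP_157c12_gt.AN

open Pool.Agent.Work.MP_157c12_gt

variable {m : ℕ}

instance : IsAlgClosed (KK m) := b1 (G1 m)
instance : IsAlgClosed (K0 m) := b1 (G0 m)

/-! ### the coarse valuation -/

lemma ww_apply (f : KK m) : ww m f = (vv (G1 m) f).map (gf m) := rfl

/-- `t ≤ ww f` in terms of coefficients -/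
lemma le_ww {f : KK m} {t : ℚ} : (t : WithTop ℚ) ≤ ww m f ↔ ∀ γ, gf m γ < t → f.coeff γ = 0 := by
  rw [ww_apply]
  constructor
  · intro h γ hγ
    by_contra hne
    have h1 : vv (G1 m) f ≤ γ := by
      rw [vv_eq]
      exact HahnSeries.orderTop_le_of_coeff_ne_zero hne
    have h2 : (vv (G1 m) f).map (gf m) ≤ ((γ : G1 m) : WithTop (G1 m)).map (gf m) :=
      WithTop.monotone_map_iff.mpr (gf_mono m) h1
    have h3 : (t : WithTop ℚ) ≤ ((gf m γ : ℚ) : WithTop ℚ) := h.trans h2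
    exact absurd hγ (not_lt.mpr (by exact_mod_cast h3))
  · intro h
    by_cases hf : f = 0
    · subst hf
      rw [AddValuation.map_zero]
      exact le_top
    · obtain ⟨γ, c, hl⟩ := lead_exists hf
      rw [hl.val]
      show (t : WithTop ℚ) ≤ ((gf m γ : ℚ) : WithTop ℚ)
      have : t ≤ gf m γ := by
        by_contra hlt
        have := h γ (not_le.mp hlt)
        rw [hl.2.1] at this
        exact hl.1 this
      exact_mod_cast this

/-- `t < ww f` in terms of coefficients -/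
lemma lt_ww {f : KK m} {t : ℚ} : (t : WithTop ℚ) < ww m f ↔ ∀ γ, gf m γ ≤ t → f.coeff γ = 0 := by
  rw [ww_apply]
  constructor
  · intro h γ hγ
    by_contra hne
    have h1 : vv (G1 m) f ≤ γ := by
      rw [vv_eq]
      exact HahnSeries.orderTop_le_of_coeff_ne_zero hne
    have h2 : (vv (G1 m) f).map (gf m) ≤ ((γ : G1 m) : WithTop (G1 m)).map (gf m) :=
      WithTop.monotone_map_iff.mpr (gf_mono m) h1
    have h3 : (t : WithTop ℚ) < ((gf m γ : ℚ) : WithTop ℚ) := h.trans_le h2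
    exact absurd hγ (not_le.mpr (by exact_mod_cast h3))
  · intro h
    by_cases hf : f = 0
    · subst hf
      rw [AddValuation.map_zero]
      exact WithTop.coe_lt_top _
    · obtain ⟨γ, c, hl⟩ := lead_exists hf
      rw [hl.val]
      show (t : WithTop ℚ) < ((gf m γ : ℚ) : WithTop ℚ)
      have : t < gf m γ := by
        by_contra hlt
        have := h γ (not_lt.mp hlt)
        rw [hl.2.1] at this
        exact hl.1 this
      exact_mod_cast this

lemma ww_ne_top {f : KK m} : ww m f ≠ ⊤ ↔ f ≠ 0 := by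
  rw [not_iff_not, ← AddValuation.top_iff (v := ww m)]

lemma ww_cases (f : KK m) : f = 0 ∨ ∃ t : ℚ, ww m f = t := by
  by_cases hf : f = 0
  · exact Or.inl hf
  · right
    obtain ⟨t, ht⟩ := WithTop.ne_top_iff_exists.mp (ww_ne_top.mpr hf)
    exact ⟨t, ht.symm⟩

lemma ww_mul (f g : KK m) : ww m (f * g) = ww m f + ww m g := AddValuation.map_mul _ _ _

lemma ww_one : ww m 1 = 0 := AddValuation.map_one _

lemma ww_neg (f : KK m) : ww m (-f) = ww m f := AddValuation.map_neg _ _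

lemma ww_zero : ww m 0 = ⊤ := AddValuation.map_zero _

lemma ww_add {f g : KK m} {t : WithTop ℚ} (hf : t ≤ ww m f) (hg : t ≤ ww m g) : t ≤ ww m (f + g) :=
  AddValuation.map_le_add _ hf hg

lemma ww_add_lt {f g : KK m} {t : WithTop ℚ} (hf : t < ww m f) (hg : t < ww m g) :
    t < ww m (f + g) :=
  AddValuation.map_lt_add _ hf hg

lemma ww_sub {f g : KK m} {t : WithTop ℚ} (hf : t ≤ ww m f) (hg : t ≤ ww m g) : t ≤ ww m (f - g) := by
  rw [sub_eq_add_neg]
  exact ww_add hf (by rwa [ww_neg])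

lemma ww_sub_lt {f g : KK m} {t : WithTop ℚ} (hf : t < ww m f) (hg : t < ww m g) :
    t < ww m (f - g) := by
  rw [sub_eq_add_neg]
  exact ww_add_lt hf (by rwa [ww_neg])

lemma ww_sum {ι : Type} {s : Finset ι} {f : ι → KK m} {t : WithTop ℚ}
    (h : ∀ i ∈ s, t ≤ ww m (f i)) : t ≤ ww m (∑ i ∈ s, f i) := AddValuation.map_le_sum _ h

lemma ww_sum_lt {ι : Type} {s : Finset ι} {f : ι → KK m} {t : WithTop ℚ} (ht : t ≠ ⊤)
    (h : ∀ i ∈ s, t < ww m (f i)) : t < ww m (∑ i ∈ s, f i) := AddValuation.map_lt_sum _ ht h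

/-- the value of a sum with a dominating term -/
lemma ww_add_eq {f g : KK m} (h : ww m f < ww m g) : ww m (f + g) = ww m f :=
  AddValuation.map_add_eq_of_lt_left _ h

/-! ### derivations -/

lemma dd_apply (i : Fin (m + 1)) (f : KK m) : dd m i f = dC m i f := rfl

lemma dd_zero_coeff (f : KK m) (γ : G1 m) : (dd m 0 f).coeff γ = -(gf m γ : ℂ) * f.coeff γ := rfl

lemma dd_succ_coeff (i : Fin m) (f : KK m) (γ : G1 m) :
    (dd m i.succ f).coeff γ = (gs m i γ : ℂ) * f.coeff γ := rfl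

lemma dd_comm (i j : Fin (m + 1)) (f : KK m) : dd m i (dd m j f) = dd m j (dd m i f) := by
  refine Fin.cases ?_ (fun i => ?_) i <;> refine Fin.cases ?_ (fun j => ?_) j
  · rfl
  · exact hd_comm _ _ f
  · exact hd_comm _ _ f
  · exact hd_comm _ _ f

lemma dd_smul (i : Fin (m + 1)) (c : ℂ) (f : KK m) : dd m i (c • f) = c • dd m i f :=
  (dC m i).map_smul c f

lemma dd_C_mul (i : Fin (m + 1)) (c : ℂ) (f : KK m) :
    dd m i (algebraMap ℂ (KK m) c * f) = algebraMap ℂ (KK m) c * dd m i f := by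
  rw [← Algebra.smul_def, ← Algebra.smul_def, dd_smul]

lemma le_ww_dd {f : KK m} {t : ℚ} (h : (t : WithTop ℚ) ≤ ww m f) (i : Fin (m + 1)) :
    (t : WithTop ℚ) ≤ ww m (dd m i f) := by
  rw [le_ww] at h ⊢
  intro γ hγ
  refine Fin.cases ?_ (fun i => ?_) i
  · rw [dd_zero_coeff, h γ hγ, mul_zero]
  · rw [dd_succ_coeff, h γ hγ, mul_zero]

lemma lt_ww_dd {f : KK m} {t : ℚ} (h : (t : WithTop ℚ) < ww m f) (i : Fin (m + 1)) :
    (t : WithTop ℚ) < ww m (dd m i f) := by
  rw [lt_ww] at h ⊢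
  intro γ hγ
  refine Fin.cases ?_ (fun i => ?_) i
  · rw [dd_zero_coeff, h γ hγ, mul_zero]
  · rw [dd_succ_coeff, h γ hγ, mul_zero]

lemma ww_dd (f : KK m) (i : Fin (m + 1)) : ww m f ≤ ww m (dd m i f) := by
  rcases ww_cases f with rfl | ⟨t, ht⟩
  · simp
  · rw [ht]
    exact le_ww_dd ht.ge i

/-- `ρ∂_ρ f ≡ -t f` at the order `t` -/
lemma dd_zero_lead {f : KK m} {t : ℚ} (h : (t : WithTop ℚ) ≤ ww m f) :
    (t : WithTop ℚ) < ww m (dd m 0 f + (t : ℂ) • f) := by
  rw [lt_ww]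
  intro γ hγ
  rw [HahnSeries.coeff_add, dd_zero_coeff, HahnSeries.coeff_smul, smul_eq_mul]
  rcases hγ.lt_or_eq with h1 | h1
  · rw [le_ww.mp h γ h1]
    ring
  · rw [h1]
    ring

/-! ### the coefficients -/

lemma jj_coeff (a : K0 m) (γ : G0 m) : (jj m a).coeff (toLex (0, γ)) = a.coeff γ :=
  HahnSeries.embDomain_coeff (f := ⟨⟨inr0 m, inr0_inj m⟩, inr0_le m _ _⟩) (x := a) (a := γ)

lemma jj_coeff_ne (a : K0 m) {γ : G1 m} (h : gf m γ ≠ 0) : (jj m a).coeff γ = 0 := by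
  refine HahnSeries.embDomain_of_notMem_range (f := ⟨⟨inr0 m, inr0_inj m⟩, inr0_le m _ _⟩) ?_
  rintro ⟨δ, rfl⟩
  exact h rfl

lemma jj_inj : Function.Injective (jj m) := (jj m).toRingHom.injective

lemma jj_ne {a : K0 m} (h : a ≠ 0) : jj m a ≠ 0 := fun h' => h (jj_inj (by rw [h', map_zero]))

lemma le_ww_jj (a : K0 m) : (0 : WithTop ℚ) ≤ ww m (jj m a) := by
  have : ((0 : ℚ) : WithTop ℚ) ≤ ww m (jj m a) := by
    rw [le_ww]
    intro γ hγ
    exact jj_coeff_ne a hγ.ne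
  exact this

lemma ww_jj {a : K0 m} (h : a ≠ 0) : ww m (jj m a) = 0 := by
  refine le_antisymm ?_ (le_ww_jj a)
  by_contra hlt
  have h1 : ((0 : ℚ) : WithTop ℚ) < ww m (jj m a) := not_le.mp hlt
  rw [lt_ww] at h1
  apply h
  ext γ
  have := h1 (toLex (0, γ)) le_rfl
  rw [jj_coeff] at this
  rw [this]
  rfl

/-- a coefficient of positive value is zero -/
lemma jj_eq_zero {a : K0 m} (h : 0 < ww m (jj m a)) : a = 0 := by
  by_contra hne
  rw [ww_jj hne] at h
  exact lt_irrefl _ h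

lemma dd_zero_jj (a : K0 m) : dd m 0 (jj m a) = 0 := by
  ext γ
  rw [dd_zero_coeff]
  by_cases h : gf m γ = 0
  · rw [h]
    simp
  · rw [jj_coeff_ne a h]
    simp

lemma dd_succ_jj (i : Fin m) (a : K0 m) : dd m i.succ (jj m a) = jj m (d0 m i a) := by
  ext γ
  rw [dd_succ_coeff]
  by_cases h : gf m γ = 0
  · have h1 : γ = toLex (0, (ofLex γ).2) := by
      apply ofLex.injective
      exact Prod.ext h rfl
    rw [h1, jj_coeff, jj_coeff]
    rfl
  · rw [jj_coeff_ne a h, jj_coeff_ne _ h, mul_zero]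

lemma jj_algebraMap (c : ℂ) : jj m (algebraMap ℂ (K0 m) c) = algebraMap ℂ (KK m) c :=
  (jj m).commutes c

lemma ww_algebraMap {c : ℂ} (h : c ≠ 0) : ww m (algebraMap ℂ (KK m) c) = 0 := by
  rw [← jj_algebraMap]
  refine ww_jj fun h' => h ?_
  exact (algebraMap ℂ (K0 m)).injective (by rw [h', map_zero])

lemma smul_eq (c : ℂ) (f : KK m) : c • f = algebraMap ℂ (KK m) c * f := Algebra.smul_def c f

lemma le_ww_smul {t : WithTop ℚ} {f : KK m} (h : t ≤ ww m f) (c : ℂ) : t ≤ ww m (c • f) := by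
  rw [smul_eq]
  by_cases hc : c = 0
  · rw [hc, map_zero, zero_mul, ww_zero]
    exact le_top
  · rw [ww_mul, ww_algebraMap hc, zero_add]
    exact h

lemma lt_ww_smul {t : WithTop ℚ} {f : KK m} (h : t < ww m f) (c : ℂ) : t < ww m (c • f) := by
  rw [smul_eq]
  by_cases hc : c = 0
  · rw [hc, map_zero, zero_mul, ww_zero]
    exact h.trans_le le_top
  · rw [ww_mul, ww_algebraMap hc, zero_add]
    exact h

/-- real constants -/
lemma ww_real {r : ℝ} (h : r ≠ 0) : ww m (algebraMap ℝ (KK m) r) = 0 := by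
  have : algebraMap ℝ (KK m) r = algebraMap ℂ (KK m) (r : ℂ) := rfl
  rw [this]
  exact ww_algebraMap (by exact_mod_cast h)

/-! ### monomials -/

lemma rp_ne (t : ℚ) : rp m t ≠ 0 := by
  rw [rp]
  exact HahnSeries.single_ne_zero one_ne_zero

lemma rp_mul (s t : ℚ) : rp m s * rp m t = rp m (s + t) := by
  rw [rp, rp, rp, HahnSeries.single_mul_single, mul_one]
  have : (toLex (-s, (0 : G0 m)) : G1 m) + toLex (-t, 0) = toLex (-(s + t), 0) := by
    apply ofLex.injective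
    refine Prod.ext ?_ ?_
    · show -s + -t = -(s + t)
      ring
    · show (0 : G0 m) + 0 = 0
      rw [add_zero]
  rw [this]

lemma rp_zero : rp m 0 = 1 := by
  rw [rp]
  have : (toLex (-(0 : ℚ), (0 : G0 m)) : G1 m) = 0 := by
    apply ofLex.injective
    exact Prod.ext (by simp) rfl
  rw [this]
  rfl

lemma rp_inv (t : ℚ) : (rp m t)⁻¹ = rp m (-t) := by
  refine inv_eq_of_mul_eq_one_left ?_
  rw [rp_mul, neg_add_cancel, rp_zero]

lemma ww_rp (t : ℚ) : ww m (rp m t) = ((-t : ℚ) : WithTop ℚ) := by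
  rw [ww_apply, rp, (lead_single _ one_ne_zero).val]
  rfl

lemma dd_zero_rp (t : ℚ) : dd m 0 (rp m t) = (t : ℂ) • rp m t := by
  ext γ
  rw [dd_zero_coeff, HahnSeries.coeff_smul, smul_eq_mul, rp]
  by_cases h : γ = toLex (-t, 0)
  · subst h
    show -(((-t : ℚ)) : ℂ) * _ = _
    push_cast
    ring
  · rw [HahnSeries.coeff_single_of_ne h, mul_zero, mul_zero]

lemma dd_succ_rp (i : Fin m) (t : ℚ) : dd m i.succ (rp m t) = 0 := by
  ext γ
  rw [dd_succ_coeff, rp]
  by_cases h : γ = toLex (-t, 0)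
  · subst h
    show (((0 : ℚ)) : ℂ) * _ = _
    simp
  · rw [HahnSeries.coeff_single_of_ne h, mul_zero]
    rfl

lemma ths_ne (i : Fin m) : ths m i ≠ 0 := by
  rw [ths]
  exact HahnSeries.single_ne_zero one_ne_zero

lemma d0_ths (i j : Fin m) : d0 m i (ths m j) = if i = j then ths m j else 0 := by
  rw [d0, ths, hd_single]
  show HahnSeries.single _ ((((Pi.single j 1 : Fin m → ℚ) i : ℚ) : ℂ) * 1) = _
  by_cases h : i = j
  · subst h
    simp
  · rw [if_neg h, Pi.single_eq_of_ne h]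
    simp

lemma d0_comm (i j : Fin m) (a : K0 m) : d0 m i (d0 m j a) = d0 m j (d0 m i a) := hd_comm _ _ a

lemma rt_ne (i : Fin m) : rt m i ≠ 0 := mul_ne_zero (rp_ne 1) (jj_ne (ths_ne i))

lemma ww_rt (i : Fin m) : ww m (rt m i) = ((-1 : ℚ) : WithTop ℚ) := by
  rw [rt, ww_mul, ww_rp, ww_jj (ths_ne i), add_zero]

lemma dd_zero_rt (i : Fin m) : dd m 0 (rt m i) = rt m i := by
  rw [rt, Derivation.leibniz, dd_zero_jj, dd_zero_rp, smul_zero, zero_add]
  simp [mul_comm]

lemma dd_succ_rt (i j : Fin m) : dd m i.succ (rt m j) = if i = j then rt m j else 0 := by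
  rw [rt, Derivation.leibniz, dd_succ_jj, dd_succ_rp, smul_zero, add_zero, d0_ths, smul_eq_mul]
  split_ifs
  · rfl
  · rw [map_zero, mul_zero]

/-- leading coefficient -/
lemma exists_lead {f : KK m} {t : ℚ} (h : (t : WithTop ℚ) ≤ ww m f) :
    ∃ a : K0 m, (t : WithTop ℚ) < ww m (f - rp m (-t) * jj m a) := by
  have hs : (Function.support fun γ : G0 m => f.coeff (toLex (t, γ))).IsPWO := by
    have h1 : (f.support ∩ {γ | gf m γ = t}).IsPWO := f.isPWO_support.mono Set.inter_subset_left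
    have h2 := h1.image_of_monotoneOn (f := fun γ : G1 m => (ofLex γ).2) (by
      intro a ha b hb hab
      rcases (Prod.Lex.le_iff).mp hab with h3 | h3
      · exact absurd (ha.2.trans hb.2.symm) h3.ne
      · exact h3.2)
    refine h2.mono ?_
    intro γ hγ
    exact ⟨toLex (t, γ), ⟨hγ, rfl⟩, rfl⟩
  refine ⟨⟨fun γ => f.coeff (toLex (t, γ)), hs⟩, ?_⟩
  rw [lt_ww]
  intro γ hγ
  rw [HahnSeries.coeff_sub, rp]
  have h3 : (HahnSeries.single (toLex (-(-t), 0) : G1 m) (1 : ℂ) *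
      jj m ⟨fun γ => f.coeff (toLex (t, γ)), hs⟩).coeff γ =
      (jj m ⟨fun γ => f.coeff (toLex (t, γ)), hs⟩).coeff (γ - toLex (t, 0)) := by
    have h4 := HahnSeries.coeff_single_mul_add (r := (1 : ℂ))
      (x := jj m ⟨fun γ => f.coeff (toLex (t, γ)), hs⟩) (a := γ - toLex (t, 0))
      (b := (toLex (-(-t), 0) : G1 m))
    rw [one_mul] at h4
    rw [← h4]
    congr 1
    rw [neg_neg]
    simp
  rw [h3]
  rcases hγ.lt_or_eq with h5 | h5
  · rw [le_ww.mp h γ h5, jj_coeff_ne, sub_zero]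
    rw [map_sub]
    have : gf m (toLex (t, 0)) = t := rfl
    rw [this]
    exact (sub_neg.mpr h5).ne
  · have h6 : γ - toLex (t, 0) = toLex (0, (ofLex γ).2) := by
      apply ofLex.injective
      refine Prod.ext ?_ ?_
      · show gf m γ - t = 0
        rw [h5, sub_self]
      · show (ofLex γ).2 - 0 = _
        rw [sub_zero]
        rfl
    rw [h6, jj_coeff]
    have h7 : γ = toLex (t, (ofLex γ).2) := by
      apply ofLex.injective
      exact Prod.ext h5 rfl
    show f.coeff γ - f.coeff (toLex (t, (ofLex γ).2)) = 0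
    rw [← h7, sub_self]

end Pool.Agent.Work.MP_157c12_gt.AN
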